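import Pool.Agent.Lib.MP_3a4f2f_gt.H39.Rot

/-! The ascending algorithm: Morton's bound and its refinements. -/

set_option autoImplicit false

namespace Pool.Agent.Lib.MP_3a4f2f_gt.H39

open LaurentPolynomial Function

namespace Dg

variable {A Y : Type} {D : Dg A Y} {σ : State Y}

def Gd (D : Dg A Y) (σ : State Y) (b : A) (l : List A) : Prop :=
  ∀ y e, b = D.arc y e → σ y = some e → D.arc y (!e) ∈ l

def Cand (D : Dg A Y) (σ : State Y) : List A → A → A → A → Prop
  | [], _, b, st' => st' = b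
  | a :: _, st, b, st' => (b = D.nxt σ a ∧ st' = st) ∨ (D.nxt σ a = st ∧ st' = b)

/-- A good initial run, latest arc first; `st` is the start of the present component. -/
inductive Pre (D : Dg A Y) (σ : State Y) : List A → A → Prop where
  | nil (st : A) : Pre D σ [] st
  | ext {l : List A} {st b st' : A} : Pre D σ l st → b ∉ l → D.Gd σ b l → D.Cand σ l st b st' →
      Pre D σ (b :: l) st'

lemma Cand.congr {σ' : State Y} {l : List A} {st b st' : A} (h : D.Cand σ l st b st')
    (e : ∀ y e, D.arc y e ∈ l → σ' y = σ y) : D.Cand σ' l st b st' := by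
  cases l with
  | nil => exact h
  | cons a l =>
    have : D.nxt σ' a = D.nxt σ a := nxt_congr fun y e' he => by rw [e y e' (by simp [he])]
    simpa only [Cand, this] using h

lemma Pre.congr {σ' : State Y} {l : List A} {st : A} (h : D.Pre σ l st)
    (e : ∀ y e, D.arc y e ∈ l → σ' y = σ y) : D.Pre σ' l st := by
  induction h with
  | nil st => exact .nil st
  | ext h1 h2 h3 h4 ih =>
    have e' := fun y e' he => e y e' (List.mem_cons_of_mem _ he)
    exact .ext (ih e') h2 (fun y e' a1 a2 => h3 y e' a1 (by rwa [← e y e' (by simp [a1])]))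
      (h4.congr e')

lemma Pre.nodup {l : List A} {st : A} (h : D.Pre σ l st) : l.Nodup := by
  induction h with
  | nil st => exact List.nodup_nil
  | ext h1 h2 h3 h4 ih => exact List.nodup_cons.2 ⟨h2, ih⟩

lemma Pre.img {l : List A} {st : A} (h : D.Pre σ l st) :
    (l ≠ [] → st ∈ l) ∧ ∀ e ∈ l, e = st ∨ ∃ e' ∈ l.tail, D.nxt σ e' = e := by
  induction h with
  | nil st => simp
  | @ext l st b st' h1 h2 h3 h4 ih =>
    cases l with
    | nil => obtain rfl : st' = b := h4; simp
    | cons a l =>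
      have t1 : ∀ e ∈ a :: l, e = st ∨ ∃ e' ∈ a :: l, D.nxt σ e' = e := fun e he =>
        (ih.2 e he).imp id fun ⟨e', a1, a2⟩ => ⟨e', List.mem_cons_of_mem _ a1, a2⟩
      rcases h4 with ⟨rfl, rfl⟩ | ⟨a1, rfl⟩
      · refine ⟨fun _ => List.mem_cons_of_mem _ (ih.1 (by simp)), fun e he => ?_⟩
        rcases List.mem_cons.1 he with rfl | he
        · exact Or.inr ⟨a, by simp, rfl⟩
        · exact t1 e he
      · refine ⟨fun _ => by simp, fun e he => ?_⟩
        rcases List.mem_cons.1 he with rfl | he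
        · exact Or.inl rfl
        · rcases t1 e he with rfl | h5
          · exact Or.inr ⟨a, by simp, a1⟩
          · exact Or.inr h5

lemma Pre.close {l : List A} {a st : A} (h : D.Pre σ (a :: l) st) (ha : D.nxt σ a ∈ a :: l) :
    D.nxt σ a = st := by
  rcases h.img.2 _ ha with h1 | ⟨e, h1, h2⟩
  · exact h1
  · exact absurd (D.nxt_inj σ h2 ▸ h1) (List.nodup_cons.1 h.nodup).1

lemma Pre.cand {l : List A} {st : A} (h : D.Pre σ l st) {b0 : A} (hb : b0 ∉ l) :
    ∃ b st', b ∉ l ∧ D.Cand σ l st b st' := by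
  cases l with
  | nil => exact ⟨b0, b0, hb, rfl⟩
  | cons a l =>
    by_cases h1 : D.nxt σ a ∈ a :: l
    · exact ⟨b0, b0, hb, Or.inr ⟨h.close h1, rfl⟩⟩
    · exact ⟨_, st, h1, Or.inl ⟨rfl, rfl⟩⟩

section time

variable [DecidableEq A]

def tm (l : List A) (e : A) : ℕ := l.reverse.idxOf e

lemma tm_lt {l : List A} {e : A} (h : e ∈ l) : tm l e < l.length := by
  rw [tm, ← List.length_reverse]; exact List.idxOf_lt_length_of_mem (by simpa using h)

lemma tm_mem {l : List A} {e : A} (h : e ∈ l) (b : A) : tm (b :: l) e = tm l e := by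
  rw [tm, tm, List.reverse_cons, List.idxOf_append_of_mem (by simpa using h)]

lemma tm_new {l : List A} {b : A} (h : b ∉ l) : tm (b :: l) b = l.length := by
  rw [tm, List.reverse_cons, List.idxOf_append_of_notMem (by simpa using h)]; simp

lemma tm_suffix {l l' : List A} (h : l <:+ l') {e : A} (he : e ∈ l) : tm l' e = tm l e := by
  obtain ⟨p, rfl⟩ := h
  induction p with
  | nil => rfl
  | cons b p ih => rw [List.cons_append, tm_mem (by simp [he]), ih]

lemma Pre.time {l : List A} {st : A} (h : D.Pre σ l st) :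
    (∀ c ∈ l.tail, D.nxt σ c ∈ l ∧ (tm l (D.nxt σ c) = tm l c + 1 ∨ (tm l (D.nxt σ c) ≤ tm l c ∧
      ∀ e ∈ l, tm l (D.nxt σ c) ≤ tm l e → tm l e < tm l c → tm l (D.nxt σ e) = tm l e + 1))) ∧
    (∀ e ∈ l.tail, tm l st ≤ tm l e → tm l (D.nxt σ e) = tm l e + 1) ∧
    ∀ y b, σ y = some b → D.arc y b ∈ l → D.arc y (!b) ∈ l ∧
      tm l (D.arc y (!b)) < tm l (D.arc y b) := by
  induction h with
  | nil st => simp
  | @ext l st b st' h1 h2 h3 h4 ih =>
    have asc : ∀ y β, σ y = some β → D.arc y β ∈ b :: l → D.arc y (!β) ∈ b :: l ∧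
        tm (b :: l) (D.arc y (!β)) < tm (b :: l) (D.arc y β) := by
      intro y β a1 a2
      rcases List.mem_cons.1 a2 with a3 | a3
      · have a4 := h3 y β a3.symm a1
        rw [a3, tm_new h2, tm_mem a4]
        exact ⟨List.mem_cons_of_mem _ a4, tm_lt a4⟩
      · have a4 := ih.2.2 y β a1 a3
        rw [tm_mem a3, tm_mem a4.1]
        exact ⟨List.mem_cons_of_mem _ a4.1, a4.2⟩
    cases l with
    | nil => exact ⟨by simp, by simp, asc⟩
    | cons a l =>
    simp only [List.tail_cons] at ih ⊢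
    have na := (List.nodup_cons.1 h1.nodup).1
    have ta := tm_new na
    have tb := tm_new h2
    have hst : st ∈ a :: l := h1.img.1 (by simp)
    have am : a ∈ a :: l := by simp
    have lt : ∀ e ∈ b :: a :: l, tm (b :: a :: l) e < l.length → e ∈ l := fun e he a1 => by
      rcases List.mem_cons.1 he with rfl | he
      · rw [tb] at a1; simp at a1
      · rcases List.mem_cons.1 he with rfl | he
        · rw [tm_mem am, ta] at a1; omega
        · exact he
    have old : ∀ c ∈ l, D.nxt σ c ∈ b :: a :: l ∧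
        (tm (b :: a :: l) (D.nxt σ c) = tm (b :: a :: l) c + 1 ∨
        (tm (b :: a :: l) (D.nxt σ c) ≤ tm (b :: a :: l) c ∧ ∀ e ∈ b :: a :: l,
          tm (b :: a :: l) (D.nxt σ c) ≤ tm (b :: a :: l) e →
          tm (b :: a :: l) e < tm (b :: a :: l) c →
          tm (b :: a :: l) (D.nxt σ e) = tm (b :: a :: l) e + 1)) := fun c hc => by
      obtain ⟨a1, a2⟩ := ih.1 c hc
      have hc' := List.mem_cons_of_mem a hc
      rw [tm_mem a1, tm_mem hc']
      refine ⟨List.mem_cons_of_mem _ a1, a2.imp id fun a3 => ⟨a3.1, fun e he a4 a5 => ?_⟩⟩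
      have a6 := tm_mem hc a
      have a7 := lt e he (by have := tm_lt hc; omega)
      have a8 := List.mem_cons_of_mem a a7
      rw [tm_mem a8] at a4 a5 ⊢
      rw [tm_mem (ih.1 e a7).1]
      exact a3.2 e a8 a4 a5
    have run : ∀ e ∈ l, tm (a :: l) st ≤ tm (b :: a :: l) e →
        tm (b :: a :: l) (D.nxt σ e) = tm (b :: a :: l) e + 1 := fun e he a1 => by
      rw [tm_mem (List.mem_cons_of_mem a he)] at a1 ⊢
      rw [tm_mem (ih.1 e he).1]
      exact ih.2.1 e he a1
    rcases h4 with ⟨rfl, rfl⟩ | ⟨a1, rfl⟩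
    · have a1 : tm (D.nxt σ a :: a :: l) (D.nxt σ a) = tm (D.nxt σ a :: a :: l) a + 1 := by
        rw [tb, tm_mem am, ta]; rfl
      refine ⟨fun c hc => ?_, fun e he a2 => ?_, asc⟩
      · rcases List.mem_cons.1 hc with rfl | hc
        · exact ⟨by simp, Or.inl a1⟩
        · exact old c hc
      · rcases List.mem_cons.1 he with rfl | he
        · exact a1
        · exact run e he (by rwa [tm_mem hst] at a2)
    · refine ⟨fun c hc => ?_, fun e he a2 => ?_, asc⟩
      · rcases List.mem_cons.1 hc with rfl | hc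
        · rw [a1, tm_mem hst, tm_mem am, ta]
          refine ⟨List.mem_cons_of_mem _ hst, Or.inr ⟨?_, fun e he a2 a3 => run e (lt e he a3) a2⟩⟩
          have := tm_lt hst
          simp only [List.length_cons] at this; omega
        · exact old c hc
      · rw [tb, tm_mem he] at a2
        have := tm_lt he; omega

lemma Pre.fin {l : List A} {st : A} (h : D.Pre σ l st) (hl : ∀ e, e ∈ l) :
    D.Trav σ (tm l) ∧ D.Asc σ (tm l) := by
  have ht := h.time
  refine ⟨⟨fun e e' he => ?_, fun c => ?_⟩, fun y b hb => (ht.2.2 y b hb (hl _)).2⟩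
  · exact (List.idxOf_inj (by simpa using hl e)).1 he
  · cases l with
    | nil => simpa using hl c
    | cons a l =>
      rcases List.mem_cons.1 (hl c) with rfl | hc
      · have na := (List.nodup_cons.1 h.nodup).1
        rw [h.close (hl _), tm_new na]
        refine Or.inr ⟨by have := tm_lt (hl st); simp only [List.length_cons] at this; omega,
          fun e a1 a2 => ht.2.1 e ?_ a1⟩
        rcases List.mem_cons.1 (hl e) with rfl | he
        · rw [tm_new na] at a2; omega
        · exact he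
      · exact (ht.1 c hc).2.imp id fun a => ⟨a.1, fun e => a.2 e (hl e)⟩

end time

variable [DecidableEq Y]

lemma Pre.branch {l : List A} {st b st' : A} (h : D.Pre σ l st) (hb : b ∉ l)
    (hc : D.Cand σ l st b st') : D.Pre σ (b :: l) st' ∨ ∃ y e, b = D.arc y e ∧ σ y = some e ∧
      (∀ e', D.arc y e' ∉ l) ∧ D.Pre (update σ y (some (!e))) (b :: l) st' ∧
      D.Pre (update σ y none) (b :: l) st' := by
  by_cases hg : D.Gd σ b l
  · exact Or.inl (.ext h hb hg hc)
  simp only [Gd, not_forall] at hg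
  obtain ⟨y, e, rfl, h1, h2⟩ := hg
  have h3 : ∀ e', D.arc y e' ∉ l := fun e' => by cases e <;> cases e' <;> assumption
  have h4 : ∀ r y' e', D.arc y' e' ∈ l → update σ y r y' = σ y' := fun r y' e' he =>
    update_of_ne (show y' ≠ y from fun h' => h3 e' (h' ▸ he)) _ _
  refine Or.inr ⟨y, e, rfl, h1, h3, .ext (h.congr (h4 _)) hb ?_ (hc.congr (h4 _)),
    .ext (h.congr (h4 _)) hb ?_ (hc.congr (h4 _))⟩
  all_goals
    intro y' e' a1 a2
    obtain ⟨rfl, rfl⟩ := D.inj _ _ _ _ a1
    simp at a2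

variable [Fintype A] [DecidableEq A]

theorem drive (Φ : State Y → Prop) {l0 : List A} {st0 : A}
    (hsk : ∀ σ' y b, σ' y = some b → (∀ e, D.arc y e ∉ l0) → Φ (update σ' y (some (!b))) →
      Φ (update σ' y none) → Φ σ')
    (hfin : ∀ σ' t, D.Trav σ' t → D.Asc σ' t → (∀ y e, D.arc y e ∈ l0 → σ' y = σ y) →
      (∀ e ∈ l0, t e = tm l0 e) → Φ σ')
    (h : D.Pre σ l0 st0) : Φ σ := by
  suffices H : ∀ n σ' l st, l.length + n = Fintype.card A → D.Pre σ' l st → l0 <:+ l →
      (∀ y e, D.arc y e ∈ l0 → σ' y = σ y) → Φ σ' from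
    H (Fintype.card A - l0.length) σ l0 st0 (by have := h.nodup.length_le_card; omega) h
      List.suffix_rfl fun _ _ _ => rfl
  intro n
  induction n with
  | zero =>
    intro σ' l st h1 h2 h3 h4
    have hl : ∀ e, e ∈ l := fun e => by
      by_contra he
      have := (List.nodup_cons.2 ⟨he, h2.nodup⟩).length_le_card
      simp only [List.length_cons] at this; omega
    exact hfin σ' _ (h2.fin hl).1 (h2.fin hl).2 h4 fun e he => tm_suffix h3 he
  | succ n ih =>
    intro σ' l st h1 h2 h3 h4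
    obtain ⟨b0, hb0⟩ : ∃ b0, b0 ∉ l := by
      by_contra hc
      push Not at hc
      have := Finset.card_le_card (show (Finset.univ : Finset A) ⊆ l.toFinset from
        fun e _ => by simpa using hc e)
      have := l.toFinset_card_le
      simp only [Finset.card_univ] at *; omega
    obtain ⟨b, st', a1, a2⟩ := h2.cand hb0
    have a3 : (b :: l).length + n = Fintype.card A := by simp only [List.length_cons]; omega
    have a4 : l0 <:+ b :: l := h3.trans (List.suffix_cons b l)
    rcases h2.branch a1 a2 with a5 | ⟨y, e, -, a5, a6, a7, a8⟩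
    · exact ih σ' _ _ a3 a5 a4 h4
    · have a9 : ∀ e, D.arc y e ∉ l0 := fun e he => a6 e (h3.subset he)
      have a10 : ∀ r y' e', D.arc y' e' ∈ l0 → update σ' y r y' = σ y' := fun r y' e' he => by
        rw [update_of_ne (show y' ≠ y from fun h' => a9 e' (h' ▸ he)), h4 y' e' he]
      exact hsk σ' y e a5 a9 (ih _ _ _ a3 a7 a4 (a10 _)) (ih _ _ _ a3 a8 a4 (a10 _))

/-! Counting components. -/

omit [DecidableEq A] in
lemma comp_insert (K : Finset Y) (y : Y) : D.comp K ≤ D.comp (insert y K) + 1 := by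
  let φ : (A → ℚ) →ₗ[ℚ] ℚ := LinearMap.proj (R := ℚ) (φ := fun _ : A => ℚ) (D.arc y true) -
    LinearMap.proj (R := ℚ) (φ := fun _ : A => ℚ) (D.arc y false)
  have h1 : D.Inv K ⊓ LinearMap.ker φ ≤ D.Inv (insert y K) := fun f hf =>
    ⟨hf.1.1, fun y' hy => by
      rcases Finset.mem_insert.1 hy with rfl | hy
      · exact sub_eq_zero.1 hf.2
      · exact hf.1.2 y' hy⟩
  have h2 := Submodule.finrank_mono h1
  have h3 := Submodule.finrank_sup_add_finrank_inf_eq (D.Inv K) (LinearMap.ker φ)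
  have h4 := LinearMap.finrank_range_add_finrank_ker φ
  have h5 := Submodule.finrank_le (LinearMap.range φ)
  have h6 := Submodule.finrank_le (D.Inv K ⊔ LinearMap.ker φ)
  rw [Module.finrank_self] at h5
  unfold comp; omega

omit [DecidableEq A] in
lemma exc_mono {K K' : Finset Y} (h : K ⊆ K') : K.card + D.comp K ≤ K'.card + D.comp K' := by
  rw [← Finset.union_eq_right.2 h]
  clear h
  induction K' using Finset.induction_on with
  | empty => simp
  | insert y S _ ih =>
    rw [Finset.union_insert]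
    by_cases hy : y ∈ K ∪ S
    · rwa [Finset.insert_eq_of_mem hy]
    · have h2 := comp_insert (D := D) (K ∪ S) y
      rw [Finset.card_insert_of_notMem hy]; omega

def Rel (D : Dg A Y) (K : Finset Y) (a b : A) : Prop := ∀ f ∈ D.Inv K, f a = f b

section rel

omit [DecidableEq Y] [Fintype A] [DecidableEq A]

variable {K K' : Finset Y} {a b c : A}

lemma Rel.symm (h : D.Rel K a b) : D.Rel K b a := fun f hf => (h f hf).symm
lemma Rel.trans (h : D.Rel K a b) (h' : D.Rel K b c) : D.Rel K a c :=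
  fun f hf => (h f hf).trans (h' f hf)
lemma Rel.mono (h : D.Rel K a b) (e : K ⊆ K') : D.Rel K' a b :=
  fun f hf => h f ⟨hf.1, fun y hy => hf.2 y (e hy)⟩
lemma rel_s (K : Finset Y) (a : A) : D.Rel K (D.s a) a := fun _ hf => hf.1 a
lemma rel_arc {y : Y} (h : y ∈ K) (e : Bool) : D.Rel K (D.arc y e) (D.arc y (!e)) := fun _ hf => by
  cases e
  · exact (hf.2 y h).symm
  · exact hf.2 y h

lemma Reach.rel (h : D.Reach σ a b) (K : Finset Y) : D.Rel K a b := by
  induction h with
  | refl a => exact fun _ _ => rfl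
  | step _ _ ih => exact (rel_s K _).symm.trans ih

lemma Reach.rel' (h : D.Reach σ (D.s a) b) (K : Finset Y) : D.Rel K a b :=
  (rel_s K a).symm.trans (h.rel K)

lemma Free.mono {σ' : State Y} (h : D.Free σ a) (e : ∀ y, σ y = none → σ' y = none) :
    D.Free σ' a := fun y e' he => e y (h y e' he)

lemma Reach.mono {σ' : State Y} (h : D.Reach σ a b) (e : ∀ y, σ y = none → σ' y = none) :
    D.Reach σ' a b := by
  induction h with
  | refl a => exact .refl a
  | step h1 _ ih => exact .step (h1.mono e) ih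

lemma Reach.trans (h : D.Reach σ a b) (h' : D.Reach σ b c) : D.Reach σ a c := by
  induction h with
  | refl a => exact h'
  | step h1 _ ih => exact .step h1 (ih h')

lemma Reach.last (h : D.Reach σ a b) : a = b ∨ ∃ z, D.Free σ z ∧ D.s z = b ∧ D.Reach σ a z := by
  induction h with
  | refl a => exact Or.inl rfl
  | @step a b h1 _ ih =>
    rcases ih with rfl | ⟨z, a1, a2, a3⟩
    · exact Or.inr ⟨a, h1, rfl, .refl a⟩
    · exact Or.inr ⟨z, a1, a2, .step h1 a3⟩

lemma Reach.comparable (h : D.Reach σ a c) (h' : D.Reach σ b c) :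
    D.Reach σ a b ∨ D.Reach σ b a := by
  induction h with
  | refl a => exact Or.inr h'
  | @step a c h1 _ ih =>
    rcases ih h' with h2 | h2
    · exact Or.inl (.step h1 h2)
    · rcases h2.last with rfl | ⟨z, -, a2, a3⟩
      · exact Or.inl (.step h1 (.refl _))
      · exact Or.inr (D.s.injective a2 ▸ a3)

lemma Reach.back (h : D.Reach σ (D.s b) c) (hb : ¬ D.Free σ b) (h' : D.Reach σ (D.s a) c) :
    a = b ∨ D.Free σ a := by
  rcases h.comparable h' with h1 | h1
  · rcases h1.last with h2 | ⟨z, a1, a2, -⟩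
    · exact Or.inl (D.s.injective h2).symm
    · exact Or.inr (D.s.injective a2 ▸ a1)
  · rcases h1.last with h2 | ⟨z, a1, a2, -⟩
    · exact Or.inl (D.s.injective h2)
    · exact absurd (D.s.injective a2 ▸ a1) hb

lemma Reach.stuck (h : D.Reach σ a b) (ha : ¬ D.Free σ a) : a = b := by
  cases h with
  | refl => rfl
  | step h1 _ => exact absurd h1 ha

lemma not_free {y : Y} (h : σ y ≠ none) (e : Bool) : ¬ D.Free σ (D.arc y e) :=
  fun h' => h (h' y e rfl)

lemma Pre.walk {l : List A} {st u z : A} (hr : D.Reach σ z u) (h : D.Pre σ (a :: l) st)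
    (hz : z = D.nxt σ a) (hu : ∀ y e, u = D.arc y e → σ y ≠ some e)
    (hst : ∀ e, e = a ∨ D.Free σ e → D.Reach σ (D.nxt σ e) u → D.nxt σ e ≠ st) :
    ∃ l', D.Pre σ (u :: l') st ∧ a :: l <:+ l' := by
  induction hr generalizing a l with
  | refl z =>
    subst hz
    exact ⟨a :: l, .ext h (fun h1 => hst a (Or.inl rfl) (.refl _) (h.close h1))
      (fun y e h1 h2 => absurd h2 (hu y e h1)) (Or.inl ⟨rfl, rfl⟩), List.suffix_rfl⟩
  | @step z u h1 h2 ih =>
    subst hz
    have h3 : D.Pre σ (D.nxt σ a :: a :: l) st :=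
      .ext h (fun h3 => hst a (Or.inl rfl) (.step h1 h2) (h.close h3))
        (fun y e h3 h4 => by simp [h1 y e h3] at h4) (Or.inl ⟨rfl, rfl⟩)
    obtain ⟨l', a1, a2⟩ := ih h3 (D.nxt_free h1).symm hu
      fun e he => hst e (Or.inr (he.elim (fun he => he ▸ h1) id))
    exact ⟨l', a1, (List.suffix_cons _ _).trans a2⟩

/-- Walking to an under arc when the run started at another crossing. -/
lemma Pre.walk' {l : List A} {y y0 : Y} {e e0 : Bool} (h : D.Pre σ (a :: l) (D.arc y0 e0))
    (hr : D.Reach σ (D.nxt σ a) (D.arc y (!e))) (hy : σ y = some e) (h0 : σ y0 ≠ none)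
    (hne : y0 ≠ y) : ∃ l', D.Pre σ (D.arc y (!e) :: l') (D.arc y0 e0) ∧ a :: l <:+ l' := by
  refine Pre.walk hr h rfl (fun y' e' a1 a2 => ?_) fun e' _ a1 a2 => ?_
  · obtain ⟨rfl, rfl⟩ := D.inj _ _ _ _ a1
    simp [hy] at a2
  · rw [a2] at a1
    exact hne (D.inj _ _ _ _ (a1.stuck (not_free h0 _))).1

lemma pre_one {y : Y} {e : Bool} (hy : σ y = some e) : D.Pre σ [D.arc y (!e)] (D.arc y (!e)) :=
  .ext (.nil (D.arc y e)) (by simp) (fun y' e' a1 a2 => by
    obtain ⟨rfl, rfl⟩ := D.inj _ _ _ _ a1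
    simp [hy] at a2) rfl

end rel

omit [DecidableEq A] [Fintype A] in
lemma comp_rel {K : Finset Y} {y : Y} {e : Bool} (h : D.Rel K (D.arc y e) (D.arc y (!e))) :
    D.comp (insert y K) = D.comp K := by
  have : D.Inv (insert y K) = D.Inv K := by
    ext f
    refine ⟨fun hf => ⟨hf.1, fun y' hy => hf.2 y' (Finset.mem_insert_of_mem hy)⟩,
      fun hf => ⟨hf.1, fun y' hy => ?_⟩⟩
    rcases Finset.mem_insert.1 hy with rfl | hy
    · cases e
      · exact (h f hf).symm
      · exact h f hf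
    · exact hf.2 y' hy
  rw [comp, comp, this]

variable [Fintype Y]

omit [DecidableEq A] [DecidableEq Y] in
lemma comp_le_br {t : A → ℕ} :
    D.comp (Finset.univ.filter fun y => σ y ≠ none) ≤ D.br σ t := by
  classical
  let K := Finset.univ.filter fun y => σ y ≠ none
  let B := Finset.univ.filter fun c => t (D.nxt σ c) ≠ t c + 1
  let φ : D.Inv K →ₗ[ℚ] (B → ℚ) := (LinearMap.funLeft ℚ ℚ Subtype.val).comp (D.Inv K).subtype
  have hφ : Injective φ := by
    rw [← LinearMap.ker_eq_bot, LinearMap.ker_eq_bot']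
    rintro ⟨f, hf⟩ h0
    have h1 : ∀ a, f (D.nxt σ a) = f a := fun a => by
      rcases D.free_or σ a with h | ⟨y, e, rfl, h⟩
      · rw [D.nxt_free h, hf.1]
      · rw [D.nxt_kept h, hf.1]
        exact (rel_arc (show y ∈ K by simpa [K] using h) e f hf).symm
    obtain ⟨M, hM⟩ : ∃ M, ∀ e, t e ≤ M := ⟨Finset.univ.sup t, fun e => Finset.le_sup (by simp)⟩
    have h2 : ∀ n a, M - t a = n → f a = 0 := fun n => by
      induction n using Nat.strong_induction_on with
      | _ n ih =>
      intro a ha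
      by_cases hb : t (D.nxt σ a) = t a + 1
      · rw [← h1]
        exact ih _ (by have := hM (D.nxt σ a); omega) _ rfl
      · exact congrFun h0 ⟨a, by simpa [B] using hb⟩
    exact Subtype.ext (funext fun a => h2 _ a rfl)
  have := LinearMap.finrank_le_finrank_of_injective hφ
  rwa [Module.finrank_fintype_fun_eq_card, Fintype.card_coe] at this

variable {F : State Y → L2}

omit [Fintype Y] [DecidableEq A] in
lemma Orc.sk_deg (hO : D.Orc F) {y : Y} {b : Bool} (h : σ y = some b) {d : ℤ}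
    (h1 : DegLe (F (update σ y (some (!b)))) d) (h2 : DegLe (F (update σ y none)) (d - 1)) :
    DegLe (F σ) d := by
  rcases hO.sk' h with ⟨-, h3⟩ | ⟨-, h3⟩
  · exact (H39.sk_deg h3 h2).2 h1
  · exact (H39.sk_deg h3 h2).1 h1

omit [DecidableEq A] in
lemma Orc.sk_nk (hO : D.Orc F) {y : Y} {b : Bool} (h : σ y = some b) {d : ℤ}
    (h1 : DegLe (F (update σ y (some (!b)))) (nk (update σ y (some (!b))) + d))
    (h2 : DegLe (F (update σ y none)) (nk (update σ y none) + d)) : DegLe (F σ) (nk σ + d) := by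
  have h0 : σ y ≠ none := by simp [h]
  rw [nk_some h0] at h1
  exact hO.sk_deg h h1 (h2.mono (by have := nk_none h0; omega))

theorem Orc.lemB (hO : D.Orc F) {l : List A} {st : A} (h : D.Pre σ l st) {K : Finset Y}
    (hK : ∀ y ∈ K, σ y ≠ none ∧ ∃ e, D.arc y e ∈ l) :
    DegLe (F σ) (nk σ + (1 - (K.card + D.comp K : ℕ))) := by
  refine drive (fun σ' => DegLe (F σ') (nk σ' + (1 - (K.card + D.comp K : ℕ))))
    (fun σ' y b a1 _ a2 a3 => hO.sk_nk a1 a2 a3) (fun σ' t a1 a2 a3 _ => ?_) h
  have h1 := degLe_pow (D.br σ' t)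
  rw [← hO.unl σ' t a1 a2] at h1
  have h2 := comp_le_br (D := D) (σ := σ') (t := t)
  have h3 := exc_mono (D := D) (show K ⊆ Finset.univ.filter fun y => σ' y ≠ none from
    fun y hy => by
      obtain ⟨b1, e, b2⟩ := hK y hy
      simpa [a3 y e b2] using b1)
  refine h1.of_dl.mono ?_
  unfold nk; omega

theorem Orc.morton (hO : D.Orc F) [Nonempty A] (σ : State Y) :
    DegLe (F σ) (nk σ + (1 - D.comp ∅)) := by
  simpa using hO.lemB (.nil (Classical.arbitrary A) : D.Pre σ [] _) (K := ∅) (by simp)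

/-- The coefficient at Morton's bound vanishes. -/
def Zr (D : Dg A Y) (F : State Y → L2) (σ : State Y) : Prop := DegLe (F σ) (nk σ + -D.comp ∅)

theorem Orc.cyc (hO : D.Orc F) {l : List A} {st : A} (h : D.Pre σ l st) {K : Finset Y} {y : Y}
    {e : Bool} (hK : ∀ y ∈ K, σ y ≠ none ∧ ∃ e, D.arc y e ∈ l) (hy : y ∉ K) (h1 : σ y ≠ none)
    (h2 : D.arc y (!e) ∈ l) (h3 : D.Rel K (D.arc y e) (D.arc y (!e))) : D.Zr F σ := by
  have a1 := hO.lemB h (K := insert y K) fun y' hy' => by
    rcases Finset.mem_insert.1 hy' with rfl | hy'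
    · exact ⟨h1, _, h2⟩
    · exact hK y' hy'
  have a2 := exc_mono (D := D) (Finset.empty_subset K)
  rw [comp_rel h3, Finset.card_insert_of_notMem hy] at a1
  refine a1.mono ?_
  simp only [Finset.card_empty] at a2
  omega

theorem Orc.leaf (hO : D.Orc F) {y : Y} {e : Bool} (hy : σ y ≠ none)
    (hr : D.Reach σ (D.s (D.arc y e)) (D.arc y e)) : F (update σ y none) = dl * F σ := by
  have main : ∀ σ : State Y, σ y = some (!e) → D.Reach σ (D.s (D.arc y e)) (D.arc y e) →
      F (update σ y none) = dl * F σ := by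
    intro σ hy hr
    have h0 : σ y ≠ none := by simp [hy]
    have hu : ∀ y' e', D.arc y e = D.arc y' e' → σ y' ≠ some e' := fun y' e' a1 a2 => by
      obtain ⟨rfl, rfl⟩ := D.inj _ _ _ _ a1
      simp [hy] at a2
    obtain ⟨l, h1, h2, h3⟩ : ∃ l, D.Pre σ l (D.s (D.arc y e)) ∧ D.arc y e ∈ l ∧
        [D.s (D.arc y e)] <:+ l := by
      rcases hz : D.s (D.arc y e) with z
      rw [hz] at hr
      cases hr with
      | refl => exact ⟨[_], .ext (.nil (D.arc y e)) (by simp)
          (fun y' e' a1 a2 => absurd a2 (hu y' e' a1)) rfl, by simp, List.suffix_rfl⟩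
      | step a1 a2 =>
        have a3 : D.Pre σ [z] z := .ext (.nil z) (by simp)
          (fun y' e' a3 a4 => by simp [a1 y' e' a3] at a4) rfl
        obtain ⟨l', a4, a5⟩ := Pre.walk a2 a3 (D.nxt_free a1).symm hu fun e' a4 _ a5 => by
          have a6 : D.Free σ e' := a4.elim (fun a => a ▸ a1) id
          rw [D.nxt_free a6, ← hz] at a5
          exact not_free h0 e (D.s.injective a5 ▸ a6)
        exact ⟨_, a4, by simp, a5.trans (List.suffix_cons _ _)⟩
    refine drive (fun σ' => F (update σ' y none) = dl * F σ') (fun σ' y' b a1 a2 a3 a4 => ?_)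
      (fun σ' t a1 a2 a3 a4 => ?_) h1
    · have a5 : y' ≠ y := fun a5 => a2 e (a5 ▸ h2)
      have a6 : update σ' y none y' = some b := by rw [update_of_ne a5, a1]
      simp only [update_comm a5] at a3 a4
      rcases hO.sk' a1 with ⟨rfl, b1⟩ | ⟨rfl, b1⟩ <;> rcases hO.sk' a6 with ⟨b0, b2⟩ | ⟨b0, b2⟩
      · rw [a3, a4] at b2
        linear_combination (T 1) * b2 - (T 1 * dl) * b1 -
          (F (update σ' y none) - dl * F σ') * TT' 1
      · simp at b0
      · simp at b0
      · rw [a3, a4] at b2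
        linear_combination (-T (-1)) * b2 + (T (-1) * dl) * b1 -
          (F (update σ' y none) - dl * F σ') * TT' 1
    · have b0 : σ' y = some (!e) := by rw [a3 y e h2, hy]
      have b1 : σ' y ≠ none := by simp [b0]
      have b2 : t (D.nxt σ' (D.arc y (!e))) = 0 := by
        rw [D.nxt_kept b1, Bool.not_not, a4 _ (h3.subset (by simp)), tm_suffix h3 (by simp)]
        simp [tm]
      obtain ⟨c1, c2⟩ := a1.split (e := !e) b1 (by omega) (by omega) (a2 y _ b0)
      have c3 := hO.unl _ t c1 fun y' b hb => by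
        by_cases h' : y' = y
        · subst h'; simp at hb
        · rw [update_of_ne h'] at hb; exact a2 y' b hb
      rw [c2, pow_succ', ← hO.unl σ' t a1 a2] at c3
      exact mul_left_cancel₀ dl_ne c3
  obtain ⟨b, hb⟩ := Option.ne_none_iff_exists'.1 hy
  by_cases he : b = !e
  · exact main σ (he ▸ hb) hr
  have h1 := main (update σ y (some (!b))) (by cases b <;> cases e <;> simp at he ⊢)
    (hr.mono fun y' a1 => by rw [update_of_ne (show y' ≠ y from fun a2 => hy (a2 ▸ a1)), a1])
  rw [update_idem] at h1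
  rw [h1, ← one_mul (F σ), hO.sk_val hb (κ := 1) (one_mul _) (by rw [one_mul, h1])]

theorem Orc.bigon (hO : D.Orc F) {P Q : Y} {eP eQ : Bool} (hP : σ P = some eP)
    (hQ : σ Q = some eQ) (hne : P ≠ Q) (r : D.Reach σ (D.s (D.arc P eP)) (D.arc Q (!eQ)))
    (hr : D.Rel ∅ (D.arc P (!eP)) (D.arc Q eQ)) : D.Zr F σ := by
  have p0 : σ P ≠ none := by simp [hP]
  obtain ⟨l, h1, h2⟩ := (pre_one hP).walk' (by rwa [D.nxt_kept p0, Bool.not_not]) hQ p0 hne
  refine hO.cyc h1 (K := {P}) (y := Q) (e := eQ) (fun y hy => ?_) (by simpa using hne.symm)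
    (by simp [hQ]) (by simp) ?_
  · obtain rfl := Finset.mem_singleton.1 hy
    exact ⟨p0, _, List.mem_cons_of_mem _ (h2.subset (List.mem_singleton_self _))⟩
  · exact ((hr.mono (by simp)).symm.trans (rel_arc (by simp) eP).symm).trans (r.rel' _)

theorem Orc.four (hO : D.Orc F) {P Q R S : Y} {eP eQ eR eS : Bool} (hP : σ P = some eP)
    (hQ : σ Q = some eQ) (hR : σ R = some eR) (hS : σ S = some eS) (n1 : P ≠ Q) (n2 : P ≠ R)
    (n3 : P ≠ S) (n4 : Q ≠ S) (n5 : R ≠ S)
    (r1 : D.Reach σ (D.s (D.arc P eP)) (D.arc Q (!eQ)))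
    (r2 : D.Reach σ (D.s (D.arc Q eQ)) (D.arc R (!eR)))
    (r3 : D.Reach σ (D.s (D.arc R eR)) (D.arc S (!eS)))
    (hr : D.Rel ∅ (D.arc P (!eP)) (D.arc S eS)) : D.Zr F σ := by
  have p0 : σ P ≠ none := by simp [hP]
  have q0 : σ Q ≠ none := by simp [hQ]
  have r0 : σ R ≠ none := by simp [hR]
  obtain ⟨l1, h1, s1⟩ := (pre_one hP).walk' (by rwa [D.nxt_kept p0, Bool.not_not]) hQ p0 n1
  obtain ⟨l2, h2, s2⟩ := h1.walk' (by rwa [D.nxt_kept q0, Bool.not_not]) hR p0 n2
  obtain ⟨l3, h3, s3⟩ := h2.walk' (by rwa [D.nxt_kept r0, Bool.not_not]) hS p0 n3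
  have m3 := s3.subset
  have m2 := s2.subset
  refine hO.cyc h3 (K := {P, Q, R}) (y := S) (e := eS) (fun y hy => ?_)
    (by simp [n3.symm, n4.symm, n5.symm]) (by simp [hS]) (by simp) ?_
  · simp only [Finset.mem_insert, Finset.mem_singleton] at hy
    rcases hy with rfl | rfl | rfl
    · exact ⟨p0, _, List.mem_cons_of_mem _ (m3 (List.mem_cons_of_mem _ (m2
        (List.mem_cons_of_mem _ (s1.subset (List.mem_singleton_self _))))))⟩
    · exact ⟨q0, _, List.mem_cons_of_mem _ (m3 (List.mem_cons_of_mem _ (m2 List.mem_cons_self)))⟩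
    · exact ⟨r0, _, List.mem_cons_of_mem _ (m3 List.mem_cons_self)⟩
  · exact ((((((hr.mono (by simp)).symm.trans (rel_arc (by simp) eP).symm).trans (r1.rel' _)).trans
      (rel_arc (by simp) eQ).symm).trans (r2.rel' _)).trans (rel_arc (by simp) eR).symm).trans
      (r3.rel' _)

end Dg

end Pool.Agent.Lib.MP_3a4f2f_gt.H39
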