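import Pool.Agent.Lib.MP_3a4f2f_gt.H39.Poly

/-! Ascending diagrams are unlinks. -/

set_option autoImplicit false

namespace Pool.Agent.Lib.MP_3a4f2f_gt.H39

open LaurentPolynomial

/-- A sweep of a word. The list holds the arcs cut by the sweep line with their directions,
`I` the arcs met so far, the last list the arcs whose step `c ↦ π c` is still to be made. -/
inductive Cert {α : Type} (π : α → α) (ov : α → α → Prop) :
    List (α × Bool) → (α → Prop) → Word → List α → Prop where
  | nil (I : α → Prop) : Cert π ov [] I [] []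
  | weak {L : List (α × Bool)} {I I' : α → Prop} {W : Word} {S : List α} :
      (∀ a, I a → I' a) → Cert π ov L I' W S → Cert π ov L I W S
  | fwd (X Z : List (α × Bool)) (c : α) {I : α → Prop} {W : Word} {S : List α} : ¬ I (π c) →
      Cert π ov (X ++ (π c, true) :: Z) (fun a => a = π c ∨ I a) W S →
      Cert π ov (X ++ (c, true) :: Z) I W (c :: S)
  | bwd (X Z : List (α × Bool)) (c : α) {I : α → Prop} {W : Word} {S : List α} : ¬ I c →
      Cert π ov (X ++ (c, false) :: Z) (fun a => a = c ∨ I a) W S →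
      Cert π ov (X ++ (π c, false) :: Z) I W (c :: S)
  | cupT (X Z : List (α × Bool)) (c : α) {I : α → Prop} {W : Word} {S : List α} :
      ¬ I c → ¬ I (π c) → π c ≠ c →
      Cert π ov (X ++ (π c, true) :: (c, false) :: Z) (fun a => a = c ∨ a = π c ∨ I a) W S →
      Cert π ov (X ++ Z) I ((.cup true, X.length) :: W) (c :: S)
  | cupF (X Z : List (α × Bool)) (c : α) {I : α → Prop} {W : Word} {S : List α} :
      ¬ I c → ¬ I (π c) → π c ≠ c →
      Cert π ov (X ++ (c, false) :: (π c, true) :: Z) (fun a => a = c ∨ a = π c ∨ I a) W S →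
      Cert π ov (X ++ Z) I ((.cup false, X.length) :: W) (c :: S)
  | capT (X Z : List (α × Bool)) (c : α) {I : α → Prop} {W : Word} {S : List α} :
      Cert π ov (X ++ Z) I W S →
      Cert π ov (X ++ (c, true) :: (π c, false) :: Z) I ((.cap, X.length) :: W) (c :: S)
  | capF (X Z : List (α × Bool)) (c : α) {I : α → Prop} {W : Word} {S : List α} :
      Cert π ov (X ++ Z) I W S →
      Cert π ov (X ++ (π c, false) :: (c, true) :: Z) I ((.cap, X.length) :: W) (c :: S)
  | cr (X Z : List (α × Bool)) (p q : α × Bool) (b : Bool) {I : α → Prop} {W : Word}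
      {S : List α} : (if b then ov p.1 q.1 else ov q.1 p.1) →
      Cert π ov (X ++ q :: p :: Z) I W S →
      Cert π ov (X ++ p :: q :: Z) I ((.cr b, X.length) :: W) S

variable {α : Type} {π : α → α} {ov : α → α → Prop} {P : Word → L2}

namespace Geo

lemma gvCup (X Z : List (α × Bool)) (p q : α × Bool) (d : Bool) (hp : p.2 = d) (hq : q.2 = !d)
    {v : Word} {E : List Bool} :
    Val true ((X ++ Z).map Prod.snd) ((.cup d, X.length) :: v) E ↔
      Val true ((X ++ p :: q :: Z).map Prod.snd) v E := by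
  have e : X.length = (X.map Prod.snd).length := by simp
  rw [e]
  simp only [List.map_append, List.map_cons, Val, nx_shift0, fit_shift0, hp, hq]
  simp [nx, ins, Fit, cp, Letter.inp]

lemma gvCap (X Z : List (α × Bool)) (p q : α × Bool) (hp : p.2 ≠ q.2) {v : Word} {E : List Bool}
    (h : Val true ((X ++ Z).map Prod.snd) v E) :
    Val true ((X ++ p :: q :: Z).map Prod.snd) ((.cap, X.length) :: v) E := by
  have e : X.length = (X.map Prod.snd).length := by simp
  rw [e]
  simp only [List.map_append, List.map_cons, Val, nx_shift0, fit_shift0] at h ⊢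
  simpa [nx, del, Fit, Letter.inp, hp] using h

lemma gvCr (X Z : List (α × Bool)) (p q : α × Bool) (b : Bool) {v : Word} {E : List Bool} :
    Val true ((X ++ p :: q :: Z).map Prod.snd) ((.cr b, X.length) :: v) E ↔
      Val true ((X ++ q :: p :: Z).map Prod.snd) v E := by
  have e : X.length = (X.map Prod.snd).length := by simp
  rw [e]
  simp only [List.map_append, List.map_cons, Val, nx_shift0, fit_shift0]
  simp [nx, swp, Fit, Letter.inp]

end Geo

open Geo in
theorem Cert.val {L : List (α × Bool)} {I : α → Prop} {W : Word} {S : List α}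
    (h : Cert π ov L I W S) : Val true (L.map Prod.snd) W [] := by
  induction h with
  | nil I => rfl
  | weak _ _ ih => exact ih
  | fwd X Z c _ _ ih => simpa using ih
  | bwd X Z c _ _ ih => simpa using ih
  | cupT X Z c _ _ _ _ ih => exact (gvCup X Z _ _ true rfl rfl).2 ih
  | cupF X Z c _ _ _ _ ih => exact (gvCup X Z _ _ false rfl rfl).2 ih
  | capT X Z c _ ih => exact gvCap X Z _ _ (by simp) ih
  | capF X Z c _ ih => exact gvCap X Z _ _ (by simp) ih
  | cr X Z p q b _ _ ih => exact (gvCr X Z p q b).2 ih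

namespace Geo

/-- A local move that keeps validity and the value. -/
def Mv (P : Word → L2) (x y : Word) : Prop :=
  ∀ u v, Stp true P 1 (u ++ (x ++ v)) (u ++ (y ++ v))

lemma Mv.refl (x : Word) : Mv P x x := fun _ _ h => ⟨h, (one_mul _).symm⟩

lemma Mv.trans {x y z : Word} (h : Mv P x y) (h' : Mv P y z) : Mv P x z :=
  fun u v => (h u v).trans1 (h' u v)

lemma Mv.ctx {x y : Word} (h : Mv P x y) (a b : Word) : Mv P (a ++ (x ++ b)) (a ++ (y ++ b)) :=
  fun u v => by simpa only [List.append_assoc] using h (u ++ a) (b ++ v)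

lemma pmv (h : IsHomfly P) (u v : Word) {x y : Word} (hm : Move x y)
    (hv : V true (u ++ (x ++ v))) : P (u ++ (x ++ v)) = 1 * P (u ++ (y ++ v)) := by
  simpa using h.move u v x y hm (by simpa using val_true.1 hv)

lemma mF (h : IsHomfly P) {x y : Word} (hm : RMove x y) : Mv P x y :=
  fun u v hv => ⟨hv.move hm, pmv h u v (.reg hm) hv⟩

lemma mB (h : IsHomfly P) {x y : Word} (hm : Move x y)
    (hb : ∀ u v, V true (u ++ (y ++ v)) → V true (u ++ (x ++ v))) : Mv P y x :=
  fun u v hv => ⟨hb u v hv, by rw [pmv h u v hm (hb u v hv), one_mul, one_mul]⟩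

lemma mCommB (h : IsHomfly P) (k l : Letter) (i t : ℕ) :
    Mv P [(l, i + t + k.inp), (k, i)] [(k, i), (l, i + t + k.out)] :=
  mB h (.reg (.comm k l i t)) fun _ _ hv => hv.swap (comm_back hv.tail)

lemma mSlB (h : IsHomfly P) (d b : Bool) (i : ℕ) :
    Mv P [(.cup d, i), (.cr b, i + 1)] [(.cup d, i + 1), (.cr (!b), i)] := by
  have := mB h (.reg (.slideCup d (!b) i)) fun _ _ hv => hv.swap (slideCup_back hv.tail)
  simpa using this

lemma mScB (h : IsHomfly P) (b : Bool) (i : ℕ) :
    Mv P [(.cr b, i + 1), (.cap, i)] [(.cr (!b), i), (.cap, i + 1)] := by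
  have := mB h (.reg (.slideCap (!b) i)) fun u _ hv =>
    hv.swap (slideCap_back (allT_ctx u) hv.tail)
  simpa using this

lemma mR3B (h : IsHomfly P) (b : Bool) (i : ℕ) :
    Mv P [(.cr b, i + 1), (.cr b, i), (.cr b, i + 1)] [(.cr b, i), (.cr b, i + 1), (.cr b, i)] := by
  refine mB h (.reg (.r3 b i)) fun u v hv => hv.swap ?_
  have h1 := hv.tail
  obtain ⟨Q, a, c, e, B, hE, rfl⟩ := split3 (rn true [] u) i (by
    simpa [Letter.inp] using val_len h1)
  rw [hE] at h1 ⊢
  exact (r3_core Q B a c e b v []).1.2 h1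

lemma mR1Cup (h : IsHomfly P) (d b : Bool) (i : ℕ) :
    Mv P [(.cup d, i), (.cr b, i)] [(.cup (!d), i)] :=
  fun u v hv => ⟨V.curlCup hv, pmv h u v (.r1Cup d b i) hv⟩

lemma mR1Cap (h : IsHomfly P) (b : Bool) (i : ℕ) : Mv P [(.cr b, i), (.cap, i)] [(.cap, i)] :=
  fun u v hv => ⟨V.curlCap hv, pmv h u v (.r1Cap b i) hv⟩

lemma mR1CupB (h : IsHomfly P) (d b : Bool) (i : ℕ) :
    Mv P [(.cup (!d), i)] [(.cup d, i), (.cr b, i)] := by
  refine mB h (.r1Cup d b i) fun u v hv => hv.swap ?_
  have h1 := hv.tail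
  obtain ⟨Q, B, hE, rfl⟩ := split0 (rn true [] u) i (by simpa [Letter.inp] using val_len h1)
  rw [hE] at h1 ⊢
  exact (curlCup_core Q B d b v []).1.2 h1

lemma mFlip (h : IsHomfly P) (d d' : Bool) (i : ℕ) :
    Mv P [(.cup d, i), (.cap, i)] [(.cup d', i), (.cap, i)] := by
  by_cases e : d = d'
  · rw [e]; exact Mv.refl _
  · obtain rfl : d = !d' := by revert e; cases d <;> cases d' <;> simp
    exact ((mR1CupB h d' true i).ctx [] [(.cap, i)]).trans ((mR1Cap h true i).ctx [(.cup d', i)] [])

lemma mKinkUp (h : IsHomfly P) (d b : Bool) (m : ℕ) :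
    Mv P [(.cup d, m), (.cr b, m + 1), (.cap, m)] [] :=
  (((mSlB h d b m).ctx [] [(.cap, m)]).trans
    ((mR1Cap h (!b) m).ctx [(.cup d, m + 1)] [])).trans (mF h (.zig d m))

lemma mKinkDn (h : IsHomfly P) (d b : Bool) (m : ℕ) :
    Mv P [(.cup d, m + 1), (.cr b, m), (.cap, m + 1)] [] :=
  (((mF h (.slideCup d b m)).ctx [] [(.cap, m + 1)]).trans
    ((mR1Cap h (!b) (m + 1)).ctx [(.cup d, m)] [])).trans (mF h (.zag d m))

lemma dl_of {p q : L2} (h : T (-1) * q - T 1 * q = C (T 1) * p) : p = dl * q := by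
  have e : (C (T (-1)) : L2) * C (T 1) = 1 := by rw [← map_mul, ← T_add]; simp
  rw [dl]
  linear_combination (-(C (T (-1)) : L2)) * h - p * e

lemma eye_pos (hP : IsHomfly P) (u v : Word) (d : Bool) (m : ℕ)
    (h0 : 0 < (rn true [] u).length) (hv : V true (u ++ (.cup d, m) :: (.cap, m) :: v)) :
    P (u ++ (.cup d, m) :: (.cap, m) :: v) = dl * P (u ++ v) := by
  have hm : m ≤ (rn true [] u).length := by simpa [Letter.inp] using val_len hv.tail
  have h1 := ((V.eye hm).1 hv).tail
  rcases Nat.lt_or_ge m (rn true [] u).length with h2 | h2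
  · obtain ⟨Q, e, B, hE, rfl⟩ := split1 (rn true [] u) m h2
    rw [hE] at h1
    have v1 : ∀ b, V true (u ++ (.cup (!e), Q.length) :: (.cr b, Q.length + 1) ::
        (.cap, Q.length) :: v) := fun b => hv.swap (by
      rw [hE]
      simp only [Val, nx_shift, nx_shift0, fit_shift, fit_shift0]
      cases e <;> simpa [nx, ins, swp, del, Fit, cp, Letter.inp] using h1)
    have h3 := hP.skein (u ++ [(.cup (!e), Q.length)]) ((.cap, Q.length) :: v) (Q.length + 1)
      (val_true.1 (by rw [List.append_assoc]; exact v1 true)) (by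
        rw [← rn_true, rn_snoc, hE, nx_shift0, add_assoc, getD_shift, getD_shift]
        cases e <;> simp [nx, ins, cp])
    have h4 := (mKinkUp hP (!e) true _ u v (v1 true)).2
    have h5 := (mKinkUp hP (!e) false _ u v (v1 false)).2
    have h6 := (mFlip hP d (!e) _ u v hv).2
    simp only [List.append_assoc, List.cons_append, List.nil_append, one_mul] at h3 h4 h5 h6
    rw [h4, h5] at h3
    rw [h6]
    exact dl_of h3
  · obtain ⟨m, rfl⟩ : ∃ m', m = m' + 1 := ⟨m - 1, by omega⟩
    obtain ⟨Q, e, B, hE, rfl⟩ := split1 (rn true [] u) m hm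
    rw [hE] at h1
    have v1 : ∀ b, V true (u ++ (.cup e, Q.length + 1) :: (.cr b, Q.length) ::
        (.cap, Q.length + 1) :: v) := fun b => hv.swap (by
      rw [hE]
      simp only [Val, nx_shift, nx_shift0, fit_shift, fit_shift0]
      cases e <;> simpa [nx, ins, swp, del, Fit, cp, Letter.inp] using h1)
    have h3 := hP.skein (u ++ [(.cup e, Q.length + 1)]) ((.cap, Q.length + 1) :: v) Q.length
      (val_true.1 (by rw [List.append_assoc]; exact v1 true)) (by
        have a0 := getD_shift Q (nx true (e :: B) (.cup e, 1)) 0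
        rw [add_zero] at a0
        rw [← rn_true, rn_snoc, hE, nx_shift, a0, getD_shift]
        cases e <;> simp [nx, ins, cp])
    have h4 := (mKinkDn hP e true _ u v (v1 true)).2
    have h5 := (mKinkDn hP e false _ u v (v1 false)).2
    have h6 := (mFlip hP d e _ u v hv).2
    simp only [List.append_assoc, List.cons_append, List.nil_append, one_mul] at h3 h4 h5 h6
    rw [h4, h5] at h3
    rw [h6]
    exact dl_of h3

end Geo

open Geo in
/-- A split circle. -/
theorem eye (hP : IsHomfly P) (u v : Word) (d : Bool) (m : ℕ) (hne : u ++ v ≠ [])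
    (hv : V true (u ++ (.cup d, m) :: (.cap, m) :: v)) :
    V true (u ++ v) ∧ P (u ++ (.cup d, m) :: (.cap, m) :: v) = dl * P (u ++ v) := by
  have hm : m ≤ (rn true [] u).length := by simpa [Letter.inp] using val_len hv.tail
  have hv' := (V.eye hm).1 hv
  refine ⟨hv', ?_⟩
  rcases Nat.eq_zero_or_pos (rn true [] u).length with h0 | h0
  swap
  · exact eye_pos hP u v d m h0 hv
  obtain rfl : m = 0 := by omega
  rcases v with _ | ⟨⟨g, i⟩, v⟩
  · rcases List.eq_nil_or_concat u with rfl | ⟨u', g, rfl⟩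
    · simp at hne
    rw [List.concat_eq_append] at *
    simp only [List.append_nil] at hv'
    have h1 := val_len hv'.tail
    have h2 := length_nx (o := true) h1
    rw [← rn_snoc, h0] at h2
    obtain ⟨g, i⟩ := g
    obtain ⟨rfl, rfl, hl⟩ : g = .cap ∧ i = 0 ∧ (rn true [] u').length = 2 := by
      cases g <;> simp [Letter.inp, Letter.out] at h1 h2 ⊢
      omega
    have h3 := mF hP (.comm .cap (.cup d) 0 0) u' [(.cap, 0)]
    have h4 := mF hP (.comm .cap .cap 0 0) (u' ++ [(.cup d, 2)]) []
    simp only [Letter.inp, Letter.out, add_zero, zero_add, List.append_assoc, List.cons_append,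
      List.nil_append, List.append_nil] at h3 h4 hv ⊢
    have h5 := (h3.trans1 h4) hv
    rw [h5.2, one_mul]
    exact eye_pos hP u' [(.cap, 0)] d 2 (by omega) h5.1
  · have h1 := val_len hv'.tail
    rw [h0] at h1
    obtain ⟨d', rfl⟩ : ∃ d', g = .cup d' := by
      cases g <;> simp [Letter.inp] at h1 ⊢
    obtain rfl : i = 0 := by simpa [Letter.inp] using h1
    have h3 := mF hP (.comm .cap (.cup d') 0 0) (u ++ [(.cup d, 0)]) v
    have h4 := mF hP (.comm (.cup d) (.cup d') 0 0) u ((.cap, 0) :: v)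
    simp only [Letter.inp, Letter.out, add_zero, zero_add, List.append_assoc, List.cons_append,
      List.nil_append] at h3 h4
    have h5 := (h3.trans1 h4) hv
    have h6 := eye_pos hP (u ++ [(.cup d', 0)]) v d 0 (by rw [len_cup (Nat.zero_le _)]; omega)
      (by simpa using h5.1)
    rw [h5.2, one_mul]
    simpa using h6

namespace Geo

/-! Layered braids. -/

lemma mBelow (h : IsHomfly P) (b : Bool) (p k : ℕ) : ∀ s, s + k + 1 ≤ p →
    Mv P (dn s k ++ [(.cr b, p)]) ((.cr b, p) :: dn s k) := by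
  induction k with
  | zero => exact fun _ _ => Mv.refl _
  | succ k ih =>
    intro s hp
    have h1 := (ih (s + 1) (by omega)).ctx [X s] []
    obtain ⟨t, rfl⟩ : ∃ t, p = s + t + 2 := ⟨p - s - 2, by omega⟩
    have h2 := (mF h (.comm (.cr true) (.cr b) s t)).ctx [] (dn (s + 1) k)
    simp only [List.append_nil, List.nil_append, List.cons_append, Letter.inp, Letter.out] at h1 h2
    exact h1.trans h2

lemma mAbove (h : IsHomfly P) (b : Bool) (p k : ℕ) : ∀ s, p + 2 ≤ s →
    Mv P (dn s k ++ [(.cr b, p)]) ((.cr b, p) :: dn s k) := by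
  induction k with
  | zero => exact fun _ _ => Mv.refl _
  | succ k ih =>
    intro s hp
    have h1 := (ih (s + 1) (by omega)).ctx [X s] []
    obtain ⟨t, rfl⟩ : ∃ t, s = p + t + 2 := ⟨s - p - 2, by omega⟩
    have h2 := (mCommB h (.cr b) (.cr true) p t).ctx [] (dn (p + t + 2 + 1) k)
    simp only [List.append_nil, List.nil_append, List.cons_append, Letter.inp, Letter.out] at h1 h2
    exact h1.trans h2

lemma mLoc (h : IsHomfly P) (b : Bool) (p : ℕ) :
    Mv P [X p, X (p + 1), (.cr b, p)] [(.cr b, p + 1), X p, X (p + 1)] := by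
  cases b
  swap
  · exact mF h (.r3 true p)
  intro u v hv
  have hw : p + 1 + 2 ≤ (rn true [] u).length := by
    have h1 := val_len2 hv.tail
    have h2 := val_len hv.tail
    simp only [X, Letter.inp, Letter.out] at h1 h2
    omega
  have v1 := V.r2back (b := false) hw hv
  have h0 := (mF h (.r2 false (p + 1)) u _ v1).2
  have h1 := (((mR3B h true p).ctx [(.cr false, p + 1)] [(.cr false, p)]).trans
    ((mF h (.r2 true p)).ctx [(.cr false, p + 1), X p, X (p + 1)] [])) u v v1
  exact ⟨h1.1, (one_mul _).symm.trans (h0.symm.trans h1.2)⟩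

lemma mUnder (h : IsHomfly P) (b : Bool) (k a c : ℕ) :
    Mv P (dn k (a + 2 + c) ++ [(.cr b, k + a)]) ((.cr b, k + 1 + a) :: dn k (a + 2 + c)) := by
  have e : dn k (a + 2 + c) = dn k a ++ X (k + a) :: X (k + a + 1) :: dn (k + (a + 2)) c := by
    rw [dn_add, dn_add]; simp [dn]
  have h1 := (mAbove h b (k + a) c (k + (a + 2)) (by omega)).ctx
    (dn k a ++ [X (k + a), X (k + a + 1)]) []
  have h2 := (mLoc h b (k + a)).ctx (dn k a) (dn (k + (a + 2)) c)
  have h3 := (mBelow h b (k + a + 1) a k le_rfl).ctx []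
    (X (k + a) :: X (k + a + 1) :: dn (k + (a + 2)) c)
  rw [e, show k + 1 + a = k + a + 1 by omega]
  simp only [List.append_nil, List.nil_append, List.cons_append, List.append_assoc] at h1 h2 h3 ⊢
  exact (h1.trans h2).trans h3

/-- The braid that brings the strands from the order `S` (highest first) to the order `L`. -/
def br {γ : Type} [DecidableEq γ] : ℕ → List γ → List γ → Word
  | _, [], _ => []
  | k, m :: S, L => br (k + 1) S (L.erase m) ++ dn k (L.idxOf m)

section

variable {γ : Type} [DecidableEq γ]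

lemma br_cons (k : ℕ) (m : γ) (S X Z : List γ) (h : m ∉ X) :
    br k (m :: S) (X ++ m :: Z) = br (k + 1) S (X ++ Z) ++ dn k X.length := by
  rw [br, List.erase_append_right _ h, List.erase_cons_head, List.idxOf_append_of_notMem h,
    List.idxOf_cons_self, add_zero]

lemma br_self (S : List γ) : ∀ k, br k S S = [] := by
  induction S with
  | nil => exact fun _ => rfl
  | cons m S ih => intro k; simp [br, ih, dn]

lemma br_map {f : γ → γ} (hf : Function.Injective f) (S : List γ) :
    ∀ k (L : List γ), br k (S.map f) (L.map f) = br k S L := by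
  induction S with
  | nil => exact fun _ _ => rfl
  | cons m S ih =>
    intro k L
    have e : (L.map f).idxOf (f m) = L.idxOf m := by
      induction L with
      | nil => rfl
      | cons a L ih' =>
        by_cases ha : a = m
        · simp [ha]
        · rw [List.map_cons, List.idxOf_cons_ne _ (hf.ne ha), List.idxOf_cons_ne _ ha, ih']
    rw [List.map_cons, br, br, ← List.map_erase hf, ih, e]

lemma br_sub (S₁ S₂ X Z : List γ) (x y : γ) (hx : x ∉ S₁ ++ S₂) (hy : y ∉ S₁ ++ S₂)
    (hp : (X ++ Z).Perm (S₁ ++ S₂)) :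
    br 0 (S₁ ++ x :: S₂) (X ++ x :: Z) = br 0 (S₁ ++ y :: S₂) (X ++ y :: Z) := by
  have key : ∀ A B : List γ, (∀ a ∈ A ++ B, a ∈ S₁ ++ S₂) →
      (A ++ x :: B).map (Equiv.swap x y) = A ++ y :: B := fun A B hAB => by
    have h1 : ∀ a ∈ A ++ B, Equiv.swap x y a = a := fun a ha =>
      Equiv.swap_apply_of_ne_of_ne (fun e => hx (e ▸ hAB a ha)) (fun e => hy (e ▸ hAB a ha))
    rw [List.map_append, List.map_cons, Equiv.swap_apply_left,
      (List.map_congr_left fun a ha => h1 a (List.mem_append_left _ ha)).trans (List.map_id' A),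
      (List.map_congr_left fun a ha => h1 a (List.mem_append_right _ ha)).trans (List.map_id' B)]
  rw [← br_map (Equiv.swap x y).injective, key _ _ fun _ ha => ha, key _ _ fun _ ha => hp.subset ha]

lemma br_swap (hP : IsHomfly P) (h : γ → ℕ) (p q : γ) (b : Bool) (hb : b = decide (h q < h p))
    (S : List γ) : ∀ (k : ℕ) (X Z : List γ), S.Pairwise (fun a b => h b < h a) →
      (X ++ p :: q :: Z).Perm S →
      Mv P (br k S (X ++ p :: q :: Z) ++ [(.cr b, k + X.length)]) (br k S (X ++ q :: p :: Z)) := by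
  induction S with
  | nil => intro k X Z _ hp; simp at hp
  | cons m S ih =>
    intro k X Z hs hp
    obtain ⟨hm, hs'⟩ := List.pairwise_cons.1 hs
    have hn : (X ++ p :: q :: Z).Nodup :=
      hp.nodup_iff.2 (hs.imp fun {a b} hab e => by rw [e] at hab; omega)
    have hmem : m ∈ X ++ p :: q :: Z := hp.symm.subset List.mem_cons_self
    have hlt : ∀ a ∈ X ++ p :: q :: Z, a ≠ m → h a < h m := fun a ha hne =>
      hm a ((List.mem_cons.1 (hp.subset ha)).resolve_left hne)
    simp only [List.mem_append, List.mem_cons] at hmem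
    rcases hmem with hX | rfl | rfl | hZ
    · obtain ⟨X₁, X₂, rfl⟩ := List.append_of_mem hX
      have h1 : m ∉ X₁ := by grind
      have e : ∀ Y : List γ, br k (m :: S) (X₁ ++ m :: X₂ ++ Y) =
          br (k + 1) S (X₁ ++ X₂ ++ Y) ++ dn k X₁.length := fun Y => by
        rw [List.append_assoc, List.cons_append, br_cons _ _ _ _ _ h1, List.append_assoc]
      have h2 := (ih (k + 1) (X₁ ++ X₂) Z hs' (by
        rw [List.append_assoc, List.cons_append] at hp
        rw [List.append_assoc]
        exact (List.perm_middle.symm.trans hp).cons_inv)).ctx [] (dn k X₁.length)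
      have h3 := (mBelow hP b (k + (X₁ ++ m :: X₂).length) X₁.length k (by simp)).ctx
        (br (k + 1) S (X₁ ++ X₂ ++ p :: q :: Z)) []
      rw [show k + 1 + (X₁ ++ X₂).length = k + (X₁ ++ m :: X₂).length by simp; omega] at h2
      rw [e, e]
      simp only [List.append_nil, List.nil_append, List.cons_append, List.append_assoc] at h2 h3 ⊢
      exact h3.trans h2
    · have h1 : m ∉ X ++ [q] := by grind
      have h2 : b = true := by rw [hb]; exact decide_eq_true (hlt q (by simp) (by grind))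
      have e := br_cons k m S (X ++ [q]) Z h1
      simp only [List.append_assoc, List.cons_append, List.nil_append, List.length_append,
        List.length_cons, List.length_nil, zero_add] at e
      rw [br_cons _ _ _ _ _ (by grind), e, dn_succ, h2, List.append_assoc]
      exact Mv.refl _
    · have h1 : m ∉ X ++ [p] := by grind
      have h2 : b = false := by
        have := hlt p (by simp) (by grind)
        rw [hb]; exact decide_eq_false (by omega)
      have e := br_cons k m S (X ++ [p]) Z h1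
      simp only [List.append_assoc, List.cons_append, List.nil_append, List.length_append,
        List.length_cons, List.length_nil, zero_add] at e
      rw [e, br_cons _ _ _ _ _ (by grind), dn_succ, h2]
      simpa [MP_3a4f2f_gt.X] using (mF hP (.r2 true (k + X.length))).ctx
        (br (k + 1) S (X ++ p :: Z) ++ dn k X.length) []
    · obtain ⟨Z₁, Z₂, rfl⟩ := List.append_of_mem hZ
      have e : ∀ p q : γ, m ∉ X ++ p :: q :: Z₁ → br k (m :: S) (X ++ p :: q :: (Z₁ ++ m :: Z₂)) =
          br (k + 1) S (X ++ p :: q :: (Z₁ ++ Z₂)) ++ dn k (X.length + 2 + Z₁.length) :=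
        fun p q h1 => by
          have := br_cons k m S (X ++ p :: q :: Z₁) Z₂ h1
          rw [show (X ++ p :: q :: Z₁).length = X.length + 2 + Z₁.length by simp; omega] at this
          simpa using this
      have h2 := (ih (k + 1) X (Z₁ ++ Z₂) hs' (by
        have h4 : (X ++ p :: q :: Z₁ ++ m :: Z₂).Perm (m :: S) := by simpa using hp
        simpa using (List.perm_middle.symm.trans h4).cons_inv)).ctx []
          (dn k (X.length + 2 + Z₁.length))
      have h3 := (mUnder hP b k X.length Z₁.length).ctx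
        (br (k + 1) S (X ++ p :: q :: (Z₁ ++ Z₂))) []
      rw [e _ _ (by grind), e _ _ (by grind)]
      simp only [List.append_nil, List.nil_append, List.cons_append, List.append_assoc] at h2 h3 ⊢
      exact h3.trans h2

omit [DecidableEq γ] in
lemma walk (C : List γ → List γ → Prop) (M : List γ)
    (h : ∀ X r Z, X ++ r :: Z = M → (C (X ++ [r]) Z ↔ C X (r :: Z))) (X : List γ) :
    ∀ Z, X ++ Z = M → (C X Z ↔ C [] M) := by
  induction X using List.reverseRecOn with
  | nil => rintro Z rfl; rfl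
  | append_singleton X r ih =>
    intro Z e
    have e' : X ++ r :: Z = M := by simpa using e
    rw [h X r Z e', ih _ e']

omit [DecidableEq γ] in
lemma permWalk (Q : List γ → Prop) (S : List γ)
    (h : ∀ X r s Z, (X ++ r :: s :: Z).Perm S → Q (X ++ r :: s :: Z) → Q (X ++ s :: r :: Z))
    {L L' : List γ} (hp : L.Perm L') : ∀ X, (X ++ L).Perm S → Q (X ++ L) → Q (X ++ L') := by
  induction hp with
  | nil => exact fun _ _ hq => hq
  | cons x _ ih => intro X h1 h2; simpa using ih (X ++ [x]) (by simpa using h1) (by simpa using h2)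
  | swap x y l => exact fun X h1 h2 => h X y x l h1 h2
  | trans h1 _ ih ih' =>
    exact fun X h3 h4 => ih' X ((h1.symm.append_left X).trans h3) (ih X h3 h4)

end

lemma val_trans {E F G : List Bool} {u v : Word} (h : Val true E u F) (h' : Val true F v G) :
    Val true E (u ++ v) G := by
  induction u generalizing E with
  | nil => rw [show E = F from h]; exact h'
  | cons g u ih => exact ⟨h.1, ih h.2⟩

lemma val_rn {E F : List Bool} {u : Word} (h : Val true E u F) : rn true E u = F := by
  induction u generalizing E with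
  | nil => exact h
  | cons g u ih => exact ih h.2

lemma val_dn (e : Bool) (Y Z : List Bool) : ∀ Q : List Bool,
    Val true (Q ++ e :: (Y ++ Z)) (dn Q.length Y.length) (Q ++ (Y ++ e :: Z)) := by
  induction Y with
  | nil => exact fun _ => rfl
  | cons y Y ih =>
    intro Q
    have := ih (Q ++ [y])
    simp only [List.length_cons, dn, X, Val, nx_shift0, fit_shift0, List.cons_append]
    simpa [nx, swp, Fit, Letter.inp] using this

lemma val_br [DecidableEq α] (S : List (α × Bool)) : ∀ (L : List (α × Bool)) (Q : List Bool),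
    L.Perm S → Val true (Q ++ S.map Prod.snd) (br Q.length S L) (Q ++ L.map Prod.snd) := by
  induction S with
  | nil => intro L Q hp; rw [hp.eq_nil]; rfl
  | cons m S ih =>
    intro L Q hp
    obtain ⟨Y, Z, h1, rfl, -⟩ := List.exists_erase_eq (hp.symm.subset List.mem_cons_self)
    have h2 := ih (Y ++ Z) (Q ++ [m.2]) (List.perm_middle.symm.trans hp).cons_inv
    have h3 := val_dn m.2 (Y.map Prod.snd) (Z.map Prod.snd) Q
    rw [br_cons _ _ _ _ _ h1]
    simp only [List.append_assoc, List.cons_append, List.nil_append, List.length_append,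
      List.length_cons, List.length_nil, zero_add, List.map_append, List.map_cons,
      List.length_map] at h2 h3 ⊢
    exact val_trans h2 h3

/-! Trivial tangles. -/

/-- The ends of a list of arcs. -/
def fl : List (α × α) → List (α × Bool)
  | [] => []
  | a :: A => (a.1, true) :: (a.2, false) :: fl A

lemma fl_append (A B : List (α × α)) : fl (A ++ B) = fl A ++ fl B := by
  induction A with
  | nil => rfl
  | cons a A ih => simp [fl, ih]

lemma length_fl (A : List (α × α)) : (fl A).length = 2 * A.length := by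
  induction A with
  | nil => rfl
  | cons a A ih => simp [fl, ih]; omega

lemma mem_fl {A : List (α × α)} {x : α × Bool} :
    x ∈ fl A ↔ ∃ a ∈ A, x = (a.1, true) ∨ x = (a.2, false) := by
  induction A with
  | nil => simp [fl]
  | cons a A ih => simp only [fl, List.mem_cons, ih, exists_eq_or_imp, or_assoc]

/-- A circle followed by `n` cups. -/
def base (n : ℕ) : Word := [(.cup true, 0), (.cap, 0)] ++ List.replicate n (.cup true, 0)

lemma val_base (A : List (α × α)) : Val true [] (base A.length) ((fl A).map Prod.snd) := by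
  induction A with
  | nil => simp [base, fl, Val, Fit, nx, ins, del, cp, Letter.inp]
  | cons a A ih =>
    rw [base, List.length_cons, List.replicate_succ', ← List.append_assoc]
    exact val_trans ih (by simp [fl, Val, Fit, nx, ins, cp, Letter.inp])

lemma mCups (h : IsHomfly P) (j : ℕ) : Mv P (List.replicate (j + 1) (.cup true, 0))
    (List.replicate j (.cup true, 0) ++ [(.cup true, 2 * j)]) := by
  induction j with
  | zero => exact Mv.refl _
  | succ j ih =>
    have h1 := ih.ctx [] [(.cup true, 0)]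
    have h2 := (mCommB h (.cup true) (.cup true) 0 (2 * j)).ctx (List.replicate j (.cup true, 0)) []
    rw [List.replicate_succ', show 2 * (j + 1) = 2 * j + 2 by ring]
    nth_rewrite 2 [List.replicate_succ']
    simp only [List.append_nil, List.nil_append, List.cons_append, List.append_assoc, Letter.inp,
      Letter.out, zero_add, add_zero] at h1 h2 ⊢
    exact h1.trans h2

/-- Two beginnings of diagrams with the same values up to `κ`. -/
def Rel (P : Word → L2) (κ : L2) (x y : Word) : Prop := ∀ v, Stp true P κ (x ++ v) (y ++ v)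

lemma Rel.trans {κ : L2} {x y z : Word} (h : Rel P 1 x y) (h' : Rel P κ y z) : Rel P κ x z :=
  fun v => (h v).trans1 (h' v)

lemma Rel.app {κ : L2} {x y : Word} (h : Rel P κ x y) (b : Word) : Rel P κ (x ++ b) (y ++ b) :=
  fun v => by simpa only [List.append_assoc] using h (b ++ v)

lemma Mv.rel {x y : Word} (h : Mv P x y) (a : Word) : Rel P 1 (a ++ x) (a ++ y) :=
  fun v => by simpa only [List.append_assoc] using h a v

lemma Rel.symm {x y : Word} {E : List Bool} (h : Rel P 1 x y) (hx : Val true [] x E)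
    (hy : Val true [] y E) : Rel P 1 y x := fun v hv => by
  have h1 := hv.tail
  rw [val_rn hy] at h1
  have h2 : V true (x ++ v) := val_trans hx h1
  exact ⟨h2, by rw [(h v h2).2, one_mul, one_mul]⟩

/-- Heights decrease along the list. -/
def Srt (t : α → ℕ) (S : List (α × Bool)) : Prop := S.Pairwise fun a b => t b.1 < t a.1

lemma Srt.nodup {t : α → ℕ} {S : List (α × Bool)} (h : Srt t S) : S.Nodup :=
  List.Pairwise.imp (fun {a b} hab e => by rw [e] at hab; omega) h

lemma Srt.adj {t : α → ℕ} {S₁ S₂ : List (α × Bool)} {p q r : α × Bool}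
    (h : Srt t (S₁ ++ p :: q :: S₂)) (hr : r ∈ S₁ ++ S₂) :
    decide (t p.1 < t r.1) = decide (t q.1 < t r.1) ∧
      decide (t r.1 < t q.1) = decide (t r.1 < t p.1) := by
  simp only [Srt, List.pairwise_append, List.pairwise_cons, List.mem_cons] at h
  obtain ⟨-, ⟨h1, h2, -⟩, h3⟩ := h
  have h4 := h1 q (Or.inl rfl)
  rw [decide_eq_decide, decide_eq_decide]
  rcases List.mem_append.1 hr with hr | hr
  · have := h3 r hr p (Or.inl rfl)
    omega
  · have := h2 r hr
    omega

section

variable [DecidableEq α] {t : α → ℕ}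

/-- The trivial tangle with arcs `A` (highest first) and ends in the order `L`. -/
def Tg (A : List (α × α)) (L : List (α × Bool)) : Word := base A.length ++ br 0 (fl A) L

lemma val_Tg {A : List (α × α)} {L : List (α × Bool)} (h : L.Perm (fl A)) :
    Val true [] (Tg A L) (L.map Prod.snd) := val_trans (val_base A) (val_br _ L [] h)

lemma crF (hP : IsHomfly P) {A : List (α × α)} (hs : Srt t (fl A)) (X Z : List (α × Bool))
    (p q : α × Bool) (hp : (X ++ p :: q :: Z).Perm (fl A)) :
    Rel P 1 (Tg A (X ++ p :: q :: Z) ++ [(.cr (decide (t q.1 < t p.1)), X.length)])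
      (Tg A (X ++ q :: p :: Z)) := by
  have := (br_swap hP (fun a : α × Bool => t a.1) p q _ rfl (fl A) 0 X Z hs hp).rel (base A.length)
  rwa [zero_add, ← List.append_assoc] at this

lemma swp_perm {γ : Type} (X Z : List γ) (p q : γ) : (X ++ q :: p :: Z).Perm (X ++ p :: q :: Z) :=
  (List.Perm.swap _ _ _).append_left X

lemma crB (hP : IsHomfly P) {A : List (α × α)} (hs : Srt t (fl A)) (X Z : List (α × Bool))
    (p q : α × Bool) (hp : (X ++ q :: p :: Z).Perm (fl A)) :
    Rel P 1 (Tg A (X ++ q :: p :: Z))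
      (Tg A (X ++ p :: q :: Z) ++ [(.cr (decide (t q.1 < t p.1)), X.length)]) :=
  (crF hP hs X Z p q ((swp_perm X Z q p).trans hp)).symm
    (val_trans (val_Tg ((swp_perm X Z q p).trans hp)) ((gvCr X Z p q _).2 rfl)) (val_Tg hp)

lemma pairL (hP : IsHomfly P) {A : List (α × α)} (hs : Srt t (fl A)) (X Z : List (α × Bool))
    (p q r : α × Bool) (hp : (X ++ p :: q :: r :: Z).Perm (fl A))
    (hb : decide (t p.1 < t r.1) = decide (t q.1 < t r.1)) :
    ∃ b, Rel P 1 (Tg A (X ++ p :: q :: r :: Z))
      (Tg A (X ++ r :: p :: q :: Z) ++ [(.cr b, X.length), (.cr b, X.length + 1)]) := by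
  have h1 := crB hP hs (X ++ [p]) Z r q (by simpa using hp)
  have h2 := (crB hP hs X (q :: Z) r p (by
    simpa using (swp_perm (X ++ [p]) Z q r).trans (by simpa using hp))).app
      [(.cr (decide (t q.1 < t r.1)), X.length + 1)]
  rw [hb] at h2
  simp only [List.append_assoc, List.cons_append, List.nil_append, List.length_append,
    List.length_cons, List.length_nil, zero_add] at h1 h2
  exact ⟨_, h1.trans h2⟩

lemma pairR (hP : IsHomfly P) {A : List (α × α)} (hs : Srt t (fl A)) (X Z : List (α × Bool))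
    (p q r : α × Bool) (hp : (X ++ r :: p :: q :: Z).Perm (fl A))
    (hb : decide (t r.1 < t q.1) = decide (t r.1 < t p.1)) :
    ∃ b, Rel P 1 (Tg A (X ++ r :: p :: q :: Z))
      (Tg A (X ++ p :: q :: r :: Z) ++ [(.cr b, X.length + 1), (.cr b, X.length)]) := by
  have h1 := crB hP hs X (q :: Z) p r hp
  have h2 := (crB hP hs (X ++ [p]) Z q r (by
    simpa using (swp_perm X (q :: Z) r p).trans hp)).app
      [(.cr (decide (t r.1 < t p.1)), X.length)]
  rw [hb] at h2
  simp only [List.append_assoc, List.cons_append, List.nil_append, List.length_append,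
    List.length_cons, List.length_nil, zero_add] at h1 h2
  exact ⟨_, h1.trans h2⟩

lemma ins_perm {γ : Type} {X Z S₁ S₂ : List γ} (p q : γ) (h : (X ++ Z).Perm (S₁ ++ S₂)) :
    (X ++ p :: q :: Z).Perm (S₁ ++ p :: q :: S₂) :=
  (List.perm_middle.trans (List.perm_middle.cons _)).trans
    (((h.cons _).cons _).trans (List.perm_middle.trans (List.perm_middle.cons _)).symm)

omit [DecidableEq α] in
lemma Srt.del {S₁ S₂ : List (α × Bool)} {p q : α × Bool} (h : Srt t (S₁ ++ p :: q :: S₂)) :
    Srt t (S₁ ++ S₂) :=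
  List.Pairwise.sublist (by simp) h

omit [DecidableEq α] in
lemma fl_mid (A₁ A₂ : List (α × α)) (a : α × α) :
    fl (A₁ ++ a :: A₂) = fl A₁ ++ (a.1, true) :: (a.2, false) :: fl A₂ := by rw [fl_append, fl]

lemma cupT (hP : IsHomfly P) (A₁ A₂ : List (α × α)) (a : α × α) (hs : Srt t (fl (A₁ ++ a :: A₂)))
    (X Z : List (α × Bool)) (hp : (X ++ Z).Perm (fl (A₁ ++ A₂))) :
    Rel P 1 (Tg (A₁ ++ a :: A₂) (X ++ (a.1, true) :: (a.2, false) :: Z))
      (Tg (A₁ ++ A₂) (X ++ Z) ++ [(.cup true, X.length)]) := by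
  have hs₀ := hs
  rw [fl_mid] at hs₀
  have hs' : Srt t (fl (A₁ ++ A₂)) := by rw [fl_append]; exact hs₀.del
  have hper : ∀ X Z : List (α × Bool), (X ++ Z).Perm (fl (A₁ ++ A₂)) →
      (X ++ (a.1, true) :: (a.2, false) :: Z).Perm (fl (A₁ ++ a :: A₂)) := fun X Z h => by
    rw [fl_mid]; rw [fl_append] at h; exact ins_perm _ _ h
  let D : List (α × Bool) → List (α × Bool) → Prop := fun X Z =>
    Rel P 1 (Tg (A₁ ++ a :: A₂) (X ++ (a.1, true) :: (a.2, false) :: Z))
      (Tg (A₁ ++ A₂) (X ++ Z) ++ [(.cup true, X.length)])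
  have w : ∀ X Z, (X ++ Z).Perm (fl (A₁ ++ A₂)) → (D X Z ↔ D [] (X ++ Z)) := fun X Z hM => by
    refine walk D (X ++ Z) (fun X' r Z' e => ?_) X Z rfl
    rw [← e] at hM
    have hr := hs₀.adj (r := r) (by rw [← fl_append]; exact hM.subset (by simp))
    constructor
    · intro hD
      obtain ⟨b, h1⟩ := pairL hP hs X' Z' _ _ r (hper X' (r :: Z') hM) hr.1
      have h2 := hD.app [(.cr b, X'.length), (.cr b, X'.length + 1)]
      have h3 := (((mF hP (.slideCup true b X'.length)).ctx [] [(.cr b, X'.length + 1)]).trans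
        (by simpa using (mF hP (.r2 (!b) (X'.length + 1))).ctx [(.cup true, X'.length)] [])).rel
          (Tg (A₁ ++ A₂) (X' ++ r :: Z'))
      simp only [List.append_assoc, List.cons_append, List.nil_append, List.length_append,
        List.length_cons, List.length_nil, zero_add] at h2 h3
      exact h1.trans (h2.trans h3)
    · intro hD
      obtain ⟨b, h1⟩ := pairR hP hs X' Z' _ _ r (by
        simpa using hper (X' ++ [r]) Z' (by simpa using hM)) hr.2
      have h2 := hD.app [(.cr b, X'.length + 1), (.cr b, X'.length)]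
      have h3 := (((mSlB hP true b X'.length).ctx [] [(.cr b, X'.length)]).trans
        (by simpa using (mF hP (.r2 (!b) X'.length)).ctx [(.cup true, X'.length + 1)] [])).rel
          (Tg (A₁ ++ A₂) (X' ++ r :: Z'))
      simp only [D, List.append_assoc, List.cons_append, List.nil_append, List.length_append,
        List.length_cons, List.length_nil, zero_add] at h2 h3 ⊢
      exact h1.trans (h2.trans h3)
  have h0 : D (fl A₁) (fl A₂) := by
    have h1 := (mCups hP A₁.length).rel
      ([(.cup true, 0), (.cap, 0)] ++ List.replicate A₂.length (.cup true, 0))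
    simp only [D, Tg]
    rw [← fl_mid, ← fl_append, br_self, br_self, length_fl, base, base, List.length_append,
      List.length_append, List.length_cons, add_comm A₁.length, add_comm A₁.length, add_right_comm,
      add_assoc, List.replicate_add, List.replicate_add A₂.length]
    simpa only [List.append_assoc, List.append_nil] using h1
  have h1 := (w _ _ (by rw [fl_append])).1 h0
  refine (w X Z hp).2 (permWalk (D []) (fl (A₁ ++ A₂)) (fun Y r s Y' hM hD => ?_)
    (L := fl A₁ ++ fl A₂) (L' := X ++ Z) (by rw [← fl_append]; exact hp.symm) []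
    (by rw [fl_append]; rfl) h1)
  have h2 := crB hP hs ((a.1, true) :: (a.2, false) :: Y) Y' r s
    (hper [] _ ((swp_perm Y Y' r s).trans hM))
  have h3 := hD.app [(.cr (decide (t s.1 < t r.1)), Y.length + 2)]
  have h4 := (mF hP (.comm (.cup true) (.cr (decide (t s.1 < t r.1))) 0 Y.length)).rel
    (Tg (A₁ ++ A₂) (Y ++ r :: s :: Y'))
  have h5 := (crF hP hs' Y Y' r s hM).app [(.cup true, 0)]
  simp only [List.append_assoc, List.cons_append, List.nil_append, Letter.inp, Letter.out, zero_add,
    add_zero, List.length_nil, List.length_cons] at h2 h3 h4 h5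
  exact h2.trans (h3.trans (h4.trans h5))

lemma cupF (hP : IsHomfly P) (A₁ A₂ : List (α × α)) (a : α × α) (hs : Srt t (fl (A₁ ++ a :: A₂)))
    (X Z : List (α × Bool)) (hp : (X ++ Z).Perm (fl (A₁ ++ A₂))) :
    Rel P 1 (Tg (A₁ ++ a :: A₂) (X ++ (a.2, false) :: (a.1, true) :: Z))
      (Tg (A₁ ++ A₂) (X ++ Z) ++ [(.cup false, X.length)]) := by
  have h1 := crB hP hs X Z (a.1, true) (a.2, false) (by
    rw [fl_mid]; rw [fl_append] at hp; exact (swp_perm _ _ _ _).trans (ins_perm _ _ hp))
  have h2 := (cupT hP A₁ A₂ a hs X Z hp).app [(.cr (decide (t a.2 < t a.1)), X.length)]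
  have h3 := (mR1Cup hP true (decide (t a.2 < t a.1)) X.length).rel (Tg (A₁ ++ A₂) (X ++ Z))
  simp only [List.append_assoc, List.cons_append, List.nil_append] at h2
  exact h1.trans (h2.trans h3)

lemma capSwap (hP : IsHomfly P) {A : List (α × α)} (hs : Srt t (fl A)) (X Z : List (α × Bool))
    (p q : α × Bool) (hp : (X ++ q :: p :: Z).Perm (fl A)) :
    Rel P 1 (Tg A (X ++ q :: p :: Z) ++ [(.cap, X.length)])
      (Tg A (X ++ p :: q :: Z) ++ [(.cap, X.length)]) := by
  have h1 := (crB hP hs X Z p q hp).app [(.cap, X.length)]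
  have h2 := (mR1Cap hP (decide (t q.1 < t p.1)) X.length).rel (Tg A (X ++ p :: q :: Z))
  simp only [List.append_assoc, List.cons_append, List.nil_append] at h1
  exact h1.trans h2

lemma capBrk (hP : IsHomfly P) (A₁ A₂ : List (α × α)) (a : α × α)
    (hs : Srt t (fl (A₁ ++ a :: A₂))) (X Z : List (α × Bool))
    (hp : (X ++ Z).Perm (fl (A₁ ++ A₂))) :
    Rel P dl (Tg (A₁ ++ a :: A₂) (X ++ (a.1, true) :: (a.2, false) :: Z) ++ [(.cap, X.length)])
      (Tg (A₁ ++ A₂) (X ++ Z)) := by
  refine ((cupT hP A₁ A₂ a hs X Z hp).app _).trans fun v hv => ?_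
  simp only [List.append_assoc, List.cons_append, List.nil_append] at hv ⊢
  exact eye hP _ v true _ (by simp [Tg, base]) hv

lemma capJoin (hP : IsHomfly P) (A₁ A₂ : List (α × α)) (h c' c l : α)
    (hs : Srt t (fl (A₁ ++ (h, c') :: (c, l) :: A₂))) (X Z : List (α × Bool))
    (hp : (X ++ Z).Perm (fl (A₁ ++ (h, l) :: A₂))) :
    Rel P 1 (Tg (A₁ ++ (h, c') :: (c, l) :: A₂) (X ++ (c, true) :: (c', false) :: Z) ++
      [(.cap, X.length)]) (Tg (A₁ ++ (h, l) :: A₂) (X ++ Z)) := by
  have e₁ : fl (A₁ ++ (h, c') :: (c, l) :: A₂) =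
      (fl A₁ ++ [(h, true)]) ++ (c', false) :: (c, true) :: ((l, false) :: fl A₂) := by
    simp [fl_append, fl]
  have e₂ : fl (A₁ ++ (h, l) :: A₂) = (fl A₁ ++ [(h, true)]) ++ ((l, false) :: fl A₂) := by
    simp [fl_append, fl]
  have hs₀ := hs
  rw [e₁] at hs₀
  have hper : ∀ X' Z' : List (α × Bool), X' ++ Z' = X ++ Z →
      (X' ++ (c, true) :: (c', false) :: Z').Perm (fl (A₁ ++ (h, c') :: (c, l) :: A₂)) :=
    fun X' Z' e => by
      rw [e₁]; rw [e₂, ← e] at hp
      exact (swp_perm _ _ _ _).trans (ins_perm _ _ hp)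
  let D : List (α × Bool) → List (α × Bool) → Prop := fun X' Z' =>
    Rel P 1 (Tg (A₁ ++ (h, c') :: (c, l) :: A₂) (X' ++ (c, true) :: (c', false) :: Z') ++
      [(.cap, X'.length)]) (Tg (A₁ ++ (h, l) :: A₂) (X ++ Z))
  have w := walk D (X ++ Z) fun X' r Z' e => by
    have hr := hs₀.adj (r := r) (by rw [← e₂]; exact hp.subset (by rw [← e]; simp))
    constructor
    · intro hD
      obtain ⟨b, h1⟩ := pairL hP hs X' Z' _ _ r (hper X' (r :: Z') e) hr.1.symm
      have h2 := h1.app [(.cap, X'.length)]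
      have h3 := (((mScB hP b X'.length).ctx [(.cr b, X'.length)] []).trans
        ((mF hP (.r2 b X'.length)).ctx [] [(.cap, X'.length + 1)])).rel
          (Tg (A₁ ++ (h, c') :: (c, l) :: A₂) (X' ++ r :: (c, true) :: (c', false) :: Z'))
      simp only [D, List.append_assoc, List.cons_append, List.nil_append, List.length_append,
        List.length_cons, List.length_nil, zero_add, List.append_nil] at h2 h3 hD
      exact h2.trans (h3.trans hD)
    · intro hD
      obtain ⟨b, h1⟩ := pairR hP hs X' Z' _ _ r (by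
        simpa using hper (X' ++ [r]) Z' (by simpa using e)) hr.2.symm
      have h2 := h1.app [(.cap, X'.length + 1)]
      have h3 := (((mF hP (.slideCap b X'.length)).ctx [(.cr b, X'.length + 1)] []).trans
        ((mF hP (.r2 b (X'.length + 1))).ctx [] [(.cap, X'.length)])).rel
          (Tg (A₁ ++ (h, c') :: (c, l) :: A₂) (X' ++ (c, true) :: (c', false) :: r :: Z'))
      simp only [D, List.append_assoc, List.cons_append, List.nil_append, List.length_append,
        List.length_cons, List.length_nil, zero_add, List.append_nil] at h2 h3 ⊢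
      exact h2.trans (h3.trans hD)
  obtain ⟨Y₁, Y₂, hY⟩ := List.append_of_mem (hp.symm.subset (a := (h, true)) (by simp [e₂]))
  refine (w X Z rfl).2 ((w Y₁ ((h, true) :: Y₂) hY.symm).1 ?_)
  have hq : (Y₁ ++ Y₂).Perm (fl A₁ ++ (l, false) :: fl A₂) := by
    rw [hY, fl_mid] at hp
    exact (List.perm_middle.symm.trans (hp.trans List.perm_middle)).cons_inv
  have h1 := (cupF hP A₁ ((c, l) :: A₂) (h, c') hs (Y₁ ++ [(c, true)]) Y₂ (by
    rw [fl_mid, List.append_assoc]
    exact List.perm_middle.trans ((hq.cons _).trans List.perm_middle.symm))).app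
      [(.cap, Y₁.length)]
  have h2 := (mF hP (.zig false Y₁.length)).rel (Tg (A₁ ++ (c, l) :: A₂) (Y₁ ++ (c, true) :: Y₂))
  have hn := hs₀.nodup
  have h3 : Tg (A₁ ++ (c, l) :: A₂) (Y₁ ++ (c, true) :: Y₂) = Tg (A₁ ++ (h, l) :: A₂) (X ++ Z) := by
    rw [hY, Tg, Tg, fl_mid, fl_mid, br_sub _ _ _ _ (c, true) (h, true) (by grind) (by grind) hq]
    simp
  simp only [List.append_assoc, List.cons_append, List.nil_append, List.length_append,
    List.length_cons, List.length_nil, zero_add, List.append_nil] at h1 h2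
  rw [h3] at h2
  rw [h3] at h1
  exact h1.trans h2

end

/-! The sweep. -/

/-- The arcs are layered and use up their intervals of heights. -/
structure Inv (t : α → ℕ) (I : α → Prop) (A : List (α × α)) : Prop where
  srt : Srt t (fl A)
  use : ∀ a ∈ A, ∀ n, t a.2 ≤ n → n ≤ t a.1 → ∃ e, I e ∧ t e = n

section

variable {t : α → ℕ} {I I' : α → Prop}

lemma srt_mid {A₁ A₂ : List (α × α)} {a : α × α} : Srt t (fl (A₁ ++ a :: A₂)) ↔
    Srt t (fl (A₁ ++ A₂)) ∧ t a.2 < t a.1 ∧ (∀ x ∈ fl A₁, t a.1 < t x.1) ∧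
      ∀ y ∈ fl A₂, t y.1 < t a.2 := by
  rw [fl_mid, fl_append]
  simp only [Srt, List.pairwise_append, List.pairwise_cons, List.mem_cons]
  constructor
  · rintro ⟨h1, ⟨h2, h3, h4⟩, h5⟩
    exact ⟨⟨h1, h4, fun x hx y hy => h5 x hx y (Or.inr (Or.inr hy))⟩, h2 _ (Or.inl rfl),
      fun x hx => h5 x hx _ (Or.inl rfl), h3⟩
  · rintro ⟨⟨h1, h2, h3⟩, h4, h5, h6⟩
    refine ⟨h1, ⟨?_, h6, h2⟩, ?_⟩
    · rintro y (rfl | hy)
      · exact h4
      · exact (h6 y hy).trans h4
    · rintro x hx y (rfl | rfl | hy)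
      · exact h5 x hx
      · exact h4.trans (h5 x hx)
      · exact h3 x hx y hy

lemma Srt.arc {A : List (α × α)} (h : Srt t (fl A)) {a : α × α} (ha : a ∈ A) : t a.2 < t a.1 := by
  obtain ⟨A₁, A₂, rfl⟩ := List.append_of_mem ha
  exact (srt_mid.1 h).2.1

lemma Inv.mem {A : List (α × α)} (h : Inv t I A) (ht : Function.Injective t) {x : α × Bool}
    (hx : x ∈ fl A) : I x.1 := by
  obtain ⟨a, ha, rfl | rfl⟩ := mem_fl.1 hx
  · obtain ⟨e, h1, h2⟩ := h.use a ha _ (h.srt.arc ha).le le_rfl
    exact ht h2 ▸ h1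
  · obtain ⟨e, h1, h2⟩ := h.use a ha _ le_rfl (h.srt.arc ha).le
    exact ht h2 ▸ h1

lemma Inv.mono {A : List (α × α)} (h : Inv t I A) (hI : ∀ a, I a → I' a) : Inv t I' A :=
  ⟨h.srt, fun a ha n h1 h2 => (h.use a ha n h1 h2).imp fun e he => ⟨hI e he.1, he.2⟩⟩

lemma Inv.put {A₁ A₂ : List (α × α)} {a : α × α} (h : Inv t I (A₁ ++ A₂)) (h1 : t a.2 < t a.1)
    (h2 : ∀ x ∈ fl A₁, t a.1 < t x.1) (h3 : ∀ y ∈ fl A₂, t y.1 < t a.2)
    (h4 : ∀ n, t a.2 ≤ n → n ≤ t a.1 → ∃ e, I e ∧ t e = n) : Inv t I (A₁ ++ a :: A₂) :=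
  ⟨srt_mid.2 ⟨h.srt, h1, h2, h3⟩, fun b hb => by
    rcases List.mem_append.1 hb with hb | hb
    · exact h.use b (List.mem_append_left _ hb)
    · rcases List.mem_cons.1 hb with rfl | hb
      · exact h4
      · exact h.use b (List.mem_append_right _ hb)⟩

lemma Inv.del {A₁ A₂ : List (α × α)} {a : α × α} (h : Inv t I (A₁ ++ a :: A₂)) :
    Inv t I (A₁ ++ A₂) :=
  ⟨(srt_mid.1 h.srt).1, fun b hb => h.use b (by
    rcases List.mem_append.1 hb with hb | hb <;> simp [hb])⟩

lemma Inv.gap {A : List (α × α)} (h : Inv t I A) (ht : Function.Injective t) {c c' : α}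
    (hc : ¬ I c) (hc' : ¬ I c') (e : t c' = t c + 1) :
    ∃ A₁ A₂, A = A₁ ++ A₂ ∧ (∀ x ∈ fl A₁, t c' < t x.1) ∧ ∀ y ∈ fl A₂, t y.1 < t c := by
  induction A with
  | nil => exact ⟨[], [], rfl, by simp [fl], by simp [fl]⟩
  | cons a A ih =>
    obtain ⟨-, h1, -, h2⟩ := (srt_mid (A₁ := [])).1 h.srt
    by_cases h3 : t a.1 < t c
    · refine ⟨[], a :: A, rfl, by simp [fl], fun y hy => ?_⟩
      rcases List.mem_cons.1 hy with rfl | hy
      · exact h3
      rcases List.mem_cons.1 hy with rfl | hy
      · exact h1.trans h3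
      · exact ((h2 y hy).trans h1).trans h3
    · obtain ⟨A₁, A₂, rfl, h4, h5⟩ := ih (Inv.del (A₁ := []) h)
      have h6 : t c' < t a.2 := by
        by_contra h6
        by_cases h7 : t a.2 ≤ t c
        · obtain ⟨x, h8, h9⟩ := h.use a List.mem_cons_self (t c) h7 (by omega)
          exact hc (ht h9 ▸ h8)
        · obtain ⟨x, h8, h9⟩ := h.use a List.mem_cons_self (t c') (by omega) (by omega)
          exact hc' (ht h9 ▸ h8)
      refine ⟨a :: A₁, A₂, rfl, fun x hx => ?_, h5⟩
      rcases List.mem_cons.1 hx with rfl | hx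
      · exact h6.trans h1
      rcases List.mem_cons.1 hx with rfl | hx
      · exact h6
      · exact h4 x hx

lemma fl_true {A : List (α × α)} {c : α} (h : (c, true) ∈ fl A) :
    ∃ A₁ l A₂, A = A₁ ++ (c, l) :: A₂ := by
  obtain ⟨⟨a, l⟩, ha, h' | h'⟩ := mem_fl.1 h
  · obtain rfl : c = a := congrArg Prod.fst h'
    obtain ⟨A₁, A₂, e⟩ := List.append_of_mem ha
    exact ⟨A₁, l, A₂, e⟩
  · simp at h'

lemma fl_false {A : List (α × α)} {c : α} (h : (c, false) ∈ fl A) :
    ∃ A₁ l A₂, A = A₁ ++ (l, c) :: A₂ := by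
  obtain ⟨⟨a, l⟩, ha, h' | h'⟩ := mem_fl.1 h
  · simp at h'
  · obtain rfl : c = l := congrArg Prod.fst h'
    obtain ⟨A₁, A₂, e⟩ := List.append_of_mem ha
    exact ⟨A₁, a, A₂, e⟩

lemma del_perm {γ : Type} {X Z S₁ S₂ : List γ} {p q : γ}
    (h : (X ++ p :: q :: Z).Perm (S₁ ++ p :: q :: S₂)) : (X ++ Z).Perm (S₁ ++ S₂) :=
  (((List.perm_middle.trans (List.perm_middle.cons _)).symm.trans h).trans
    (List.perm_middle.trans (List.perm_middle.cons _))).cons_inv.cons_inv

lemma sub_perm {γ : Type} {X Z S₁ S₂ : List γ} {p : γ}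
    (h : (X ++ p :: Z).Perm (S₁ ++ p :: S₂)) : (X ++ Z).Perm (S₁ ++ S₂) :=
  ((List.perm_middle.symm.trans h).trans List.perm_middle).cons_inv

lemma put_perm {γ : Type} {X Z S₁ S₂ : List γ} (p : γ) (h : (X ++ Z).Perm (S₁ ++ S₂)) :
    (X ++ p :: Z).Perm (S₁ ++ p :: S₂) :=
  List.perm_middle.trans ((h.cons _).trans List.perm_middle.symm)

variable [DecidableEq α]

/-- The state of the sweep. -/
structure Stt (π : α → α) (t : α → ℕ) (L : List (α × Bool)) (I : α → Prop) (D : List α)
    (A : List (α × α)) : Prop where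
  perm : L.Perm (fl A)
  inv : Inv t I A
  done : ∀ e ∈ D, I e ∧ I (π e)
  new : ∀ e, (e, true) ∈ L → e ∉ D

/-- The step at `c` closes a component. -/
def Brk (π : α → α) (t : α → ℕ) (D : List α) (c : α) : Prop :=
  t (π c) ≤ t c ∧ ∀ e, t (π c) ≤ t e → t e < t c → t (π e) = t e + 1 ∧ e ∈ D

/-- Number of closed components. -/
def nb (π : α → α) (t : α → ℕ) (D : List α) : ℕ :=
  (D.toFinset.filter fun c => t (π c) ≠ t c + 1).card

lemma nb_eq {D : List α} {c : α} (h : t (π c) = t c + 1) : nb π t (D ++ [c]) = nb π t D := by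
  rw [nb, nb, List.toFinset_append, Finset.filter_union]
  simp [Finset.filter_singleton, h]

lemma nb_succ {D : List α} {c : α} (h : t (π c) ≤ t c) (hc : c ∉ D) :
    nb π t (D ++ [c]) = nb π t D + 1 := by
  have h' : t (π c) ≠ t c + 1 := by omega
  have e : (D ++ [c]).toFinset = insert c D.toFinset := by ext; simp
  rw [nb, nb, e, Finset.filter_insert, if_pos h', Finset.card_insert_of_notMem (by simp [hc])]

lemma capStep (hP : IsHomfly P) (ht : Function.Injective t) {X Z : List (α × Bool)} {c : α}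
    {D : List α} {A : List (α × α)} (h : Stt π t (X ++ (c, true) :: (π c, false) :: Z) I D A)
    (hc : t (π c) = t c + 1 ∨ Brk π t D c) :
    ∃ A' κ, Stt π t (X ++ Z) I (D ++ [c]) A' ∧ dl ^ nb π t D * κ = dl ^ nb π t (D ++ [c]) ∧
      Rel P κ (Tg A (X ++ (c, true) :: (π c, false) :: Z) ++ [(.cap, X.length)])
        (Tg A' (X ++ Z)) := by
  have m1 : (c, true) ∈ fl A := h.perm.subset (by simp)
  have m2 : (π c, false) ∈ fl A := h.perm.subset (by simp)
  have hn := h.perm.nodup_iff.2 h.inv.srt.nodup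
  have hd : ∀ e ∈ D ++ [c], I e ∧ I (π e) := fun e he => by
    rcases List.mem_append.1 he with he | he
    · exact h.done e he
    · rw [List.mem_singleton.1 he]
      exact ⟨h.inv.mem ht m1, h.inv.mem ht m2⟩
  have hw : ∀ e, (e, true) ∈ X ++ Z → e ∉ D ++ [c] := fun e he he' => by
    rcases List.mem_append.1 he' with he' | he'
    · exact h.new e (by grind) he'
    · rw [List.mem_singleton.1 he'] at he
      grind
  rcases hc with hc | hc
  · obtain ⟨A₁, g, A₂, rfl⟩ := fl_false m2
    obtain ⟨-, s1, s2, s3⟩ := srt_mid.1 h.inv.srt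
    have m3 : (c, true) ∈ fl A₂ := by
      rw [fl_mid, List.mem_append, List.mem_cons, List.mem_cons] at m1
      rcases m1 with m1 | m1 | m1 | m1
      · have := s2 _ m1
        simp only at this s1; omega
      · obtain rfl : c = g := congrArg Prod.fst m1
        simp only at s1; omega
      · simp at m1
      · exact m1
    obtain ⟨B₁, l, B₂, rfl⟩ := fl_true m3
    obtain rfl : B₁ = [] := by
      rcases B₁ with _ | ⟨y, B₁⟩
      · rfl
      have h1 := s3 (y.1, true) (by simp [fl])
      have h2 := (srt_mid (A₁ := A₁ ++ (g, π c) :: y :: B₁) (A₂ := B₂) (a := (c, l))).1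
        (by simpa using h.inv.srt)
      have h3 := h2.2.2.1 (y.1, true) (by simp [fl_append, fl])
      simp only at h1 h3; omega
    have hI := Inv.del (A₁ := A₁ ++ [(g, π c)]) (a := (c, l)) (A₂ := B₂) (by simpa using h.inv)
    have h2 := (srt_mid (A₁ := A₁ ++ [(g, π c)]) (A₂ := B₂) (a := (c, l))).1
      (by simpa using h.inv.srt)
    have hp : (X ++ Z).Perm (fl (A₁ ++ (g, l) :: B₂)) := by
      have h3 := (swp_perm _ _ _ _).trans h.perm
      have h4 := del_perm (S₁ := fl A₁ ++ [(g, true)]) (S₂ := (l, false) :: fl B₂)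
        (by simpa [fl_append, fl] using h3)
      simpa [fl_append, fl] using h4
    refine ⟨A₁ ++ (g, l) :: B₂, 1, ⟨hp, ?_, hd, hw⟩, by rw [nb_eq hc, mul_one],
      capJoin hP A₁ B₂ g (π c) c l h.inv.srt X Z hp⟩
    have h5 := h2.2.1
    simp only at h5 s1
    refine Inv.put (Inv.del (A₁ := A₁) (a := (g, π c)) (by simpa using hI)) (by simp only; omega)
      s2 h2.2.2.2 fun n h6 h7 => ?_
    by_cases h8 : n ≤ t c
    · exact h.inv.use (c, l) (by simp) n h6 h8
    · exact h.inv.use (g, π c) (by simp) n (by simp only; omega) h7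
  · obtain ⟨A₁, l, A₂, rfl⟩ := fl_true m1
    obtain ⟨-, s1, s2, s3⟩ := srt_mid.1 h.inv.srt
    have h1 := hc.1
    obtain rfl : l = π c := by
      rw [fl_mid, List.mem_append, List.mem_cons, List.mem_cons] at m2
      rcases m2 with m2 | m2 | m2 | m2
      · have := s2 _ m2
        simp only at this; omega
      · simp at m2
      · exact (congrArg Prod.fst m2).symm
      · obtain ⟨B₁, g, B₂, rfl⟩ := fl_false m2
        have h2 := h.inv.srt.arc (a := (g, π c)) (by simp)
        have h3 := s3 (g, true) (by simp [fl_append, fl])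
        simp only at h2 h3 s1
        exact absurd (hc.2 g h2.le (by omega)).2
          (h.new g (h.perm.symm.subset (by simp [fl_append, fl])))
    have hp : (X ++ Z).Perm (fl (A₁ ++ A₂)) := by
      have h3 := h.perm
      rw [fl_mid] at h3
      rw [fl_append]
      exact del_perm h3
    exact ⟨A₁ ++ A₂, dl, ⟨hp, h.inv.del, hd, hw⟩,
      by rw [nb_succ h1 (h.new c (by simp)), pow_succ],
      capBrk hP A₁ A₂ (c, π c) h.inv.srt X Z hp⟩

omit [DecidableEq α] in
lemma cupStep (ht : Function.Injective t) {X Z : List (α × Bool)} {c : α}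
    {D : List α} {A : List (α × α)} (h : Stt π t (X ++ Z) I D A) (h1 : ¬ I c) (h2 : ¬ I (π c))
    (h3 : π c ≠ c) (hc : t (π c) = t c + 1 ∨ Brk π t D c) :
    t (π c) = t c + 1 ∧ ∃ A₁ A₂, A = A₁ ++ A₂ ∧ Stt π t (X ++ (π c, true) :: (c, false) :: Z)
      (fun a => a = c ∨ a = π c ∨ I a) (D ++ [c]) (A₁ ++ (π c, c) :: A₂) := by
  have e : t (π c) = t c + 1 := hc.resolve_right fun hb =>
    h2 (h.done _ (hb.2 _ le_rfl (lt_of_le_of_ne hb.1 (ht.ne h3))).2).1
  obtain ⟨A₁, A₂, rfl, h4, h5⟩ := h.inv.gap ht h1 h2 e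
  refine ⟨e, A₁, A₂, rfl, ?_, ?_, fun x hx => ?_, fun x hx hx' => ?_⟩
  · rw [fl_mid]
    exact ins_perm _ _ (fl_append A₁ A₂ ▸ h.perm)
  · refine (h.inv.mono fun a ha => Or.inr (Or.inr ha)).put (by simp only; omega) h4 h5
      fun n h6 h7 => ?_
    simp only at h6 h7
    by_cases h8 : n = t c
    · exact ⟨c, Or.inl rfl, h8.symm⟩
    · exact ⟨π c, Or.inr (Or.inl rfl), by omega⟩
  · rcases List.mem_append.1 hx with hx | hx
    · exact ⟨Or.inr (Or.inr (h.done x hx).1), Or.inr (Or.inr (h.done x hx).2)⟩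
    · rw [List.mem_singleton.1 hx]
      exact ⟨Or.inl rfl, Or.inr (Or.inl rfl)⟩
  · have h6 : x = π c ∨ (x, true) ∈ X ++ Z := by grind
    rcases List.mem_append.1 hx' with hx' | hx'
    · rcases h6 with rfl | h6
      · exact h2 (h.done _ hx').1
      · exact h.new x h6 hx'
    · rw [List.mem_singleton.1 hx'] at h6
      rcases h6 with h6 | h6
      · exact h3 h6.symm
      · exact h1 (h.inv.mem ht (h.perm.subset h6))

lemma fwdStep (ht : Function.Injective t) {X Z : List (α × Bool)} {c : α}
    {D : List α} {A : List (α × α)} (h : Stt π t (X ++ (c, true) :: Z) I D A) (h2 : ¬ I (π c))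
    (hc : t (π c) = t c + 1 ∨ Brk π t D c) :
    t (π c) = t c + 1 ∧ ∃ A', Stt π t (X ++ (π c, true) :: Z) (fun a => a = π c ∨ I a)
      (D ++ [c]) A' ∧ Tg A (X ++ (c, true) :: Z) = Tg A' (X ++ (π c, true) :: Z) := by
  have m1 : (c, true) ∈ fl A := h.perm.subset (by simp)
  have h1 : I c := h.inv.mem ht m1
  have h3 : π c ≠ c := fun e => h2 (e.symm ▸ h1)
  have e : t (π c) = t c + 1 := hc.resolve_right fun hb =>
    h2 (h.done _ (hb.2 _ le_rfl (lt_of_le_of_ne hb.1 (ht.ne h3))).2).1
  have hn := h.perm.nodup_iff.2 h.inv.srt.nodup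
  obtain ⟨A₁, l, A₂, rfl⟩ := fl_true m1
  obtain ⟨-, s1, s2, s3⟩ := srt_mid.1 h.inv.srt
  have hp := h.perm
  have hn' := h.inv.srt.nodup
  have hm : (π c, true) ∉ fl (A₁ ++ (c, l) :: A₂) := fun hm => h2 (h.inv.mem ht hm)
  rw [fl_mid] at hp hn' hm
  refine ⟨e, A₁ ++ (π c, l) :: A₂, ⟨?_, ?_, fun x hx => ?_, fun x hx hx' => ?_⟩, ?_⟩
  · rw [fl_mid]
    exact put_perm _ (sub_perm hp)
  · simp only at s1 s2
    refine (h.inv.del.mono fun a ha => Or.inr ha).put (by simp only; omega) (fun x hx => ?_) s3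
      fun n h6 h7 => ?_
    · have h4 := s2 x hx
      have h5 : x.1 ≠ π c := fun e' => h2 (e' ▸ h.inv.mem ht (x := x) (by simp [fl_append, hx]))
      have h6 := ht.ne h5
      simp only; omega
    · simp only at h6 h7
      by_cases h8 : n = t (π c)
      · exact ⟨π c, Or.inl rfl, h8.symm⟩
      · exact (h.inv.use (c, l) (by simp) n h6 (by simp only; omega)).imp
          fun x hx => ⟨Or.inr hx.1, hx.2⟩
  · rcases List.mem_append.1 hx with hx | hx
    · exact ⟨Or.inr (h.done x hx).1, Or.inr (h.done x hx).2⟩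
    · rw [List.mem_singleton.1 hx]
      exact ⟨Or.inr h1, Or.inl rfl⟩
  · have h6 : x = π c ∨ (x, true) ∈ X ++ Z := by grind
    rcases List.mem_append.1 hx' with hx' | hx'
    · rcases h6 with rfl | h6
      · exact h2 (h.done _ hx').1
      · exact h.new x (by grind) hx'
    · rw [List.mem_singleton.1 hx'] at h6
      grind
  · rw [Tg, Tg, fl_mid, fl_mid, br_sub _ _ _ _ (c, true) (π c, true) (by grind) (by grind)
      (sub_perm hp)]
    simp

lemma bwdStep (ht : Function.Injective t) {X Z : List (α × Bool)} {c : α}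
    {D : List α} {A : List (α × α)} (h : Stt π t (X ++ (π c, false) :: Z) I D A) (h1 : ¬ I c)
    (hc : t (π c) = t c + 1 ∨ Brk π t D c) :
    t (π c) = t c + 1 ∧ ∃ A', Stt π t (X ++ (c, false) :: Z) (fun a => a = c ∨ I a)
      (D ++ [c]) A' ∧ Tg A (X ++ (π c, false) :: Z) = Tg A' (X ++ (c, false) :: Z) := by
  have m1 : (π c, false) ∈ fl A := h.perm.subset (by simp)
  have h2 : I (π c) := h.inv.mem ht m1
  have e : t (π c) = t c + 1 := hc.resolve_right fun hb => by
    have key : ∀ k, t (π c) + k ≤ t c → ∃ e, I e ∧ t e = t (π c) + k := fun k => by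
      induction k with
      | zero => exact fun _ => ⟨π c, h2, rfl⟩
      | succ k ih =>
        intro hk
        obtain ⟨x, -, hx⟩ := ih (by omega)
        obtain ⟨h3, h4⟩ := hb.2 x (by omega) (by omega)
        exact ⟨π x, (h.done x h4).2, by omega⟩
    obtain ⟨k, hk⟩ := Nat.exists_eq_add_of_le hb.1
    obtain ⟨x, h3, h4⟩ := key k hk.ge
    exact h1 (ht (h4.trans hk.symm) ▸ h3)
  obtain ⟨A₁, g, A₂, rfl⟩ := fl_false m1
  obtain ⟨-, s1, s2, s3⟩ := srt_mid.1 h.inv.srt
  have ef : ∀ x : α, fl (A₁ ++ (g, x) :: A₂) = (fl A₁ ++ [(g, true)]) ++ (x, false) :: fl A₂ :=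
    fun x => by simp [fl_append, fl]
  have hp := h.perm
  have hn' := h.inv.srt.nodup
  have hm : (c, false) ∉ fl (A₁ ++ (g, π c) :: A₂) := fun hm => h1 (h.inv.mem ht hm)
  rw [ef] at hp hn' hm
  refine ⟨e, A₁ ++ (g, c) :: A₂, ⟨?_, ?_, fun x hx => ?_, fun x hx hx' => ?_⟩, ?_⟩
  · rw [ef]
    exact put_perm _ (sub_perm hp)
  · simp only at s1 s3
    refine (h.inv.del.mono fun a ha => Or.inr ha).put (by simp only; omega) s2 (fun x hx => ?_)
      fun n h6 h7 => ?_
    · have h4 := s3 x hx
      have h5 : x.1 ≠ c := fun e' => h1 (e' ▸ h.inv.mem ht (x := x) (by simp [fl_append, fl, hx]))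
      have h6 := ht.ne h5
      simp only; omega
    · simp only at h6 h7
      by_cases h8 : n = t c
      · exact ⟨c, Or.inl rfl, h8.symm⟩
      · exact (h.inv.use (g, π c) (by simp) n (by simp only; omega) h7).imp
          fun x hx => ⟨Or.inr hx.1, hx.2⟩
  · rcases List.mem_append.1 hx with hx | hx
    · exact ⟨Or.inr (h.done x hx).1, Or.inr (h.done x hx).2⟩
    · rw [List.mem_singleton.1 hx]
      exact ⟨Or.inl rfl, Or.inr h2⟩
  · have h6 : (x, true) ∈ X ++ (π c, false) :: Z := by grind
    rcases List.mem_append.1 hx' with hx' | hx'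
    · exact h.new x h6 hx'
    · rw [List.mem_singleton.1 hx'] at h6
      exact h1 (h.inv.mem ht (h.perm.subset h6))
  · rw [Tg, Tg, ef, ef, br_sub _ _ _ _ (π c, false) (c, false) (by grind) (by grind)
      (sub_perm hp)]
    simp

omit [DecidableEq α] in
lemma Stt.swp {X Z : List (α × Bool)} {p q : α × Bool} {D : List α} {A : List (α × α)}
    (h : Stt π t (X ++ p :: q :: Z) I D A) : Stt π t (X ++ q :: p :: Z) I D A :=
  ⟨(swp_perm _ _ _ _).trans h.perm, h.inv, h.done,
    fun e he => h.new e ((swp_perm _ _ _ _).subset he)⟩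

lemma sweep (hP : IsHomfly P) (ht : Function.Injective t) (hov : ∀ a b, ov a b → t b < t a)
    {L : List (α × Bool)} {W : Word} {S : List α} (hc : Cert π ov L I W S) :
    ∀ D A, Stt π t L I D A →
      (∀ c R R', S = R ++ c :: R' → t (π c) = t c + 1 ∨ Brk π t (D ++ R) c) →
      dl ^ nb π t D * P (Tg A L ++ W) = dl ^ nb π t (D ++ S) := by
  have nxt : ∀ {D S : List α} {c : α},
      (∀ c' R R', c :: S = R ++ c' :: R' → t (π c') = t c' + 1 ∨ Brk π t (D ++ R) c') →
      (t (π c) = t c + 1 ∨ Brk π t D c) ∧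
        ∀ c' R R', S = R ++ c' :: R' → t (π c') = t c' + 1 ∨ Brk π t (D ++ [c] ++ R) c' :=
    fun {D S c} h => ⟨by simpa using h c [] S rfl,
      fun c' R R' e => by simpa using h c' (c :: R) R' (by rw [e]; rfl)⟩
  induction hc with
  | nil I =>
    intro D A h _
    obtain rfl : A = [] := by
      have := h.perm.length_eq
      rw [length_fl, List.length_nil] at this
      exact List.length_eq_zero_iff.1 (by omega)
    simp [Tg, base, fl, br, hP.circle]
  | weak hI _ ih =>
    intro D A h
    exact ih D A ⟨h.perm, h.inv.mono hI, fun e he => ⟨hI _ (h.done e he).1, hI _ (h.done e he).2⟩,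
      h.new⟩
  | fwd X Z c h1 _ ih =>
    intro D A h hS
    obtain ⟨e, A', h2, h3⟩ := fwdStep ht h h1 (nxt hS).1
    have := ih _ A' h2 (nxt hS).2
    rwa [nb_eq e, ← h3, List.append_assoc] at this
  | bwd X Z c h1 _ ih =>
    intro D A h hS
    obtain ⟨e, A', h2, h3⟩ := bwdStep ht h h1 (nxt hS).1
    have := ih _ A' h2 (nxt hS).2
    rwa [nb_eq e, ← h3, List.append_assoc] at this
  | cupT X Z c h1 h2 h3 hc ih =>
    intro D A h hS
    obtain ⟨e, A₁, A₂, rfl, h4⟩ := cupStep ht h h1 h2 h3 (nxt hS).1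
    have := ih _ _ h4 (nxt hS).2
    rwa [nb_eq e, (cupT hP A₁ A₂ _ h4.inv.srt X Z h.perm _ (val_trans (val_Tg h4.perm) hc.val)).2,
      one_mul, List.append_assoc, List.append_assoc] at this
  | cupF X Z c h1 h2 h3 hc ih =>
    intro D A h hS
    obtain ⟨e, A₁, A₂, rfl, h4⟩ := cupStep ht h h1 h2 h3 (nxt hS).1
    have := ih _ _ h4.swp (nxt hS).2
    rwa [nb_eq e, (cupF hP A₁ A₂ _ h4.inv.srt X Z h.perm _
      (val_trans (val_Tg h4.swp.perm) hc.val)).2, one_mul, List.append_assoc,
      List.append_assoc] at this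
  | @capT X Z c I W S hc ih =>
    intro D A h hS
    obtain ⟨A', κ, h1, h2, h3⟩ := capStep hP ht h (nxt hS).1
    have h4 := ih _ _ h1 (nxt hS).2
    have h5 := (h3 W (by
      rw [List.append_assoc]; exact val_trans (val_Tg h.perm) (Cert.capT X Z c hc).val)).2
    rw [List.append_assoc] at h4 h5
    exact (congrArg _ h5).trans (by rw [← mul_assoc, h2]; exact h4)
  | @capF X Z c I W S hc ih =>
    intro D A h hS
    obtain ⟨A', κ, h1, h2, h3⟩ := capStep hP ht h.swp (nxt hS).1
    have h4 := ih _ _ h1 (nxt hS).2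
    have h5 := ((capSwap hP h.inv.srt X Z _ _ h.perm).trans h3 W (by
      rw [List.append_assoc]; exact val_trans (val_Tg h.perm) (Cert.capF X Z c hc).val)).2
    rw [List.append_assoc] at h4 h5
    exact (congrArg _ h5).trans (by rw [← mul_assoc, h2]; exact h4)
  | @cr X Z p q b I W S h1 hc ih =>
    intro D A h hS
    have h2 := ih _ _ h.swp hS
    obtain rfl : b = decide (t q.1 < t p.1) := by
      cases b
      · have := hov _ _ h1
        exact (decide_eq_false (by omega)).symm
      · exact (decide_eq_true (hov _ _ h1)).symm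
    have h5 := (crF hP h.inv.srt X Z p q h.perm W (by
      rw [List.append_assoc]; exact val_trans (val_Tg h.perm) (Cert.cr X Z p q _ h1 hc).val)).2
    rw [List.append_assoc, one_mul] at h5
    exact (congrArg _ h5).trans h2

end

end Geo

open Geo in
theorem geo [DecidableEq α] (hP : IsHomfly P) {W : Word} {S : List α}
    (hc : Cert π ov [] (fun _ => False) W S) (hne : W ≠ []) (t : α → ℕ)
    (ht : Function.Injective t) (hov : ∀ a b, ov a b → t b < t a)
    (htr : ∀ c ∈ S, t (π c) = t c + 1 ∨ (t (π c) ≤ t c ∧ ∀ e, t (π c) ≤ t e → t e < t c →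
      t (π e) = t e + 1 ∧ S.idxOf e < S.idxOf c)) :
    dl * P W = dl ^ (S.toFinset.filter fun c => t (π c) ≠ t c + 1).card := by
  have h1 := sweep hP ht hov hc [] [] ⟨List.Perm.nil, ⟨List.Pairwise.nil, by simp⟩, by simp,
    by simp⟩ (fun c R R' e => (htr c (by simp [e])).imp id fun h => ⟨h.1, fun x h2 h3 => by
      refine ⟨(h.2 x h2 h3).1, ?_⟩
      have h4 := (h.2 x h2 h3).2
      by_contra h5
      rw [List.nil_append] at h5
      rw [e, List.idxOf_append_of_notMem h5] at h4
      have h6 : (R ++ c :: R').idxOf c ≤ R.length := by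
        by_cases h7 : c ∈ R
        · rw [List.idxOf_append_of_mem h7]; exact List.idxOf_le_length
        · rw [List.idxOf_append_of_notMem h7]; simp
      omega⟩)
  have h2 := eye hP [] W true 0 hne ((V.eye (u := []) (Nat.zero_le _)).2 hc.val)
  rw [show nb π t [] = 0 from rfl, pow_zero, one_mul] at h1
  exact h2.2.symm.trans h1

end Pool.Agent.Lib.MP_3a4f2f_gt.H39
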