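import Pool.Agent.Lib.MP_3a4f2f_gt.H39.Model
import Pool.Agent.Lib.MP_3a4f2f_gt.H39.Geo

/-! The sweep of a doubled word. -/

set_option autoImplicit false

namespace Pool.Agent.Lib.MP_3a4f2f_gt.H39

section Gen

variable {α : Type} {π : α → α} {ov : α → α → Prop} {I : α → Prop} {W : Word} {S : List α}

theorem Cert.fwd' (X Z : List (α × Bool)) {c d : α} (e : π c = d) (hd : ¬ I d)
    (h : Cert π ov (X ++ (d, true) :: Z) (fun a => a = d ∨ I a) W S) :
    Cert π ov (X ++ (c, true) :: Z) I W (c :: S) := by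
  subst e; exact .fwd X Z c hd h

theorem Cert.bwd' (X Z : List (α × Bool)) {c d : α} (e : π c = d) (hc : ¬ I c)
    (h : Cert π ov (X ++ (c, false) :: Z) (fun a => a = c ∨ I a) W S) :
    Cert π ov (X ++ (d, false) :: Z) I W (c :: S) := by
  subst e; exact .bwd X Z c hc h

theorem Cert.fwd2 (X Z : List (α × Bool)) (x : α × Bool) {c d : α} (e : π c = d) (hd : ¬ I d)
    (h : Cert π ov (X ++ x :: (d, true) :: Z) (fun a => a = d ∨ I a) W S) :
    Cert π ov (X ++ x :: (c, true) :: Z) I W (c :: S) := by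
  have := Cert.fwd' (X ++ [x]) Z e hd (by simpa using h)
  simpa using this

theorem Cert.bwd2 (X Z : List (α × Bool)) (x : α × Bool) {c d : α} (e : π c = d) (hc : ¬ I c)
    (h : Cert π ov (X ++ x :: (c, false) :: Z) (fun a => a = c ∨ I a) W S) :
    Cert π ov (X ++ x :: (d, false) :: Z) I W (c :: S) := by
  have := Cert.bwd' (X ++ [x]) Z e hc (by simpa using h)
  simpa using this

theorem Cert.cupT' (X Z : List (α × Bool)) {c d : α} {n : ℕ} (hn : X.length = n) (e : π c = d)
    (hc : ¬ I c) (hd : ¬ I d) (hne : d ≠ c)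
    (h : Cert π ov (X ++ (d, true) :: (c, false) :: Z) (fun a => a = c ∨ a = d ∨ I a) W S) :
    Cert π ov (X ++ Z) I ((.cup true, n) :: W) (c :: S) := by
  subst e hn; exact .cupT X Z c hc hd hne h

theorem Cert.cupF' (X Z : List (α × Bool)) {c d : α} {n : ℕ} (hn : X.length = n) (e : π c = d)
    (hc : ¬ I c) (hd : ¬ I d) (hne : d ≠ c)
    (h : Cert π ov (X ++ (c, false) :: (d, true) :: Z) (fun a => a = c ∨ a = d ∨ I a) W S) :
    Cert π ov (X ++ Z) I ((.cup false, n) :: W) (c :: S) := by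
  subst e hn; exact .cupF X Z c hc hd hne h

theorem Cert.capT' (X Z : List (α × Bool)) {c d : α} {n : ℕ} (hn : X.length = n) (e : π c = d)
    (h : Cert π ov (X ++ Z) I W S) :
    Cert π ov (X ++ (c, true) :: (d, false) :: Z) I ((.cap, n) :: W) (c :: S) := by
  subst e hn; exact .capT X Z c h

theorem Cert.capF' (X Z : List (α × Bool)) {c d : α} {n : ℕ} (hn : X.length = n) (e : π c = d)
    (h : Cert π ov (X ++ Z) I W S) :
    Cert π ov (X ++ (d, false) :: (c, true) :: Z) I ((.cap, n) :: W) (c :: S) := by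
  subst e hn; exact .capF X Z c h

theorem Cert.cr' (X Z : List (α × Bool)) (p q : α × Bool) (b : Bool) {n : ℕ} (hn : X.length = n)
    (ho : if b then ov p.1 q.1 else ov q.1 p.1) (h : Cert π ov (X ++ q :: p :: Z) I W S) :
    Cert π ov (X ++ p :: q :: Z) I ((.cr b, n) :: W) S := by
  subst hn; exact .cr X Z p q b ho h

/-- The data of one corner of a doubled crossing. -/
structure Cor (π : α → α) (ov : α → α → Prop) (v : Option Bool) (a r o r' : α) : Prop where
  ea : π a = if v = none then o else r'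
  er : π r = if v = none then r' else o
  h4 : v = some true → ov a r
  h5 : v = some false → ov r a

variable {v : Option Bool} {a r o r' : α}

theorem Cor.pos {β : Bool} (hc : Cor π ov (some β) a r o r') :
    if β then ov a r else ov r a := by
  cases β
  · simpa using hc.h5 rfl
  · simpa using hc.h4 rfl

theorem Cor.neg {β : Bool} (hc : Cor π ov (some β) a r o r') :
    if (!β) then ov r a else ov a r := by
  cases β
  · simpa using hc.h5 rfl
  · simpa using hc.h4 rfl

theorem corL (hc : Cor π ov v a r o r') (X Z : List (α × Bool)) {n : ℕ} (hn : X.length = n)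
    (h1 : ¬ I r) (h2 : ¬ I r') (hne : r' ≠ r)
    (h : Cert π ov (X ++ (r', true) :: (r, false) :: Z) (fun c => c = r ∨ c = r' ∨ I c) W S) :
    Cert π ov (X ++ (o, false) :: (a, true) :: Z) I (cA true v n ++ W)
      ((if v.isSome then [r, a] else [a, r]) ++ S) := by
  cases v with
  | none =>
    exact .capF' X Z hn (by simpa using hc.ea) (.cupT' X Z hn (by simpa using hc.er) h1 h2 hne h)
  | some β =>
    refine .bwd' X _ (by simpa using hc.er) h1 (.cr' X Z (r, false) (a, true) _ hn hc.neg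
      (.fwd' X _ (d := r') (by simpa using hc.ea) (by simp [h2, hne]) (.weak ?_ h)))
    tauto

theorem corR (hc : Cor π ov v a r o r') (X Z : List (α × Bool)) {n : ℕ} (hn : X.length = n)
    (h1 : ¬ I a) (h2 : ¬ I o) (hne : o ≠ a)
    (h : Cert π ov (X ++ (a, false) :: (o, true) :: Z) (fun c => c = a ∨ c = o ∨ I c) W S) :
    Cert π ov (X ++ (r, true) :: (r', false) :: Z) I (cA false v n ++ W)
      ((if v.isSome then [a, r] else [r, a]) ++ S) := by
  cases v with
  | none =>
    exact .capT' X Z hn (by simpa using hc.er) (.cupF' X Z hn (by simpa using hc.ea) h1 h2 hne h)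
  | some β =>
    refine .bwd2 X _ _ (by simpa using hc.ea) h1 (.cr' X Z (r, true) (a, false) _ hn hc.neg
      (.fwd2 X _ _ (d := o) (by simpa using hc.er) (by simp [h2, hne]) (.weak ?_ h)))
    tauto

theorem corT (hc : Cor π ov v a r o r') (X Z : List (α × Bool)) {n : ℕ} (hn : X.length = n)
    (h1 : ¬ I o) (h2 : ¬ I r') (hne : r' ≠ o)
    (h : Cert π ov (X ++ (o, true) :: (r', true) :: Z) (fun c => c = o ∨ c = r' ∨ I c) W S) :
    Cert π ov (X ++ (a, true) :: (r, true) :: Z) I (cP v n ++ W) (a :: r :: S) := by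
  cases v with
  | none =>
    refine .fwd' X _ (d := o) (by simpa using hc.ea) h1
      (.fwd2 X _ _ (d := r') (by simpa using hc.er) (by simp [h2, hne]) (.weak ?_ h))
    tauto
  | some β =>
    refine .cr' X Z (a, true) (r, true) _ hn hc.pos
      (.fwd2 X _ _ (d := r') (by simpa using hc.ea) h2
      (.fwd' X _ (d := o) (by simpa using hc.er) (by simp [h1, hne.symm]) (.weak ?_ h)))
    tauto

theorem corB (hc : Cor π ov v a r o r') (X Z : List (α × Bool)) {n : ℕ} (hn : X.length = n)
    (h1 : ¬ I a) (h2 : ¬ I r) (hne : r ≠ a)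
    (h : Cert π ov (X ++ (r, false) :: (a, false) :: Z) (fun c => c = a ∨ c = r ∨ I c) W S) :
    Cert π ov (X ++ (r', false) :: (o, false) :: Z) I (cP v n ++ W) (a :: r :: S) := by
  cases v with
  | none =>
    refine .bwd2 X _ _ (by simpa using hc.ea) h1
      (.bwd' X _ (by simpa using hc.er) (by simp [h2, hne]) (.weak ?_ h))
    tauto
  | some β =>
    refine .bwd' X _ (by simpa using hc.ea) h1
      (.bwd2 X _ _ (by simpa using hc.er) (by simp [h2, hne])
      (.cr' X Z (a, false) (r, false) _ hn hc.pos (.weak ?_ h)))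
    tauto

end Gen
section Conc

variable {π : Raw → Raw} {ov : Raw → Raw → Prop} {W : Word} {S : List Raw}

/-- The arcs cut by the line left of piece `k`, for the strands `a, ..., a + n - 1`. -/
def seg (k : ℕ) : ℕ → ℕ → List (Raw × Bool)
  | _, 0 => []
  | a, n + 1 => (.inl (k, a, true), true) :: (.inl (k - 1, a, false), false) :: seg k (a + 1) n

theorem seg_length (k a n : ℕ) : (seg k a n).length = 2 * n := by
  induction n generalizing a with
  | zero => rfl
  | succ n ih => simp [seg, ih]; omega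

theorem seg_add (k a m n : ℕ) : seg k a (m + n) = seg k a m ++ seg k (a + m) n := by
  induction m generalizing a with
  | zero => simp [seg]
  | succ m ih =>
    rw [show m + 1 + n = (m + n) + 1 by omega, seg, seg, ih, show a + 1 + m = a + (m + 1) by omega]
    rfl

def bS (k : ℕ) : ℕ → ℕ → ℕ → List Raw
  | _, _, 0 => []
  | a, a', n + 1 => .inl (k, a, true) :: .inl (k, a', false) :: bS k (a + 1) (a' + 1) n

theorem mem_bS {k a a' n : ℕ} {c : Raw} : c ∈ bS k a a' n ↔
    (∃ p, c = .inl (k, p, true) ∧ a ≤ p ∧ p < a + n) ∨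
      ∃ p, c = .inl (k, p, false) ∧ a' ≤ p ∧ p < a' + n := by
  induction n generalizing a a' with
  | zero => simp [bS]
  | succ n ih =>
    rw [bS, List.mem_cons, List.mem_cons, ih]
    constructor
    · rintro (h | h | ⟨p, h, h1, h2⟩ | ⟨p, h, h1, h2⟩)
      · exact .inl ⟨a, h, by omega, by omega⟩
      · exact .inr ⟨a', h, by omega, by omega⟩
      · exact .inl ⟨p, h, by omega, by omega⟩
      · exact .inr ⟨p, h, by omega, by omega⟩
    · rintro (⟨p, h, h1, h2⟩ | ⟨p, h, h1, h2⟩)
      · rcases h1.eq_or_lt with rfl | h1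
        · exact .inl h
        · exact .inr (.inr (.inl ⟨p, h, by omega, by omega⟩))
      · rcases h1.eq_or_lt with rfl | h1
        · exact .inr (.inl h)
        · exact .inr (.inr (.inr ⟨p, h, by omega, by omega⟩))

/-- Arcs met left of piece `k`. -/
def Bn (k : ℕ) : Raw → Prop
  | .inl (k', _, true) => k' ≤ k
  | .inl (k', _, false) => k' < k
  | .inr y => y.1 < k

/-- Arcs met while piece `k` is read. -/
def Jn (k : ℕ) (Q : ℕ → Prop) : Raw → Prop
  | .inl (k', p, true) => k' ≤ k ∨ (k' = k + 1 ∧ Q p)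
  | .inl (k', p, false) => k' < k ∨ (k' = k ∧ Q p)
  | .inr y => y.1 ≤ k

theorem Jn_mono {k : ℕ} {Q Q' : ℕ → Prop} (h : ∀ p, Q p → Q' p) (c : Raw) :
    Jn k Q c → Jn k Q' c := by
  rcases c with ⟨k', p, _ | _⟩ | y
  · exact Or.imp_right fun h' => ⟨h'.1, h _ h'.2⟩
  · exact Or.imp_right fun h' => ⟨h'.1, h _ h'.2⟩
  · exact id

theorem Jn_of_Bn {k : ℕ} (Q : ℕ → Prop) (c : Raw) : Bn k c → Jn k Q c := by
  rcases c with ⟨k', p, _ | _⟩ | y
  · exact Or.inl
  · exact Or.inl
  · exact fun h => le_of_lt h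

theorem Bn_of_Jn {k : ℕ} (Q : ℕ → Prop) (c : Raw) : Jn k Q c → Bn (k + 1) c := by
  rcases c with ⟨k', p, _ | _⟩ | y <;> simp only [Jn, Bn] <;> omega

theorem bulk (k n : ℕ) : ∀ (a a' : ℕ) (X Z : List (Raw × Bool)) (Q Q' : ℕ → Prop),
    (∀ t < n, π (.inl (k, a + t, true)) = .inl (k + 1, a' + t, true) ∧
      π (.inl (k, a' + t, false)) = .inl (k - 1, a + t, false)) →
    (∀ p, a' ≤ p → p < a' + n → ¬ Q p) → (∀ p, Q p ∨ (a' ≤ p ∧ p < a' + n) → Q' p) →
    Cert π ov (X ++ (seg (k + 1) a' n ++ Z)) (Jn k Q') W S →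
    Cert π ov (X ++ (seg k a n ++ Z)) (Jn k Q) W (bS k a a' n ++ S) := by
  induction n with
  | zero => exact fun a a' X Z Q Q' _ _ hQ h => .weak (Jn_mono fun p hp => hQ p (.inl hp)) h
  | succ n ih =>
    intro a a' X Z Q Q' hπ hf hQ h
    have h0 := hπ 0 (by omega)
    have hq := hf a' le_rfl (by omega)
    have := ih (a + 1) (a' + 1) (X ++ [(.inl (k + 1, a', true), true), (.inl (k, a', false), false)])
      Z (fun p => p = a' ∨ Q p) Q'
      (fun t ht => by simpa only [Nat.add_right_comm _ 1 t, Nat.add_assoc] using hπ (t + 1) (by omega))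
      (fun p h1 h2 h3 => h3.elim (by omega) (hf p (by omega) (by omega)))
      (fun p hp => hQ p (by
        rcases hp with (rfl | hp) | hp
        · exact .inr ⟨le_rfl, by omega⟩
        · exact .inl hp
        · exact .inr ⟨by omega, by omega⟩))
      (by simpa [seg] using h)
    refine .fwd' X _ h0.1 (by simp [Jn, hq]) (.bwd2 X _ _ h0.2 (by simp [Jn, hq])
      (.weak (I' := Jn k fun p => p = a' ∨ Q p) ?_ (by simpa using this)))
    rintro c (rfl | rfl | hc)
    · simp [Jn]
    · simp [Jn]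
    · exact Jn_mono (fun p => Or.inr) c hc

theorem capB {I : Raw → Prop} {k i : ℕ} (X Z : List (Raw × Bool)) (hX : X.length = 2 * i)
    (e1 : π (.inl (k, i, true)) = .inl (k - 1, i + 1, false))
    (e2 : π (.inl (k, i + 1, true)) = .inl (k - 1, i, false)) (h : Cert π ov (X ++ Z) I W S) :
    Cert π ov (X ++ (seg k i 2 ++ Z)) I (dblL (.cap, i) ++ W)
      (.inl (k, i + 1, true) :: .inl (k, i, true) :: S) := by
  have := Cert.capF' (X ++ [(.inl (k, i, true), true)]) ((.inl (k - 1, i + 1, false), false) :: Z)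
    (n := 2 * i + 1) (by simp [hX]) e2 (by simpa using Cert.capT' X Z hX e1 h)
  simpa [seg, dblL] using this

theorem cupB {k i : ℕ} (d : Bool) (X Z : List (Raw × Bool)) (hX : X.length = 2 * i)
    (e1 : π (.inl (k, i, false)) = .inl (k + 1, i + 1, true))
    (e2 : π (.inl (k, i + 1, false)) = .inl (k + 1, i, true))
    (h : Cert π ov (X ++ (seg (k + 1) i 2 ++ Z)) (Jn k fun p => i ≤ p ∧ p < i + 2) W S) :
    Cert π ov (X ++ Z) (Bn k) (dblL (.cup d, i) ++ W)
      (.inl (k, i + 1, false) :: .inl (k, i, false) :: S) := by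
  refine Cert.cupT' X Z hX e2 (by simp [Bn]) (by simp [Bn]) (by simp) ?_
  have := Cert.cupF' (ov := ov) (W := W) (S := S)
    (I := fun a => a = .inl (k, i + 1, false) ∨ a = .inl (k + 1, i, true) ∨ Bn k a)
    (X ++ [(.inl (k + 1, i, true), true)]) ((.inl (k, i + 1, false), false) :: Z)
    (n := 2 * i + 1) (by simp [hX]) e1 (by simp [Bn]) (by simp [Bn]) (by simp)
    (.weak (I' := Jn k fun p => i ≤ p ∧ p < i + 2) ?_ (by simpa [seg] using h))
  · simpa using this
  · rintro c (rfl | rfl | rfl | rfl | hc)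
    iterate 4 simp [Jn]
    exact Jn_of_Bn _ c hc

theorem cutB {k i : ℕ} (X Z : List (Raw × Bool)) (hX : X.length = 2 * i)
    (e1 : π (.inl (k, i, true)) = .inl (k - 1, i, false))
    (e2 : π (.inl (k, i + 1, true)) = .inl (k + 1, i, true))
    (e3 : π (.inl (k, i, false)) = .inl (k - 1, i + 1, false))
    (e4 : π (.inl (k, i + 1, false)) = .inl (k + 1, i + 1, true))
    (h : Cert π ov (X ++ (seg (k + 1) i 2 ++ Z)) (Jn k fun p => i ≤ p ∧ p < i + 2) W S) :
    Cert π ov (X ++ (seg k i 2 ++ Z)) (Bn k) ((.cap, 2 * i) :: (.cup true, 2 * i + 2) :: W)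
      (.inl (k, i, true) :: .inl (k, i + 1, true) :: .inl (k, i, false) ::
        .inl (k, i + 1, false) :: S) := by
  refine Cert.capT' X _ hX e1 (.fwd' X _ e2 (by simp [Bn]) (.bwd2 X _ _ e3 (by simp [Bn]) ?_))
  have := Cert.cupT' (ov := ov) (W := W) (S := S)
    (I := fun a => a = .inl (k, i, false) ∨ a = .inl (k + 1, i, true) ∨ Bn k a)
    (X ++ [(.inl (k + 1, i, true), true), (.inl (k, i, false), false)]) Z
    (n := 2 * i + 2) (by simp [hX]) e4 (by simp [Bn]) (by simp [Bn]) (by simp)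
    (.weak (I' := Jn k fun p => i ≤ p ∧ p < i + 2) ?_ (by simpa [seg] using h))
  · simpa [seg] using this
  · rintro c (rfl | rfl | rfl | rfl | hc)
    iterate 4 simp [Jn]
    exact Jn_of_Bn _ c hc

theorem keptB {k i : ℕ} {v : Fin 4 → Option Bool} (X Z : List (Raw × Bool))
    (hX : X.length = 2 * i)
    (c0 : Cor π ov (v 0) (.inl (k, i + 1, true)) (.inr (k, 0)) (.inl (k - 1, i, false)) (.inr (k, 1)))
    (c1 : Cor π ov (v 1) (.inl (k, i, true)) (.inr (k, 1)) (.inl (k + 1, i, true)) (.inr (k, 2)))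
    (c2 : Cor π ov (v 2) (.inl (k, i, false)) (.inr (k, 2)) (.inl (k + 1, i + 1, true)) (.inr (k, 3)))
    (c3 : Cor π ov (v 3) (.inl (k, i + 1, false)) (.inr (k, 3)) (.inl (k - 1, i + 1, false))
      (.inr (k, 0)))
    (h : Cert π ov (X ++ (seg (k + 1) i 2 ++ Z)) (Jn k fun p => i ≤ p ∧ p < i + 2) W S) :
    Cert π ov (X ++ (seg k i 2 ++ Z)) (Bn k)
      (cA true (v 0) (2 * i + 1) ++ (cP (v 1) (2 * i) ++
        (cP (v 3) (2 * i + 2) ++ (cA false (v 2) (2 * i + 1) ++ W))))
      ((if (v 0).isSome then [.inr (k, 0), .inl (k, i + 1, true)]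
          else [.inl (k, i + 1, true), .inr (k, 0)]) ++
        (.inl (k, i, true) :: .inr (k, 1) :: .inl (k, i + 1, false) :: .inr (k, 3) ::
          ((if (v 2).isSome then [.inl (k, i, false), .inr (k, 2)]
            else [.inr (k, 2), .inl (k, i, false)]) ++ S))) := by
  have s4 := corR (W := W) (S := S) (I := fun c => c = .inl (k, i + 1, false) ∨ c = .inr (k, 3) ∨
      c = .inl (k + 1, i, true) ∨ c = .inr (k, 2) ∨ c = .inr (k, 0) ∨ c = .inr (k, 1) ∨ Bn k c)
    c2 (X ++ [(.inl (k + 1, i, true), true)]) ((.inl (k, i + 1, false), false) :: Z)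
    (n := 2 * i + 1) (by simp [hX]) (by simp [Bn]) (by simp [Bn]) (by simp)
    (.weak (I' := Jn k fun p => i ≤ p ∧ p < i + 2) (by
      rintro c (rfl | rfl | rfl | rfl | rfl | rfl | rfl | rfl | hc)
      iterate 8 simp [Jn]
      exact Jn_of_Bn _ c hc) (by simpa [seg] using h))
  have s3 := corB (I := fun c => c = .inl (k + 1, i, true) ∨ c = .inr (k, 2) ∨ c = .inr (k, 0) ∨
      c = .inr (k, 1) ∨ Bn k c) c3 (X ++ [(.inl (k + 1, i, true), true), (.inr (k, 2), true)]) Z
    (n := 2 * i + 2) (by simp [hX]) (by simp [Bn]) (by simp [Bn]) (by simp) (by simpa using s4)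
  have s2 := corT (I := fun c => c = .inr (k, 0) ∨ c = .inr (k, 1) ∨ Bn k c) c1 X
    ((.inr (k, 0), false) :: (.inl (k - 1, i + 1, false), false) :: Z) hX
    (by simp [Bn]) (by simp [Bn]) (by simp) (by simpa using s3)
  have s1 := corL (I := Bn k) c0 (X ++ [(.inl (k, i, true), true)])
    ((.inl (k - 1, i + 1, false), false) :: Z)
    (n := 2 * i + 1) (by simp [hX]) (by simp [Bn]) (by simp [Bn]) (by simp) (by simpa using s2)
  simpa [seg] using s1

end Conc

section Word

variable {w : Word} {ρ : ℕ → Option Rs} {σ : ℕ → Fin 4 → Option Bool} {π : Raw → Raw}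
  {ov : Raw → Raw → Prop} {k : ℕ}

theorem pos_eq {g : Letter × ℕ} (hg : w[k]? = some g) : pos w k = g.2 := by
  simp [pos, List.getD_eq_getElem?_getD, hg]

theorem turn_eq {g : Letter × ℕ} (hg : w[k]? = some g) (x : ℕ × Bool) :
    turn w (k, x) = (k, across g x) := by
  simp [turn, List.getD_eq_getElem?_getD, hg]

theorem isCr_iff {g : Letter × ℕ} (hg : w[k]? = some g) : IsCr w k ↔ ∃ b, g.1 = .cr b := by
  unfold IsCr
  rw [pos_eq hg, hg]
  constructor
  · rintro ⟨b, h⟩
    exact ⟨b, by rw [Option.some.inj h]⟩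
  · rintro ⟨b, h⟩
    exact ⟨b, by rw [← h]⟩

theorem pi_plain (hs : Steps w ρ σ π ov) {g : Letter × ℕ} (hg : w[k]? = some g) {x : ℕ × Bool}
    (hx : (k, x) ∈ ports w) (hn : ∀ j, IsCr w k → (k, x) ≠ aP k g.2 j) :
    π (.inl (k, x)) = .inl (opp (k, across g x)) := by
  rw [← pos_eq hg] at hn
  rw [hs.f1 _ hx fun j hk => hn j hk.1, turnR_other fun j hk _ => hn j hk, turn_eq hg]

theorem pi_res (hs : Steps w ρ σ π ov) {b : Bool} {i : ℕ} (hw : UValid 0 w 0)
    (hg : w[k]? = some (.cr b, i)) {r : Rs} (hr : ρ k = some r) (j : Fin 4) :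
    π (.inl (aP k i j)) = .inl (opp (aP k i (r.pr j))) := by
  have hk : k < w.length := (List.getElem?_eq_some_iff.1 hg).1
  have h1 := wd_fit hw hg
  have h2 := wd_succ hg
  simp only [Letter.inp, Letter.out] at h1 h2
  have hm : aP k i j ∈ ports w := by
    fin_cases j <;> simp [aP, mem_ports, hk] <;> omega
  have hp : pos w k = i := pos_eq hg
  rw [hs.f1 _ hm fun j' hK => by rw [aP_fst] at hK; simp [Kept, hr] at hK, ← hp,
    turnR_res ((isCr_iff hg).2 ⟨b, rfl⟩) hr]

theorem cor_kept (hs : Steps w ρ σ π ov) (hk : Kept w ρ k) (j : Fin 4) :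
    Cor π ov (σ k j) (.inl (aP k (pos w k) j)) (.inr (k, j)) (.inl (opp (aP k (pos w k) (j + 1))))
      (.inr (k, j + 1)) :=
  ⟨hs.f2 k j hk, hs.f3 k j hk, hs.f4 k j hk, hs.f5 k j hk⟩

/-- The arcs that enter piece `k` itself. -/
def Loc (w : Word) (ρ : ℕ → Option Rs) (k : ℕ) (g : Letter × ℕ) (c : Raw) : Prop :=
  (∃ p, c = .inl (k, p, true) ∧ g.2 ≤ p ∧ p < g.2 + g.1.inp) ∨
    (∃ p, c = .inl (k, p, false) ∧ g.2 ≤ p ∧ p < g.2 + g.1.out) ∨
      ∃ j, c = .inr (k, j) ∧ Kept w ρ k

theorem two_iff {i : ℕ} {c : Raw} (f : ℕ → Raw) :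
    (∃ p, c = f p ∧ i ≤ p ∧ p < i + 2) ↔ c = f i ∨ c = f (i + 1) := by
  constructor
  · rintro ⟨p, h, h1, h2⟩
    rcases (by omega : p = i ∨ p = i + 1) with rfl | rfl
    · exact .inl h
    · exact .inr h
  · rintro (h | h)
    · exact ⟨i, h, by omega, by omega⟩
    · exact ⟨i + 1, h, by omega, by omega⟩

theorem zero_iff {i : ℕ} {c : Raw} (f : ℕ → Raw) :
    (∃ p, c = f p ∧ i ≤ p ∧ p < i + 0) ↔ False := by
  refine iff_false_intro ?_
  rintro ⟨p, -, h1, h2⟩
  omega

theorem four_iff {c : Raw} (f : Fin 4 → Raw) :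
    (∃ j, c = f j) ↔ c = f 0 ∨ c = f 1 ∨ c = f 2 ∨ c = f 3 := by
  simp [Fin.exists_fin_succ]

theorem piece (hw : UValid 0 w 0) (ρ : ℕ → Option Rs) (κ : ℕ → Fin 4 → Bool) {g : Letter × ℕ}
    (hg : w[k]? = some g) : ∃ P : List Raw, (∀ c, c ∈ P ↔ Loc w ρ k g c) ∧
      ∀ (σ : ℕ → Fin 4 → Option Bool) (π : Raw → Raw) (ov : Raw → Raw → Prop),
        (∀ k j, (σ k j).isSome = κ k j) → Steps w ρ σ π ov →
        ∀ (X Z : List (Raw × Bool)) (W : Word) (S : List Raw), X.length = 2 * g.2 →
        Cert π ov (X ++ (seg (k + 1) g.2 g.1.out ++ Z))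
          (Jn k fun p => g.2 ≤ p ∧ p < g.2 + g.1.out) W S →
        Cert π ov (X ++ (seg k g.2 g.1.inp ++ Z)) (Bn k) (blk g (ρ k) (σ k) ++ W) (P ++ S) := by
  have hk : k < w.length := (List.getElem?_eq_some_iff.1 hg).1
  have h1 := wd_fit hw hg
  have h2 := wd_succ hg
  have hcr := isCr_iff hg
  obtain ⟨l, i⟩ := g
  cases l with
  | cup d =>
    simp only [Letter.inp, Letter.out, reduceCtorEq, exists_false, iff_false] at h1 h2 hcr ⊢
    refine ⟨[.inl (k, i + 1, false), .inl (k, i, false)], fun c => ?_,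
      fun σ π ov _ hs X Z W S hX h => ?_⟩
    · simp only [Loc, Letter.inp, Letter.out, two_iff fun p => (.inl (k, p, false) : Raw),
        zero_iff fun p => (.inl (k, p, true) : Raw), Kept, hcr]
      simp [or_comm]
    · refine cupB d X Z hX ?_ ?_ h
      · rw [pi_plain hs hg (mem_ports.2 ⟨hk, by simp; omega⟩) fun _ h => (hcr h).elim]
        simp [across, opp, Letter.inp, Letter.out]; omega
      · rw [pi_plain hs hg (mem_ports.2 ⟨hk, by simp; omega⟩) fun _ h => (hcr h).elim]
        simp [across, opp, Letter.inp, Letter.out]; omega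
  | cap =>
    simp only [Letter.inp, Letter.out, reduceCtorEq, exists_false, iff_false] at h1 h2 hcr ⊢
    refine ⟨[.inl (k, i + 1, true), .inl (k, i, true)], fun c => ?_,
      fun σ π ov _ hs X Z W S hX h => ?_⟩
    · simp only [Loc, Letter.inp, Letter.out, two_iff fun p => (.inl (k, p, true) : Raw),
        zero_iff fun p => (.inl (k, p, false) : Raw), Kept, hcr]
      simp [or_comm]
    · refine capB X Z hX ?_ ?_ (.weak (Jn_of_Bn _) h)
      · rw [pi_plain hs hg (mem_ports.2 ⟨hk, by simp; omega⟩) fun _ h => (hcr h).elim]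
        simp [across, opp, Letter.inp, Letter.out]; omega
      · rw [pi_plain hs hg (mem_ports.2 ⟨hk, by simp; omega⟩) fun _ h => (hcr h).elim]
        simp [across, opp, Letter.inp, Letter.out]; omega
  | cr b =>
    have hcr' : IsCr w k := hcr.2 ⟨b, rfl⟩
    have hloc : ∀ c, Loc w ρ k (.cr b, i) c ↔ (c = .inl (k, i, true) ∨ c = .inl (k, i + 1, true)) ∨
        (c = .inl (k, i, false) ∨ c = .inl (k, i + 1, false)) ∨
          ((c = .inr (k, 0) ∨ c = .inr (k, 1) ∨ c = .inr (k, 2) ∨ c = .inr (k, 3)) ∧ ρ k = none) := by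
      intro c
      simp only [Loc, Letter.inp, Letter.out, two_iff fun p => (.inl (k, p, true) : Raw),
        two_iff fun p => (.inl (k, p, false) : Raw), Kept, hcr', true_and, exists_and_right,
        four_iff fun j => (.inr (k, j) : Raw)]
    simp only [hloc, Letter.inp, Letter.out]
    rcases hr : ρ k with _ | r
    · have hK : Kept w ρ k := ⟨hcr', hr⟩
      have hp : pos w k = i := pos_eq hg
      refine ⟨(if κ k 0 then [.inr (k, 0), .inl (k, i + 1, true)]
          else [.inl (k, i + 1, true), .inr (k, 0)]) ++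
        (.inl (k, i, true) :: .inr (k, 1) :: .inl (k, i + 1, false) :: .inr (k, 3) ::
          (if κ k 2 then [.inl (k, i, false), .inr (k, 2)]
            else [.inr (k, 2), .inl (k, i, false)])), fun c => ?_,
        fun σ π ov hκ hs X Z W S hX h => ?_⟩
      · cases κ k 0 <;> cases κ k 2 <;> simp <;> tauto
      · have hc := cor_kept hs hK
        rw [hp] at hc
        have := keptB (v := σ k) X Z hX (hc 0) (hc 1) (hc 2) (hc 3) h
        rw [hκ, hκ] at this
        simpa only [blk, List.append_assoc, List.cons_append] using this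
    · cases r with
      | zero =>
        refine ⟨bS k i i 2, fun c => ?_, fun σ π ov _ hs X Z W S hX h => ?_⟩
        · simp [bS]; tauto
        · have e := pi_res hs hw hg hr
          have := bulk (π := π) (ov := ov) (W := W) (S := S) k 2 i i X Z (fun _ => False) _
            (fun t ht => by
              rcases (by omega : t = 0 ∨ t = 1) with rfl | rfl
              · exact ⟨e 1, e 2⟩
              · exact ⟨e 0, e 3⟩) (fun _ _ _ => id) (fun p hp => hp.resolve_left id) h
          exact .weak (Jn_of_Bn _) this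
      | inf =>
        refine ⟨[.inl (k, i + 1, true), .inl (k, i, true), .inl (k, i + 1, false),
          .inl (k, i, false)], fun c => ?_, fun σ π ov _ hs X Z W S hX h => ?_⟩
        · simp; tauto
        · have e := pi_res hs hw hg hr
          have := capB X Z hX (e 1) (e 0) (cupB true X Z hX (e 2) (e 3) h)
          simpa only [blk, List.append_assoc, List.cons_append, List.nil_append] using this
      | cut =>
        refine ⟨[.inl (k, i, true), .inl (k, i + 1, true), .inl (k, i, false),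
          .inl (k, i + 1, false)], fun c => ?_, fun σ π ov _ hs X Z W S hX h => ?_⟩
        · simp; tauto
        · have e := pi_res hs hw hg hr
          exact cutB X Z hX (e 1) (e 0) (e 2) (e 3) h

def key : Raw → ℕ
  | .inl h => h.1
  | .inr y => y.1

theorem step (hw : UValid 0 w 0) (ρ : ℕ → Option Rs) (κ : ℕ → Fin 4 → Bool) {g : Letter × ℕ}
    (hg : w[k]? = some g) : ∃ P : List Raw, (∀ c, c ∈ P ↔ Live w ρ c ∧ key c = k) ∧
      ∀ (σ : ℕ → Fin 4 → Option Bool) (π : Raw → Raw) (ov : Raw → Raw → Prop),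
        (∀ k j, (σ k j).isSome = κ k j) → Steps w ρ σ π ov → ∀ (W : Word) (S : List Raw),
        Cert π ov (seg (k + 1) 0 (wd w (k + 1))) (Bn (k + 1)) W S →
        Cert π ov (seg k 0 (wd w k)) (Bn k) (blk g (ρ k) (σ k) ++ W) (P ++ S) := by
  have hk : k < w.length := (List.getElem?_eq_some_iff.1 hg).1
  have h1 := wd_fit hw hg
  have h2 := wd_succ hg
  obtain ⟨m, hm⟩ := Nat.exists_eq_add_of_le h1
  have hm' : wd w (k + 1) = g.2 + g.1.out + m := by omega
  obtain ⟨P, hP, hC⟩ := piece hw ρ κ hg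
  refine ⟨P ++ (bS k 0 0 g.2 ++ bS k (g.2 + g.1.inp) (g.2 + g.1.out) m), fun c => ?_,
    fun σ π ov hκ hs W S h => ?_⟩
  · rw [List.mem_append, List.mem_append, hP, mem_bS, mem_bS, Loc]
    rcases c with ⟨k', p, _ | _⟩ | ⟨k', j⟩
    · simp only [Live, key, mem_ports, Sum.inl.injEq, Prod.mk.injEq, Bool.false_eq_true, and_false,
        false_and, exists_false, and_true, reduceCtorEq, false_or, or_false, and_assoc,
        exists_and_left, exists_eq_left', if_false]
      constructor
      · rintro (⟨rfl, h⟩ | ⟨rfl, h⟩ | ⟨rfl, h⟩) <;> omega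
      · rintro ⟨-, h, rfl⟩
        omega
    · simp only [Live, key, mem_ports, Sum.inl.injEq, Prod.mk.injEq, Bool.true_eq_false, and_false,
        false_and, exists_false, and_true, reduceCtorEq, or_false, and_assoc,
        exists_and_left, exists_eq_left', if_true]
      constructor
      · rintro (⟨rfl, h⟩ | ⟨rfl, h⟩ | ⟨rfl, h⟩) <;> omega
      · rintro ⟨-, h, rfl⟩
        omega
    · simp only [Live, key, Sum.inr.injEq, Prod.mk.injEq, false_and, exists_false, reduceCtorEq,
        false_or, or_false, and_assoc, exists_and_left, exists_eq_left']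
      constructor
      · rintro ⟨rfl, h⟩
        exact ⟨h, rfl⟩
      · rintro ⟨h, rfl⟩
        exact ⟨rfl, h⟩
  · have hn : ∀ (p : ℕ) (d : Bool), (p < g.2 ∨ g.2 + (if d then g.1.inp else g.1.out) ≤ p) →
        ∀ j, IsCr w k → (k, p, d) ≠ aP k g.2 j := by
      intro p d hp j hcr e
      obtain ⟨b, hb⟩ := (isCr_iff hg).1 hcr
      rw [hb] at hp
      simp only [Letter.inp, Letter.out, ite_self] at hp
      fin_cases j <;> simp [aP] at e <;> omega
    have s3 := bulk (π := π) (ov := ov) (W := W) (S := S) k m (g.2 + g.1.inp) (g.2 + g.1.out)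
      (seg (k + 1) 0 g.2 ++ seg (k + 1) g.2 g.1.out) [] (fun p => p < g.2 + g.1.out) (fun _ => True)
      (fun t ht => by
        constructor
        · rw [pi_plain hs hg (mem_ports.2 ⟨hk, by simp; omega⟩) (hn _ _ (.inr (by simp)))]
          simp only [across]
          rw [if_neg (by omega), if_pos (by omega), opp]
          simp; omega
        · rw [pi_plain hs hg (mem_ports.2 ⟨hk, by simp; omega⟩) (hn _ _ (.inr (by simp)))]
          simp only [across]
          rw [if_neg (by omega), if_pos (by omega), opp]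
          simp; omega)
      (fun p _ _ => by omega) (fun _ _ => trivial)
      (.weak (Bn_of_Jn _) (by
        rw [hm', seg_add, seg_add] at h
        simpa using h))
    have s2 := bulk (π := π) (ov := ov) (W := W) k g.2 0 0 []
      (seg (k + 1) g.2 g.1.out ++ seg k (g.2 + g.1.inp) m)
      (fun p => g.2 ≤ p ∧ p < g.2 + g.1.out) (fun p => p < g.2 + g.1.out)
      (fun t ht => by
        constructor
        · rw [pi_plain hs hg (mem_ports.2 ⟨hk, by simp; omega⟩) (hn _ _ (.inl (by simpa)))]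
          simp only [across]
          rw [if_pos (by omega), opp]
        · rw [pi_plain hs hg (mem_ports.2 ⟨hk, by simp; omega⟩) (hn _ _ (.inl (by simpa)))]
          simp only [across]
          rw [if_pos (by omega), opp])
      (fun p _ _ => by omega) (fun _ _ => by omega) (by simpa using s3)
    have s1 := hC σ π ov hκ hs (seg k 0 g.2) (seg k (g.2 + g.1.inp) m) W _ (seg_length _ _ _)
      (by simpa using s2)
    rw [hm, seg_add, seg_add]
    simpa using s1

theorem cert_aux (hw : UValid 0 w 0) (ρ : ℕ → Option Rs) (κ : ℕ → Fin 4 → Bool) (v : Word) :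
    ∀ k, w.drop k = v → ∃ S : List Raw, (∀ c, c ∈ S ↔ Live w ρ c ∧ k ≤ key c) ∧
      ∀ (σ : ℕ → Fin 4 → Option Bool) (π : Raw → Raw) (ov : Raw → Raw → Prop),
        (∀ k j, (σ k j).isSome = κ k j) → Steps w ρ σ π ov →
        Cert π ov (seg k 0 (wd w k)) (Bn k) (Wd ρ σ k v) S := by
  induction v with
  | nil =>
    intro k hk
    have hl : w.length ≤ k := List.drop_eq_nil_iff.1 hk
    refine ⟨[], fun c => ?_, fun σ π ov _ _ => ?_⟩
    · simp only [List.not_mem_nil, false_iff, not_and, not_le]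
      rcases c with ⟨k', p, d⟩ | ⟨k', j⟩
      · exact fun h => lt_of_lt_of_le (mem_ports.1 h).1 hl
      · rintro ⟨⟨b, hb⟩, -⟩
        exact lt_of_lt_of_le (List.getElem?_eq_some_iff.1 hb).1 hl
    · have h0 := uv_drop hw k
      rw [hk] at h0
      rw [show wd w k = 0 from h0]
      exact .nil _
  | cons g v ih =>
    intro k hk
    have hg : w[k]? = some g := by
      have := congrArg (fun l => l[0]?) hk
      simpa using this
    obtain ⟨S, hS, hC⟩ := ih (k + 1) (by rw [← List.tail_drop, hk]; rfl)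
    obtain ⟨P, hP, hD⟩ := step hw ρ κ hg
    refine ⟨P ++ S, fun c => ?_, fun σ π ov hκ hs => hD σ π ov hκ hs _ _ (hC σ π ov hκ hs)⟩
    rw [List.mem_append, hP, hS, ← and_or_left]
    exact and_congr_right fun _ => by omega

end Word

theorem cert {w : Word} (hw : UValid 0 w 0) (ρ : ℕ → Option Rs) (κ : ℕ → Fin 4 → Bool) :
    ∃ S : List Raw, (∀ c, c ∈ S ↔ Live w ρ c) ∧
      ∀ (σ : ℕ → Fin 4 → Option Bool) (π : Raw → Raw) (ov : Raw → Raw → Prop),
        (∀ k j, (σ k j).isSome = κ k j) → Steps w ρ σ π ov →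
        Cert π ov [] (fun _ => False) (Wd ρ σ 0 w) S := by
  obtain ⟨S, hS, hC⟩ := cert_aux hw ρ κ w 0 rfl
  exact ⟨S, fun c => by simpa using hS c,
    fun σ π ov hκ hs => .weak (fun _ h => h.elim) (hC σ π ov hκ hs)⟩

end Pool.Agent.Lib.MP_3a4f2f_gt.H39
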