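import Pool.Agent.Lib.MP_3a4f2f_gt.H39.Dg

/-! Combinatorics of maps: edges, loops, connected and prime maps, counting circles. -/

set_option autoImplicit false

namespace Pool.Agent.Lib.MP_3a4f2f_gt.H39

namespace Mp

variable {H X X' X'' : Type} {M : Mp H X} {col : H → Bool}

theorem tau_nc {h : H} (hn : ∀ x j, h ≠ M.a x j) : ∀ x j, M.τ h ≠ M.a x j := by
  intro x j e
  apply hn x (j - 1)
  apply M.τ.injective
  rw [e, M.τ_a, sub_add_cancel]

theorem Rch.snoc {h g : H} (r : M.Rch h g) (hn : ∀ x j, g ≠ M.a x j) :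
    M.Rch h (M.rev (M.τ g)) := by
  induction r with
  | refl u => exact Rch.step hn (Rch.refl _)
  | step h1 _ ih => exact Rch.step h1 (ih hn)

theorem Rch.rev {h g : H} (r : M.Rch h g) : M.Rch (M.rev g) (M.rev h) := by
  induction r with
  | refl u => exact Rch.refl _
  | step h1 _ ih =>
    rw [M.rev_rev] at ih
    have := ih.snoc (tau_nc h1)
    rwa [M.τ_free _ h1] at this

theorem Rch.colr {h g : H} (hc : M.Col col) (r : M.Rch h g) : col g = col h := by
  induction r with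
  | refl u => rfl
  | step h1 _ ih => rw [ih, hc.1, hc.2, Bool.not_not]

theorem Rch.of_cr {x : X} {j : Fin 4} {g : H} (r : M.Rch (M.a x j) g) : g = M.a x j := by
  generalize hu : M.a x j = u at r
  cases r with
  | refl => rfl
  | step h1 _ => exact absurd hu.symm (h1 x j)

theorem Rch.fwd {u v w : H} (r1 : M.Rch u v) (r2 : M.Rch u w) : M.Rch v w ∨ M.Rch w v := by
  induction r1 with
  | refl u => exact Or.inl r2
  | step h1 r ih =>
    cases r2 with
    | refl => exact Or.inr (Rch.step h1 r)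
    | step _ r' => exact ih r'

theorem Rch.edge {x : X} {j : Fin 4} {h b : H} (r1 : M.Rch (M.rev (M.a x j)) b)
    (r2 : M.Rch h b) : M.Rch (M.rev h) (M.a x j) := by
  have a1 := r1.rev
  rw [M.rev_rev] at a1
  rcases a1.fwd r2.rev with r | r
  · rw [r.of_cr]
    exact Rch.refl _
  · exact r

theorem iter_cr (M : Mp H X) (n : ℕ) : ∀ u : H,
    (∃ y m, (fun h => M.rev (M.τ h))^[n] u = M.a y m) → ∃ y m, M.Rch u (M.a y m) := by
  induction n with
  | zero =>
    rintro u ⟨y, m, e⟩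
    exact ⟨y, m, e ▸ Rch.refl _⟩
  | succ n ih =>
    intro u hu
    by_cases hn : ∀ x j, u ≠ M.a x j
    · obtain ⟨y, m, r⟩ := ih (M.rev (M.τ u)) hu
      exact ⟨y, m, Rch.step hn r⟩
    · push Not at hn
      obtain ⟨y, m, e⟩ := hn
      exact ⟨y, m, e ▸ Rch.refl _⟩

theorem rev_inj (M : Mp H X) : Function.Injective M.rev :=
  Function.LeftInverse.injective M.rev_rev

theorem next_cr [Fintype H] (M : Mp H X) (x : X) (j : Fin 4) :
    ∃ y m, M.Rch (M.rev (M.a x j)) (M.a y m) := by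
  have hi : Function.Injective (fun h => M.rev (M.τ h)) := M.rev_inj.comp M.τ.injective
  obtain ⟨n, hn, hp⟩ := hi.mem_periodicPts (M.a x (j - 1))
  obtain ⟨k, rfl⟩ := Nat.exists_eq_succ_of_ne_zero hn.ne'
  apply M.iter_cr k
  refine ⟨x, j - 1, ?_⟩
  have e : M.rev (M.a x j) = (fun h => M.rev (M.τ h)) (M.a x (j - 1)) := by
    show _ = M.rev (M.τ _)
    rw [M.τ_a, sub_add_cancel]
  rw [e]
  exact hp

theorem cr_const {φ : H → Bool} (hφ : ∀ h, φ (M.τ h) = φ h) (x : X) (j : Fin 4) :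
    φ (M.a x j) = φ (M.a x 0) := by
  have h1 := hφ (M.a x 0)
  have h2 := hφ (M.a x 1)
  have h3 := hφ (M.a x 2)
  rw [M.τ_a] at h1 h2 h3
  have e1 : (0 : Fin 4) + 1 = 1 := rfl
  have e2 : (1 : Fin 4) + 1 = 2 := rfl
  have e3 : (2 : Fin 4) + 1 = 3 := rfl
  rw [e1] at h1
  rw [e2] at h2
  rw [e3] at h3
  match j with
  | 0 => rfl
  | 1 => exact h1
  | 2 => exact h2.trans h1
  | 3 => exact h3.trans (h2.trans h1)

theorem conn_res {M' : Mp H X'} {x : X} {pr : Fin 4 → Fin 4} (hR : M.Res M' x pr)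
    (h : M'.Conn) : M.Conn := by
  intro φ h1 h2
  refine h φ (fun u => ?_) (fun u => by rw [hR.rev]; exact h2 u)
  by_cases hu : ∀ j, u ≠ M.a x j
  · rw [hR.τ_ne u hu, h1]
  · push Not at hu
    obtain ⟨j, rfl⟩ := hu
    rw [hR.τ_x, cr_const h1, cr_const h1 x j]

/-- A set of ends closed under `τ` away from the crossings is invariant there. -/
theorem inv_nc {S : H → Prop} (hS : ∀ h, (∀ x j, h ≠ M.a x j) → S h → S (M.τ h)) {h : H}
    (hn : ∀ x j, h ≠ M.a x j) : S (M.τ h) ↔ S h := by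
  refine ⟨fun h1 => ?_, hS h hn⟩
  have := hS _ (tau_nc hn) h1
  rwa [M.τ_free _ hn] at this

theorem Rch.tail {h : H} {x : X} {j : Fin 4} (hn : ∀ x j, h ≠ M.a x j)
    (r : M.Rch h (M.a x j)) : M.Rch (M.rev (M.τ h)) (M.a x j) := by
  generalize hu : M.a x j = u at r
  cases r with
  | refl => exact absurd hu.symm (hn x j)
  | step _ r' => exact r'

theorem fin4_cases (m j : Fin 4) : j = m ∨ j = m + 1 ∨ j = m + 2 ∨ j = m + 3 := by
  revert m j
  decide

theorem loop2_conn [Fintype H] {x : X} {m : Fin 4} (h : M.Conn)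
    (r1 : M.Rch (M.rev (M.a x (m + 1))) (M.a x m))
    (r2 : M.Rch (M.rev (M.a x (m + 3))) (M.a x (m + 2))) (y : X) : y = x := by
  classical
  have r1' := r1.rev
  have r2' := r2.rev
  rw [M.rev_rev] at r1' r2'
  have hrev : ∀ u, (∃ j, M.Rch u (M.a x j)) → ∃ j, M.Rch (M.rev u) (M.a x j) := by
    rintro u ⟨j, r⟩
    rcases fin4_cases m j with rfl | rfl | rfl | rfl
    · exact ⟨_, r1.edge r⟩
    · exact ⟨_, r1'.edge r⟩
    · exact ⟨_, r2.edge r⟩
    · exact ⟨_, r2'.edge r⟩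
  have hnc : ∀ u, (∀ x j, u ≠ M.a x j) → (∃ j, M.Rch u (M.a x j)) →
      ∃ j, M.Rch (M.τ u) (M.a x j) := by
    rintro u hn ⟨j, r⟩
    have := hrev _ ⟨j, r.tail hn⟩
    rwa [M.rev_rev] at this
  have hcr : ∀ z i, (∃ j, M.Rch (M.a z i) (M.a x j)) ↔ z = x := by
    intro z i
    constructor
    · rintro ⟨j, r⟩
      exact (M.a_inj _ _ _ _ r.of_cr).1.symm
    · rintro rfl
      exact ⟨i, Rch.refl _⟩
  have key := h (fun u => decide (∃ j, M.Rch u (M.a x j))) (fun u => ?_) (fun u => ?_)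
    (M.a y 0) (M.a x 0)
  · rw [decide_eq_decide, hcr, hcr] at key
    exact key.2 rfl
  · rw [decide_eq_decide]
    by_cases hn : ∀ x j, u ≠ M.a x j
    · exact inv_nc (S := fun u => ∃ j, M.Rch u (M.a x j)) hnc hn
    · push Not at hn
      obtain ⟨z, i, rfl⟩ := hn
      rw [M.τ_a, hcr, hcr]
  · rw [decide_eq_decide]
    refine ⟨fun h1 => ?_, hrev u⟩
    have := hrev _ h1
    rwa [M.rev_rev] at this

theorem Rch.const {φ : H → Bool} (h1 : ∀ u, (∀ x j, u ≠ M.a x j) → φ (M.τ u) = φ u)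
    (h2 : ∀ u, φ (M.rev u) = φ u) {h g : H} (r : M.Rch h g) : φ g = φ h := by
  induction r with
  | refl u => rfl
  | step hn _ ih => rw [ih, h2, h1 _ hn]

theorem loop2_res {M' : Mp H X'} {x : X} {m : Fin 4} {pr : Fin 4 → Fin 4} (h : M.Conn)
    (r1 : M.Rch (M.rev (M.a x (m + 1))) (M.a x m))
    (r2 : M.Rch (M.rev (M.a x (m + 3))) (M.a x (m + 2))) (hR : M.Res M' x pr)
    (hp : pr (m + 1) = m + 2) : M'.Conn := by
  intro φ h1 h2
  rw [hR.rev] at h2
  have h3 : ∀ u, (∀ j, u ≠ M.a x j) → φ (M.τ u) = φ u := fun u hu => by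
    rw [← hR.τ_ne u hu, h1]
  have e1 := r1.const (fun u hu => h3 u (hu x)) h2
  have e2 := r2.const (fun u hu => h3 u (hu x)) h2
  have e3 := h1 (M.a x (m + 1))
  rw [h2] at e1 e2
  rw [hR.τ_x, hp] at e3
  have e4 : ∀ j, φ (M.a x j) = φ (M.a x m) := by
    intro j
    rcases fin4_cases m j with rfl | rfl | rfl | rfl
    · rfl
    · exact e1.symm
    · exact e3.trans e1.symm
    · exact e2.symm.trans (e3.trans e1.symm)
  refine h φ (fun u => ?_) h2
  by_cases hu : ∀ j, u ≠ M.a x j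
  · exact h3 u hu
  · push Not at hu
    obtain ⟨j, rfl⟩ := hu
    rw [M.τ_a, e4, e4 j]

theorem card_le_four [Fintype H] {φ : H → Bool} (p q : H)
    (hφ : ∀ u, u ≠ p → u ≠ q → M.rev u ≠ p → M.rev u ≠ q → φ (M.rev u) = φ u) :
    (Finset.univ.filter fun h => φ (M.rev h) ≠ φ h).card ≤ 4 := by
  classical
  refine le_trans (Finset.card_le_card (t := {p, q, M.rev p, M.rev q}) ?_) Finset.card_le_four
  intro u hu
  rw [Finset.mem_filter] at hu
  by_contra hc
  simp only [Finset.mem_insert, Finset.mem_singleton, not_or] at hc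
  apply hu.2
  refine hφ u hc.1 hc.2.1 (fun e => hc.2.2.1 ?_) (fun e => hc.2.2.2 ?_)
  · rw [← e, M.rev_rev]
  · rw [← e, M.rev_rev]

theorem prim_loop [Fintype H] {x : X} {m : Fin 4} (h : M.Prim)
    (r1 : M.Rch (M.rev (M.a x (m + 1))) (M.a x m)) (y : X) : y = x := by
  classical
  have r1' := r1.rev
  rw [M.rev_rev] at r1'
  have hrev : ∀ u, (M.Rch u (M.a x m) ∨ M.Rch u (M.a x (m + 1))) →
      (M.Rch (M.rev u) (M.a x m) ∨ M.Rch (M.rev u) (M.a x (m + 1))) := by
    rintro u (r | r)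
    · exact Or.inr (r1.edge r)
    · exact Or.inl (r1'.edge r)
  have hnc : ∀ u, (∀ x j, u ≠ M.a x j) → (M.Rch u (M.a x m) ∨ M.Rch u (M.a x (m + 1))) →
      (M.Rch (M.τ u) (M.a x m) ∨ M.Rch (M.τ u) (M.a x (m + 1))) := by
    intro u hn r
    have := hrev (M.rev (M.τ u)) (r.imp (Rch.tail hn) (Rch.tail hn))
    rwa [M.rev_rev] at this
  have hcr : ∀ z i, ((M.Rch (M.a z i) (M.a x m) ∨ M.Rch (M.a z i) (M.a x (m + 1))) ∨
      M.a z i = M.a x (m + 2) ∨ M.a z i = M.a x (m + 3)) ↔ z = x := by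
    intro z i
    constructor
    · rintro ((r | r) | e | e)
      · exact (M.a_inj _ _ _ _ r.of_cr).1.symm
      · exact (M.a_inj _ _ _ _ r.of_cr).1.symm
      · exact (M.a_inj _ _ _ _ e).1
      · exact (M.a_inj _ _ _ _ e).1
    · rintro rfl
      rcases fin4_cases m i with rfl | rfl | rfl | rfl
      · exact Or.inl (Or.inl (Rch.refl _))
      · exact Or.inl (Or.inr (Rch.refl _))
      · exact Or.inr (Or.inl rfl)
      · exact Or.inr (Or.inr rfl)
  have key := h.2 (fun u => decide ((M.Rch u (M.a x m) ∨ M.Rch u (M.a x (m + 1))) ∨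
      u = M.a x (m + 2) ∨ u = M.a x (m + 3))) (fun u => ?_)
    (card_le_four (M := M) (φ := fun u => decide ((M.Rch u (M.a x m) ∨
      M.Rch u (M.a x (m + 1))) ∨ u = M.a x (m + 2) ∨ u = M.a x (m + 3)))
      (M.a x (m + 2)) (M.a x (m + 3)) fun u a1 a2 a3 a4 => ?_) y x
  · rw [decide_eq_decide, hcr, hcr] at key
    exact key.2 rfl
  · rw [decide_eq_decide]
    by_cases hn : ∀ x j, u ≠ M.a x j
    · have := inv_nc (S := fun u => M.Rch u (M.a x m) ∨ M.Rch u (M.a x (m + 1))) hnc hn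
      simp only [hn x, tau_nc hn x, or_false]
      exact this
    · push Not at hn
      obtain ⟨z, i, rfl⟩ := hn
      rw [M.τ_a, hcr, hcr]
  · rw [decide_eq_decide]
    simp only [a1, a2, a3, a4, or_false]
    refine ⟨fun h1 => ?_, hrev u⟩
    have := hrev _ h1
    rwa [M.rev_rev] at this

/-- Number of ends where `φ` changes along the segment. -/
noncomputable def chg [Fintype H] (M : Mp H X) (φ : H → Bool) : ℕ :=
  (Finset.univ.filter fun h => φ (M.rev h) ≠ φ h).card

theorem chg_cast [Fintype H] (φ : H → Bool) :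
    (M.chg φ : ℤ) = ∑ h, if φ (M.rev h) ≠ φ h then (1 : ℤ) else 0 := by
  rw [chg, Finset.card_filter]
  push_cast
  rfl

theorem chg_four [Fintype H] (hc : M.Col col) {φ : H → Bool} (hφ : ∀ h, φ (M.τ h) = φ h) :
    4 ∣ M.chg φ := by
  let e : H → ℤ := fun h => if col h then 1 else -1
  let i : H → ℤ := fun h => if φ h then 1 else 0
  have er : ∀ h, e (M.rev h) = - e h := fun h => by
    simp only [e, hc.1]
    cases col h <;> simp
  have et : ∀ h, e (M.τ h) = - e h := fun h => by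
    simp only [e, hc.2]
    cases col h <;> simp
  have s1 : ∑ h, i h * e h = 0 := by
    have := Equiv.sum_comp M.τ (fun h => i h * e h)
    simp only [i, hφ, et, mul_neg, Finset.sum_neg_distrib] at this
    simp only [i]
    omega
  have s2 : ∑ h, i h * i (M.rev h) * e h = 0 := by
    have := Equiv.sum_comp M.revE (fun h => i h * i (M.rev h) * e h)
    have e1 : ∀ h, i (M.revE h) * i (M.rev (M.revE h)) * e (M.revE h) =
        - (i h * i (M.rev h) * e h) := fun h => by
      show i (M.rev h) * i (M.rev (M.rev h)) * e (M.rev h) = _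
      rw [M.rev_rev, er]
      ring
    simp only [e1, Finset.sum_neg_distrib] at this
    omega
  have s3 : ∑ h, i (M.rev h) * (1 - i h) = ∑ h, i h * (1 - i (M.rev h)) := by
    have := Equiv.sum_comp M.revE (fun h => i h * (1 - i (M.rev h)))
    rw [← this]
    refine Finset.sum_congr rfl fun h _ => ?_
    show _ = i (M.rev h) * (1 - i (M.rev (M.rev h)))
    rw [M.rev_rev]
  have s4 : (M.chg φ : ℤ) = ∑ h, (i (M.rev h) * (1 - i h) + i h * (1 - i (M.rev h))) := by
    rw [chg_cast]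
    refine Finset.sum_congr rfl fun h _ => ?_
    simp only [i]
    cases φ h <;> cases φ (M.rev h) <;> simp
  have s5 : ∑ h, i h * (1 - i (M.rev h)) =
      ∑ h, (2 * (i h * (1 - i (M.rev h)) * (if col h then 1 else 0)) -
        (i h * e h - i h * i (M.rev h) * e h)) := by
    refine Finset.sum_congr rfl fun h _ => ?_
    simp only [e]
    cases col h <;> simp <;> ring
  rw [Finset.sum_sub_distrib, Finset.sum_sub_distrib, s1, s2, ← Finset.mul_sum] at s5
  rw [Finset.sum_add_distrib, s3, s5] at s4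
  omega

theorem chg_sub [Fintype H] (A B : H → Bool) (p q : Bool) :
    M.chg (fun h => (A h == p) && (B h == q)) + M.chg (fun h => (A h == !p) && (B h == !q)) ≤
      M.chg A + M.chg B := by
  have : ((M.chg (fun h => (A h == p) && (B h == q)) : ℕ) : ℤ) +
      (M.chg (fun h => (A h == !p) && (B h == !q)) : ℕ) ≤ (M.chg A : ℕ) + (M.chg B : ℕ) := by
    simp only [chg_cast, ← Finset.sum_add_distrib]
    refine Finset.sum_le_sum fun h _ => ?_
    cases p <;> cases q <;> cases A h <;> cases B h <;> cases A (M.rev h) <;>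
      cases B (M.rev h) <;> decide
  exact_mod_cast this

theorem chg_one [Fintype H] {φ ψ : H → Bool} (p : H) (h : ∀ u, u ≠ p → ψ u = φ u) :
    M.chg ψ ≤ M.chg φ + 2 := by
  classical
  have h1 : (Finset.univ.filter fun h => ψ (M.rev h) ≠ ψ h) ⊆
      (Finset.univ.filter fun h => φ (M.rev h) ≠ φ h) ∪ {p, M.rev p} := by
    intro u hu
    rw [Finset.mem_filter] at hu
    by_cases a1 : u = p
    · simp [a1]
    by_cases a2 : M.rev u = p
    · have : u = M.rev p := by rw [← a2, M.rev_rev]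
      simp [this]
    rw [h u a1, h _ a2] at hu
    exact Finset.mem_union_left _ (Finset.mem_filter.2 hu)
  refine le_trans (Finset.card_le_card h1) (le_trans (Finset.card_union_le _ _) ?_)
  exact Nat.add_le_add_left Finset.card_le_two _

/-- A corner with few changes holds no other crossing. -/
theorem corner [Fintype H] (hc : M.Col col) (h : M.Prim) {x : X} {C : H → Bool} (i : Fin 4)
    (h1 : ∀ u, (∀ j, u ≠ M.a x j) → C (M.τ u) = C u) (h2 : ∀ j, j ≠ i → C (M.a x j) = false)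
    (h3 : M.chg C ≤ 4) (y : X) (hy : y ≠ x) : C (M.a y 0) = false := by
  classical
  let ψ : H → Bool := fun u => if u = M.a x i then false else C u
  have e1 : ∀ u, u ≠ M.a x i → ψ u = C u := fun u hu => if_neg hu
  have e2 : ∀ j, ψ (M.a x j) = false := fun j => by
    by_cases hj : j = i
    · rw [hj]
      exact if_pos rfl
    · rw [e1 _ (fun e => hj (M.a_inj _ _ _ _ e).2), h2 j hj]
  have e3 : ∀ u, ψ (M.τ u) = ψ u := fun u => by
    by_cases hu : ∀ j, u ≠ M.a x j
    · rw [e1 u (hu i), e1 _ ?_, h1 u hu]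
      intro e
      apply hu (i - 1)
      apply M.τ.injective
      rw [e, M.τ_a, sub_add_cancel]
    · push Not at hu
      obtain ⟨j, rfl⟩ := hu
      rw [M.τ_a, e2, e2]
  have e4 := chg_one (M := M) (M.a x i) e1
  have e5 := chg_four hc e3
  have e6 : M.chg ψ ≤ 4 := by omega
  have e7 := h.2 ψ e3 e6 y x
  rw [e2, e1 _ (fun e => hy (M.a_inj _ _ _ _ e).1)] at e7
  exact e7

theorem two_ends [Fintype H] (h : M.Prim) {x : X} {φ : H → Bool} (b : Bool) (i k : Fin 4)
    (h1 : ∀ u, (∀ j, u ≠ M.a x j) → φ (M.τ u) = φ u) (h2 : ∀ u, φ (M.rev u) = φ u)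
    (h3 : ∀ j, j ≠ i → j ≠ k → φ (M.a x j) = b) (y : X) (hy : y ≠ x) : φ (M.a y 0) = b := by
  classical
  let ψ : H → Bool := fun u => if ∃ j, u = M.a x j then b else φ u
  have e2 : ∀ j, ψ (M.a x j) = b := fun j => if_pos ⟨j, rfl⟩
  have e0 : ∀ u, (∀ j, u ≠ M.a x j) → ψ u = φ u := fun u hu => if_neg (by push Not; exact hu)
  have e1 : ∀ u, u ≠ M.a x i → u ≠ M.a x k → ψ u = φ u := fun u a1 a2 => by
    by_cases hu : ∀ j, u ≠ M.a x j
    · exact e0 u hu
    · push Not at hu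
      obtain ⟨j, rfl⟩ := hu
      rw [e2, h3 j (fun e => a1 (by rw [e])) (fun e => a2 (by rw [e]))]
  have e3 : ∀ u, ψ (M.τ u) = ψ u := fun u => by
    by_cases hu : ∀ j, u ≠ M.a x j
    · rw [e0 u hu, e0 _ ?_, h1 u hu]
      intro j e
      apply hu (j - 1)
      apply M.τ.injective
      rw [e, M.τ_a, sub_add_cancel]
    · push Not at hu
      obtain ⟨j, rfl⟩ := hu
      rw [M.τ_a, e2, e2]
  have e7 := h.2 ψ e3 (card_le_four (M.a x i) (M.a x k) fun u a1 a2 a3 a4 => by
    rw [e1 u a1 a2, e1 _ a3 a4, h2]) y x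
  rw [e2, e0 _ (fun j e => hy (M.a_inj _ _ _ _ e).1)] at e7
  exact e7

theorem Res.off {M' : Mp H X'} {x : X} {pr : Fin 4 → Fin 4} (hR : M.Res M' x pr)
    {φ : H → Bool} (h1 : ∀ u, φ (M'.τ u) = φ u) (u : H) (hu : ∀ j, u ≠ M.a x j) :
    φ (M.τ u) = φ u := by
  rw [← hR.τ_ne u hu, h1]

theorem tau_inv_of {x : X} {φ : H → Bool} (h1 : ∀ u, (∀ j, u ≠ M.a x j) → φ (M.τ u) = φ u)
    (h2 : ∀ j, φ (M.a x j) = φ (M.a x 0)) (u : H) : φ (M.τ u) = φ u := by
  by_cases hu : ∀ j, u ≠ M.a x j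
  · exact h1 u hu
  · push Not at hu
    obtain ⟨j, rfl⟩ := hu
    rw [M.τ_a, h2, h2 j]

theorem conn_pair [Fintype H] {M' : Mp H X'} {x : X} {pr : Fin 4 → Fin 4} (h : M.Prim)
    (hy : ∃ y, y ≠ x) (hR : M.Res M' x pr) (k : Fin 4)
    (hk : ∀ j, j = 0 ∨ j = pr 0 ∨ j = k ∨ j = pr k) : M'.Conn := by
  intro φ h1 h2
  rw [hR.rev] at h2
  have a0 : φ (M.a x (pr 0)) = φ (M.a x 0) := by rw [← hR.τ_x, h1]
  have ak : φ (M.a x (pr k)) = φ (M.a x k) := by rw [← hR.τ_x, h1]
  obtain ⟨y, hy⟩ := hy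
  have b0 := two_ends h (φ (M.a x 0)) k (pr k) (hR.off h1) h2 (fun j c1 c2 => by
    rcases hk j with e | e | e | e
    · rw [e]
    · rw [e, a0]
    · exact absurd e c1
    · exact absurd e c2) y hy
  have bk := two_ends h (φ (M.a x k)) 0 (pr 0) (hR.off h1) h2 (fun j c1 c2 => by
    rcases hk j with e | e | e | e
    · exact absurd e c1
    · exact absurd e c2
    · rw [e]
    · rw [e, ak]) y hy
  refine h.1 φ (tau_inv_of (hR.off h1) fun j => ?_) h2
  rcases hk j with e | e | e | e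
  · rw [e]
  · rw [e, a0]
  · rw [e, ← bk, b0]
  · rw [e, ak, ← bk, b0]

theorem not_prim [Fintype H] {M' : Mp H X'} {x : X} {pr : Fin 4 → Fin 4} (h : M.Prim)
    (hy : ∃ y, y ≠ x) (hR : M.Res M' x pr) (k : Fin 4)
    (hk : ∀ j, j = 0 ∨ j = pr 0 ∨ j = k ∨ j = pr k) (hn : ¬ M'.Prim) :
    ∃ A : H → Bool, (∀ u, (∀ j, u ≠ M.a x j) → A (M.τ u) = A u) ∧ M.chg A ≤ 4 ∧
      (∀ j, A (M.a x (pr j)) = A (M.a x j)) ∧ A (M.a x k) = !A (M.a x 0) ∧
      ∀ b, ∃ y, y ≠ x ∧ A (M.a y 0) = b := by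
  have hc := conn_pair h hy hR k hk
  by_contra hcon
  apply hn
  refine ⟨hc, fun A h1 h2 u v => ?_⟩
  rw [hR.rev] at h2
  obtain ⟨y, hy1, hy2⟩ := hR.a_of u
  obtain ⟨z, hz1, hz2⟩ := hR.a_of v
  rw [hy2, hz2]
  have ap : ∀ j, A (M.a x (pr j)) = A (M.a x j) := fun j => by rw [← hR.τ_x, h1]
  by_cases e : A (M.a x k) = A (M.a x 0)
  · refine h.2 A (tau_inv_of (hR.off h1) fun j => ?_) h2 y z
    rcases hk j with e' | e' | e' | e'
    · rw [e']
    · rw [e', ap]
    · rw [e', e]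
    · rw [e', ap, e]
  · by_contra hne
    apply hcon
    refine ⟨A, hR.off h1, h2, ap, Bool.eq_not_iff.2 e, fun b => ?_⟩
    by_cases eb : A (M.a y 0) = b
    · exact ⟨y, hy1, eb⟩
    · refine ⟨z, hz1, ?_⟩
      revert hne eb
      cases A (M.a y 0) <;> cases A (M.a z 0) <;> cases b <;> simp

theorem prim_res [Fintype H] {M0 : Mp H X'} {M1 : Mp H X''} {x : X} (hc : M.Col col)
    (h : M.Prim) (hy : ∃ y, y ≠ x) (h0 : M.Res M0 x prZ) (h1 : M.Res M1 x prI) :
    M0.Prim ∨ M1.Prim := by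
  by_contra hcon
  rw [not_or] at hcon
  obtain ⟨A, A1, A2, A3, A4, A5⟩ := not_prim h hy h0 1 (by decide) hcon.1
  obtain ⟨B, B1, B2, B3, B4, B5⟩ := not_prim h hy h1 2 (by decide) hcon.2
  have a3 : A (M.a x 3) = A (M.a x 0) := A3 0
  have a2 : A (M.a x 2) = !A (M.a x 0) := (A3 1).trans A4
  have b1 : B (M.a x 1) = B (M.a x 0) := B3 0
  have b3 : B (M.a x 3) = !B (M.a x 0) := (B3 2).trans B4
  have cor : ∀ p q : Bool, M.chg (fun u => (A u == p) && (B u == q)) ≤ 4 →
      ∀ y, y ≠ x → ((A (M.a y 0) == p) && (B (M.a y 0) == q)) = false := by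
    intro p q hd y hy'
    have hi : ∃ i : Fin 4, ∀ j, j ≠ i → ((A (M.a x j) == p) && (B (M.a x j) == q)) = false := by
      simp only [Fin.exists_fin_succ, Fin.forall_fin_succ]
      have f1 : (Fin.succ 0 : Fin 4) = 1 := rfl
      have f2 : (Fin.succ (Fin.succ 0) : Fin 4) = 2 := rfl
      have f3 : (Fin.succ (Fin.succ (Fin.succ 0)) : Fin 4) = 3 := rfl
      rw [f3, f2, f1, a3, a2, b1, b3, A4, B4]
      cases A (M.a x 0) <;> cases B (M.a x 0) <;> cases p <;> cases q <;> simp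
    obtain ⟨i, hi⟩ := hi
    exact corner hc h (C := fun u => (A u == p) && (B u == q)) i
      (fun u hu => by simp only [A1 u hu, B1 u hu]) hi hd y hy'
  have s1 := chg_sub (M := M) A B true true
  have s2 := chg_sub (M := M) A B true false
  have t1 : ∃ p : Bool, M.chg (fun u => (A u == p) && (B u == p)) ≤ 4 := by
    by_cases c : M.chg (fun u => (A u == true) && (B u == true)) ≤ 4
    · exact ⟨true, c⟩
    · exact ⟨!true, by omega⟩
  have t2 : ∃ p : Bool, M.chg (fun u => (A u == p) && (B u == !p)) ≤ 4 := by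
    by_cases c : M.chg (fun u => (A u == true) && (B u == false)) ≤ 4
    · exact ⟨true, c⟩
    · refine ⟨false, ?_⟩
      have : M.chg (fun u => (A u == !true) && (B u == !false)) ≤ 4 := by omega
      exact this
  obtain ⟨p, hp⟩ := t1
  obtain ⟨q, hq⟩ := t2
  have c1 := cor _ _ hp
  have c2 := cor _ _ hq
  by_cases e : p = q
  · obtain ⟨y, y1, y2⟩ := A5 p
    have d1 := c1 y y1
    have d2 := c2 y y1
    rw [y2] at d1 d2
    rw [← e] at d2
    revert d1 d2
    cases p <;> cases B (M.a y 0) <;> simp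
  · obtain ⟨y, y1, y2⟩ := B5 p
    have d1 := c1 y y1
    have d2 := c2 y y1
    rw [y2] at d1 d2
    revert d1 d2 e
    cases p <;> cases q <;> cases A (M.a y 0) <;> simp

/-- Functions constant on the boundary curves of the faces. -/
def InvH (M : Mp H X) : Submodule ℚ (H → ℚ) where
  carrier := {f | ∀ h, f (M.rev (M.τ h)) = f h}
  add_mem' hf hg := fun h => by simp [hf h, hg h]
  zero_mem' := fun _ => rfl
  smul_mem' c f hf := fun h => by simp [hf h]

/-- Splitting a function on the arcs of the double. -/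
def invEquiv (M : Mp H X) : M.dg.Inv ∅ ≃ₗ[ℚ] M.InvH × (X → ℚ) where
  toFun f := (⟨fun h => f.1 (.inl h), fun h => f.2.1 (.inl h)⟩, fun x => f.1 (.inr (x, 0)))
  invFun g := ⟨Sum.elim g.1.1 (fun p => g.2 p.1), ⟨fun a => by
    rcases a with h | ⟨x, j⟩
    · exact g.1.2 h
    · rfl, fun y hy => absurd hy (Finset.notMem_empty y)⟩⟩
  map_add' f g := rfl
  map_smul' c f := rfl
  left_inv f := by
    apply Subtype.ext
    funext a
    rcases a with h | ⟨x, j⟩
    · rfl
    · have h1 : f.1 (.inr (x, 1)) = f.1 (.inr (x, 0)) := f.2.1 (.inr (x, 0))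
      have h2 : f.1 (.inr (x, 2)) = f.1 (.inr (x, 1)) := f.2.1 (.inr (x, 1))
      have h3 : f.1 (.inr (x, 3)) = f.1 (.inr (x, 2)) := f.2.1 (.inr (x, 2))
      show f.1 (.inr (x, 0)) = f.1 (.inr (x, j))
      match j with
      | 0 => rfl
      | 1 => exact h1.symm
      | 2 => exact (h2.trans h1).symm
      | 3 => exact (h3.trans (h2.trans h1)).symm
  right_inv g := rfl

theorem comp_eq [Fintype H] [Fintype X] (M : Mp H X) :
    M.dg.comp ∅ = Module.finrank ℚ M.InvH + Fintype.card X := by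
  rw [Dg.comp, M.invEquiv.finrank_eq, Module.finrank_prod, Module.finrank_fintype_fun_eq_card]

theorem cut_rank [Fintype H] {M' : Mp H X'} {x : X} (hR : M.Res M' x prC) :
    Module.finrank ℚ M.InvH ≤ Module.finrank ℚ M'.InvH + 2 := by
  let L : (H → ℚ) →ₗ[ℚ] ℚ × ℚ :=
    ((LinearMap.proj (M.a x 0) : (H → ℚ) →ₗ[ℚ] ℚ) - LinearMap.proj (M.a x 1)).prod
      ((LinearMap.proj (M.a x 2) : (H → ℚ) →ₗ[ℚ] ℚ) - LinearMap.proj (M.a x 3))
  have h1 : M.InvH ⊓ LinearMap.ker L ≤ M'.InvH := by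
    rintro f ⟨hf, hk⟩ u
    have hk' : L f = 0 := hk
    have k1 : f (M.a x 0) - f (M.a x 1) = 0 := congrArg Prod.fst hk'
    have k2 : f (M.a x 2) - f (M.a x 3) = 0 := congrArg Prod.snd hk'
    have hf' : ∀ h, f (M.rev (M.τ h)) = f h := hf
    rw [hR.rev]
    by_cases hu : ∀ j, u ≠ M.a x j
    · rw [hR.τ_ne u hu, hf']
    · push Not at hu
      obtain ⟨j, rfl⟩ := hu
      have g0 : f (M.rev (M.a x 1)) = f (M.a x 0) := by rw [← hf' (M.a x 0), M.τ_a]; rfl
      have g1 : f (M.rev (M.a x 2)) = f (M.a x 1) := by rw [← hf' (M.a x 1), M.τ_a]; rfl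
      have g2 : f (M.rev (M.a x 3)) = f (M.a x 2) := by rw [← hf' (M.a x 2), M.τ_a]; rfl
      have g3 : f (M.rev (M.a x 0)) = f (M.a x 3) := by rw [← hf' (M.a x 3), M.τ_a]; rfl
      rw [hR.τ_x]
      match j with
      | 0 => show f (M.rev (M.a x 2)) = _; linarith
      | 1 => show f (M.rev (M.a x 1)) = _; linarith
      | 2 => show f (M.rev (M.a x 0)) = _; linarith
      | 3 => show f (M.rev (M.a x 3)) = _; linarith
  have h2 := Submodule.finrank_mono h1
  have h3 := Submodule.finrank_sup_add_finrank_inf_eq M.InvH (LinearMap.ker L)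
  have h4 := LinearMap.finrank_range_add_finrank_ker L
  have h5 := Submodule.finrank_le (M.InvH ⊔ LinearMap.ker L)
  have h6 := Submodule.finrank_le (LinearMap.range L)
  rw [Module.finrank_prod, Module.finrank_self] at h6
  omega

theorem rank_three [Fintype H] [IsEmpty X] (hc : M.Col col) (h : ¬ M.Conn) :
    3 ≤ Module.finrank ℚ M.InvH := by
  rw [Conn] at h
  push Not at h
  obtain ⟨φ, h1, h2, u, v, huv⟩ := h
  let w : Fin 3 → M.InvH := ![⟨fun _ => 1, fun _ => rfl⟩,
    ⟨fun h => if col h then 1 else 0, fun h => by simp only [hc.1, hc.2, Bool.not_not]⟩,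
    ⟨fun h => if φ h then 1 else 0, fun h => by simp only [h1, h2]⟩]
  have hw : LinearIndependent ℚ w := by
    rw [Fintype.linearIndependent_iff]
    intro g hg
    have e : ∀ h, g 0 + g 1 * (if col h then 1 else 0) + g 2 * (if φ h then 1 else 0) = 0 := by
      intro h
      have := congrFun (congrArg Subtype.val hg) h
      rw [Fin.sum_univ_three] at this
      simpa [w] using this
    have e1 := e u
    have e2 := e (M.rev u)
    have e3 := e v
    rw [hc.1, h2] at e2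
    have z1 : g 1 = 0 := by
      revert e1 e2
      cases col u <;> simp <;> intro e1 e2 <;> linarith
    rw [z1] at e1 e3
    have z2 : g 0 = 0 ∧ g 2 = 0 := by
      revert e1 e3 huv
      cases φ u <;> cases φ v <;> simp <;> intro e1 e3 <;> constructor <;> linarith
    intro i
    match i with
    | 0 => exact z2.1
    | 1 => exact z1
    | 2 => exact z2.2
  simpa using hw.fintype_card_le_finrank

theorem rank_two [Fintype H] [IsEmpty X] (h : M.Conn) : Module.finrank ℚ M.InvH ≤ 2 := by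
  classical
  rcases isEmpty_or_nonempty H with hH | ⟨⟨u⟩⟩
  · have := Submodule.finrank_le M.InvH
    rw [Module.finrank_fintype_fun_eq_card, Fintype.card_eq_zero] at this
    omega
  · let L : M.InvH →ₗ[ℚ] ℚ × ℚ :=
      (((LinearMap.proj u : (H → ℚ) →ₗ[ℚ] ℚ)).prod (LinearMap.proj (M.rev u))).comp
        M.InvH.subtype
    have hL : Function.Injective L := by
      rw [injective_iff_map_eq_zero]
      rintro ⟨f, hf⟩ h0
      have hf' : ∀ h, f (M.rev (M.τ h)) = f h := hf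
      have k1 : f u = 0 := congrArg Prod.fst h0
      have k2 : f (M.rev u) = 0 := congrArg Prod.snd h0
      apply Subtype.ext
      funext v
      have key := h (fun t => decide (f t = 0 ∧ f (M.rev t) = 0)) (fun t => ?_) (fun t => ?_) v u
      · rw [decide_eq_decide] at key
        exact (key.2 ⟨k1, k2⟩).1
      · have e := hf' (M.τ t)
        rw [M.τ_free t (fun x => isEmptyElim x)] at e
        rw [decide_eq_decide, hf', ← e, and_comm]
      · rw [decide_eq_decide, M.rev_rev, and_comm]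
    have := LinearMap.finrank_le_finrank_of_injective hL
    rwa [Module.finrank_prod, Module.finrank_self] at this

end Mp

end Pool.Agent.Lib.MP_3a4f2f_gt.H39
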