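import Pool.Agent.Lib.MP_3a4f2f_gt.H39.Rect
import Pool.Agent.Lib.MP_3a4f2f_gt.H39.Prim

/-! Deletion and contraction for the top coefficient of a double. -/

set_option autoImplicit false

namespace Pool.Agent.Lib.MP_3a4f2f_gt.H39

open LaurentPolynomial Function

def vv (i : Fin 4) (p0 p1 p2 p3 : Option Bool) (j : Fin 4) : Option Bool :=
  if j = i then p0 else if j = i + 1 then p1 else if j = i + 2 then p2 else p3

lemma vv_rot (i : Fin 4) (p0 p1 p2 p3 : Option Bool) :
    vv (i + 1) p1 p2 p3 p0 = vv i p0 p1 p2 p3 := by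
  funext j; fin_cases i <;> fin_cases j <;> rfl

lemma vv0 (i : Fin 4) (p0 p1 p2 p3 : Option Bool) : vv i p0 p1 p2 p3 i = p0 := by
  fin_cases i <;> rfl
lemma vv1 (i : Fin 4) (p0 p1 p2 p3 : Option Bool) : vv i p0 p1 p2 p3 (i + 1) = p1 := by
  fin_cases i <;> rfl
lemma vv2 (i : Fin 4) (p0 p1 p2 p3 : Option Bool) : vv i p0 p1 p2 p3 (i + 2) = p2 := by
  fin_cases i <;> rfl
lemma vv3 (i : Fin 4) (p0 p1 p2 p3 : Option Bool) : vv i p0 p1 p2 p3 (i + 3) = p3 := by
  fin_cases i <;> rfl

lemma vv_upd (i : Fin 4) (p0 p1 p2 p3 r : Option Bool) :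
    update (vv i p0 p1 p2 p3) i r = vv i r p1 p2 p3 := by
  funext j; fin_cases i <;> fin_cases j <;> rfl

def oc (p : Option Bool) : ℕ := if p = none then 0 else 1
def ow : Option Bool → ℤ
  | none => 0
  | some true => 1
  | some false => -1

lemma f4a (i : Fin 4) : i + 1 + 1 = i + 2 ∧ i + 2 + 1 = i + 3 ∧ i + 3 + 1 = i ∧ i + 1 + 2 = i + 3 ∧
    i + 2 + 2 = i ∧ i + 1 + 3 = i ∧ i + 2 + 3 = i + 1 ∧ i ≠ i + 1 ∧ i + 3 ≠ i + 1 := by
  revert i; decide

lemma f4b (i j : Fin 4) : j = i ∨ j = i + 1 ∨ j = i + 2 ∨ j = i + 3 := by revert i j; decide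

namespace Mp

variable {H X : Type} {M : Mp H X} {col : H → Bool}

lemma Rch.reach {h g : H} (r : M.Rch h g) (σ : State (X × Fin 4)) :
    M.dg.Reach σ (.inl h) (.inl g) := by
  induction r with
  | refl h => exact .refl _
  | step h1 _ ih =>
    refine .step (fun y e he => ?_) ih
    cases e
    · cases he
    · exact absurd (Sum.inl.inj he) (h1 _ _)

lemma Rch.det {h : H} {x y : X} {j m : Fin 4} (r : M.Rch h (M.a x j)) (r' : M.Rch h (M.a y m)) :
    M.a x j = M.a y m := by
  generalize hg : M.a x j = g at r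
  induction r with
  | refl h =>
    cases hg
    generalize hg' : M.a y m = g' at r'
    generalize hg : M.a x j = g at r'
    cases r' with
    | refl => rfl
    | step h1 _ => exact absurd hg.symm (h1 _ _)
  | step h1 _ ih =>
    generalize hg' : M.a y m = g' at r'
    cases r' with
    | refl => exact absurd hg'.symm (h1 _ _)
    | step _ h2 => exact hg' ▸ ih (hg' ▸ h2) hg

lemma Rch.rev' {x y : X} {j m : Fin 4} (r : M.Rch (M.rev (M.a x j)) (M.a y m)) :
    M.Rch (M.rev (M.a y m)) (M.a x j) := by simpa only [M.rev_rev] using r.rev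

lemma Col.succ (hc : M.Col col) (x : X) (j : Fin 4) : col (M.a x (j + 1)) = !col (M.a x j) := by
  rw [← M.τ_a, hc.2]

lemma Col.next (hc : M.Col col) {x y : X} {j m : Fin 4}
    (r : M.Rch (M.rev (M.a x j)) (M.a y m)) : col (M.a y m) = !col (M.a x j) := by
  rw [r.colr hc, hc.1]

lemma s_a (M : Mp H X) (x : X) (j : Fin 4) :
    M.dg.s (M.dg.arc (x, j) true) = .inl (M.rev (M.a x (j + 1))) := by rw [arc_t, s_inl, M.τ_a]

variable [DecidableEq X]

/-- The original state, changed at the corners of `x`. -/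
def st (M : Mp H X) (col : H → Bool) (x : X) (v : Fin 4 → Option Bool) : State (X × Fin 4) :=
  fun y => if y.1 = x then v y.2 else some (col (M.a y.1 y.2))

lemma st_x (x : X) (v : Fin 4 → Option Bool) (j : Fin 4) : M.st col x v (x, j) = v j := if_pos rfl

lemma st_y {x y : X} (h : y ≠ x) (v : Fin 4 → Option Bool) (j : Fin 4) :
    M.st col x v (y, j) = some (col (M.a y j)) := if_neg h

lemma st_upd (x : X) (v : Fin 4 → Option Bool) (j : Fin 4) (r : Option Bool) :
    update (M.st col x v) (x, j) r = M.st col x (update v j r) := by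
  funext ⟨y, m⟩
  by_cases h : y = x
  · subst h
    by_cases h' : m = j
    · subst h'; simp [st]
    · rw [update_of_ne (by simpa using h'), st_x, st_x, update_of_ne h']
  · rw [update_of_ne (by simp [h]), st_y h, st_y h]

variable [Fintype X]

lemma nk_st (x : X) (i : Fin 4) (p0 p1 p2 p3 : Option Bool) :
    Dg.nk (M.st col x (vv i p0 p1 p2 p3)) + 4 =
      4 * Fintype.card X + (oc p0 + oc p1 + oc p2 + oc p3) := by
  have h1 : ∀ v : Fin 4 → Option Bool, Dg.nk (M.st col x v) + 4 =
      4 * Fintype.card X + ∑ j, oc (v j) := fun v => by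
    rw [Dg.nk, Finset.card_filter, Fintype.sum_prod_type,
      ← Finset.add_sum_erase _ _ (Finset.mem_univ x),
      Finset.sum_congr rfl (s₂ := Finset.univ.erase x) (g := fun _ => 4) (fun y hy => by
        simp [st_y (Finset.ne_of_mem_erase hy)]),
      Finset.sum_const, ← Finset.card_univ, ← Finset.card_erase_add_one (Finset.mem_univ x)]
    have : ∑ j, (if M.st col x v (x, j) ≠ none then 1 else 0) = ∑ j, oc (v j) :=
      Finset.sum_congr rfl fun j _ => by simp [st_x, oc]
    rw [this, smul_eq_mul]; ring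
  rw [h1, Fin.sum_univ_four]
  fin_cases i <;> simp [vv] <;> ring

variable [Fintype H] [DecidableEq H] {F : State (X × Fin 4) → L2}

/-- Top coefficient of a state, normalised by the writhe. -/
noncomputable def TT (M : Mp H X) (col : H → Bool) (F : State (X × Fin 4) → L2) (x : X)
    (i : Fin 4) (p0 p1 p2 p3 : Option Bool) : L1 :=
  T (-(ow p0 + ow p1 + ow p2 + ow p3)) *
    mc (2 * Fintype.card X - 5 + (oc p0 + oc p1 + oc p2 + oc p3 : ℕ))
      (F (M.st col x (vv i p0 p1 p2 p3)))

omit [Fintype H] [DecidableEq H] in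
lemma TT_rot (x : X) (i : Fin 4) (p0 p1 p2 p3 : Option Bool) :
    M.TT col F x (i + 1) p1 p2 p3 p0 = M.TT col F x i p0 p1 p2 p3 := by
  rw [TT, TT, vv_rot, show ow p1 + ow p2 + ow p3 + ow p0 = ow p0 + ow p1 + ow p2 + ow p3 by ring,
    show oc p1 + oc p2 + oc p3 + oc p0 = oc p0 + oc p1 + oc p2 + oc p3 by ring]

structure Ctx (M : Mp H X) (col : H → Bool) (F : State (X × Fin 4) → L2) : Prop where
  col : M.Col col
  orc : M.dg.Orc F
  eul : 2 * Fintype.card X + 2 ≤ M.dg.comp ∅

omit [DecidableEq H] in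
lemma Ctx.sk0 (h : Ctx M col F) (x : X) (i : Fin 4) (p1 p2 p3 : Option Bool) :
    M.TT col F x i (some true) p1 p2 p3 - M.TT col F x i (some false) p1 p2 p3 =
      M.TT col F x i none p1 p2 p3 := by
  have h1 := congrArg (mc (2 * Fintype.card X - 5 + (1 + oc p1 + oc p2 + oc p3 : ℕ)))
    (h.orc.sk (M.st col x (vv i none p1 p2 p3)) (x, i))
  simp only [st_upd, vv_upd, mc_sub, mc_T, mc_C] at h1
  simp only [TT, show ow (some true) = 1 from rfl, show ow (some false) = -1 from rfl,
    show ow none = 0 from rfl, show oc (some true) = 1 from rfl, show oc (some false) = 1 from rfl,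
    show oc none = 0 from rfl]
  rw [show (2 * Fintype.card X - 5 + (0 + oc p1 + oc p2 + oc p3 : ℕ) : ℤ) =
      2 * Fintype.card X - 5 + (1 + oc p1 + oc p2 + oc p3 : ℕ) - 1 by push_cast; ring, ← h1,
    show -(1 + ow p1 + ow p2 + ow p3) = -(0 + ow p1 + ow p2 + ow p3) + -1 by ring,
    show -(-1 + ow p1 + ow p2 + ow p3) = -(0 + ow p1 + ow p2 + ow p3) + 1 by ring, T_add, T_add]
  ring

omit [DecidableEq H] in
lemma Ctx.sk1 (h : Ctx M col F) (x : X) (i : Fin 4) (p0 p2 p3 : Option Bool) :
    M.TT col F x i p0 (some true) p2 p3 - M.TT col F x i p0 (some false) p2 p3 =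
      M.TT col F x i p0 none p2 p3 := by
  simpa only [TT_rot] using h.sk0 x (i + 1) p2 p3 p0

omit [DecidableEq H] in
lemma Ctx.sk2 (h : Ctx M col F) (x : X) (i : Fin 4) (p0 p1 p3 : Option Bool) :
    M.TT col F x i p0 p1 (some true) p3 - M.TT col F x i p0 p1 (some false) p3 =
      M.TT col F x i p0 p1 none p3 := by
  simpa only [TT_rot] using h.sk1 x (i + 1) p1 p3 p0

omit [DecidableEq H] in
lemma Ctx.sk3 (h : Ctx M col F) (x : X) (i : Fin 4) (p0 p1 p2 : Option Bool) :
    M.TT col F x i p0 p1 p2 (some true) - M.TT col F x i p0 p1 p2 (some false) =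
      M.TT col F x i p0 p1 p2 none := by
  simpa only [TT_rot] using h.sk2 x (i + 1) p1 p2 p0

omit [DecidableEq H] in
lemma Ctx.zero (h : Ctx M col F) {x : X} {i : Fin 4} {p0 p1 p2 p3 : Option Bool}
    (hz : M.dg.Zr F (M.st col x (vv i p0 p1 p2 p3))) : M.TT col F x i p0 p1 p2 p3 = 0 := by
  have h1 := nk_st (M := M) (col := col) x i p0 p1 p2 p3
  have h2 := h.eul
  rw [TT, hz _ (by omega), mul_zero]

lemma Ctx.rect (h : Ctx M col F) {x y : X} {i m : Fin 4} (hy : y ≠ x)
    (r : M.Rch (M.rev (M.a x (i + 1))) (M.a y m)) (hc : col (M.a x (i + 1)) = false)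
    (p2 p3 : Option Bool) : M.TT col F x i (some false) (some true) p2 p3 = 0 := by
  obtain ⟨m, rfl⟩ : ∃ m', m = m' + 1 := ⟨m + 3, (f4a m).2.2.1.symm⟩
  have c1 := h.col.next r
  have c2 := h.col.succ y m
  rw [hc] at c1
  rw [c1] at c2
  refine h.zero (h.orc.rect (P := (x, i)) (Q := (y, m + 1)) (R := (y, m)) (S := (x, i + 1))
    (eP := false) (eQ := true) (eR := false) (eS := true) (by rw [st_x, vv0])
    (by rw [st_y hy, c1]; rfl) (by rw [st_y hy]; simpa using c2) (by rw [st_x, vv1])
    (by simp [hy.symm]) (by simp [hy.symm]) (by simp) (by simp) (by simp [hy]) (by simp [hy])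
    (.refl _) (.refl _) ?_ ?_)
  · rw [Bool.not_false, s_a]; exact r.reach _
  · rw [Bool.not_false, s_a]; exact r.rev'.reach _

omit [Fintype H] [DecidableEq H] [Fintype X] [DecidableEq X] in
lemma reach_sq {σ : State (X × Fin 4)} {x : X} {j : Fin 4} (h : σ (x, j) = none) :
    M.dg.Reach σ (.inr (x, j)) (.inr (x, j + 1)) :=
  .step (M.dg.free_arc h false) (.refl _)

/-- The square is a leaf. -/
lemma Ctx.leafSq (h : Ctx M col F) (x : X) (i : Fin 4) (b : Bool) :
    F (M.st col x (vv i none none none none)) = dl * F (M.st col x (vv i (some b) none none none)) := by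
  obtain ⟨e1, e2, e3, -⟩ := f4a i
  rw [← h.orc.leaf (y := (x, i)) (e := false) (by simp [st_x, vv0]), st_upd, vv_upd]
  have a1 := reach_sq (M := M) (σ := M.st col x (vv i (some b) none none none)) (x := x)
    (j := i + 1) (by rw [st_x, vv1])
  have a2 := reach_sq (M := M) (σ := M.st col x (vv i (some b) none none none)) (x := x)
    (j := i + 2) (by rw [st_x, vv2])
  have a3 := reach_sq (M := M) (σ := M.st col x (vv i (some b) none none none)) (x := x)
    (j := i + 3) (by rw [st_x, vv3])
  rw [e1] at a1; rw [e2] at a2; rw [e3] at a3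
  exact (a1.trans a2).trans a3

/-- A monogon is a leaf. -/
lemma Ctx.leafMon (h : Ctx M col F) {x : X} {i : Fin 4}
    (r : M.Rch (M.rev (M.a x (i + 1))) (M.a x i)) (b : Bool) (p1 p2 p3 : Option Bool) :
    F (M.st col x (vv i none p1 p2 p3)) = dl * F (M.st col x (vv i (some b) p1 p2 p3)) := by
  rw [← h.orc.leaf (y := (x, i)) (e := true) (by simp [st_x, vv0]), st_upd, vv_upd]
  rw [s_a]; exact r.reach _

lemma Ctx.fingerS (h : Ctx M col F) {x y : X} {i m : Fin 4} (hy : y ≠ x)
    (r : M.Rch (M.rev (M.a x (i + 1))) (M.a y m)) (hc : col (M.a x (i + 1)) = true) :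
    M.TT col F x i (some true) (some false) none none = 0 := by
  obtain ⟨m, rfl⟩ : ∃ m', m = m' + 1 := ⟨m + 3, (f4a m).2.2.1.symm⟩
  obtain ⟨e1, e2, e3, -⟩ := f4a i
  have c1 := h.col.next r
  have c2 := h.col.succ y m
  rw [hc] at c1
  rw [c1] at c2
  refine h.zero (h.orc.four (P := (y, m)) (Q := (x, i + 1)) (R := (x, i)) (S := (y, m + 1))
    (eP := true) (eQ := false) (eR := true) (eS := false) (by rw [st_y hy]; simpa using c2)
    (by rw [st_x, vv1]) (by rw [st_x, vv0]) (by rw [st_y hy, c1]; rfl)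
    (by simp [hy]) (by simp [hy]) (by simp) (by simp [hy.symm]) (by simp [hy.symm])
    ?_ ?_ ?_ (Dg.rel_s _ _).symm)
  · rw [s_a]; exact r.rev'.reach _
  · have a2 := reach_sq (M := M) (σ := M.st col x (vv i (some true) (some false) none none))
      (x := x) (j := i + 2) (by rw [st_x, vv2])
    have a3 := reach_sq (M := M) (σ := M.st col x (vv i (some true) (some false) none none))
      (x := x) (j := i + 3) (by rw [st_x, vv3])
    rw [e2] at a2; rw [e3] at a3
    rw [arc_f, s_inr, e1]
    exact a2.trans a3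
  · rw [s_a]; exact r.reach _

lemma Ctx.fingerO (h : Ctx M col F) {x y : X} {i m : Fin 4} (hy : y ≠ x)
    (r : M.Rch (M.rev (M.a x (i + 1))) (M.a y m)) (hc : col (M.a x (i + 1)) = true) :
    M.TT col F x i (some false) (some true) none none = 0 := by
  have h1 := h.fingerS hy r hc
  have h2 := h.sk0 x i (some false) none none
  have h3 := h.sk1 x i (some false) none none
  have h4 := h.leafSq x i false
  have h5 := h.leafSq x (i + 1) false
  rw [vv_rot, vv_rot, h4] at h5
  have h6 : M.TT col F x i none (some false) none none =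
      M.TT col F x i (some false) none none none := by
    rw [TT, TT, ← mul_left_cancel₀ dl_ne h5]; congr 2
  linear_combination h1 - h2 + h3 - h6

theorem Ctx.dc (h : Ctx M col F) {x : X} {i : Fin 4}
    (hn : ∀ j m, ¬ M.Rch (M.rev (M.a x j)) (M.a x m)) (hc : col (M.a x i) = true) :
    M.TT col F x i (some true) (some false) (some true) (some false) =
      M.TT col F x i none (some false) none (some true) +
        M.TT col F x i (some false) none (some true) none := by
  obtain ⟨e1, e2, e3, e4, e5, e6, -⟩ := f4a i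
  have nx : ∀ j, ∃ y m, y ≠ x ∧ M.Rch (M.rev (M.a x j)) (M.a y m) := fun j => by
    obtain ⟨y, m, r⟩ := M.next_cr x j
    exact ⟨y, m, fun hy => hn j m (hy ▸ r), r⟩
  have c1 : col (M.a x (i + 1)) = false := by rw [h.col.succ, hc]; rfl
  have c2 : col (M.a x (i + 1 + 1)) = true := by rw [h.col.succ, c1]; rfl
  have c3 : col (M.a x (i + 1 + 1 + 1)) = false := by rw [h.col.succ, c2]; rfl
  have c4 : col (M.a x (i + 1 + 1 + 1 + 1)) = true := by rw [h.col.succ, c3]; rfl
  obtain ⟨y1, m1, a1, r1⟩ := nx (i + 1)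
  obtain ⟨y2, m2, a2, r2⟩ := nx (i + 1 + 1)
  obtain ⟨y3, m3, a3, r3⟩ := nx (i + 1 + 1 + 1)
  obtain ⟨y4, m4, a4, r4⟩ := nx (i + 1 + 1 + 1 + 1)
  have z1 := h.rect a1 r1 c1 (some true) (some false)
  have z2 := h.rect a3 r3 c3 none (some false)
  have z3 := h.rect a3 r3 c3 (some false) none
  have z4 := h.fingerO a2 r2 c2
  have z5 := h.fingerS a4 r4 c4
  simp only [TT_rot] at z2 z3 z4 z5
  linear_combination h.sk0 x i (some false) (some true) (some false) -
    h.sk1 x i (some false) (some true) (some false) + z1 -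
    h.sk3 x i none (some false) (some true) + h.sk2 x i none (some false) (some true) + z2 +
    h.sk3 x i (some false) none (some true) - h.sk2 x i (some false) none (some true) - z3 -
    z4 - z5

lemma Ctx.loop (h : Ctx M col F) {x : X} {i : Fin 4}
    (r : M.Rch (M.rev (M.a x (i + 1))) (M.a x i)) (p0 p2 : Option Bool) :
    M.TT col F x i p0 (some false) p2 (some true) = 0 := by
  obtain ⟨e1, e2, e3, -, -, -, -, -, e9⟩ := f4a i
  refine h.zero (h.orc.bigon (P := (x, i + 3)) (Q := (x, i + 1)) (eP := true) (eQ := false)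
    (by rw [st_x, vv3]) (by rw [st_x, vv1]) (by simp) ?_ ?_)
  · rw [s_a, e3]; exact r.rev'.reach _
  · have a1 := Dg.rel_s (D := M.dg) ∅ (.inr (x, i + 1))
    have a2 := Dg.rel_s (D := M.dg) ∅ (.inr (x, i + 2))
    rw [s_inr, e1] at a1
    rw [s_inr, e2] at a2
    exact a2.trans a1

lemma Ctx.leafT (h : Ctx M col F) {x : X} {i : Fin 4}
    (r : M.Rch (M.rev (M.a x (i + 1))) (M.a x i)) (b : Bool) (p1 p2 p3 : Option Bool) :
    (T (-1) - T 1) * M.TT col F x i (some b) p1 p2 p3 =
      T (-ow (some b)) * M.TT col F x i none p1 p2 p3 := by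
  rw [TT, TT, h.leafMon r b, mc_dl,
    show -(ow (some b) + ow p1 + ow p2 + ow p3) =
      -ow (some b) + -(ow none + ow p1 + ow p2 + ow p3) by simp only [ow]; ring, T_add,
    show (2 * Fintype.card X - 5 + (oc none + oc p1 + oc p2 + oc p3 : ℕ) : ℤ) + 1 =
      2 * Fintype.card X - 5 + (oc (some b) + oc p1 + oc p2 + oc p3 : ℕ) by
        simp only [show oc (some b) = 1 from rfl, show oc none = 0 from rfl]; push_cast; ring]
  ring

theorem Ctx.kink (h : Ctx M col F) {x : X} {i : Fin 4} {b : Bool}
    (r : M.Rch (M.rev (M.a x (i + 1))) (M.a x i)) (hc : col (M.a x i) = b) :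
    M.TT col F x i (some b) (some (!b)) (some b) (some (!b)) = 0 ∨
      M.Rch (M.rev (M.a x (i + 3))) (M.a x (i + 2)) := by
  obtain ⟨e1, e2, e3, e4, e5, e6, e7, e8, e9⟩ := f4a i
  have c1 : col (M.a x (i + 1)) = !b := by rw [h.col.succ, hc]
  have c2 : col (M.a x (i + 2)) = b := by rw [← e1, h.col.succ, c1, Bool.not_not]
  have c3 : col (M.a x (i + 3)) = !b := by rw [← e2, h.col.succ, c2]
  cases b
  · obtain ⟨y, m, r'⟩ := M.next_cr x (i + 3)
    by_cases hy : y = x
    · subst hy
      have c4 := h.col.next r'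
      rcases f4b i m with rfl | rfl | rfl | rfl
      · exact absurd (M.a_inj _ _ _ _ (r'.rev'.det r.rev')).2 e9
      · simp [c1, c3] at c4
      · exact Or.inr r'
      · simp at c4
    left
    have z1 := h.fingerO (i := i + 1 + 1) hy (by rwa [e1, e2]) (by rwa [e1, e2])
    have z2 := h.leafT r false none (some false) (some true)
    simp only [TT_rot] at z1
    rw [z1, mul_zero] at z2
    rw [Bool.not_false]
    linear_combination h.sk1 x i (some false) (some false) (some true) +
      h.loop r (some false) (some false) + (mul_eq_zero.1 z2).resolve_left eta_ne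
  · obtain ⟨y, m, r'⟩ := M.next_cr x (i + 2)
    by_cases hy : y = x
    · subst hy
      have c4 := h.col.next r'
      rcases f4b i m with rfl | rfl | rfl | rfl
      · simp [hc, c2] at c4
      · have := (M.a_inj _ _ _ _ (r'.rev'.det r)).2
        exact absurd this ((by decide : ∀ i : Fin 4, i + 2 ≠ i) i)
      · simp at c4
      · exact Or.inr r'.rev'
    left
    have z1 := h.fingerO (i := i + 1) hy (by rwa [e1]) (by rwa [e1])
    have z2 := h.leafT r true (some false) (some true) none
    simp only [TT_rot] at z1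
    rw [z1, mul_zero] at z2
    rw [Bool.not_true]
    linear_combination -h.sk3 x i (some true) (some false) (some true) +
      h.loop r (some true) (some true) - (mul_eq_zero.1 z2).resolve_left eta_ne

theorem Ctx.kink2 (h : Ctx M col F) {x : X} {i : Fin 4} (b : Bool)
    (r : M.Rch (M.rev (M.a x (i + 1))) (M.a x i))
    (r' : M.Rch (M.rev (M.a x (i + 3))) (M.a x (i + 2))) :
    (T (-1) - T 1) * M.TT col F x i (some b) (some (!b)) (some b) (some (!b)) =
      (if b then -T (-1) else T 1) * M.TT col F x i (some b) none (some (!b)) none := by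
  obtain ⟨e1, e2, e3, -⟩ := f4a i
  have r2 : M.Rch (M.rev (M.a x (i + 1 + 1 + 1))) (M.a x (i + 1 + 1)) := by rwa [e1, e2]
  have a1 := h.leafMon r b none (some (!b)) none
  have a2 := h.leafMon r2 (!b) none none none
  simp only [vv_rot] at a2
  cases b
  · have b1 := h.leafMon r false none (some false) (some true)
    have b2 := h.leafMon r2 false (some true) none none
    have b3 := h.leafSq x (i + 1 + 1 + 1) true
    simp only [vv_rot] at b2 b3
    rw [a2, a1, b2, b1] at b3
    have b4 := mul_left_cancel₀ dl_ne (mul_left_cancel₀ dl_ne b3)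
    have b5 : M.TT col F x i (some false) (some true) (some false) (some true) =
        M.TT col F x i (some false) none (some false) (some true) := by
      linear_combination h.sk1 x i (some false) (some false) (some true) +
        h.loop r (some false) (some false)
    simp only [Bool.not_false, Bool.false_eq_true, if_false] at b4 ⊢
    rw [b5, TT, TT, b4, mc_dl]
    simp only [ow, oc, reduceCtorEq, if_false, if_true]
    norm_num
    ring_nf
  · have b1 := h.leafMon r true (some false) (some true) none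
    have b2 := h.leafMon r2 true none none (some false)
    have b3 := h.leafSq x (i + 1) false
    simp only [vv_rot] at b2 b3
    rw [a2, a1, b2, b1] at b3
    have b4 := mul_left_cancel₀ dl_ne (mul_left_cancel₀ dl_ne b3)
    have b5 : M.TT col F x i (some true) (some false) (some true) (some false) =
        -M.TT col F x i (some true) (some false) (some true) none := by
      linear_combination -h.sk3 x i (some true) (some false) (some true) +
        h.loop r (some true) (some true)
    simp only [Bool.not_true, if_true] at b4 ⊢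
    rw [b5, TT, TT, b4, mc_dl]
    simp only [ow, oc, reduceCtorEq, if_false, if_true]
    norm_num
    ring_nf

end Mp

end Pool.Agent.Lib.MP_3a4f2f_gt.H39
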