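import Pool.Agent.Lib.MP_3a4f2f_gt.Defs

/-!
Doubles and Whitehead doubles of diagrams, alternating and prime diagrams, degree in `m`.
-/

set_option autoImplicit false

namespace Pool.Agent.Lib.MP_3a4f2f_gt.H39

/-- The blackboard double of one piece: strand `p` becomes the strands `2p` (running
rightwards) and `2p+1` (running leftwards). -/
def dblL : Letter × ℕ → Word
  | (.cup _, i) => [(.cup true, 2 * i), (.cup false, 2 * i + 1)]
  | (.cap, i) => [(.cap, 2 * i + 1), (.cap, 2 * i)]
  | (.cr b, i) => [(.cr b, 2 * i + 1), (.cr b, 2 * i), (.cr b, 2 * i + 2), (.cr b, 2 * i + 1)]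

/-- The blackboard double with antiparallel strands. -/
def dbl (w : Word) : Word := w.flatMap dblL

/-- `n` full twists in the band that doubles strand `i`. -/
def twist (b : Bool) (n i : ℕ) : Word := List.replicate (2 * n) (.cr b, 2 * i)

/-- A clasp in the band that doubles strand `i`. -/
def clasp (b : Bool) (i : ℕ) : Word :=
  [(.cup true, 2 * i + 1), (.cr b, 2 * i), (.cr b, 2 * i + 2), (.cap, 2 * i + 1)]

/-- Number of strands to the left of piece number `k`. -/
def wd (w : Word) (k : ℕ) : ℕ := (w.take k).foldl (fun n g => n - g.1.inp + g.1.out) 0

/-- Number of crossings. -/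
def crs (w : Word) : ℕ := w.countP fun g => g.1 = .cr true ∨ g.1 = .cr false

/-- Alternating diagram: in a checkerboard colouring (the regions between strands `p - 1` and `p`
are coloured by the parity of `p`) all crossings have the same type. -/
def Alt (w : Word) : Prop := ∃ ε : Bool, ∀ b i, (.cr b, i) ∈ w → b = xor ε (decide (Odd i))

/-- Strand ends: `(k, p, true)` is the end of strand `p` on the left side of the vertical strip
that holds piece number `k`, and `(k, p, false)` the end on its right side. -/
abbrev Port : Type := ℕ × ℕ × Bool

def ports (w : Word) : Finset Port :=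
  (Finset.range w.length).biUnion fun k =>
    (Finset.range (wd w k)).image (fun p => (k, p, true)) ∪
      (Finset.range (wd w (k + 1))).image (fun p => (k, p, false))

/-- The same point of the diagram seen from the neighbouring strip. -/
def opp : Port → Port
  | (k, p, true) => (k - 1, p, false)
  | (k, p, false) => (k + 1, p, true)

/-- Inside the strip of piece `g`: the other end of the arc, or the next end around the
crossing. -/
def across (g : Letter × ℕ) : ℕ × Bool → ℕ × Bool
  | (p, true) =>
      if p < g.2 then (p, false)
      else if g.2 + g.1.inp ≤ p then (p - g.1.inp + g.1.out, false)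
      else if g.1.out = 0 then (2 * g.2 + 1 - p, true)
      else if p = g.2 then (g.2, false) else (g.2, true)
  | (p, false) =>
      if p < g.2 then (p, true)
      else if g.2 + g.1.out ≤ p then (p - g.1.out + g.1.inp, true)
      else if g.1.inp = 0 then (2 * g.2 + 1 - p, false)
      else if p = g.2 then (g.2 + 1, false) else (g.2 + 1, true)

def turn (w : Word) (h : Port) : Port := (h.1, across (w.getD h.1 (.cap, 0)) h.2)

/-- A two-colouring of the diagram that changes colour only between neighbouring strips. -/
def Colouring (w : Word) (φ : Port → Bool) : Prop := ∀ h ∈ ports w, φ (turn w h) = φ h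

/-- Twice the number of points where the colour changes. -/
def changes (w : Word) (φ : Port → Bool) : ℕ :=
  ((ports w).filter fun h => φ (opp h) ≠ φ h).card

/-- Prime diagram: it is connected, and when it is cut in at most two points into two parts,
all crossings lie in one part. -/
def Prime (w : Word) : Prop :=
  (∀ φ, Colouring w φ → changes w φ = 0 → ∀ h ∈ ports w, ∀ h' ∈ ports w, φ h = φ h') ∧
  ∀ φ, Colouring w φ → changes w φ ≤ 4 → ∀ k b i k' b' i', w[k]? = some (.cr b, i) →
    w[k']? = some (.cr b', i') → φ (k, i, true) = φ (k', i', true)

/-- Largest exponent of the inner variable `m`. -/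
noncomputable def mDeg (p : L2) : WithBot ℤ :=
  p.coeff.support.sup fun j => (p.coeff j).coeff.support.max

end Pool.Agent.Lib.MP_3a4f2f_gt.H39
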