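import Pool.Agent.Lib.MP_3a4f2f_gt.H39.Poly

/-! Abstract diagrams: arcs, Seifert successor, crossings, states. Abstract maps. -/

set_option autoImplicit false

namespace Pool.Agent.Lib.MP_3a4f2f_gt.H39

open LaurentPolynomial Function

/-- `s`: next arc on the Seifert circle; `arc y e`: the two arcs entering the crossing `y`. -/
structure Dg (A Y : Type) where
  s : Equiv.Perm A
  arc : Y → Bool → A
  inj : ∀ y e y' e', arc y e = arc y' e' → y = y' ∧ e = e'

/-- `some e`: the crossing is present, `arc y e` is over, positive iff `e`; `none`: smoothed. -/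
abbrev State (Y : Type) : Type := Y → Option Bool

namespace Dg

variable {A Y : Type} (D : Dg A Y)

open Classical in
noncomputable def sw (σ : State Y) (a : A) : A :=
  if h : ∃ p : Y × Bool, a = D.arc p.1 p.2 ∧ σ p.1 ≠ none then D.arc h.choose.1 (!h.choose.2)
  else a

/-- Next arc along the link. -/
noncomputable def nxt (σ : State Y) (a : A) : A := D.s (D.sw σ a)

def Free (σ : State Y) (a : A) : Prop := ∀ y e, a = D.arc y e → σ y = none

lemma sw_kept {σ : State Y} {y : Y} (h : σ y ≠ none) (e : Bool) :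
    D.sw σ (D.arc y e) = D.arc y (!e) := by
  have h1 : ∃ p : Y × Bool, D.arc y e = D.arc p.1 p.2 ∧ σ p.1 ≠ none := ⟨(y, e), rfl, h⟩
  have h2 := D.inj _ _ _ _ h1.choose_spec.1
  rw [sw, dif_pos h1, ← h2.1, ← h2.2]

lemma sw_free {σ : State Y} {a : A} (h : D.Free σ a) : D.sw σ a = a := by
  rw [sw, dif_neg]
  rintro ⟨p, h1, h2⟩
  exact h2 (h _ _ h1)

lemma nxt_kept {σ : State Y} {y : Y} (h : σ y ≠ none) (e : Bool) :
    D.nxt σ (D.arc y e) = D.s (D.arc y (!e)) := by rw [nxt, D.sw_kept h]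

lemma nxt_free {σ : State Y} {a : A} (h : D.Free σ a) : D.nxt σ a = D.s a := by
  rw [nxt, D.sw_free h]

lemma free_or (σ : State Y) (a : A) : D.Free σ a ∨ ∃ y e, a = D.arc y e ∧ σ y ≠ none := by
  by_contra hc
  push Not at hc
  exact hc.1 hc.2

lemma free_arc {σ : State Y} {y : Y} (h : σ y = none) (e : Bool) : D.Free σ (D.arc y e) :=
  fun y' e' h' => (D.inj _ _ _ _ h').1 ▸ h

lemma sw_sw (σ : State Y) (a : A) : D.sw σ (D.sw σ a) = a := by
  rcases D.free_or σ a with h | ⟨y, e, rfl, h⟩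
  · rw [D.sw_free h, D.sw_free h]
  · rw [D.sw_kept h, D.sw_kept h, Bool.not_not]

lemma nxt_inj (σ : State Y) : Injective (D.nxt σ) :=
  D.s.injective.comp (LeftInverse.injective (D.sw_sw σ))

/-- `t` numbers the arcs along the components, one after the other. -/
def Trav (σ : State Y) (t : A → ℕ) : Prop :=
  Injective t ∧ ∀ c, t (D.nxt σ c) = t c + 1 ∨ (t (D.nxt σ c) ≤ t c ∧
    ∀ e, t (D.nxt σ c) ≤ t e → t e < t c → t (D.nxt σ e) = t e + 1)

def Asc (σ : State Y) (t : A → ℕ) : Prop :=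
  ∀ y b, σ y = some b → t (D.arc y (!b)) < t (D.arc y b)

def Nrm (hd : A → ℕ) (σ : State Y) (t : A → ℕ) : Prop :=
  ∀ c, t (D.nxt σ c) ≠ t c + 1 → ∀ e, t (D.nxt σ c) ≤ t e → t e < t c → hd e < hd c

noncomputable def br [Fintype A] (σ : State Y) (t : A → ℕ) : ℕ :=
  (Finset.univ.filter fun c => t (D.nxt σ c) ≠ t c + 1).card

/-- What is known about the skein polynomials `F σ` of the states. -/
structure Orc [Fintype A] [DecidableEq Y] (F : State Y → L2) : Prop where
  sk : ∀ σ y, T (-1) * F (update σ y (some true)) - T 1 * F (update σ y (some false)) =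
    C (T 1) * F (update σ y none)
  un : ∀ κ : Y → Bool, ∃ hd : A → ℕ, Injective hd ∧ ∀ σ t, (∀ y, (σ y).isSome = κ y) →
    D.Trav σ t → D.Asc σ t → D.Nrm hd σ t → dl * F σ = dl ^ D.br σ t

/-- Functions constant on Seifert circles and on the two circles at every crossing of `K`. -/
def Inv (K : Finset Y) : Submodule ℚ (A → ℚ) where
  carrier := {f | (∀ a, f (D.s a) = f a) ∧ ∀ y ∈ K, f (D.arc y true) = f (D.arc y false)}
  add_mem' hf hg := ⟨fun a => by simp [hf.1 a, hg.1 a], fun y hy => by simp [hf.2 y hy, hg.2 y hy]⟩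
  zero_mem' := ⟨fun _ => rfl, fun _ _ => rfl⟩
  smul_mem' c f hf := ⟨fun a => by simp [hf.1 a], fun y hy => by simp [hf.2 y hy]⟩

noncomputable def comp (K : Finset Y) : ℕ := Module.finrank ℚ (D.Inv K)

/-- Walking from `a` to `b` without passing a crossing. -/
inductive Reach (σ : State Y) : A → A → Prop where
  | refl (a : A) : Reach σ a a
  | step {a b : A} : D.Free σ a → Reach σ (D.s a) b → Reach σ a b

end Dg

/-- A diagram as a map: strand ends `H`, `rev` the other end of a segment, `τ` the next end at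
the same vertex, `a x j` the four ends at the crossing `x`. -/
structure Mp (H X : Type) where
  rev : H → H
  rev_rev : ∀ h, rev (rev h) = h
  τ : Equiv.Perm H
  a : X → Fin 4 → H
  a_inj : ∀ x j y m, a x j = a y m → x = y ∧ j = m
  τ_a : ∀ x j, τ (a x j) = a x (j + 1)
  τ_free : ∀ h, (∀ x j, h ≠ a x j) → τ (τ h) = h

namespace Mp

variable {H X : Type} (M : Mp H X)

def revE : Equiv.Perm H := ⟨M.rev, M.rev, M.rev_rev, M.rev_rev⟩

/-- The double of the map. -/
def dg : Dg (H ⊕ X × Fin 4) (X × Fin 4) where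
  s := Equiv.sumCongr (M.τ.trans M.revE) (Equiv.prodCongr (Equiv.refl X) (Equiv.addRight 1))
  arc y e := if e then .inl (M.a y.1 y.2) else .inr y
  inj y e y' e' h := by
    cases e <;> cases e' <;> simp at h ⊢
    · exact h
    · exact Prod.ext (M.a_inj _ _ _ _ h).1 (M.a_inj _ _ _ _ h).2

lemma s_inl (h : H) : M.dg.s (.inl h) = .inl (M.rev (M.τ h)) := rfl
lemma s_inr (x : X) (j : Fin 4) : M.dg.s (.inr (x, j)) = .inr (x, j + 1) := rfl
lemma arc_t (x : X) (j : Fin 4) : M.dg.arc (x, j) true = .inl (M.a x j) := rfl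
lemma arc_f (x : X) (j : Fin 4) : M.dg.arc (x, j) false = .inr (x, j) := rfl

def Col (col : H → Bool) : Prop := (∀ h, col (M.rev h) = !col h) ∧ ∀ h, col (M.τ h) = !col h

def Conn : Prop :=
  ∀ φ : H → Bool, (∀ h, φ (M.τ h) = φ h) → (∀ h, φ (M.rev h) = φ h) → ∀ h h', φ h = φ h'

def Prim [Fintype H] : Prop :=
  M.Conn ∧ ∀ φ : H → Bool, (∀ h, φ (M.τ h) = φ h) →
    (Finset.univ.filter fun h => φ (M.rev h) ≠ φ h).card ≤ 4 →
    ∀ x y, φ (M.a x 0) = φ (M.a y 0)

/-- Walking along an edge, through vertices that are not crossings. -/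
inductive Rch : H → H → Prop where
  | refl (h : H) : Rch h h
  | step {h g : H} : (∀ x j, h ≠ M.a x j) → Rch (M.rev (M.τ h)) g → Rch h g

/-- `M'` is `M` with the crossing `x` replaced by arcs joining the ends `j` and `pr j`. -/
structure Res {X' : Type} (M' : Mp H X') (x : X) (pr : Fin 4 → Fin 4) : Prop where
  rev : M'.rev = M.rev
  τ_x : ∀ j, M'.τ (M.a x j) = M.a x (pr j)
  τ_ne : ∀ h, (∀ j, h ≠ M.a x j) → M'.τ h = M.τ h
  a_of : ∀ x', ∃ y, y ≠ x ∧ M'.a x' = M.a y
  a_to : ∀ y, y ≠ x → ∃ x', M'.a x' = M.a y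

end Mp

def prZ : Fin 4 → Fin 4 := ![3, 2, 1, 0]
def prI : Fin 4 → Fin 4 := ![1, 0, 3, 2]
def prC : Fin 4 → Fin 4 := ![2, 1, 0, 3]

end Pool.Agent.Lib.MP_3a4f2f_gt.H39
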