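import Pool.Agent.Lib.MP_3a4f2f_gt.H39.MapW

/-! Euler's bound for the number of boundary curves of faces. -/

set_option autoImplicit false

namespace Pool.Agent.Lib.MP_3a4f2f_gt.H39

namespace Eu

variable {w : Word} {ρ : ℕ → Option Rs}

/-- A new region starts at piece `k`. -/
def Birth (w : Word) (ρ : ℕ → Option Rs) (k : ℕ) : Prop :=
  (∃ d, w[k]? = some (.cup d, pos w k)) ∨ (IsCr w k ∧ (ρ k = none ∨ ρ k = some .inf))

/-- Two regions are joined at piece `k`. -/
def Cond (w : Word) (ρ : ℕ → Option Rs) (k : ℕ) : Prop :=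
  w[k]? = some (.cap, pos w k) ∨ (IsCr w k ∧ ρ k = some .inf)

open Classical in
/-- The piece at which the region in gap `g` at time `k` started. -/
noncomputable def lab (w : Word) (ρ : ℕ → Option Rs) : ℕ → ℕ → Option ℕ
  | 0, _ => none
  | k + 1, g =>
      if g ≤ pos w k then lab w ρ k g
      else if g = pos w k + 1 ∧ Birth w ρ k then some k
      else lab w ρ k (g + (w.getD k (.cap, 0)).1.inp - (w.getD k (.cap, 0)).1.out)

/-- The region seen by a strand end. -/
noncomputable def see (w : Word) (ρ : ℕ → Option Rs) : Port → Option ℕ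
  | (k, p, true) => lab w ρ k p
  | (k, p, false) => lab w ρ (k + 1) (p + 1)

lemma getD_eq {k : ℕ} {g : Letter × ℕ} (hg : w[k]? = some g) : w.getD k (.cap, 0) = g := by
  simp [List.getD_eq_getElem?_getD, hg]

lemma pos_eq {k i : ℕ} {l : Letter} (hg : w[k]? = some (l, i)) : pos w k = i := by
  rw [pos, getD_eq hg]

lemma lab_le {k i g : ℕ} {l : Letter} (hg : w[k]? = some (l, i)) (h : g ≤ i) :
    lab w ρ (k + 1) g = lab w ρ k g := by
  rw [lab, pos_eq hg, if_pos h]

lemma lab_b {k : ℕ} (hb : Birth w ρ k) : lab w ρ (k + 1) (pos w k + 1) = some k := by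
  rw [lab, if_neg (by omega), if_pos ⟨rfl, hb⟩]

lemma lab_gt {k i g g' : ℕ} {l : Letter} (hg : w[k]? = some (l, i)) (h : i < g)
    (hb : g = i + 1 → ¬ Birth w ρ k) (e : g' = g + l.inp - l.out) :
    lab w ρ (k + 1) g = lab w ρ k g' := by
  rw [lab, pos_eq hg, if_neg (by omega), if_neg (fun h => hb h.1 h.2), getD_eq hg, e]

lemma lab_zero (k : ℕ) : lab w ρ k 0 = none := by
  induction k with
  | zero => rfl
  | succ k ih => rw [lab, if_pos (Nat.zero_le _), ih]

lemma see_t (k p : ℕ) : see w ρ (k, p, true) = lab w ρ k p := rfl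
lemma see_f (k p : ℕ) : see w ρ (k, p, false) = lab w ρ (k + 1) (p + 1) := rfl
lemma seo_f (k p : ℕ) : see w ρ (opp (k, p, false)) = lab w ρ (k + 1) p := rfl
lemma seo_t {k : ℕ} (hk : 0 < wd w k) (p : ℕ) :
    see w ρ (opp (k, p, true)) = lab w ρ k (p + 1) := by
  cases k with
  | zero => exact absurd hk (lt_irrefl 0)
  | succ k => rfl

lemma isCr_iff {k i : ℕ} {l : Letter} (hg : w[k]? = some (l, i)) :
    IsCr w k ↔ ∃ b, l = .cr b := by
  rw [IsCr, pos_eq hg, hg]
  simp

lemma birth_iff {k i : ℕ} {l : Letter} (hg : w[k]? = some (l, i)) :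
    Birth w ρ k ↔ (∃ d, l = .cup d) ∨ ((∃ b, l = .cr b) ∧ (ρ k = none ∨ ρ k = some .inf)) := by
  rw [Birth, isCr_iff hg, pos_eq hg, hg]
  simp

lemma cond_iff {k i : ℕ} {l : Letter} (hg : w[k]? = some (l, i)) :
    Cond w ρ k ↔ l = .cap ∨ ((∃ b, l = .cr b) ∧ ρ k = some .inf) := by
  rw [Cond, isCr_iff hg, pos_eq hg, hg]
  simp

lemma kept_iff {k i : ℕ} {l : Letter} (hg : w[k]? = some (l, i)) :
    Kept w ρ k ↔ (∃ b, l = .cr b) ∧ ρ k = none := by
  rw [Kept, isCr_iff hg]

lemma turn_eq {k : ℕ} {g : Letter × ℕ} (hg : w[k]? = some g) (q : ℕ × Bool) :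
    turn w (k, q) = (k, across g q) := by
  rw [turn, getD_eq hg]

lemma key (hw : UValid 0 w 0) (hρ : ∀ k, ρ k ≠ some .cut) (v : Option ℕ → ℚ)
    (hv : ∀ k < w.length, Cond w ρ k → v (lab w ρ k (pos w k)) = v (lab w ρ k (pos w k + 2)))
    (h : Port) (hh : h ∈ ports w) : v (see w ρ (opp (turnR w ρ h))) = v (see w ρ h) := by
  obtain ⟨k, p, d⟩ := h
  obtain ⟨hk, hp⟩ := mem_ports.1 hh
  obtain ⟨⟨l, i⟩, hg⟩ : ∃ g, w[k]? = some g := ⟨_, List.getElem?_eq_getElem hk⟩
  have hfit := wd_fit hw hg
  have hsu := wd_succ hg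
  have hc := hv k hk
  rw [pos_eq hg, cond_iff hg] at hc
  simp only at hfit hsu
  by_cases hres : ∃ j, IsCr w k ∧ ρ k ≠ none ∧ (k, p, d) = aP k (pos w k) j
  · obtain ⟨j, hcr, hr, e⟩ := hres
    obtain ⟨r, hr⟩ := Option.ne_none_iff_exists'.1 hr
    rw [e, turnR_res hcr hr, pos_eq hg]
    obtain ⟨b, rfl⟩ := (isCr_iff hg).1 hcr
    have h0 : 0 < wd w k := by simp only [Letter.inp] at hfit; omega
    have l0 : lab w ρ (k + 1) i = lab w ρ k i := lab_le hg le_rfl
    have l2 : lab w ρ (k + 1) (i + 1 + 1) = lab w ρ k (i + 1 + 1) :=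
      lab_gt hg (by omega) (by omega) (by simp [Letter.inp, Letter.out])
    cases r with
    | cut => exact absurd hr (hρ k)
    | zero =>
      have l1 : lab w ρ (k + 1) (i + 1) = lab w ρ k (i + 1) :=
        lab_gt hg (by omega) (fun _ => by simp [birth_iff hg, hr])
          (by simp [Letter.inp, Letter.out])
      fin_cases j
      · change v (see w ρ (opp (k, i + 1, false))) = v (see w ρ (k, i + 1, true))
        rw [seo_f, see_t, l1]
      · change v (see w ρ (opp (k, i, false))) = v (see w ρ (k, i, true))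
        rw [seo_f, see_t, l0]
      · change v (see w ρ (opp (k, i, true))) = v (see w ρ (k, i, false))
        rw [seo_t h0, see_f, l1]
      · change v (see w ρ (opp (k, i + 1, true))) = v (see w ρ (k, i + 1, false))
        rw [seo_t h0, see_f, l2]
    | inf =>
      have hc' := hc (Or.inr ⟨⟨b, rfl⟩, hr⟩)
      fin_cases j
      · change v (see w ρ (opp (k, i, true))) = v (see w ρ (k, i + 1, true))
        rw [seo_t h0, see_t]
      · change v (see w ρ (opp (k, i + 1, true))) = v (see w ρ (k, i, true))
        rw [seo_t h0, see_t, hc']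
      · change v (see w ρ (opp (k, i + 1, false))) = v (see w ρ (k, i, false))
        rw [seo_f, see_f]
      · change v (see w ρ (opp (k, i, false))) = v (see w ρ (k, i + 1, false))
        rw [seo_f, see_f, l0, l2, hc']
  · rw [turnR_other (fun j h1 h2 h3 => hres ⟨j, h1, h2, h3⟩), turn_eq hg]
    have hnb : l = .cap → ¬ Birth w ρ k := by
      rintro rfl
      simp [birth_iff hg]
    cases d with
    | true =>
      simp only [if_true] at hp
      have h0 : 0 < wd w k := by omega
      rw [see_t]
      simp only [across]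
      split_ifs with h1 h2 h3 h4
      · rw [seo_f, lab_le hg h1.le]
      · rw [seo_f]
        cases l with
        | cup e =>
          simp only [Letter.inp, Letter.out] at h2 ⊢
          rw [lab_gt (g' := p) hg (by omega) (by omega) (by simp [Letter.inp, Letter.out])]
        | cr b =>
          simp only [Letter.inp, Letter.out] at h2 ⊢
          rw [lab_gt (g' := p) hg (by omega) (by omega)
            (by simp only [Letter.inp, Letter.out]; omega)]
        | cap =>
          simp only [Letter.inp, Letter.out] at h2 ⊢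
          rcases h2.eq_or_lt with h5 | h5
          · rw [← h5, lab_le hg (by omega), show i + 2 - 2 + 0 = i by omega, hc (Or.inl rfl)]
          · rw [lab_gt (g' := p) hg (by omega) (fun _ => hnb rfl)
              (by simp only [Letter.inp, Letter.out]; omega)]
      · rw [seo_t h0]
        cases l with
        | cup e => simp [Letter.out] at h3
        | cr b => simp [Letter.out] at h3
        | cap =>
          simp only [Letter.inp] at h2
          rcases (show p = i ∨ p = i + 1 by omega) with rfl | rfl
          · rw [show 2 * p + 1 - p + 1 = p + 2 by omega, hc (Or.inl rfl)]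
          · rw [show 2 * i + 1 - (i + 1) + 1 = i + 1 by omega]
      · rw [seo_f, lab_le hg le_rfl, h4]
      · rw [seo_t h0]
        have : l.inp ≤ 2 := by cases l <;> simp [Letter.inp]
        rw [show p = i + 1 by omega]
    | false =>
      simp only [Bool.false_eq_true, if_false] at hp
      rw [see_f]
      simp only [across]
      split_ifs with h1 h2 h3 h4
      · rw [seo_t (by omega), lab_le hg (by omega)]
      · rw [seo_t (by omega)]
        rw [lab_gt (g' := p - l.out + l.inp + 1) hg (by omega) ?_ (by omega)]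
        intro e
        cases l with
        | cup e => simp only [Letter.out] at h2; omega
        | cr b => simp only [Letter.out] at h2; omega
        | cap => exact hnb rfl
      · rw [seo_f]
        cases l with
        | cap => simp [Letter.inp] at h3
        | cr b => simp [Letter.inp] at h3
        | cup e =>
          simp only [Letter.out] at h2
          rcases (show p = i ∨ p = i + 1 by omega) with rfl | rfl
          · rw [show 2 * p + 1 - p = p + 1 by omega]
          · rw [show 2 * i + 1 - (i + 1) = i by omega, lab_le hg le_rfl,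
              lab_gt (g' := i) hg (by omega) (by omega) (by simp [Letter.inp, Letter.out])]
      · rw [seo_f, h4]
      · cases l with
        | cap => simp only [Letter.out] at h2; omega
        | cup e => simp [Letter.inp] at h3
        | cr b =>
          simp only [Letter.inp, Letter.out] at h2 hfit
          rw [seo_t (by omega), show p = i + 1 by omega,
            lab_gt (g' := i + 1 + 1) hg (by omega) (by omega) (by simp [Letter.inp, Letter.out])]

lemma bottom (hw : UValid 0 w 0) (v : Option ℕ → ℚ) (k : ℕ) (hk : k ≤ w.length)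
    (hv : ∀ k' < k, Cond w ρ k' → v (lab w ρ k' (pos w k')) = v (lab w ρ k' (pos w k' + 2))) :
    v (lab w ρ k (wd w k)) = v none := by
  induction k with
  | zero => rfl
  | succ k ih =>
    obtain ⟨⟨l, i⟩, hg⟩ : ∃ g, w[k]? = some g := ⟨_, List.getElem?_eq_getElem hk⟩
    have hfit := wd_fit hw hg
    have hsu := wd_succ hg
    have hc := hv k (by omega)
    rw [pos_eq hg, cond_iff hg] at hc
    rw [← ih (by omega) fun k' h => hv k' (by omega), hsu]
    cases l with
    | cup e =>
      simp only [Letter.inp, Letter.out] at hfit ⊢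
      rw [lab_gt (g' := wd w k) hg (by omega) (by omega) (by simp [Letter.inp, Letter.out])]
    | cr b =>
      simp only [Letter.inp, Letter.out] at hfit ⊢
      rw [lab_gt (g' := wd w k) hg (by omega) (by omega)
        (by simp only [Letter.inp, Letter.out]; omega)]
    | cap =>
      simp only [Letter.inp, Letter.out] at hfit ⊢
      rcases hfit.eq_or_lt with h5 | h5
      · rw [← h5, lab_le hg (by omega), show i + 2 - 2 + 0 = i by omega, hc (Or.inl rfl)]
      · rw [lab_gt (g' := wd w k) hg (by omega) (fun _ => by simp [birth_iff hg])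
          (by simp only [Letter.inp, Letter.out]; omega)]

lemma last (hw : UValid 0 w 0) {n : ℕ} (hn : w.length = n + 1) :
    w[n]? = some (.cap, 0) ∧ wd w n = 2 := by
  obtain ⟨⟨l, i⟩, hg⟩ : ∃ g, w[n]? = some g := ⟨_, List.getElem?_eq_getElem (by omega)⟩
  have hfit := wd_fit hw hg
  have hsu := wd_succ hg
  rw [← hn, wd_length hw] at hsu
  cases l with
  | cup e => simp [Letter.out] at hsu
  | cr b => simp [Letter.out] at hsu
  | cap =>
    simp only [Letter.inp, Letter.out] at hfit hsu
    obtain rfl : i = 0 := by omega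
    exact ⟨hg, by omega⟩

open Classical in
lemma count (hw : UValid 0 w 0) (hρ : ∀ k, ρ k ≠ some .cut) (k : ℕ) (hk : k ≤ w.length) :
    2 * ((Finset.range k).filter (Birth w ρ)).card =
      wd w k + 2 * ((Finset.range k).filter (Cond w ρ)).card +
        2 * ((Finset.range k).filter (Kept w ρ)).card := by
  induction k with
  | zero => rfl
  | succ k ih =>
    obtain ⟨⟨l, i⟩, hg⟩ : ∃ g, w[k]? = some g := ⟨_, List.getElem?_eq_getElem hk⟩
    have hfit := wd_fit hw hg
    have hsu := wd_succ hg
    have ih' := ih (by omega)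
    simp only [Finset.card_filter, Finset.sum_range_succ] at ih' ⊢
    rw [birth_iff hg, cond_iff hg, kept_iff hg, hsu]
    cases l with
    | cup e => simp [Letter.inp, Letter.out] at hfit ih' ⊢; omega
    | cap => simp [Letter.inp, Letter.out] at hfit ih' ⊢; omega
    | cr b =>
      rcases hr : ρ k with _ | r
      · simp [Letter.inp, Letter.out] at hfit ih' ⊢; omega
      · cases r with
        | cut => exact absurd hr (hρ k)
        | zero => simp [Letter.inp, Letter.out] at hfit ih' ⊢; omega
        | inf => simp [Letter.inp, Letter.out] at hfit ih' ⊢; omega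

open Classical in
lemma card_XX (w : Word) (ρ : ℕ → Option Rs) :
    Fintype.card (XX w ρ) = ((Finset.range w.length).filter (Kept w ρ)).card := by
  rw [Fintype.card_subtype, Finset.card_filter, Finset.card_filter]
  exact Fin.sum_univ_eq_sum_range (fun k => if Kept w ρ k then 1 else 0) w.length

open Classical in
/-- Extension by zero. -/
noncomputable def ext0 (S : Finset (Option ℕ)) : (S → ℚ) →ₗ[ℚ] (Option ℕ → ℚ) :=
  LinearMap.pi fun l => if h : l ∈ S then LinearMap.proj ⟨l, h⟩ else 0

/-- Evaluation of the extension. -/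
noncomputable def ev (S : Finset (Option ℕ)) (l : Option ℕ) : (S → ℚ) →ₗ[ℚ] ℚ :=
  (LinearMap.proj l : (Option ℕ → ℚ) →ₗ[ℚ] ℚ) ∘ₗ ext0 S

lemma ext0_mem {S : Finset (Option ℕ)} (x : S → ℚ) (l : S) : ext0 S x l = x l := by
  simp [ext0, l.2]

end Eu

open Eu Classical in
/-- Euler's bound for the number of boundary curves of faces. -/
theorem euler2 {w : Word} {ρ : ℕ → Option Rs} (hw : UValid 0 w 0) (hne : w ≠ [])
    (hρ : ∀ k, ρ k ≠ some .cut) :
    Fintype.card (XX w ρ) + 2 ≤ Module.finrank ℚ (mp hw ρ).InvH := by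
  obtain ⟨n, hn⟩ : ∃ n, w.length = n + 1 :=
    Nat.exists_eq_succ_of_ne_zero (by simpa using hne)
  obtain ⟨hl, hl2⟩ := last hw hn
  set Bi := (Finset.range w.length).filter (Birth w ρ) with hBi
  set S : Finset (Option ℕ) := Finset.insertNone Bi with hS
  set Co := (Finset.range n).filter (Cond w ρ) with hCo
  let L : (S → ℚ) →ₗ[ℚ] (Co → ℚ) := LinearMap.pi fun k =>
    ev S (Eu.lab w ρ k (pos w k)) - ev S (Eu.lab w ρ k (pos w k + 2))
  let F : (S → ℚ) →ₗ[ℚ] (HH w → ℚ) := LinearMap.pi fun h =>
    ev S (see w ρ h.1)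
  have hF : ∀ x h, F x h = ext0 S x (see w ρ h.1) := fun _ _ => rfl
  have hmem : ∀ x ∈ LinearMap.ker L, F x ∈ (mp hw ρ).InvH := by
    intro x hx h
    have h1 : ∀ k < n, Cond w ρ k →
        ext0 S x (Eu.lab w ρ k (pos w k)) = ext0 S x (Eu.lab w ρ k (pos w k + 2)) := by
      intro k hk hc
      have := congrFun (LinearMap.mem_ker.1 hx) ⟨k, Finset.mem_filter.2 ⟨Finset.mem_range.2 hk, hc⟩⟩
      exact sub_eq_zero.1 this
    rw [hF, hF, mp_rev, mp_τ]
    refine key hw hρ _ (fun k hk hc => ?_) h.1 h.2
    rcases (show k < n ∨ k = n by omega) with h2 | rfl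
    · exact h1 k h2 hc
    · have h3 := bottom (ρ := ρ) hw (ext0 S x) k (by omega) h1
      rw [pos_eq hl, lab_zero, ← h3, hl2]
  have hinj : Function.Injective F := by
    rw [injective_iff_map_eq_zero]
    intro x hx
    funext l
    rw [← ext0_mem x l]
    obtain ⟨l, hl'⟩ := l
    cases l with
    | none =>
      have := congrFun hx ⟨(n, 0, true), mem_ports.2 ⟨by omega, by simp [hl2]⟩⟩
      rwa [hF, see_t, lab_zero] at this
    | some k =>
      obtain ⟨hk, hb⟩ := Finset.mem_filter.1 (Finset.some_mem_insertNone.1 hl')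
      have hk := Finset.mem_range.1 hk
      obtain ⟨⟨l, i⟩, hg⟩ : ∃ g, w[k]? = some g := ⟨_, List.getElem?_eq_getElem hk⟩
      have hfit := wd_fit hw hg
      have hsu := wd_succ hg
      have ho : l.out = 2 := by
        rcases (birth_iff hg).1 hb with ⟨d, rfl⟩ | ⟨⟨b, rfl⟩, -⟩ <;> rfl
      have := congrFun hx ⟨(k, pos w k, false), mem_ports.2 ⟨hk, by
        simp only [Bool.false_eq_true, if_false, pos_eq hg] at hfit hsu ⊢; omega⟩⟩
      rwa [hF, see_f, lab_b hb] at this
  have h1 : Module.finrank ℚ (LinearMap.ker L) ≤ Module.finrank ℚ (mp hw ρ).InvH :=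
    LinearMap.finrank_le_finrank_of_injective (f := F.restrict hmem)
      fun a b e => Subtype.ext (hinj (congrArg Subtype.val e))
  have h2 := L.finrank_range_add_finrank_ker
  have h3 : Module.finrank ℚ (LinearMap.range L) ≤ Co.card := by
    simpa using (LinearMap.range L).finrank_le
  have h4 : Module.finrank ℚ (S → ℚ) = Bi.card + 1 := by
    simp [hS]
  have h5 := count hw hρ w.length le_rfl
  have h6 : ((Finset.range w.length).filter (Cond w ρ)).card = Co.card + 1 := by
    rw [hn, Finset.range_add_one, Finset.filter_insert, if_pos ((cond_iff hl).2 (Or.inl rfl)),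
      Finset.card_insert_of_notMem (by simp)]
  rw [wd_length hw, ← hBi, h6] at h5
  rw [card_XX]
  omega

end Pool.Agent.Lib.MP_3a4f2f_gt.H39
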