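import Pool.Agent.Lib.MP_3a4f2f_gt.H39.OrcW

/-! The induction on the number of crossings. -/

set_option autoImplicit false

namespace Pool.Agent.Lib.MP_3a4f2f_gt.H39

open LaurentPolynomial Function

variable {w : Word} {ρ : ℕ → Option Rs} {P : Word → L2}

def s0 (w : Word) (ε : Bool) (k : ℕ) (j : Fin 4) : Option Bool := some (colE ε (aP k (pos w k) j))

noncomputable def TW (P : Word → L2) (w : Word) (ε : Bool) (ρ : ℕ → Option Rs) : L1 :=
  mc (2 * Fintype.card (XX w ρ) - 1) (P (Wd ρ (s0 w ε) 0 w))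

def NC (ρ : ℕ → Option Rs) : Prop := ∀ k, ρ k ≠ some .cut

def cl (ε : Bool) (h : HH w) : Bool := colE ε h.1

def rsOf : Fin 4 → Rs := ![.zero, .inf, .zero, .inf]

lemma NC.upd (h : NC ρ) (k : ℕ) (i : Fin 4) : NC (update ρ k (some (rsOf i))) := fun k' => by
  by_cases h' : k' = k
  · subst h'; rw [update_self]; fin_cases i <;> simp [rsOf]
  · rw [update_of_ne h']; exact h k'

lemma ctx (hP : IsHomfly P) (hw : UValid 0 w 0) (hne : w ≠ []) (h : NC ρ) (ε : Bool) :
    (mp hw ρ).Ctx (cl ε) (FF P w ρ) :=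
  ⟨mp_col hw h ε, orc hP hw hne ρ, by
    have := euler2 hw hne h
    rw [Mp.comp_eq]; omega⟩

lemma FF_st (hw : UValid 0 w 0) (ε : Bool) (x : XX w ρ) (v : Fin 4 → Option Bool) :
    FF P w ρ ((mp hw ρ).st (cl ε) x v) = P (Wd ρ (update (s0 w ε) x.1.1 v) 0 w) := by
  refine congrArg P (Wd_congr fun k hk => funext fun m => ?_)
  obtain ⟨y, rfl⟩ := kept_x hk
  rw [ext_x]
  by_cases h : y = x
  · subst h; rw [update_self, Mp.st_x]
  · rw [update_of_ne (fun h' => h (Subtype.ext (Fin.ext h'))), Mp.st_y h, s0, cl, mp_a]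

lemma vv_o (hw : UValid 0 w 0) (h : NC ρ) (ε : Bool) (x : XX w ρ) (i : Fin 4) {b : Bool}
    (hb : cl ε ((mp hw ρ).a x i) = b) :
    vv i (some b) (some (!b)) (some b) (some (!b)) = s0 w ε x.1.1 := by
  have hc : (mp hw ρ).Col (cl ε) := mp_col hw h ε
  obtain ⟨e1, e2, -⟩ := f4a i
  have c1 := hc.succ x i
  have c2 := hc.succ x (i + 1)
  have c3 := hc.succ x (i + 2)
  rw [hb] at c1
  rw [e1, c1, Bool.not_not] at c2
  rw [e2, c2] at c3
  funext j
  rw [s0, ← mp_a hw x j]
  rcases f4b i j with rfl | rfl | rfl | rfl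
  · rw [vv0, ← hb]; rfl
  · rw [vv1, ← c1]; rfl
  · rw [vv2, ← c2]; rfl
  · rw [vv3, ← c3]; rfl

lemma TT_o (hw : UValid 0 w 0) (h : NC ρ) (ε : Bool) (x : XX w ρ) (i : Fin 4) {b : Bool}
    (hb : cl ε ((mp hw ρ).a x i) = b) :
    (mp hw ρ).TT (cl ε) (FF P w ρ) x i (some b) (some (!b)) (some b) (some (!b)) = TW P w ε ρ := by
  rw [Mp.TT, FF_st, vv_o hw h ε x i hb, update_eq_self, TW]
  cases b <;> simp [ow, oc] <;> ring_nf

lemma TT_res (hP : IsHomfly P) (hw : UValid 0 w 0) (ε : Bool) (x : XX w ρ) (i : Fin 4) (b : Bool) :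
    (mp hw ρ).TT (cl ε) (FF P w ρ) x i (some b) none (some (!b)) none =
      TW P w ε (update ρ x.1.1 (some (rsOf i))) := by
  have h1 : P (Wd ρ (update (s0 w ε) x.1.1 (vv i (some b) none (some (!b)) none)) 0 w) =
      P (Wd (update ρ x.1.1 (some (rsOf i)))
        (update (s0 w ε) x.1.1 (vv i (some b) none (some (!b)) none)) 0 w) := by
    fin_cases i
    · exact r2_zero hP hw x.2 b (by rw [update_self]; funext j; fin_cases j <;> rfl)
    · exact r2_inf hP hw x.2 b (by rw [update_self]; funext j; fin_cases j <;> rfl)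
    · exact r2_zero hP hw x.2 (!b) (by rw [update_self]; funext j; cases b <;> fin_cases j <;> rfl)
    · exact r2_inf hP hw x.2 (!b) (by rw [update_self]; funext j; cases b <;> fin_cases j <;> rfl)
  rw [Mp.TT, FF_st, h1, TW, ← card_res x (rsOf i), Wd_congr (σ' := s0 w ε) fun k hk =>
    update_of_ne (kept_of_update x _ hk).1 _ _]
  cases b <;> simp [ow, oc] <;> ring_nf

def qq (p : L1) : ℤ := p.coeff 1 - p.coeff (-1)

lemma qq_add (p q : L1) : qq (p + q) = qq p + qq q := by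
  simp only [qq, AddMonoidAlgebra.coeff_add, Finsupp.add_apply]; ring

lemma qq_zero : qq 0 = 0 := rfl

lemma qq_unit (b : Bool) : qq (if b then -T (-1) else T 1) = 1 := by
  cases b <;> simp [qq, T_apply]

lemma loop_of {H X : Type} {M : Mp H X} {col : H → Bool} (hc : M.Col col) {x : X} {j m : Fin 4}
    (r : M.Rch (M.rev (M.a x j)) (M.a x m)) : ∃ i, M.Rch (M.rev (M.a x (i + 1))) (M.a x i) := by
  obtain ⟨e1, e2, e3, -⟩ := f4a j
  have c0 := hc.next r
  have c1 := hc.succ x j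
  have c2 := hc.succ x (j + 1)
  rcases f4b j m with rfl | rfl | rfl | rfl
  · simp at c0
  · exact ⟨j, r.rev'⟩
  · rw [e1, c1, c0] at c2; simp at c2
  · exact ⟨j + 3, by rwa [e3]⟩

lemma loop_two {H X : Type} [Fintype H] {M : Mp H X} {col : H → Bool} (hc : M.Col col) {x : X}
    {i : Fin 4} (r : M.Rch (M.rev (M.a x (i + 1))) (M.a x i)) (h : ∀ y, y = x) :
    M.Rch (M.rev (M.a x (i + 3))) (M.a x (i + 2)) := by
  obtain ⟨e1, e2, e3, -, -, -, -, -, e9⟩ := f4a i
  obtain ⟨y, m, r'⟩ := M.next_cr x (i + 3)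
  obtain rfl := h y
  have c4 := hc.next r'
  have c2 := hc.succ y (i + 1)
  have c3 := hc.succ y (i + 2)
  rcases f4b i m with rfl | rfl | rfl | rfl
  · exact absurd (M.a_inj _ _ _ _ (r'.rev'.det r.rev')).2 e9
  · rw [e2] at c3; rw [e1] at c2; rw [c3, c2] at c4; simp at c4
  · exact r'
  · simp at c4

theorem main_ind (hP : IsHomfly P) (hw : UValid 0 w 0) (hne : w ≠ []) (ε : Bool) (c : ℕ) :
    ∀ ρ, NC ρ → Fintype.card (XX w ρ) = c →
      (¬ (mp hw ρ).Conn → TW P w ε ρ = 0) ∧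
      (c = 0 → (mp hw ρ).Conn → TW P w ε ρ = T (-1) - T 1) ∧
      (1 ≤ c → 0 ≤ qq (TW P w ε ρ)) ∧ (1 ≤ c → (mp hw ρ).Prim → 0 < qq (TW P w ε ρ)) := by
  induction c with
  | zero =>
    intro ρ hρ hc
    have hx := ctx hP hw hne hρ ε
    have : IsEmpty (XX w ρ) := Fintype.card_eq_zero_iff.1 hc
    have h1 : FF P w ρ (fun _ => none) = P (Wd ρ (s0 w ε) 0 w) :=
      congrArg P (Wd_congr fun k hk => (kept_x hk).elim fun x _ => isEmptyElim x)
    have h2 := hx.eul
    have h3 := (mp hw ρ).comp_eq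
    have : Nonempty (HH w) := by
      have := Submodule.finrank_le (mp hw ρ).InvH
      rw [Module.finrank_fintype_fun_eq_card] at this
      exact Fintype.card_pos_iff.1 (by omega)
    refine ⟨fun h => ?_, fun _ h => ?_, by omega, by omega⟩
    · have h4 := hx.orc.morton fun _ => none
      have h5 := Mp.rank_three hx.col h
      rw [TW, ← h1]
      refine h4 _ ?_
      simp only [Dg.nk, ne_eq, not_true, Finset.filter_false, Finset.card_empty]
      omega
    · have h5 := Mp.rank_two h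
      rw [TW, ← h1, hc]
      refine Dg.drive (fun σ => mc (2 * (0 : ℕ) - 1) (FF P w ρ σ) = T (-1) - T 1)
        (fun σ y => isEmptyElim y.1) (fun σ t a1 a2 _ _ => ?_)
        (.nil (Classical.arbitrary _) : (mp hw ρ).dg.Pre _ [] _)
      have a3 := hx.orc.unl σ t a1 a2
      have a4 := Dg.br_le_comp a1 fun y => isEmptyElim y.1
      have a5 := Dg.comp_le_br (D := (mp hw ρ).dg) (σ := σ) (t := t)
      rw [Finset.filter_eq_empty_iff.2 fun y => isEmptyElim y.1] at a5
      rw [show (mp hw ρ).dg.br σ t = 1 + 1 by omega, pow_succ', pow_one] at a3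
      rw [mul_left_cancel₀ dl_ne a3, ← mul_one dl, mc_dl, mc_one]
      simp
  | succ c ih =>
    intro ρ hρ hc
    have hx := ctx hP hw hne hρ ε
    obtain ⟨x⟩ : Nonempty (XX w ρ) := Fintype.card_pos_iff.1 (by omega)
    have ih' := fun i => ih _ (hρ.upd x.1.1 i) (by have := card_res x (rsOf i); omega)
    have res := fun i => mp_res hw x (rsOf i)
    by_cases hl : ∃ j m, (mp hw ρ).Rch ((mp hw ρ).rev ((mp hw ρ).a x j)) ((mp hw ρ).a x m)
    · obtain ⟨j, m, r⟩ := hl
      obtain ⟨i, r⟩ := loop_of hx.col r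
      have k1 := hx.kink r rfl
      rw [TT_o hw hρ ε x i rfl] at k1
      have k2 := fun r' => hx.kink2 (cl ε ((mp hw ρ).a x i)) r r'
      rw [TT_o hw hρ ε x i rfl, TT_res hP hw] at k2
      have z : ¬ (mp hw ρ).Conn → TW P w ε ρ = 0 := fun h => k1.elim id fun r' => by
        have := k2 r'
        rw [(ih' i).1 fun h' => h (Mp.conn_res (res i) h'), mul_zero] at this
        exact (mul_eq_zero.1 this).resolve_left eta_ne
      have one : (mp hw ρ).Conn → _ → qq (TW P w ε ρ) = 1 := fun h r' => by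
        have a1 := k2 r'
        have a2 := Fintype.card_eq_one_iff.2 ⟨x, Mp.loop2_conn h r r'⟩
        rw [(ih' i).2.1 (by omega) (Mp.loop2_res h r r' (res i) (by fin_cases i <;> rfl)),
          mul_comm] at a1
        rw [mul_right_cancel₀ eta_ne a1, qq_unit]
      refine ⟨z, by omega, fun _ => ?_, fun _ h => ?_⟩
      · by_cases h : (mp hw ρ).Conn
        · rcases k1 with k1 | r'
          · rw [k1, qq_zero]
          · rw [one h r']; omega
        · rw [z h, qq_zero]
      · rw [one h.1 (loop_two hx.col r (Mp.prim_loop h r))]; omega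
    · push Not at hl
      obtain ⟨i, hi⟩ : ∃ i, cl ε ((mp hw ρ).a x i) = true := by
        by_cases h : cl ε ((mp hw ρ).a x 0) = true
        · exact ⟨0, h⟩
        · exact ⟨0 + 1, by rw [hx.col.succ]; simpa using h⟩
      have k1 := hx.dc hl hi
      rw [← Mp.TT_rot x i none] at k1
      have k2 := TT_o (P := P) hw hρ ε x i hi
      have k3 := TT_res hP hw ε x (i + 1) false
      have k4 := TT_res hP hw ε x i false
      rw [Bool.not_true] at k2
      rw [Bool.not_false] at k3 k4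
      rw [k2, k3, k4] at k1
      obtain ⟨y, m, r⟩ := (mp hw ρ).next_cr x 0
      have hy : y ≠ x := fun h => hl 0 m (h ▸ r)
      have c1 : 1 ≤ c := by
        have := Fintype.one_lt_card_iff.2 ⟨y, x, hy⟩
        omega
      have q1 := (ih' (i + 1)).2.2.1 c1
      have q2 := (ih' i).2.2.1 c1
      refine ⟨fun h => ?_, by omega, fun _ => by rw [k1, qq_add]; omega, fun _ h => ?_⟩
      · rw [k1, (ih' _).1 fun h' => h (Mp.conn_res (res _) h'),
          (ih' _).1 fun h' => h (Mp.conn_res (res _) h'), add_zero]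
      · have p1 := Mp.prim_res hx.col h ⟨y, hy⟩ (res 0) (res 1)
        have p2 := fun i => (ih' i).2.2.2 c1
        rw [k1, qq_add]
        have p3 : 0 < qq (TW P w ε (update ρ x.1.1 (some (rsOf (i + 1))))) ∨
            0 < qq (TW P w ε (update ρ x.1.1 (some (rsOf i)))) := by
          rcases p1 with p1 | p1 <;> fin_cases i
          exacts [Or.inr (p2 0 p1), Or.inl (p2 0 p1), Or.inr (p2 0 p1), Or.inl (p2 0 p1),
            Or.inl (p2 1 p1), Or.inr (p2 1 p1), Or.inl (p2 1 p1), Or.inr (p2 1 p1)]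
        omega

lemma rch_res {H X X' : Type} {M : Mp H X} {M' : Mp H X'} {x : X} {pr : Fin 4 → Fin 4}
    (hR : M.Res M' x pr) {h g : H} (r : M.Rch h g) {g' : H} (r' : M'.Rch g g') : M'.Rch h g' := by
  induction r with
  | refl => exact r'
  | step h1 _ ih =>
    refine .step (fun x' j he => ?_) ?_
    · obtain ⟨y, -, hy⟩ := hR.a_of x'
      exact h1 y j (hy ▸ he)
    · rw [hR.rev, hR.τ_ne _ (h1 x)]; exact ih r'

lemma s0_alt {ε : Bool} (hε : ∀ b i, (.cr b, i) ∈ w → b = xor ε (decide (Odd i))) (k : ℕ)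
    (b : Bool) (i : ℕ) (h : w[k]? = some (.cr b, i)) :
    s0 w ε k = ![some (!b), some b, some (!b), some b] := by
  have h1 : pos w k = i := by rw [pos, getD_of h]
  have h2 := hε b i (List.mem_of_getElem? h)
  funext j
  rw [s0, h1, h2]
  by_cases hi : Odd i <;> cases ε <;> fin_cases j <;> simp [colE, aP, Nat.odd_add_one, hi]

lemma FF_o (hw : UValid 0 w 0) (ε : Bool) :
    FF P w ρ (fun y => some (cl ε ((mp hw ρ).a y.1 y.2))) = P (Wd ρ (s0 w ε) 0 w) := by
  refine congrArg P (Wd_congr fun k hk => funext fun m => ?_)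
  obtain ⟨y, rfl⟩ := kept_x hk
  rw [ext_x, s0, cl, mp_a]

lemma nk_all {Y : Type} [Fintype Y] (f : Y → Bool) :
    Dg.nk (fun y => some (f y)) = Fintype.card Y := by simp [Dg.nk]

lemma degG (hP : IsHomfly P) (hw : UValid 0 w 0) (hne : w ≠ []) (hρ : NC ρ) (ε : Bool)
    (x : XX w ρ) : DegLe (P (Wd ρ (s0 w ε) 0 w)) (2 * Fintype.card (XX w ρ) - 1) := by
  have hx := ctx hP hw hne hρ ε
  have : Nonempty (HH w) := ⟨(mp hw ρ).a x 0⟩
  have h1 := hx.orc.morton fun y => some (cl ε ((mp hw ρ).a y.1 y.2))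
  have h2 := hx.eul
  rw [FF_o, nk_all, Fintype.card_prod, Fintype.card_fin] at h1
  exact h1.mono (by push_cast; omega)

lemma degE (hP : IsHomfly P) (hw : UValid 0 w 0) (hne : w ≠ []) (hρ : NC ρ) (ε : Bool)
    (x : XX w ρ) (hp : (mp hw ρ).Prim) (hc : 2 ≤ Fintype.card (XX w ρ)) :
    DegLe (P (Wd (update ρ x.1.1 (some .cut)) (s0 w ε) 0 w)) (2 * Fintype.card (XX w ρ) - 3) := by
  have hx := ctx hP hw hne hρ ε
  have hR := mp_res hw x .cut
  have hO := orc hP hw hne (update ρ x.1.1 (some .cut))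
  have h1 := Mp.cut_rank hR
  have h2 := euler2 hw hne hρ
  have h3 := card_res x .cut
  have h4 := (mp hw (update ρ x.1.1 (some .cut))).comp_eq
  obtain ⟨y, m, r⟩ := (mp hw ρ).next_cr x 1
  have hy : y ≠ x := by
    rintro rfl
    obtain ⟨i, r'⟩ := loop_of hx.col r
    have := Fintype.card_eq_one_iff.2 ⟨y, Mp.prim_loop hp r'⟩
    omega
  obtain ⟨y', hy'⟩ := hR.a_to y hy
  obtain ⟨m, rfl⟩ : ∃ m', m = m' + 1 := ⟨m + 3, (f4a m).2.2.1.symm⟩
  have c1 := hx.col.succ y m
  rw [← FF_o (P := P) (ρ := update ρ x.1.1 (some .cut)) hw ε]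
  generalize mp hw (update ρ x.1.1 (some .cut)) = M' at *
  have r1 : M'.Rch (M'.rev (M'.a y' (m + 1))) (M'.a y' (m + 1)) := by
    rw [hy', hR.rev]
    refine rch_res hR r.rev' (.step (fun x' j he => ?_) ?_)
    · obtain ⟨z, a1, a2⟩ := hR.a_of x'
      rw [a2] at he
      exact a1 ((mp hw ρ).a_inj _ _ _ _ he).1.symm
    · rw [hR.rev, hR.τ_x]
      exact rch_res hR r (.refl _)
  rw [← hy'] at c1
  have hz : M'.dg.Zr (FF P w (update ρ x.1.1 (some .cut)))
      fun y => some (cl ε (M'.a y.1 y.2)) := by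
    refine hO.bigon (P := (y', m)) (Q := (y', m + 1)) rfl rfl (by simp) ?_ ?_
    all_goals
      simp only [c1]
      cases cl ε (M'.a y' m)
    · exact .refl _
    · rw [Mp.s_a]; exact r1.reach _
    · refine Dg.Reach.rel' (σ := fun _ => none) ?_ _
      rw [Bool.not_false, Mp.s_a]; exact r1.reach _
    · exact (Dg.rel_s _ _).symm
  rw [Dg.Zr, nk_all, Fintype.card_prod, Fintype.card_fin] at hz
  exact hz.mono (by push_cast; omega)

theorem final (hP : IsHomfly P) (u v : Word) (b : Bool) (i : ℕ)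
    (hw : UValid 0 (u ++ (.cr b, i) :: v) 0) (hA : Alt (u ++ (.cr b, i) :: v))
    (hp : Prime (u ++ (.cr b, i) :: v)) (hc : 2 ≤ crs (u ++ (.cr b, i) :: v))
    (β β' : Bool) (n : ℕ) :
    mDeg (P (dbl u ++ twist β n i ++ clasp β' i ++ dbl ((.cr b, i) :: v))) =
      ((2 * crs (u ++ (.cr b, i) :: v) : ℤ) : WithBot ℤ) := by
  obtain ⟨ε, hε⟩ := hA
  have hne : u ++ (.cr b, i) :: v ≠ [] := by simp
  have hk : (u ++ (.cr b, i) :: v)[u.length]? = some (.cr b, i) := by simp
  have h0 : NC fun _ => none := fun _ => by simp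
  have hc' := card_none (u ++ (.cr b, i) :: v)
  have hpr := mp_prim hw hp
  have hq := (main_ind hP hw hne ε _ _ h0 rfl).2.2.2 (by omega) hpr
  obtain ⟨x, hx⟩ := kept_x (w := u ++ (.cr b, i) :: v) (ρ := fun _ => none) (k := u.length)
    ⟨⟨b, by rw [pos, getD_of hk, hk]⟩, rfl⟩
  have hG := degG hP hw hne h0 ε x
  have hE := degE hP hw hne h0 ε x hpr (by omega)
  rw [hx, Wd_cut u v b i (s0_alt hε), hc'] at hE
  rw [TW] at hq
  rw [Wd_none (s0_alt hε), hc'] at hG hq
  have := white hP u v b i hw β β' n _ (hE.mono (by omega)) hG fun h => by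
    rw [h, qq_zero] at hq; omega
  rw [sub_add_cancel] at this
  exact mDeg_eq this.1 this.2

end Pool.Agent.Lib.MP_3a4f2f_gt.H39
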