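import Pool.Agent.Lib.MP_3a4f2f_gt.H39.Model

/-! The map of a word. -/

set_option autoImplicit false

namespace Pool.Agent.Lib.MP_3a4f2f_gt.H39

variable {w : Word} {ρ : ℕ → Option Rs}

lemma getD_of {k : ℕ} {g : Letter × ℕ} (h : w[k]? = some g) : w.getD k (.cap, 0) = g := by
  simp [List.getD_eq_getElem?_getD, h]

lemma opp_mem (hw : UValid 0 w 0) {h : Port} (hh : h ∈ ports w) : opp h ∈ ports w := by
  obtain ⟨k, p, d⟩ := h
  rw [mem_ports] at hh
  cases d
  · simp only [opp, mem_ports, if_true]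
    simp only [Bool.false_eq_true, if_false] at hh
    refine ⟨?_, hh.2⟩
    by_contra hc
    have h1 : k + 1 = w.length := by omega
    rw [h1, wd_length hw] at hh
    omega
  · simp only [if_true] at hh
    have h0 : k ≠ 0 := by
      rintro rfl
      rw [wd_zero] at hh
      omega
    simp only [opp, mem_ports, Bool.false_eq_true, if_false]
    rw [show k - 1 + 1 = k by omega]
    exact ⟨by omega, hh.2⟩

lemma opp_opp {h : Port} (hh : h ∈ ports w) : opp (opp h) = h := by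
  obtain ⟨k, p, d⟩ := h
  rw [mem_ports] at hh
  cases d
  · simp [opp]
  · have h0 : k ≠ 0 := by
      rintro rfl
      simp only [if_true, wd_zero] at hh
      omega
    simp only [opp]
    rw [show k - 1 + 1 = k by omega]

lemma across_lt {l : Letter} {i n p : ℕ} {d : Bool} (h1 : i + l.inp ≤ n)
    (h2 : p < if d then n else n - l.inp + l.out) :
    (across (l, i) (p, d)).1 <
      if (across (l, i) (p, d)).2 then n else n - l.inp + l.out := by
  cases l <;> cases d <;> simp only [across, Letter.inp, Letter.out] at h1 h2 ⊢ <;>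
    split_ifs at h2 ⊢ <;> simp_all <;> omega

lemma turn_mem (hw : UValid 0 w 0) {h : Port} (hh : h ∈ ports w) : turn w h ∈ ports w := by
  obtain ⟨k, p, d⟩ := h
  rw [mem_ports] at hh
  obtain ⟨⟨l, i⟩, hg⟩ : ∃ g, w[k]? = some g := ⟨_, List.getElem?_eq_getElem hh.1⟩
  have h1 := wd_fit hw hg
  have h2 := wd_succ hg
  have h3 : p < if d then wd w k else wd w k - l.inp + l.out := by
    cases d
    · simpa [h2] using hh.2
    · simpa using hh.2
  have h4 := across_lt h1 h3
  simp only [turn, getD_of hg]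
  generalize across (l, i) (p, d) = q at h4
  obtain ⟨q, e⟩ := q
  rw [mem_ports]
  refine ⟨hh.1, ?_⟩
  cases e
  · simpa [h2] using h4
  · simpa using h4

lemma aP_mem (hw : UValid 0 w 0) {k : ℕ} (hk : IsCr w k) (j : Fin 4) :
    aP k (pos w k) j ∈ ports w := by
  obtain ⟨b, hg⟩ := hk
  have h1 := wd_fit hw hg
  have h2 := wd_succ hg
  have h0 := (List.getElem?_eq_some_iff.1 hg).1
  simp only [Letter.inp, Letter.out] at h1 h2
  fin_cases j <;> simp [aP, mem_ports, h0, h2] <;> omega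

lemma turn_aP {k : ℕ} (hk : IsCr w k) (j : Fin 4) :
    turn w (aP k (pos w k) j) = aP k (pos w k) (j + 1) := by
  obtain ⟨b, hg⟩ := hk
  rw [turn, aP_fst, getD_of hg]
  fin_cases j <;> simp [aP, across, Letter.inp, Letter.out]

/-- `h` is an end at a crossing of the word. -/
def AtCr (w : Word) (h : Port) : Prop := IsCr w h.1 ∧ ∃ j, h = aP h.1 (pos w h.1) j

lemma across_across {l : Letter} {i p : ℕ} {d : Bool}
    (h : (∃ b, l = .cr b) → p ≠ i ∧ p ≠ i + 1) :
    across (l, i) (across (l, i) (p, d)) = (p, d) ∧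
      ((∃ b, l = .cr b) → (across (l, i) (p, d)).1 = p) := by
  have key : ∀ (q : ℕ) (e : Bool), across (l, i) (p, d) = (q, e) →
      across (l, i) (q, e) = (p, d) ∧ ((∃ b, l = .cr b) → q = p) := by
    intro q e hq
    cases l <;> cases d <;> simp only [across, Letter.inp, Letter.out] at hq <;>
      split_ifs at hq <;> simp only [Prod.mk.injEq] at hq <;> obtain ⟨rfl, rfl⟩ := hq <;>
      simp only [across, Letter.inp, Letter.out] <;> split_ifs <;> simp_all <;> omega
  exact key _ _ rfl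

lemma atCr_iff {k p : ℕ} {d : Bool} :
    AtCr w (k, p, d) ↔ IsCr w k ∧ (p = pos w k ∨ p = pos w k + 1) := by
  refine and_congr_right fun _ => ⟨?_, ?_⟩
  · rintro ⟨j, hj⟩
    fin_cases j <;> simp [aP] at hj <;> omega
  · rintro (rfl | rfl) <;> cases d
    exacts [⟨2, rfl⟩, ⟨1, rfl⟩, ⟨3, rfl⟩, ⟨0, rfl⟩]

lemma turn_turn {h : Port} (hh : h ∈ ports w) (hc : ¬AtCr w h) :
    turn w (turn w h) = h ∧ ¬AtCr w (turn w h) := by
  obtain ⟨k, p, d⟩ := h
  rw [mem_ports] at hh
  obtain ⟨⟨l, i⟩, hg⟩ : ∃ g, w[k]? = some g := ⟨_, List.getElem?_eq_getElem hh.1⟩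
  have hp : pos w k = i := by rw [pos, getD_of hg]
  have hcr : IsCr w k ↔ ∃ b, l = .cr b := by
    simp [IsCr, hp, hg]
  rw [atCr_iff, hcr, hp] at hc
  have h1 := across_across (l := l) (i := i) (p := p) (d := d) (by tauto)
  simp only [turn, getD_of hg]
  refine ⟨by rw [h1.1], ?_⟩
  generalize across (l, i) (p, d) = q at h1
  obtain ⟨q, e⟩ := q
  rw [atCr_iff, hcr, hp]
  rintro ⟨h2, h3⟩
  have h4 : q = p := h1.2 h2
  exact hc ⟨h2, h4 ▸ h3⟩

lemma turnR_free {h : Port} (hc : ¬AtCr w h) : turnR w ρ h = turn w h :=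
  turnR_other fun j h1 _ h2 => hc ⟨h1, j, h2⟩

lemma turnR_kept {k : ℕ} (hk : Kept w ρ k) (j : Fin 4) :
    turnR w ρ (aP k (pos w k) j) = aP k (pos w k) (j + 1) := by
  rw [turnR_other, turn_aP hk.1]
  intro j' _ h2
  rw [aP_fst] at h2
  exact absurd hk.2 h2

lemma port_cases (w : Word) (ρ : ℕ → Option Rs) (h : Port) : ¬AtCr w h ∨
    (∃ k j, Kept w ρ k ∧ h = aP k (pos w k) j) ∨
    ∃ k j r, IsCr w k ∧ ρ k = some r ∧ h = aP k (pos w k) j := by
  by_cases hc : AtCr w h
  · obtain ⟨h1, j, h2⟩ := hc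
    rcases hr : ρ h.1 with _ | r
    · exact Or.inr (Or.inl ⟨_, j, ⟨h1, hr⟩, h2⟩)
    · exact Or.inr (Or.inr ⟨_, j, r, h1, hr, h2⟩)
  · exact Or.inl hc

lemma pr_pr (r : Rs) (j : Fin 4) : r.pr (r.pr j) = j := by
  cases r <;> revert j <;> decide

lemma turnR_mem (hw : UValid 0 w 0) {h : Port} (hh : h ∈ ports w) : turnR w ρ h ∈ ports w := by
  rcases port_cases w ρ h with hc | ⟨k, j, hk, rfl⟩ | ⟨k, j, r, hk, hr, rfl⟩
  · rw [turnR_free hc]
    exact turn_mem hw hh
  · rw [turnR_kept hk]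
    exact aP_mem hw hk.1 _
  · rw [turnR_res hk hr]
    exact aP_mem hw hk _

lemma turnR_two {h : Port} (hh : h ∈ ports w)
    (hn : ∀ k j, Kept w ρ k → h ≠ aP k (pos w k) j) : turnR w ρ (turnR w ρ h) = h := by
  rcases port_cases w ρ h with hc | ⟨k, j, hk, rfl⟩ | ⟨k, j, r, hk, hr, rfl⟩
  · rw [turnR_free hc, turnR_free (turn_turn hh hc).2, (turn_turn hh hc).1]
  · exact absurd rfl (hn k j hk)
  · rw [turnR_res hk hr, turnR_res hk hr, pr_pr]

lemma turnR_four {h : Port} (hh : h ∈ ports w) :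
    turnR w ρ (turnR w ρ (turnR w ρ (turnR w ρ h))) = h := by
  by_cases hn : ∀ k j, Kept w ρ k → h ≠ aP k (pos w k) j
  · rw [turnR_two hh hn, turnR_two hh hn]
  · push Not at hn
    obtain ⟨k, j, hk, rfl⟩ := hn
    rw [turnR_kept hk, turnR_kept hk, turnR_kept hk, turnR_kept hk]
    congr 1
    clear hh
    revert j
    decide

lemma isCr_lt {k : ℕ} (hk : IsCr w k) : k < w.length := by
  obtain ⟨b, hg⟩ := hk
  exact (List.getElem?_eq_some_iff.1 hg).1

lemma colE_flip (ε : Bool) (k k' p : ℕ) (d : Bool) : colE ε (k, p, !d) = !colE ε (k', p, d) := by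
  simp only [colE]
  generalize decide (Odd p) = c
  cases ε <;> cases c <;> cases d <;> rfl

lemma colE_succ (ε : Bool) (k p : ℕ) (d : Bool) : colE ε (k, p + 1, d) = !colE ε (k, p, d) := by
  simp only [colE, Nat.odd_iff]
  rcases Nat.mod_two_eq_zero_or_one p with h1 | h1 <;> cases ε <;> cases d <;>
    simp [h1, Nat.add_mod]

lemma colE_turn {h : Port} (ε : Bool) : colE ε (turn w h) = !colE ε h := by
  obtain ⟨k, p, d⟩ := h
  simp only [turn]
  generalize w.getD k (.cap, 0) = g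
  obtain ⟨l, i⟩ := g
  have key : ∀ (q : ℕ) (e : Bool), across (l, i) (p, d) = (q, e) →
      (e = d ∧ (q + p) % 2 = 1) ∨ (e = !d ∧ (q + p) % 2 = 0) := by
    intro q e hq
    cases l <;> cases d <;> simp only [across, Letter.inp, Letter.out] at hq <;>
      split_ifs at hq <;> simp only [Prod.mk.injEq] at hq <;> obtain ⟨rfl, rfl⟩ := hq <;>
      simp <;> omega
  generalize across (l, i) (p, d) = q at key
  obtain ⟨q, e⟩ := q
  simp only [colE, Nat.odd_iff]
  rcases Nat.mod_two_eq_zero_or_one p with h1 | h1 <;>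
    rcases Nat.mod_two_eq_zero_or_one q with h2 | h2 <;>
    rcases key q e rfl with ⟨rfl, h3⟩ | ⟨rfl, h3⟩ <;> first | omega | simp [h1, h2]

theorem exists_mp (hw : UValid 0 w 0) (ρ : ℕ → Option Rs) : ∃ M : Mp (HH w) (XX w ρ),
    (∀ h, (M.rev h).1 = opp h.1) ∧ (∀ h, (M.τ h).1 = turnR w ρ h.1) ∧
    ∀ x j, (M.a x j).1 = aP x.1 (pos w x.1) j := by
  let T : HH w → HH w := fun h => ⟨turnR w ρ h.1, turnR_mem hw h.2⟩
  have hT : ∀ h, T (T (T (T h))) = h := fun h => Subtype.ext (turnR_four h.2)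
  refine ⟨⟨fun h => ⟨opp h.1, opp_mem hw h.2⟩, fun h => Subtype.ext (opp_opp h.2),
    ⟨T, fun h => T (T (T h)), hT, hT⟩,
    fun x j => ⟨aP x.1 (pos w x.1) j, aP_mem hw x.2.1 j⟩, ?_, ?_, ?_⟩,
    fun _ => rfl, fun _ => rfl, fun _ _ => rfl⟩
  · intro x j y m h
    have h1 : aP x.1 (pos w x.1) j = aP y.1 (pos w y.1) m := congrArg Subtype.val h
    have h2 : (x.1 : ℕ) = y.1 := by simpa only [aP_fst] using congrArg Prod.fst h1
    exact ⟨Subtype.ext (Fin.ext h2), (aP_inj h1 (by rw [h2])).2⟩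
  · intro x j
    exact Subtype.ext (turnR_kept x.2 j)
  · intro h hn
    refine Subtype.ext (turnR_two h.2 fun k j hk he => ?_)
    exact hn ⟨⟨k, isCr_lt hk.1⟩, hk⟩ j (Subtype.ext he)

noncomputable def mp (hw : UValid 0 w 0) (ρ : ℕ → Option Rs) : Mp (HH w) (XX w ρ) :=
  (exists_mp hw ρ).choose

lemma mp_rev (hw : UValid 0 w 0) (h : HH w) : ((mp hw ρ).rev h).1 = opp h.1 :=
  (exists_mp hw ρ).choose_spec.1 h
lemma mp_τ (hw : UValid 0 w 0) (h : HH w) : ((mp hw ρ).τ h).1 = turnR w ρ h.1 :=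
  (exists_mp hw ρ).choose_spec.2.1 h
lemma mp_a (hw : UValid 0 w 0) (x : XX w ρ) (j : Fin 4) :
    ((mp hw ρ).a x j).1 = aP x.1 (pos w x.1) j := (exists_mp hw ρ).choose_spec.2.2 x j

theorem mp_col (hw : UValid 0 w 0) (hρ : ∀ k, ρ k ≠ some .cut) (ε : Bool) :
    (mp hw ρ).Col fun h => colE ε h.1 := by
  refine ⟨fun h => ?_, fun h => ?_⟩
  · simp only [mp_rev]
    obtain ⟨⟨k, p, d⟩, -⟩ := h
    cases d
    exacts [colE_flip ε _ _ p false, colE_flip ε _ _ p true]
  · simp only [mp_τ]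
    rcases port_cases w ρ h.1 with hc | ⟨k, j, hk, he⟩ | ⟨k, j, r, hk, hr, he⟩
    · rw [turnR_free hc, colE_turn]
    · rw [he, turnR_kept hk, ← turn_aP hk.1, colE_turn]
    · rw [he, turnR_res hk hr]
      cases r
      · fin_cases j
        exacts [colE_flip ε _ _ _ true, colE_flip ε _ _ _ true, colE_flip ε _ _ _ false,
          colE_flip ε _ _ _ false]
      · fin_cases j <;> simp [Rs.pr, prI, aP, colE_succ]
      · exact absurd hr (hρ k)

lemma kept_of_update (x : XX w ρ) (r : Rs) {k : ℕ}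
    (hk : Kept w (Function.update ρ x.1 (some r)) k) : k ≠ x.1 ∧ Kept w ρ k := by
  have h1 : k ≠ x.1 := by
    rintro rfl
    have h2 := hk.2
    rw [Function.update_self] at h2
    exact absurd h2 (by simp)
  exact ⟨h1, hk.1, by rw [← hk.2, Function.update_of_ne h1]⟩

lemma kept_update (x : XX w ρ) (r : Rs) (y : XX w ρ) (hy : y ≠ x) :
    Kept w (Function.update ρ x.1 (some r)) y.1 := by
  refine ⟨y.2.1, ?_⟩
  rw [Function.update_of_ne fun he => hy (Subtype.ext (Fin.ext he))]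
  exact y.2.2

theorem mp_res (hw : UValid 0 w 0) (x : XX w ρ) (r : Rs) :
    (mp hw ρ).Res (mp hw (Function.update ρ x.1 (some r))) x r.pr := by
  refine ⟨?_, fun j => ?_, fun h hn => ?_, fun y => ?_, fun y hy => ?_⟩
  · funext h
    exact Subtype.ext (by rw [mp_rev, mp_rev])
  · refine Subtype.ext ?_
    rw [mp_τ, mp_a, mp_a]
    exact turnR_res x.2.1 (Function.update_self ..) j
  · refine Subtype.ext ?_
    rw [mp_τ, mp_τ]
    have hx : ∀ k j, h.1 = aP k (pos w k) j → k ≠ x.1 := by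
      rintro k j he rfl
      exact hn j (Subtype.ext (by rw [mp_a]; exact he))
    rcases port_cases w ρ h.1 with hc | ⟨k, j, hk, he⟩ | ⟨k, j, r', hk, hr, he⟩
    · rw [turnR_free hc, turnR_free hc]
    · rw [he, turnR_kept hk, turnR_kept ⟨hk.1, by
        rw [Function.update_of_ne (hx k j he)]; exact hk.2⟩]
    · rw [he, turnR_res hk hr, turnR_res hk (by
        rw [Function.update_of_ne (hx k j he)]; exact hr)]
  · obtain ⟨h1, h2⟩ := kept_of_update x r y.2
    refine ⟨⟨y.1, h2⟩, fun he => h1 (congrArg (fun t : XX w ρ => (t.1 : ℕ)) he), ?_⟩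
    funext j
    exact Subtype.ext (by rw [mp_a, mp_a])
  · refine ⟨⟨y.1, kept_update x r y hy⟩, ?_⟩
    funext j
    exact Subtype.ext (by rw [mp_a, mp_a])

theorem card_res (x : XX w ρ) (r : Rs) :
    Fintype.card (XX w (Function.update ρ x.1 (some r))) + 1 = Fintype.card (XX w ρ) := by
  rw [← Fintype.card_option]
  refine Fintype.card_of_bijective
    (f := fun o => o.elim x fun y => ⟨y.1, (kept_of_update x r y.2).2⟩) ⟨?_, fun y => ?_⟩
  · rintro (_ | y) (_ | z) h
    · rfl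
    · exact absurd (congrArg (fun t : XX w ρ => (t.1 : ℕ)) h).symm (kept_of_update x r z.2).1
    · exact absurd (congrArg (fun t : XX w ρ => (t.1 : ℕ)) h) (kept_of_update x r y.2).1
    · exact congrArg some (Subtype.ext (congrArg (fun t : XX w ρ => t.1) h))
  · by_cases hy : y = x
    · exact ⟨none, hy.symm⟩
    · exact ⟨some ⟨y.1, kept_update x r y hy⟩, rfl⟩

theorem card_none (w : Word) : Fintype.card (XX w fun _ => none) = crs w := by
  classical
  have h1 : ∀ k : Fin w.length, Kept w (fun _ => none) k ↔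
      (w.get k).1 = .cr true ∨ (w.get k).1 = .cr false := by
    intro k
    have hg : w[(k : ℕ)]? = some (w.get k) := List.getElem?_eq_getElem k.2
    have hp : pos w k = (w.get k).2 := by rw [pos, getD_of hg]
    rw [Kept, IsCr, hp, hg]
    generalize w.get k = g
    obtain ⟨l, i⟩ := g
    simp [or_comm]
  rw [Fintype.card_congr (Equiv.subtypeEquivRight h1), Fintype.card_subtype, crs]
  conv_rhs => rw [← List.map_get_finRange w, List.countP_map]
  rw [Fin.univ_def, Finset.card_def, Finset.filter_val, ← Multiset.countP_eq_card_filter,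
    Multiset.coe_countP]
  rfl

theorem mp_prim (hw : UValid 0 w 0) (h : Prime w) : (mp hw fun _ => none).Prim := by
  classical
  have key : ∀ φ : HH w → Bool, (∀ g, φ ((mp hw fun _ => none).τ g) = φ g) →
      ∃ ψ : Port → Bool, (∀ g : HH w, ψ g.1 = φ g) ∧ Colouring w ψ ∧ changes w ψ ≤
        (Finset.univ.filter fun g => φ ((mp hw fun _ => none).rev g) ≠ φ g).card := by
    intro φ hφ
    have h1 : ∀ g : HH w, (fun q => if hq : q ∈ ports w then φ ⟨q, hq⟩ else false) g.1 = φ g :=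
      fun g => dif_pos g.2
    generalize (fun q => if hq : q ∈ ports w then φ ⟨q, hq⟩ else false) = ψ at h1
    refine ⟨ψ, h1, fun q hq => ?_, ?_⟩
    · have h2 := hφ ⟨q, hq⟩
      rwa [← h1, ← h1, mp_τ, turnR_other fun _ _ h3 => absurd rfl h3] at h2
    · refine le_trans (Finset.card_le_card ?_) (Finset.card_image_le (f := Subtype.val))
      intro q hq
      rw [Finset.mem_filter] at hq
      refine Finset.mem_image.2 ⟨⟨q, hq.1⟩, Finset.mem_filter.2 ⟨Finset.mem_univ _, ?_⟩, rfl⟩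
      rw [← h1, ← h1, mp_rev]
      exact hq.2
  refine ⟨fun φ h1 h2 g g' => ?_, fun φ h1 h2 x y => ?_⟩
  · obtain ⟨ψ, h3, h4, h5⟩ := key φ h1
    rw [Finset.filter_false_of_mem fun g _ => not_not.2 (h2 g), Finset.card_empty] at h5
    rw [← h3, ← h3]
    exact h.1 ψ h4 (by omega) _ g.2 _ g'.2
  · obtain ⟨ψ, h3, h4, h5⟩ := key φ h1
    obtain ⟨b, hb⟩ := x.2.1
    obtain ⟨c, hc⟩ := y.2.1
    rw [← h1, ← h1 ((mp hw fun _ => none).a y 0), Mp.τ_a, Mp.τ_a, ← h3, ← h3, mp_a, mp_a]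
    exact h.2 ψ h4 (h5.trans h2) _ _ _ _ _ _ hb hc

end Pool.Agent.Lib.MP_3a4f2f_gt.H39
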