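import Pool.Agent.Lib.MP_3a4f2f_gt.H39.Prim

/-! Words with resolved crossings, their maps and their doubles. -/

set_option autoImplicit false

namespace Pool.Agent.Lib.MP_3a4f2f_gt.H39

inductive Rs where
  | zero : Rs
  | inf : Rs
  | cut : Rs
  deriving DecidableEq

def Rs.pr : Rs → Fin 4 → Fin 4
  | .zero => prZ
  | .inf => prI
  | .cut => prC

/-- The four ends at a crossing: lower left, upper left, upper right, lower right. -/
def aP (k i : ℕ) : Fin 4 → Port :=
  ![(k, i + 1, true), (k, i, true), (k, i, false), (k, i + 1, false)]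

def pos (w : Word) (k : ℕ) : ℕ := (w.getD k (.cap, 0)).2

def IsCr (w : Word) (k : ℕ) : Prop := ∃ b, w[k]? = some (.cr b, pos w k)

def Kept (w : Word) (ρ : ℕ → Option Rs) (k : ℕ) : Prop := IsCr w k ∧ ρ k = none

open Classical in
noncomputable def turnR (w : Word) (ρ : ℕ → Option Rs) (h : Port) : Port :=
  if hh : ∃ q : Rs × Fin 4, IsCr w h.1 ∧ ρ h.1 = some q.1 ∧ h = aP h.1 (pos w h.1) q.2 then
    aP h.1 (pos w h.1) (hh.choose.1.pr hh.choose.2)
  else turn w h

abbrev HH (w : Word) : Type := {h : Port // h ∈ ports w}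

abbrev XX (w : Word) (ρ : ℕ → Option Rs) : Type := {k : Fin w.length // Kept w ρ k}

noncomputable instance (w : Word) (ρ : ℕ → Option Rs) : Fintype (XX w ρ) := Fintype.ofFinite _

def colE (ε : Bool) (h : Port) : Bool := xor ε (xor (decide (Odd h.2.1)) (!h.2.2))

def cP (o : Option Bool) (p : ℕ) : Word :=
  match o with
  | some β => [(.cr β, p)]
  | none => []

def cA (d : Bool) (o : Option Bool) (p : ℕ) : Word :=
  match o with
  | some β => [(.cr (!β), p)]
  | none => [(.cap, p), (.cup d, p)]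

def blk : Letter × ℕ → Option Rs → (Fin 4 → Option Bool) → Word
  | (.cr _, i), none, v => cA true (v 0) (2 * i + 1) ++ (cP (v 1) (2 * i) ++
      (cP (v 3) (2 * i + 2) ++ cA false (v 2) (2 * i + 1)))
  | (.cr _, _), some .zero, _ => []
  | (.cr _, i), some .inf, _ => dblL (.cap, i) ++ dblL (.cup true, i)
  | (.cr _, i), some .cut, _ => [(.cap, 2 * i), (.cup true, 2 * i + 2)]
  | (.cup d, i), _, _ => dblL (.cup d, i)
  | (.cap, i), _, _ => dblL (.cap, i)

/-- The double of `w` (pieces numbered from `k`), crossings resolved by `ρ`, corners in the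
states `σ`. -/
def Wd (ρ : ℕ → Option Rs) (σ : ℕ → Fin 4 → Option Bool) : ℕ → Word → Word
  | _, [] => []
  | k, g :: w => blk g (ρ k) (σ k) ++ Wd ρ σ (k + 1) w

abbrev Raw : Type := Port ⊕ ℕ × Fin 4

def Live (w : Word) (ρ : ℕ → Option Rs) : Raw → Prop
  | .inl h => h ∈ ports w
  | .inr y => Kept w ρ y.1

/-- `π` is the successor along the link `Wd ρ σ 0 w`, and `ov` holds for over and under arc. -/
structure Steps (w : Word) (ρ : ℕ → Option Rs) (σ : ℕ → Fin 4 → Option Bool) (π : Raw → Raw)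
    (ov : Raw → Raw → Prop) : Prop where
  f1 : ∀ h ∈ ports w, (∀ j, Kept w ρ h.1 → h ≠ aP h.1 (pos w h.1) j) →
    π (.inl h) = .inl (opp (turnR w ρ h))
  f2 : ∀ k j, Kept w ρ k → π (.inl (aP k (pos w k) j)) =
    if σ k j = none then .inl (opp (aP k (pos w k) (j + 1))) else .inr (k, j + 1)
  f3 : ∀ k j, Kept w ρ k → π (.inr (k, j)) =
    if σ k j = none then .inr (k, j + 1) else .inl (opp (aP k (pos w k) (j + 1)))
  f4 : ∀ k j, Kept w ρ k → σ k j = some true → ov (.inl (aP k (pos w k) j)) (.inr (k, j))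
  f5 : ∀ k j, Kept w ρ k → σ k j = some false → ov (.inr (k, j)) (.inl (aP k (pos w k) j))

variable {w : Word} {ρ : ℕ → Option Rs}

lemma mem_ports {k p : ℕ} {d : Bool} :
    (k, p, d) ∈ ports w ↔ k < w.length ∧ p < wd w (if d then k else k + 1) := by
  simp only [ports, Finset.mem_biUnion, Finset.mem_range, Finset.mem_union, Finset.mem_image,
    Prod.mk.injEq]
  constructor
  · rintro ⟨k', h1, ⟨p', h2, rfl, rfl, rfl⟩ | ⟨p', h2, rfl, rfl, rfl⟩⟩ <;> exact ⟨h1, h2⟩
  · rintro ⟨h1, h2⟩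
    cases d
    · exact ⟨k, h1, Or.inr ⟨p, h2, rfl, rfl, rfl⟩⟩
    · exact ⟨k, h1, Or.inl ⟨p, h2, rfl, rfl, rfl⟩⟩

lemma wd_zero (w : Word) : wd w 0 = 0 := rfl

lemma wd_succ {k : ℕ} {g : Letter × ℕ} (h : w[k]? = some g) :
    wd w (k + 1) = wd w k - g.1.inp + g.1.out := by
  simp [wd, List.take_add_one, h, List.foldl_append]

lemma uv_aux (u v : Word) (n m : ℕ) (h : UValid n (u ++ v) m) :
    UValid (u.foldl (fun n g => n - g.1.inp + g.1.out) n) v m := by
  induction u generalizing n with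
  | nil => exact h
  | cons g u ih => exact ih _ h.2

lemma uv_drop (hw : UValid 0 w 0) (k : ℕ) : UValid (wd w k) (w.drop k) 0 :=
  uv_aux (w.take k) (w.drop k) 0 0 (by rwa [List.take_append_drop])

lemma wd_fit (hw : UValid 0 w 0) {k : ℕ} {g : Letter × ℕ} (h : w[k]? = some g) :
    g.2 + g.1.inp ≤ wd w k := by
  have h1 := uv_drop hw k
  obtain ⟨hk, rfl⟩ := List.getElem?_eq_some_iff.1 h
  rw [List.drop_eq_getElem_cons hk] at h1
  exact h1.1

lemma wd_length (hw : UValid 0 w 0) : wd w w.length = 0 := by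
  have h1 := uv_drop hw w.length
  rwa [List.drop_length] at h1

lemma aP_inj {k i k' i' : ℕ} {j j' : Fin 4} (h : aP k i j = aP k' i' j') (hi : i = i') :
    k = k' ∧ j = j' := by
  subst hi
  fin_cases j <;> fin_cases j' <;> simp [aP] at h ⊢ <;> omega

lemma aP_fst (k i : ℕ) (j : Fin 4) : (aP k i j).1 = k := by fin_cases j <;> rfl

lemma turnR_res {k : ℕ} {r : Rs} (hk : IsCr w k) (hr : ρ k = some r) (j : Fin 4) :
    turnR w ρ (aP k (pos w k) j) = aP k (pos w k) (r.pr j) := by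
  have h1 : ∃ q : Rs × Fin 4, IsCr w (aP k (pos w k) j).1 ∧ ρ (aP k (pos w k) j).1 = some q.1 ∧
      aP k (pos w k) j = aP (aP k (pos w k) j).1 (pos w (aP k (pos w k) j).1) q.2 :=
    ⟨(r, j), by simpa only [aP_fst, and_true] using ⟨hk, hr⟩⟩
  obtain ⟨-, h2, h3⟩ := h1.choose_spec
  rw [turnR, dif_pos h1]
  generalize h1.choose = q at h2 h3
  rw [aP_fst] at h2 h3 ⊢
  rw [(aP_inj h3 rfl).2, Option.some.inj (hr.symm.trans h2)]

lemma turnR_other {h : Port}
    (hh : ∀ j, IsCr w h.1 → ρ h.1 ≠ none → h ≠ aP h.1 (pos w h.1) j) : turnR w ρ h = turn w h := by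
  rw [turnR, dif_neg]
  rintro ⟨q, h1, h2, h3⟩
  exact hh _ h1 (by simp [h2]) h3

lemma Wd_append (σ : ℕ → Fin 4 → Option Bool) (k : ℕ) (u v : Word) :
    Wd ρ σ k (u ++ v) = Wd ρ σ k u ++ Wd ρ σ (k + u.length) v := by
  induction u generalizing k with
  | nil => rfl
  | cons g u ih =>
    rw [List.cons_append, Wd, Wd, ih, List.append_assoc, List.length_cons,
      show k + 1 + u.length = k + (u.length + 1) by omega]

end Pool.Agent.Lib.MP_3a4f2f_gt.H39
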