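import Pool.Agent.Lib.MP_3a4f2f_gt.H39.WordSk1

/-! Skein relation and Reidemeister moves in doubled words. -/

set_option autoImplicit false

namespace Pool.Agent.Lib.MP_3a4f2f_gt.H39

open LaurentPolynomial Function

variable {w : Word} {ρ : ℕ → Option Rs} {P : Word → L2} {σ : ℕ → Fin 4 → Option Bool}

namespace WS

lemma Wd_gen {ρ' : ℕ → Option Rs} {σ' : ℕ → Fin 4 → Option Bool} (n : ℕ)
    (h : ∀ k b i, w[k]? = some (.cr b, i) →
      ρ (n + k) = ρ' (n + k) ∧ (ρ (n + k) = none → σ (n + k) = σ' (n + k))) :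
    Wd ρ σ n w = Wd ρ' σ' n w := by
  induction w generalizing n with
  | nil => rfl
  | cons g w ih =>
    rw [Wd, Wd, ih (n + 1) fun k b i e => by
      rw [show n + 1 + k = n + (k + 1) by omega]; exact h (k + 1) b i e]
    congr 1
    obtain ⟨_ | _ | b, i⟩ := g
    · rfl
    · rfl
    · obtain ⟨h1, h2⟩ := h 0 b i rfl
      rw [add_zero] at h1 h2
      rw [← h1]
      rcases e : ρ n with _ | _ | _ | _
      · rw [h2 e]
      all_goals rfl

lemma Wd_dbl (n : ℕ) (h : ∀ k b i, w[k]? = some (.cr b, i) →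
      ρ (n + k) = none ∧ σ (n + k) = ![some (!b), some b, some (!b), some b]) :
    Wd ρ σ n w = dbl w := by
  induction w generalizing n with
  | nil => rfl
  | cons g w ih =>
    rw [Wd, ih (n + 1) fun k b i e => by
      rw [show n + 1 + k = n + (k + 1) by omega]; exact h (k + 1) b i e]
    change _ = dblL g ++ dbl w
    congr 1
    obtain ⟨_ | _ | b, i⟩ := g
    · rfl
    · rfl
    · obtain ⟨h1, h2⟩ := h 0 b i rfl
      rw [add_zero] at h1 h2
      rw [h1, h2]
      cases b <;> rfl

lemma Wd_at {ρ' : ℕ → Option Rs} {σ' : ℕ → Fin 4 → Option Bool} (u v : Word) (g : Letter × ℕ)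
    (h : ∀ n, n ≠ u.length → ρ' n = ρ n ∧ σ' n = σ n) :
    Wd ρ' σ' 0 (u ++ g :: v) =
      Wd ρ σ 0 u ++ (blk g (ρ' u.length) (σ' u.length) ++ Wd ρ σ (u.length + 1) v) := by
  rw [Wd_append, Wd, zero_add, Wd_gen (w := u) 0 fun k b i e => ?_, Wd_gen (w := v) (u.length + 1)
    fun k b i _ => ⟨(h _ (by omega)).1, fun _ => (h _ (by omega)).2⟩]
  have := (List.getElem?_eq_some_iff.1 e).1
  exact ⟨(h _ (by omega)).1, fun _ => (h _ (by omega)).2⟩

lemma cr_split {k : ℕ} (hk : IsCr w k) :
    ∃ u v b i, w = u ++ (.cr b, i) :: v ∧ k = u.length := by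
  obtain ⟨b, hb⟩ := hk
  obtain ⟨h1, h2⟩ := List.getElem?_eq_some_iff.1 hb
  refine ⟨w.take k, w.drop (k + 1), b, pos w k, ?_, by simp; omega⟩
  rw [← h2, ← List.drop_eq_getElem_cons h1, List.take_append_drop]

end WS

open WS

theorem Wd_congr {σ' : ℕ → Fin 4 → Option Bool} (h : ∀ k, Kept w ρ k → σ k = σ' k) :
    Wd ρ σ 0 w = Wd ρ σ' 0 w :=
  Wd_gen 0 fun k b i e => ⟨rfl, fun e' => by
    rw [zero_add] at e' ⊢
    exact h k ⟨⟨b, by rw [e, pos, List.getD_eq_getElem?_getD, e]; rfl⟩, e'⟩⟩

theorem Wd_none (h : ∀ k b i, w[k]? = some (.cr b, i) → σ k = ![some (!b), some b, some (!b), some b]) :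
    Wd (fun _ => none) σ 0 w = dbl w :=
  Wd_dbl 0 fun k b i e => ⟨rfl, by rw [zero_add]; exact h k b i e⟩

theorem Wd_cut (u v : Word) (b : Bool) (i : ℕ)
    (h : ∀ k b' i', (u ++ (.cr b, i) :: v)[k]? = some (.cr b', i') →
      σ k = ![some (!b'), some b', some (!b'), some b']) :
    Wd (update (fun _ => none) u.length (some .cut)) σ 0 (u ++ (.cr b, i) :: v) =
      dbl u ++ [(.cap, 2 * i), (.cup true, 2 * i + 2)] ++ dbl v := by
  rw [Wd_at (ρ := fun _ => none) (σ := σ) u v _ fun n hn => ⟨update_of_ne hn _ _, rfl⟩,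
    update_self, List.append_assoc, Wd_dbl 0 fun k b' i' e => ⟨rfl, ?_⟩,
    Wd_dbl _ fun k b' i' e => ⟨rfl, ?_⟩]
  · rfl
  · refine h _ b' i' ?_
    rw [List.getElem?_append_right (by omega), show u.length + 1 + k - u.length = k + 1 by omega]
    exact e
  · rw [zero_add]
    refine h _ b' i' ?_
    rw [List.getElem?_append_left (List.getElem?_eq_some_iff.1 e).1]
    exact e

theorem Wd_ne (hw : UValid 0 w 0) (hne : w ≠ []) : Wd ρ σ 0 w ≠ [] := by
  obtain ⟨⟨g, i⟩, v, rfl⟩ := List.exists_cons_of_ne_nil hne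
  have h1 := hw.1
  cases g
  · simp [Wd, blk, dblL]
  all_goals simp [Letter.inp] at h1

theorem sk_Wd (hP : IsHomfly P) (hw : UValid 0 w 0) {k : ℕ} (hk : Kept w ρ k) (j : Fin 4) :
    T (-1) * P (Wd ρ (update σ k (update (σ k) j (some true))) 0 w) -
      T 1 * P (Wd ρ (update σ k (update (σ k) j (some false))) 0 w) =
      C (T 1) * P (Wd ρ (update σ k (update (σ k) j none)) 0 w) := by
  obtain ⟨u, v, b, i, rfl, rfl⟩ := cr_split hk.1
  have e := fun x => Wd_at (ρ := ρ) (ρ' := ρ) (σ := σ) (σ' := update σ u.length x) u v (.cr b, i)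
    fun n hn => ⟨rfl, update_of_ne hn _ _⟩
  rw [e, e, e, update_self, update_self, update_self, hk.2]
  obtain ⟨n, t, h1, h2, h3⟩ := uv_cr hw
  have hu : Val true [] _ _ := val_Wd ρ σ 0 h1
  have hv : Val true _ _ [] := val_Wd ρ σ (u.length + 1) h2
  rw [h3] at hu hv
  have hi := (alt_len i).symm
  generalize σ u.length = s
  have a0 := c0 (alt i) (alt t) (s 0) hi
  have a1 := c1 (alt i) (alt t) (s 1) hi
  have a3 := c3 (alt i) (alt t) (s 3) hi
  have a2 := c2 (alt i) (alt t) (s 2) hi
  have hj : j = 0 ∨ j = 1 ∨ j = 2 ∨ j = 3 := by omega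
  rcases hj with rfl | rfl | rfl | rfl <;>
    simp only [blk, update_self, update_of_ne, ne_eq, Fin.reduceEq, not_false_eq_true,
      List.append_assoc]
  · exact skA hP (d := true) (Q := alt i ++ [true]) (B := false :: alt t) (p := 2 * i + 1)
      (by simp [hi]) (by simpa using hu)
      (by simpa using val_cat a1 (val_cat a3 (val_cat a2 hv)))
  · have := skP hP hi (val_cat hu a0) (val_cat a3 (val_cat a2 hv))
    simp only [List.append_assoc] at this
    exact this
  · have := skA hP (d := false) (Q := alt i ++ [true]) (B := false :: alt t) (p := 2 * i + 1)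
      (by simp [hi]) (by simpa using val_cat hu (val_cat a0 (val_cat a1 a3)))
      (by simpa using hv)
    simp only [List.append_assoc] at this
    exact this
  · have := skP hP (Q := alt i ++ [true, true]) (B := alt t) (a := false) (p := 2 * i + 2)
      (by simp [hi]) (by simpa using val_cat hu (val_cat a0 a1))
      (by simpa using val_cat a2 hv)
    simp only [List.append_assoc] at this
    exact this

theorem r2_zero (hP : IsHomfly P) (hw : UValid 0 w 0) {k : ℕ} (hk : Kept w ρ k) (β : Bool)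
    (h : σ k = ![some β, none, some (!β), none]) :
    P (Wd ρ σ 0 w) = P (Wd (update ρ k (some .zero)) σ 0 w) := by
  have hv : V true (Wd ρ σ 0 w) := val_Wd ρ σ 0 hw
  obtain ⟨u, v, b, i, rfl, rfl⟩ := cr_split hk.1
  rw [Wd_at (ρ := ρ) (σ := σ) (ρ' := update ρ _ _) u v _ fun n hn => ⟨update_of_ne hn _ _, rfl⟩,
    update_self]
  rw [Wd_at (ρ := ρ) (σ := σ) (ρ' := ρ) u v _ fun n hn => ⟨rfl, rfl⟩, hk.2, h] at hv ⊢
  exact (fwd hP (.r2 (!β) (2 * i + 1)) _ _ hv).2

theorem r2_inf (hP : IsHomfly P) (hw : UValid 0 w 0) {k : ℕ} (hk : Kept w ρ k) (β : Bool)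
    (h : σ k = ![none, some β, none, some (!β)]) :
    P (Wd ρ σ 0 w) = P (Wd (update ρ k (some .inf)) σ 0 w) := by
  have hv : V true (Wd ρ σ 0 w) := val_Wd ρ σ 0 hw
  obtain ⟨u, v, b, i, rfl, rfl⟩ := cr_split hk.1
  rw [Wd_at (ρ := ρ) (σ := σ) (ρ' := update ρ _ _) u v _ fun n hn => ⟨update_of_ne hn _ _, rfl⟩,
    update_self]
  rw [Wd_at (ρ := ρ) (σ := σ) (ρ' := ρ) u v _ fun n hn => ⟨rfl, rfl⟩, hk.2, h] at hv ⊢
  exact ((unclasp hP true β (2 * i)).ctx [(.cap, 2 * i + 1)] [(.cup false, 2 * i + 1)] _ _ hv).2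

theorem white (hP : IsHomfly P) (u v : Word) (b : Bool) (i : ℕ)
    (hw : UValid 0 (u ++ (.cr b, i) :: v) 0) (β β' : Bool) (n : ℕ) (d : ℤ)
    (hE : DegLe (P (dbl u ++ [(.cap, 2 * i), (.cup true, 2 * i + 2)] ++ dbl v)) (d - 2))
    (hG : DegLe (P (dbl (u ++ (.cr b, i) :: v))) d)
    (hG' : mc d (P (dbl (u ++ (.cr b, i) :: v))) ≠ 0) :
    DegLe (P (dbl u ++ twist β n i ++ clasp β' i ++ dbl ((.cr b, i) :: v))) (d + 1) ∧
      mc (d + 1) (P (dbl u ++ twist β n i ++ clasp β' i ++ dbl ((.cr b, i) :: v))) ≠ 0 := by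
  obtain ⟨c, t, h1, h2, h3⟩ := uv_cr hw
  have hi := (alt_len i).symm
  have hu : Val true [] _ _ := val_dbl h1
  have hv : Val true _ _ [] := val_dbl h2
  rw [h3] at hu hv
  have eR : dbl ((.cr b, i) :: v) = dblL (.cr b, i) ++ dbl v := rfl
  have hR : Val true (alt i ++ true :: false :: true :: false :: alt t)
      (dbl ((.cr b, i) :: v)) [] := by
    rw [eR, ← blk_dbl (.cr b, i) _ fun _ _ e => by cases e; rfl]
    exact val_cat (vX _ _ hi _ _ _) hv
  have e0 : dbl (u ++ (.cr b, i) :: v) = dbl u ++ twist β 0 i ++ dbl ((.cr b, i) :: v) := by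
    simp [dbl, twist]
  rw [e0] at hG hG'
  have tw : ∀ m, twist β (m + 1) i = twist β m i ++ [(.cr β, 2 * i), (.cr β, 2 * i)] := fun m => by
    rw [twist, twist, mul_add, List.replicate_add]; rfl
  have hX : ∀ (a x : Bool) (B : List Bool), Val true (alt i ++ a :: (!a) :: B) [(.cr x, 2 * i)]
      (alt i ++ (!a) :: a :: B) := fun a x B => by
    simpa [cA] using val_cA (alt i) B (!a) (some (!x)) hi
  have hT : ∀ m, Val true [] (dbl u ++ twist β m i)
      (alt i ++ true :: false :: true :: false :: alt t) := fun m => by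
    induction m with
    | zero => simpa [twist] using hu
    | succ m ih =>
      rw [tw, ← List.append_assoc]
      exact val_cat ih (val_cat (hX true β _) (hX false β _))
  have hC : Val true (alt i ++ true :: false :: true :: false :: alt t)
      [(.cap, 2 * i), (.cup true, 2 * i)] (alt i ++ true :: false :: true :: false :: alt t) := by
    simp only [hi, Val, nx_shift0, fit_shift0]
    simp [nx, ins, del, cp, Fit, Letter.inp]
  have cut : ∀ m, DegLe (P (dbl u ++ twist β m i ++
      ([(.cap, 2 * i), (.cup true, 2 * i)] ++ dbl ((.cr b, i) :: v)))) (d - 2) := fun m => by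
    have m1 := (untwist hP β (2 * i) (2 * m)).ctx [] ((.cup true, 2 * i) :: dblL (.cr b, i))
    have m2 := (finger hP true b (2 * i)).ctx [(.cap, 2 * i)]
      [(.cr b, 2 * i + 2), (.cr b, 2 * i + 1)]
    have m3 := (finger hP true b (2 * i + 1)).ctx [(.cap, 2 * i)] []
    have := (m1.trans (m2.trans m3) (dbl u) (dbl v) (by
      simpa [V, twist, eR] using val_cat (hT m) (val_cat hC hR))).2
    simp only [twist, eR, List.append_assoc, List.cons_append, List.nil_append] at this hE ⊢
    rw [this]; exact hE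
  have hD : ∀ m, DegLe (P (dbl u ++ twist β m i ++ dbl ((.cr b, i) :: v))) d ∧
      mc d (P (dbl u ++ twist β m i ++ dbl ((.cr b, i) :: v))) ≠ 0 := fun m => by
    induction m with
    | zero => exact ⟨hG, hG'⟩
    | succ m ih =>
      have v1 := val_cat (hX false β _) hR
      have s := skA hP (d := false) hi (hT m) v1
      have r1 := ((r1U hP false β (2 * i)).ctx [(.cap, 2 * i)] [] (dbl u ++ twist β m i)
        (dbl ((.cr b, i) :: v)) (val_cat (hT m) (val_cat (val_cA _ _ false none hi) v1) :)).2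
      have r2 : P (dbl u ++ twist β m i ++ ([(.cr (!β), 2 * i), (.cr β, 2 * i)] ++
          dbl ((.cr b, i) :: v))) = P (dbl u ++ twist β m i ++ dbl ((.cr b, i) :: v)) := by
        simpa using (fwd hP (.r2 (!β) (2 * i)) _ _ (val_cat (hT m)
          (val_cat (val_cat (hX true (!β) _) (hX false (!!β) _)) hR))).2
      have c' := cut m
      rw [tw]
      simp only [cA, List.append_assoc, List.cons_append, List.nil_append, List.append_nil,
        Bool.not_true, Bool.not_false] at s r1 r2 c' ih ⊢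
      rw [r1] at s
      cases β
      · rw [Bool.not_false] at r2
        rw [r2] at s
        exact (sk_top s c').2 ih
      · rw [Bool.not_true] at r2
        rw [r2] at s
        exact (sk_top s c').1 ih
  have hK : Val true (alt i ++ true :: false :: true :: false :: alt t) [(.cup true, 2 * i + 1)]
      (alt i ++ true :: true :: false :: false :: true :: false :: alt t) := by
    simp only [hi, Val, nx_shift, fit_shift]
    simp [nx, ins, cp, Fit, Letter.inp]
  have hL : Val true (alt i ++ true :: true :: false :: false :: true :: false :: alt t)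
      [(.cr β', 2 * i + 2), (.cap, 2 * i + 1)]
      (alt i ++ true :: false :: true :: false :: alt t) := by
    simp only [hi, Val, nx_shift, fit_shift]
    simp [nx, del, swp, Fit, Letter.inp]
  have s := skP hP hi (val_cat (hT n) hK) (val_cat hL hR)
  have k1 := (kink hP true β' (2 * i + 1) _ _ (val_cat (hT n) (val_cat (val_cat hK hL) hR))).2
  have k2 : P (dbl u ++ twist β n i ++ ([(.cup true, 2 * i + 1), (.cr (!β'), 2 * i),
      (.cr β', 2 * i + 2), (.cap, 2 * i + 1)] ++ dbl ((.cr b, i) :: v))) =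
      P (dbl u ++ twist β n i ++
        ([(.cap, 2 * i), (.cup true, 2 * i)] ++ dbl ((.cr b, i) :: v))) := by
    have := unclasp hP true (!β') (2 * i)
    rw [Bool.not_not] at this
    exact (this _ _ (val_cat (hT n)
      (val_cat (val_cat hK (val_cat (c1 _ _ (some (!β')) hi) hL)) hR))).2
  have c' := (cut n).mono (show d - 2 ≤ d by omega)
  have hn := hD n
  simp only [cP, clasp, List.append_assoc, List.cons_append, List.nil_append]
    at s k1 k2 c' hn ⊢
  rw [k1] at s
  cases β'
  · rw [Bool.not_false] at k2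
    rw [k2] at s
    exact (sk_up s hn).2 c'
  · rw [Bool.not_true] at k2
    rw [k2] at s
    exact (sk_up s hn).1 c'

end Pool.Agent.Lib.MP_3a4f2f_gt.H39
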