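import Pool.Agent.Lib.MP_3a4f2f_gt.H39.DC
import Pool.Agent.Lib.MP_3a4f2f_gt.H39.Euler
import Pool.Agent.Lib.MP_3a4f2f_gt.H39.CertW
import Pool.Agent.Lib.MP_3a4f2f_gt.H39.WordSk

/-! The skein polynomials of the states of a doubled word. -/

set_option autoImplicit false

namespace Pool.Agent.Lib.MP_3a4f2f_gt.H39

open LaurentPolynomial Function

variable {w : Word} {ρ : ℕ → Option Rs} {P : Word → L2}

open Classical in
noncomputable def ext {β : Type} (d : β) (σ : XX w ρ × Fin 4 → β) (k : ℕ) (j : Fin 4) : β :=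
  if h : ∃ x : XX w ρ, x.1.1 = k then σ (h.choose, j) else d

lemma ext_x {β : Type} (d : β) (σ : XX w ρ × Fin 4 → β) (x : XX w ρ) (j : Fin 4) :
    ext d σ x.1.1 j = σ (x, j) := by
  have h : ∃ y : XX w ρ, y.1.1 = x.1.1 := ⟨x, rfl⟩
  rw [ext, dif_pos h, Subtype.ext (Fin.ext h.choose_spec)]

lemma kept_x {k : ℕ} (h : Kept w ρ k) : ∃ x : XX w ρ, x.1.1 = k := ⟨⟨⟨k, isCr_lt h.1⟩, h⟩, rfl⟩

noncomputable instance : DecidableEq (XX w ρ) := Classical.decEq _

noncomputable def FF (P : Word → L2) (w : Word) (ρ : ℕ → Option Rs)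
    (σ : State (XX w ρ × Fin 4)) : L2 := P (Wd ρ (ext none σ) 0 w)

lemma ext_upd (σ : State (XX w ρ × Fin 4)) (x : XX w ρ) (j : Fin 4) (r : Option Bool) :
    Wd ρ (ext none (update σ (x, j) r)) 0 w =
      Wd ρ (update (ext none σ) x.1.1 (update (ext none σ x.1.1) j r)) 0 w := by
  refine Wd_congr fun k hk => funext fun m => ?_
  obtain ⟨y, rfl⟩ := kept_x hk
  rw [ext_x]
  by_cases h : y = x
  · subst h
    rw [update_self]
    by_cases h' : m = j
    · subst h'; simp
    · rw [update_of_ne (by simpa using h'), update_of_ne h', ext_x]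
  · rw [update_of_ne (by simp [h]), update_of_ne (fun h' => h (Subtype.ext (Fin.ext h'))), ext_x]

def io : HH w ⊕ XX w ρ × Fin 4 → Raw := Sum.map Subtype.val fun y => (y.1.1.1, y.2)

lemma io_inj : Injective (io (w := w) (ρ := ρ)) := by
  refine Sum.map_injective.2 ⟨Subtype.val_injective, fun y y' h => ?_⟩
  obtain ⟨h1, h2⟩ := Prod.mk.inj h
  exact Prod.ext (Subtype.ext (Fin.ext h1)) h2

lemma live_iff (c : Raw) : Live w ρ c ↔ ∃ a, io (w := w) (ρ := ρ) a = c := by
  constructor
  · cases c with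
    | inl h => exact fun hh => ⟨.inl ⟨h, hh⟩, rfl⟩
    | inr y =>
      intro hh
      obtain ⟨x, hx⟩ := kept_x hh
      exact ⟨.inr (x, y.2), by simp [io, hx]⟩
  · rintro ⟨a | y, rfl⟩
    · exact a.2
    · exact y.1.2

theorem orc (hP : IsHomfly P) (hw : UValid 0 w 0) (hne : w ≠ []) (ρ : ℕ → Option Rs) :
    (mp hw ρ).dg.Orc (FF P w ρ) where
  sk σ y := by
    obtain ⟨x, j⟩ := y
    simp only [FF, ext_upd]
    exact sk_Wd hP hw x.2 j
  un κ := by
    classical
    obtain ⟨S, hS, hc⟩ := cert hw ρ (ext false κ)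
    have hS' : ∀ a, io a ∈ S := fun a => (hS _).2 ((live_iff _).2 ⟨a, rfl⟩)
    letI : BEq Raw := instBEqOfDecidableEq
    refine ⟨fun a => S.idxOf (io a), fun a b h => io_inj ((List.idxOf_inj (hS' a)).1 h),
      fun σ t hκ h1 h2 h3 => ?_⟩
    set D := (mp hw ρ).dg with hD
    obtain ⟨B, hB⟩ : ∃ B, ∀ e, t e ≤ B := ⟨Finset.univ.sup t, fun e => Finset.le_sup (by simp)⟩
    let π : Raw → Raw := extend io (io ∘ D.nxt σ) id
    let t' : Raw → ℕ := extend io t fun c => B + 1 + Encodable.encode c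
    have eπ : ∀ a, π (io a) = io (D.nxt σ a) := fun a => io_inj.extend_apply _ _ _
    have et : ∀ a, t' (io a) = t a := fun a => io_inj.extend_apply _ _ _
    have et' : ∀ c, (∃ a, io (w := w) (ρ := ρ) a = c) ∨ t' c = B + 1 + Encodable.encode c :=
      fun c => (em _).imp id fun h => extend_apply' _ _ _ h
    have ea : ∀ x j, io (D.arc (x, j) true) = .inl (aP x.1.1 (pos w x.1.1) j) := fun x j =>
      congrArg Sum.inl (mp_a hw x j)
    have es : ∀ x j, io (D.s (D.arc (x, j) true)) = .inl (opp (aP x.1.1 (pos w x.1.1) (j + 1))) :=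
      fun x j => by
        rw [Mp.s_a]
        exact congrArg Sum.inl ((mp_rev hw _).trans (congrArg opp (mp_a hw x (j + 1))))
    have hst : Steps w ρ (ext none σ) π fun a b => ∃ y β, σ y = some β ∧ a = io (D.arc y β) ∧
        b = io (D.arc y (!β)) := by
      refine ⟨fun h hh hf => ?_, fun k j hk => ?_, fun k j hk => ?_, fun k j hk => ?_,
        fun k j hk => ?_⟩
      · refine (eπ (.inl ⟨h, hh⟩)).trans ?_
        rw [D.nxt_free]
        · exact congrArg Sum.inl ((mp_rev hw _).trans (congrArg opp (mp_τ hw _)))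
        · rintro ⟨x, j⟩ e he
          cases e
          · cases he
          · have a1 : h = aP x.1.1 (pos w x.1.1) j := Sum.inl.inj ((congrArg io he).trans (ea x j))
            have a2 : h.1 = x.1.1 := by rw [a1, aP_fst]
            exact absurd (a2 ▸ a1) (hf j (a2 ▸ x.2))
      all_goals obtain ⟨x, rfl⟩ := kept_x hk
      · rw [← ea, eπ, ext_x]
        split_ifs with h
        · rw [D.nxt_free (D.free_arc h _), es]
        · rw [D.nxt_kept h]; rfl
      · rw [ext_x]
        refine (eπ (D.arc (x, j) false)).trans ?_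
        split_ifs with h
        · rw [D.nxt_free (D.free_arc h _)]; rfl
        · rw [D.nxt_kept h]; exact es x j
      · rw [ext_x]; exact fun h => ⟨_, _, h, (ea x j).symm, rfl⟩
      · rw [ext_x]; exact fun h => ⟨_, _, h, rfl, (ea x j).symm⟩
    have hg := geo hP (hc _ _ _ (fun k j => by
      unfold ext
      split_ifs
      · exact hκ _
      · rfl) hst) (Wd_ne hw hne) t' (fun c c' h => by
        rcases et' c with ⟨a, rfl⟩ | a <;> rcases et' c' with ⟨b, rfl⟩ | b
        · rw [et, et] at h; rw [h1.1 h]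
        · have := hB a; rw [et] at h; omega
        · have := hB b; rw [et] at h; omega
        · exact Encodable.encode_injective (by omega))
      (by rintro _ _ ⟨y, β, a1, rfl, rfl⟩; rw [et, et]; exact h2 y β a1)
      (fun c hc => by
        obtain ⟨a, rfl⟩ := (live_iff c).1 ((hS c).1 hc)
        rw [eπ, et, et]
        by_cases hb : t (D.nxt σ a) = t a + 1
        · exact Or.inl hb
        refine Or.inr ⟨(h1.brk hb).1, fun e a1 a2 => ?_⟩
        rcases et' e with ⟨b, rfl⟩ | b
        · rw [eπ, et, et] at *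
          exact ⟨(h1.brk hb).2 b a1 a2, h3 a hb b a1 a2⟩
        · have := hB a; omega)
    rw [FF, hg, Dg.br, ← Finset.card_image_of_injective _ io_inj]
    congr 2
    ext c
    simp only [Finset.mem_filter, List.mem_toFinset, hS, live_iff, Finset.mem_image,
      Finset.mem_univ, true_and]
    constructor
    · rintro ⟨⟨a, rfl⟩, h⟩
      exact ⟨a, by rwa [eπ, et, et] at h, rfl⟩
    · rintro ⟨a, h, rfl⟩
      exact ⟨⟨a, rfl⟩, by rwa [eπ, et, et]⟩

lemma Dg.br_le_comp {A Y : Type} [Fintype A] {D : Dg A Y} {σ : State Y} {t : A → ℕ}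
    (h : D.Trav σ t) (h0 : ∀ y, σ y = none) : D.br σ t ≤ D.comp ∅ := by
  classical
  let B := Finset.univ.filter fun c => t (D.nxt σ c) ≠ t c + 1
  have hB : ∀ c : B, t (D.nxt σ c) ≠ t c + 1 := fun c => (Finset.mem_filter.1 c.2).2
  let f : B → D.Inv ∅ := fun c => ⟨fun a => if t (D.nxt σ c) ≤ t a ∧ t a ≤ t c then 1 else 0,
    fun a => by
      rw [← D.nxt_free (σ := σ) (fun y _ _ => h0 y)]
      refine if_congr ⟨fun a1 => h.out (hB c) a1.1 a1.2, fun a1 => ?_⟩ rfl rfl
      rcases a1.2.eq_or_lt with a2 | a2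
      · rw [h.1 a2]; exact ⟨le_rfl, (h.brk (hB c)).1⟩
      · rw [(h.brk (hB c)).2 a a1.1 a2]; omega, by simp⟩
  have hf : ∀ c c' : B, (f c).1 c' = if c = c' then 1 else 0 := fun c c' => by
    refine if_congr ⟨fun a1 => ?_, fun a1 => a1 ▸ ⟨(h.brk (hB c)).1, le_rfl⟩⟩ rfl rfl
    rcases a1.2.eq_or_lt with a2 | a2
    · exact Subtype.ext (h.1 a2).symm
    · exact absurd ((h.brk (hB c)).2 _ a1.1 a2) (hB c')
  have hl : LinearIndependent ℚ f := Fintype.linearIndependent_iff.2 fun g hg c => by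
    have := congrArg (fun v : D.Inv ∅ => v.1 c) hg
    simpa [Finset.sum_apply, hf] using this
  have := hl.fintype_card_le_finrank
  rwa [Fintype.card_coe] at this

end Pool.Agent.Lib.MP_3a4f2f_gt.H39
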