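import Pool.Agent.Lib.MP_3a4f2f_gt.Sys
import Pool.Agent.Lib.MP_3a4f2f_gt.H39.Defs

/-! Coefficients of powers of `m`. -/

set_option autoImplicit false

namespace Pool.Agent.Lib.MP_3a4f2f_gt.H39

open LaurentPolynomial

/-- The value of a split circle. -/
noncomputable def dl : L2 := C (T (-1)) * (T (-1) - T 1)

noncomputable def cfa (k : ℤ) : L1 →+ ℤ where
  toFun q := q.coeff k
  map_zero' := rfl
  map_add' _ _ := rfl

/-- Coefficient of `m ^ k`, a Laurent polynomial in `l`. -/
noncomputable def mc (k : ℤ) (p : L2) : L1 := AddMonoidAlgebra.map (cfa k) p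

lemma mc_coeff (k : ℤ) (p : L2) (j : ℤ) : (mc k p).coeff j = (p.coeff j).coeff k := rfl

lemma L1ext {p q : L1} (h : ∀ j, p.coeff j = q.coeff j) : p = q := by
  cases p; cases q; congr 1; ext j; exact h j

lemma mc_add (k : ℤ) (p q : L2) : mc k (p + q) = mc k p + mc k q := L1ext fun _ => rfl
lemma mc_sub (k : ℤ) (p q : L2) : mc k (p - q) = mc k p - mc k q := L1ext fun _ => rfl
lemma mc_neg (k : ℤ) (p : L2) : mc k (-p) = -mc k p := L1ext fun _ => rfl

lemma mc_T (k n : ℤ) (p : L2) : mc k (T n * p) = T n * mc k p := L1ext fun j => by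
  rw [mc_coeff, coeff_T_mul, coeff_T_mul, mc_coeff]

lemma mc_C (k n : ℤ) (p : L2) : mc k (C (T n) * p) = mc (k - n) p := L1ext fun j => by
  rw [mc_coeff, coeff_C_mul, coeff_T_mul, mc_coeff]

lemma mc_dl (k : ℤ) (p : L2) : mc k (dl * p) = (T (-1) - T 1) * mc (k + 1) p := by
  rw [dl, mul_assoc, mc_C, sub_mul, mc_sub, mc_T, mc_T, sub_mul]; simp

lemma mc_one (k : ℤ) : mc k 1 = if k = 0 then 1 else 0 := L1ext fun j => by
  rw [mc_coeff, ← T_zero, T_apply]
  by_cases hj : (0 : ℤ) = j
  · subst hj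
    rw [if_pos rfl, ← T_zero, T_apply]
    by_cases hk : k = 0
    · subst hk; simp
    · rw [if_neg (Ne.symm hk), if_neg hk]; rfl
  · rw [if_neg hj]
    split_ifs
    · rw [← T_zero, T_apply, if_neg hj]; rfl
    · rfl

lemma eta_ne : (T (-1) - T 1 : L1) ≠ 0 := fun h => by
  have := congrArg (fun q : L1 => q.coeff 1) h
  simp [T_apply] at this

lemma dl_ne : dl ≠ 0 := fun h => by
  have h1 := mc_dl (-1) 1
  rw [h, zero_mul, mc_one] at h1
  have h2 : mc (-1) 0 = 0 := L1ext fun _ => rfl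
  rw [h2] at h1
  simp only [neg_add_cancel, if_true, mul_one] at h1
  exact eta_ne h1.symm

lemma m_dl : (C (T 1) : L2) * dl = T (-1) - T 1 := by
  rw [dl, ← mul_assoc, ← map_mul, ← T_add]; simp

/-- No power of `m` above `d`. -/
def DegLe (p : L2) (d : ℤ) : Prop := ∀ k, d < k → mc k p = 0

lemma DegLe.mono {p : L2} {d d' : ℤ} (h : DegLe p d) (e : d ≤ d') : DegLe p d' :=
  fun k hk => h k (by omega)

lemma DegLe.add {p q : L2} {d : ℤ} (h : DegLe p d) (h' : DegLe q d) : DegLe (p + q) d :=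
  fun k hk => by rw [mc_add, h k hk, h' k hk, add_zero]

lemma DegLe.sub {p q : L2} {d : ℤ} (h : DegLe p d) (h' : DegLe q d) : DegLe (p - q) d :=
  fun k hk => by rw [mc_sub, h k hk, h' k hk, sub_zero]

lemma DegLe.T {p : L2} {d : ℤ} (h : DegLe p d) (n : ℤ) : DegLe (T n * p) d :=
  fun k hk => by rw [mc_T, h k hk, mul_zero]

lemma DegLe.m {p : L2} {d : ℤ} (h : DegLe p d) : DegLe (C (LaurentPolynomial.T 1) * p) (d + 1) :=
  fun k hk => by rw [mc_C, h _ (by omega)]

lemma DegLe.dl {p : L2} {d : ℤ} (h : DegLe p d) : DegLe (dl * p) (d - 1) :=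
  fun k hk => by rw [mc_dl, h _ (by omega), mul_zero]

lemma DegLe.of_dl {p : L2} {d : ℤ} (h : DegLe (H39.dl * p) d) : DegLe p (d + 1) := fun k hk => by
  have := h (k - 1) (by omega)
  rw [mc_dl, sub_add_cancel] at this
  exact (mul_eq_zero.1 this).resolve_left eta_ne

lemma degLe_pow (n : ℕ) : DegLe (dl ^ n) (-n) := by
  induction n with
  | zero => intro k hk; rw [pow_zero, mc_one, if_neg (by omega)]
  | succ n ih => rw [pow_succ']; exact ih.dl.mono (by push_cast; omega)

lemma TT' (a : ℤ) : (T a : L2) * T (-a) = 1 := by rw [← T_add]; simp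

/-- The skein relation solved for one crossing. -/
lemma sk_deg {p q r : L2} {d : ℤ} (h : T (-1) * p - T 1 * q = C (T 1) * r) (hr : DegLe r (d - 1)) :
    DegLe p d ↔ DegLe q d := by
  have h1 : DegLe (C (T 1) * r) d := hr.m.mono (by omega)
  constructor
  · intro hp
    have e : q = T (-1) * (T (-1) * p - C (T 1) * r) := by
      linear_combination (-T (-1)) * h - q * TT' 1
    rw [e]; exact ((hp.T _).sub h1).T _
  · intro hq
    have e : p = T 1 * (T 1 * q + C (T 1) * r) := by
      linear_combination (T 1) * h - p * TT' 1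
    rw [e]; exact ((hq.T _).add h1).T _

lemma mDeg_eq {p : L2} {d : ℤ} (h : DegLe p d) (h' : mc d p ≠ 0) : mDeg p = (d : WithBot ℤ) := by
  apply le_antisymm
  · refine Finset.sup_le fun j _ => Finset.max_le fun k hk => ?_
    rw [WithBot.coe_le_coe]
    by_contra hc
    have := congrArg (fun q : L1 => q.coeff j) (h k (by omega))
    exact Finsupp.mem_support_iff.1 hk this
  · obtain ⟨j, hj⟩ : ∃ j, (mc d p).coeff j ≠ 0 := by
      by_contra hc
      push Not at hc
      exact h' (L1ext hc)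
    rw [mc_coeff] at hj
    refine le_trans (Finset.le_max (Finsupp.mem_support_iff.2 hj))
      (Finset.le_sup (f := fun j => (p.coeff j).coeff.support.max)
        (Finsupp.mem_support_iff.2 fun h0 => hj (by rw [h0]; rfl)))

end Pool.Agent.Lib.MP_3a4f2f_gt.H39
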