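import Pool.Agent.Lib.MP_3a4f2f_gt.H39.Abs

/-! The alternating rectangle. -/

set_option autoImplicit false

namespace Pool.Agent.Lib.MP_3a4f2f_gt.H39

open LaurentPolynomial Function

namespace Dg

variable {A Y : Type} {D : Dg A Y} {σ : State Y} [DecidableEq Y] [Fintype A] [DecidableEq A]
  [Fintype Y] {F : State Y → L2}

open Classical in
noncomputable def KK (D : Dg A Y) (S : Y) (σ : State Y) (l : List A) : Finset Y :=
  Finset.univ.filter fun y => y ≠ S ∧ σ y ≠ none ∧ ∃ e, D.arc y e ∈ l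

omit [Fintype A] in
lemma mem_KK {S y : Y} {l : List A} :
    y ∈ D.KK S σ l ↔ y ≠ S ∧ σ y ≠ none ∧ ∃ e, D.arc y e ∈ l := by simp [KK]

theorem Orc.rect (hO : D.Orc F) {P Q R S : Y} {eP eQ eR eS : Bool} (hP : σ P = some eP)
    (hQ : σ Q = some eQ) (hR : σ R = some eR) (hS : σ S = some eS) (n1 : P ≠ Q) (n2 : P ≠ R)
    (n3 : P ≠ S) (n4 : Q ≠ R) (n5 : Q ≠ S) (n6 : R ≠ S)
    (r1 : D.Reach σ (D.s (D.arc P eP)) (D.arc S (!eS)))
    (r2 : D.Reach σ (D.s (D.arc R eR)) (D.arc Q (!eQ)))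
    (r3 : D.Reach σ (D.s (D.arc P (!eP))) (D.arc Q eQ))
    (r4 : D.Reach σ (D.s (D.arc R (!eR))) (D.arc S eS)) : D.Zr F σ := by
  have p0 : σ P ≠ none := by simp [hP]
  have r0 : σ R ≠ none := by simp [hR]
  have s0 : σ S ≠ none := by simp [hS]
  -- a cycle through `S`
  have fin1 : ∀ σ' l st, D.Pre σ' l st → σ' P = some eP → σ' S = some eS →
      D.arc P (!eP) ∈ l → D.arc S (!eS) ∈ l →
      D.Rel (D.KK S σ' l) (D.arc P eP) (D.arc S eS) → D.Zr F σ' := by
    intro σ' l st h a1 a2 a3 a4 a5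
    exact hO.cyc h (K := D.KK S σ' l) (y := S) (e := eS) (fun y hy => (mem_KK.1 hy).2)
      (by simp [mem_KK]) (by simp [a2]) a4 (a5.symm.trans (r1.rel' _))
  have relP : ∀ (σ' : State Y) l, σ' P = some eP → D.arc P (!eP) ∈ l →
      D.Rel (D.KK S σ' l) (D.arc P eP) (D.arc Q eQ) := fun σ' l a1 a3 =>
    (rel_arc (mem_KK.2 ⟨n3, by simp [a1], _, a3⟩) eP).trans (r3.rel' _)
  have fin2 : ∀ σ' l st, D.Pre σ' (D.arc Q (!eQ) :: l) st → σ' P = some eP → σ' Q = some eQ →
      σ' S = some eS → D.arc P (!eP) ∈ l → D.arc S (!eS) ∈ l →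
      D.Rel (D.KK S σ' (D.arc Q (!eQ) :: l)) (D.arc Q (!eQ)) (D.arc S eS) → D.Zr F σ' := by
    intro σ' l st h a1 a2 a3 a4 a5 a6
    have a7 := List.mem_cons_of_mem (D.arc Q (!eQ)) a4
    exact fin1 σ' _ st h a1 a3 a7 (List.mem_cons_of_mem _ a5)
      (((relP σ' _ a1 a7).trans (rel_arc (mem_KK.2 ⟨n5, by simp [a2], _, List.mem_cons_self⟩)
        eQ)).trans a6)
  have fin3 : ∀ σ' l y0 e0, D.Pre σ' (D.arc R (!eR) :: l) (D.arc y0 e0) → σ' y0 ≠ none → y0 ≠ Q →
      (∀ y, σ y = none → σ' y = none) → σ' P = some eP → σ' Q = some eQ → σ' R = some eR →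
      σ' S = some eS → D.arc P (!eP) ∈ l → D.arc S (!eS) ∈ l → D.Zr F σ' := by
    intro σ' l y0 e0 h b1 b2 b3 a1 a2 a3 a4 a5 a6
    have a7 : σ' R ≠ none := by simp [a3]
    obtain ⟨l', c1, c2⟩ := h.walk' (by rw [D.nxt_kept a7, Bool.not_not]; exact r2.mono b3) a2 b1 b2
    refine fin2 σ' l' _ c1 a1 a2 a4 (c2.subset (List.mem_cons_of_mem _ a5))
      (c2.subset (List.mem_cons_of_mem _ a6)) ?_
    exact ((r2.rel' _).symm.trans (rel_arc (mem_KK.2 ⟨n6, a7, _,
      List.mem_cons_of_mem _ (c2.subset List.mem_cons_self)⟩) eR)).trans (r4.rel' _)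
  have under : ∀ (σ' : State Y) y e l, σ' y = some e → D.Gd σ' (D.arc y (!e)) l :=
    fun σ' y e l a1 y' e' a2 a3 => by
      obtain ⟨rfl, rfl⟩ := D.inj _ _ _ _ a2
      simp [a1] at a3
  suffices H : ∀ n σ' a l, l.length + n = Fintype.card A → D.Pre σ' (a :: l) (D.arc P (!eP)) →
      (∀ y, σ y = none → σ' y = none) → σ' P = some eP → σ' Q = some eQ → σ' R = some eR →
      σ' S = some eS → D.arc S (!eS) ∈ a :: l → (∀ e, D.arc R e ∉ a :: l) →
      D.Rel (D.KK S σ' (a :: l)) (D.nxt σ' a) (D.arc S eS) →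
      ¬ D.Reach σ (D.nxt σ' a) (D.arc S eS) → D.Zr F σ' by
    have key : ∃ l', D.Pre σ (D.arc S (!eS) :: l') (D.arc P (!eP)) ∧
        ∀ e, D.arc R e ∉ D.arc S (!eS) :: l' := by
      have gen : ∀ z u, D.Reach σ z u → u = D.arc S (!eS) → ∀ a l, D.Pre σ (a :: l) (D.arc P (!eP)) →
          z = D.nxt σ a → (∀ e, D.arc R e ∉ a :: l) →
          ∃ l', D.Pre σ (D.arc S (!eS) :: l') (D.arc P (!eP)) ∧
            ∀ e, D.arc R e ∉ D.arc S (!eS) :: l' := by
        intro z u hr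
        induction hr with
        | refl z =>
          rintro rfl a l h hz hl
          refine ⟨a :: l, .ext h (fun h1 => n3 (D.inj _ _ _ _ (hz.trans (h.close (hz ▸ h1)))).1.symm)
            (under σ S eS _ hS) (Or.inl ⟨hz, rfl⟩), fun e he => ?_⟩
          rcases List.mem_cons.1 he with he | he
          · exact n6 (D.inj _ _ _ _ he).1
          · exact hl e he
        | @step z u h1 h2 ih =>
          rintro hu a l h rfl hl
          refine ih hu _ _ (.ext h (fun h3 => not_free p0 _ (h.close h3 ▸ h1))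
            (fun y e h3 h4 => by simp [h1 y e h3] at h4) (Or.inl ⟨rfl, rfl⟩))
            (D.nxt_free h1).symm fun e he => ?_
          rcases List.mem_cons.1 he with he | he
          · exact not_free r0 e (he ▸ h1)
          · exact hl e he
      exact gen _ _ r1 rfl _ [] (pre_one hP) (by rw [D.nxt_kept p0, Bool.not_not])
        fun e he => n2 (D.inj _ _ _ _ (List.mem_singleton.1 he)).1.symm
    obtain ⟨l', k1, k2⟩ := key
    refine H (Fintype.card A - l'.length) σ _ l' ?_ k1 (fun _ h => h) hP hQ hR hS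
      List.mem_cons_self k2 ?_ fun h => ?_
    · have := k1.nodup.length_le_card
      simp only [List.length_cons] at this; omega
    · rw [D.nxt_kept s0, Bool.not_not]; exact rel_s _ _
    · rw [D.nxt_kept s0, Bool.not_not] at h
      rcases r4.back (not_free r0 _) h with h1 | h1
      · exact n6 (D.inj _ _ _ _ h1).1.symm
      · exact not_free s0 _ h1
  intro n
  induction n with
  | zero =>
    intro σ' a l h1 h2
    have := h2.nodup.length_le_card
    simp only [List.length_cons] at this; omega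
  | succ n ih =>
  intro σ' a l h1 h2 h3 a1 a2 a3 a4 a5 a6 a7 a8
  have p1 : σ' P ≠ none := by simp [a1]
  have q1 : σ' R ≠ none := by simp [a3]
  have mP : D.arc P (!eP) ∈ a :: l := h2.img.1 (by simp)
  by_cases c0 : D.nxt σ' a ∈ a :: l
  · exact fin3 σ' (a :: l) R (!eR) (.ext h2 (a6 _) (under σ' R eR _ a3)
      (Or.inr ⟨h2.close c0, rfl⟩)) q1 n4.symm h3 a1 a2 a3 a4 mP a5
  have cd : D.Cand σ' (a :: l) (D.arc P (!eP)) (D.nxt σ' a) (D.arc P (!eP)) := Or.inl ⟨rfl, rfl⟩
  by_cases c1 : D.nxt σ' a = D.arc P eP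
  · exact fin1 σ' _ _ h2 a1 a4 mP a5 (c1 ▸ a7)
  by_cases c2 : D.nxt σ' a = D.arc Q eQ
  · exact fin1 σ' _ _ h2 a1 a4 mP a5 ((relP σ' _ a1 mP).trans (c2 ▸ a7))
  have sub : ∀ (σ'' : State Y) b, (∀ y e, D.arc y e ∈ a :: l → σ'' y = σ' y) → ∀ l',
      a :: l <:+ l' → D.KK S σ' (a :: l) ⊆ D.KK S σ'' (b :: l') := fun σ'' b hs l' hl y hy => by
    obtain ⟨b1, b2, e, b3⟩ := mem_KK.1 hy
    exact mem_KK.2 ⟨b1, by rwa [hs y e b3], e, List.mem_cons_of_mem _ (hl.subset b3)⟩
  by_cases c3 : D.nxt σ' a = D.arc Q (!eQ)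
  · rw [c3] at c0 cd a7
    exact fin2 σ' _ _ (.ext h2 c0 (under σ' Q eQ _ a2) cd) a1 a2 a4 mP a5
      (a7.mono (sub σ' _ (fun _ _ _ => rfl) _ List.suffix_rfl))
  by_cases c4 : D.nxt σ' a = D.arc R (!eR)
  · rw [c4] at c0 cd
    exact fin3 σ' _ P _ (.ext h2 c0 (under σ' R eR _ a3) cd) p1 n1 h3 a1 a2 a3 a4 mP a5
  have upd : ∀ y, (∀ e, D.arc y e ∉ a :: l) → ∀ r y' e', D.arc y' e' ∈ a :: l →
      update σ' y r y' = σ' y' := fun y hy r y' e' he =>
    update_of_ne (show y' ≠ y from fun h' => hy e' (h' ▸ he)) _ _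
  by_cases c5 : D.nxt σ' a = D.arc R eR
  · rcases h2.branch c0 cd with b1 | ⟨y, e, b1, b2, b3, b4, b5⟩
    · cases b1 with
      | ext _ _ b2 _ => exact absurd (b2 R eR c5 a3) (a6 _)
    rw [c5] at b1 a7 b4 b5
    obtain ⟨rfl, rfl⟩ := D.inj _ _ _ _ b1
    refine hO.sk_nk a3 ?_ ?_
    · refine hO.cyc b4 (K := D.KK S σ' (a :: l)) (y := R) (e := !eR) (fun y hy => ?_)
        (fun hy => ?_) (by simp) (by simp) ?_
      · obtain ⟨-, d2, e, d3⟩ := mem_KK.1 hy
        exact ⟨by rwa [upd R a6 _ y e d3], e, List.mem_cons_of_mem _ d3⟩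
      · obtain ⟨-, -, e, d3⟩ := mem_KK.1 hy
        exact a6 e d3
      · rw [Bool.not_not]; exact (r4.rel' _).trans a7.symm
    · have d1 : ∀ y, σ y = none → update σ' R none y = none := fun y hy => by
        by_cases h' : y = R
        · subst h'; simp
        · rw [update_of_ne h', h3 y hy]
      have dP : update σ' R none P = some eP := by rw [update_of_ne n2, a1]
      have dQ : update σ' R none Q = some eQ := by rw [update_of_ne n4, a2]
      obtain ⟨l', d2, d3⟩ := b5.walk' (by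
        rw [D.nxt_free (D.free_arc (by simp) _)]; exact r2.mono d1) dQ (by simp [dP]) n1
      have d4 := (List.suffix_cons _ _).trans d3
      exact fin2 _ l' _ d2 dP dQ (by rw [update_of_ne n6.symm, a4]) (d4.subset mP) (d4.subset a5)
        ((r2.rel' _).symm.trans (a7.mono (sub _ _ (upd R a6 _) _ d4)))
  have c6 : D.nxt σ' a ≠ D.arc S eS := fun h => a8 (h ▸ .refl _)
  have len : (a :: l).length + n = Fintype.card A := by simp only [List.length_cons]; omega
  generalize D.nxt σ' a = b at *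
  have bS : ∀ e, b ≠ D.arc S e := fun e h => by
    by_cases he : e = eS
    · exact c6 (he ▸ h)
    · exact c0 (by rwa [h, show e = !eS by cases e <;> cases eS <;> simp at he ⊢])
  have bR : ∀ e, b ≠ D.arc R e := fun e h => by
    by_cases he : e = eR
    · exact c5 (he ▸ h)
    · exact c4 (by rw [h, show e = !eR by cases e <;> cases eR <;> simp at he ⊢])
  have go : ∀ σ'' : State Y, D.Pre σ'' (b :: a :: l) (D.arc P (!eP)) →
      (∀ y e, D.arc y e ∈ a :: l → σ'' y = σ' y) → (∀ y, σ y = none → σ'' y = none) →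
      σ'' Q = some eQ → σ'' R = some eR → D.Zr F σ'' := by
    intro σ'' b1 b2 b3 b4 b5
    have b6 : σ'' R ≠ none := by simp [b5]
    refine ih σ'' b (a :: l) len b1 b3 (by rw [b2 P _ mP, a1]) b4 b5 (by rw [b2 S _ a5, a4])
      (List.mem_cons_of_mem _ a5) (fun e he => ?_) ?_ fun h => ?_
    · rcases List.mem_cons.1 he with he | he
      · exact bR e he.symm
      · exact a6 e he
    · refine Rel.trans ?_ (a7.mono (sub σ'' b b2 _ List.suffix_rfl))
      rcases D.free_or σ'' b with d1 | ⟨y, e, rfl, d1⟩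
      · rw [D.nxt_free d1]; exact rel_s _ _
      · rw [D.nxt_kept d1]
        exact (rel_s _ _).trans (rel_arc (mem_KK.2 ⟨fun h : y = S => bS e (by rw [h]), d1, e,
          List.mem_cons_self⟩) e).symm
    · rcases r4.back (not_free r0 _) h with d1 | d1
      · have d2 := congrArg (D.sw σ'') d1
        rw [D.sw_sw, D.sw_kept b6] at d2
        exact bR _ d2
      · have d2 := D.sw_free (d1.mono b3)
        rw [D.sw_sw] at d2
        rw [nxt, ← d2] at h
        rw [← d2] at d1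
        exact a8 (.step d1 h)
  rcases h2.branch c0 cd with b1 | ⟨y, e, b1, b2, b3, b4, b5⟩
  · exact go σ' b1 (fun _ _ _ => rfl) h3 a2 a3
  have yQ : Q ≠ y := by
    rintro rfl
    exact c2 (by rw [b1, Option.some.inj (b2.symm.trans a2)])
  have yR : R ≠ y := by rintro rfl; exact bR e b1
  have le : ∀ r y', σ y' = none → update σ' y r y' = none := fun r y' hy => by
    rw [update_of_ne (show y' ≠ y from fun h => by simp [← h, h3 y' hy] at b2), h3 y' hy]
  exact hO.sk_nk b2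
    (go _ b4 (upd y b3 _) (le _) (by rw [update_of_ne yQ, a2]) (by rw [update_of_ne yR, a3]))
    (go _ b5 (upd y b3 _) (le _) (by rw [update_of_ne yQ, a2]) (by rw [update_of_ne yR, a3]))

end Dg

end Pool.Agent.Lib.MP_3a4f2f_gt.H39
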