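import Pool.Agent.Lib.MP_3a4f2f_gt.H39.Dg

/-! Moving base points: every ascending state is an unlink. -/

set_option autoImplicit false

namespace Pool.Agent.Lib.MP_3a4f2f_gt.H39

open LaurentPolynomial Function

namespace Dg

variable {A Y : Type} {D : Dg A Y} {σ : State Y} {t : A → ℕ}

lemma nxt_congr {σ' : State Y} {a : A} (h : ∀ y e, a = D.arc y e → (σ y = none ↔ σ' y = none)) :
    D.nxt σ a = D.nxt σ' a := by
  rcases D.free_or σ a with h1 | ⟨y, e, rfl, h1⟩
  · rw [D.nxt_free h1, D.nxt_free (fun y e he => (h y e he).1 (h1 y e he))]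
  · rw [D.nxt_kept h1, D.nxt_kept (fun h2 => h1 ((h y e rfl).2 h2))]

lemma arc_ne (D : Dg A Y) (y : Y) (e : Bool) : D.arc y (!e) ≠ D.arc y e := fun h => by
  simpa using (D.inj _ _ _ _ h).2

lemma Trav.brk (h : D.Trav σ t) {c : A} (hc : t (D.nxt σ c) ≠ t c + 1) :
    t (D.nxt σ c) ≤ t c ∧ ∀ e, t (D.nxt σ c) ≤ t e → t e < t c → t (D.nxt σ e) = t e + 1 :=
  (h.2 c).resolve_left hc

lemma Trav.vals (h : D.Trav σ t) {c : A} (hc : t (D.nxt σ c) ≠ t c + 1) (n : ℕ)
    (h1 : t (D.nxt σ c) ≤ n) (h2 : n ≤ t c) : ∃ e, t e = n := by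
  induction n, h1 using Nat.le_induction with
  | base => exact ⟨_, rfl⟩
  | succ n h1 ih =>
    obtain ⟨e, he⟩ := ih (by omega)
    exact ⟨D.nxt σ e, by rw [(h.brk hc).2 e (by omega) (by omega), he]⟩

/-- Arcs outside the interval of a component stay outside. -/
lemma Trav.out (h : D.Trav σ t) {c : A} (hc : t (D.nxt σ c) ≠ t c + 1) {e : A}
    (h1 : t (D.nxt σ c) ≤ t (D.nxt σ e)) (h2 : t (D.nxt σ e) ≤ t c) :
    t (D.nxt σ c) ≤ t e ∧ t e ≤ t c := by
  have hb := h.brk hc
  rcases h1.eq_or_lt with h3 | h3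
  · rw [← D.nxt_inj σ (h.1 h3)]; exact ⟨hb.1, le_rfl⟩
  · obtain ⟨e', he⟩ := h.vals hc (t (D.nxt σ e) - 1) (by omega) (by omega)
    have h4 := hb.2 e' (by omega) (by omega)
    rw [D.nxt_inj σ (h.1 (show t (D.nxt σ e) = t (D.nxt σ e') by omega))]
    omega

variable [DecidableEq Y]

lemma nxt_upd_ne {y : Y} {a : A} (r : Option Bool) (h : ∀ e, a ≠ D.arc y e) :
    D.nxt (update σ y r) a = D.nxt σ a :=
  nxt_congr fun y' e he => by rw [update_of_ne (show y' ≠ y from fun h' => h e (h' ▸ he))]

lemma nxt_upd_some {y : Y} (b : Bool) (h : σ y ≠ none) : D.nxt (update σ y (some b)) = D.nxt σ :=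
  funext fun _ => nxt_congr fun y' _ _ => by
    by_cases h' : y' = y
    · subst h'; simp [h]
    · rw [update_of_ne h']

/-- Smoothing a crossing at the end of a component splits the component. -/
lemma Trav.split [Fintype A] (h : D.Trav σ t) {y : Y} {e : Bool} (hy : σ y ≠ none)
    (hc : t (D.nxt σ (D.arc y e)) ≠ t (D.arc y e) + 1)
    (h1 : t (D.nxt σ (D.arc y e)) ≤ t (D.arc y (!e))) (h2 : t (D.arc y (!e)) < t (D.arc y e)) :
    D.Trav (update σ y none) t ∧ D.br (update σ y none) t = D.br σ t + 1 := by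
  classical
  have hb := h.brk hc
  have e1 : D.nxt (update σ y none) (D.arc y e) = D.nxt σ (D.arc y (!e)) := by
    rw [D.nxt_free (D.free_arc (by simp) e), D.nxt_kept hy, Bool.not_not]
  have e2 : D.nxt (update σ y none) (D.arc y (!e)) = D.nxt σ (D.arc y e) := by
    rw [D.nxt_free (D.free_arc (by simp) _), D.nxt_kept hy]
  have e3 : ∀ a, a ≠ D.arc y e → a ≠ D.arc y (!e) → D.nxt (update σ y none) a = D.nxt σ a :=
    fun a a1 a2 => nxt_upd_ne _ fun e' => by
      cases e <;> cases e' <;> assumption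
  have e4 := hb.2 _ h1 h2
  generalize D.arc y e = c at *
  generalize D.arc y (!e) = b at *
  have ne : ∀ a a', t a ≠ t a' → a ≠ a' := fun a a' h3 h4 => h3 (h4 ▸ rfl)
  constructor
  · refine ⟨h.1, fun a => ?_⟩
    by_cases a1 : a = c
    · subst a1
      refine Or.inr ⟨by rw [e1]; omega, fun a' h3 h4 => ?_⟩
      rw [e1] at h3
      rw [e3 a' (ne _ _ (by omega)) (ne _ _ (by omega))]
      exact hb.2 a' (by omega) h4
    by_cases a2 : a = b
    · subst a2
      refine Or.inr ⟨by rw [e2]; omega, fun a' h3 h4 => ?_⟩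
      rw [e2] at h3
      rw [e3 a' (ne _ _ (by omega)) (ne _ _ (by omega))]
      exact hb.2 a' h3 (by omega)
    rw [e3 a a1 a2]
    refine (h.2 a).imp id fun h3 => ⟨h3.1, fun a' h4 h5 => ?_⟩
    have h6 := h3.2 a' h4 h5
    have h7 : a' ≠ c := fun h7 => hc (h7 ▸ h6)
    have h8 : a' ≠ b := by
      rintro rfl
      rcases lt_trichotomy (t a) (t c) with h9 | h9 | h9
      · have := hb.2 a (by omega) h9; omega
      · exact a1 (h.1 h9)
      · exact hc (h3.2 c (by omega) h9)
    rw [e3 a' h7 h8, h6]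
  · rw [br, br, ← Finset.card_insert_of_notMem (a := b) (by simp [e4])]
    congr 1
    ext a
    simp only [Finset.mem_filter, Finset.mem_univ, true_and, Finset.mem_insert]
    by_cases a1 : a = c
    · subst a1; rw [e1]; exact ⟨fun _ => Or.inr hc, fun _ => by omega⟩
    by_cases a2 : a = b
    · subst a2; rw [e2]; exact ⟨fun _ => Or.inl rfl, fun _ => by omega⟩
    rw [e3 a a1 a2]; simp [a2]

open Classical in
/-- The last arc of a component is moved to the front. -/
noncomputable def rot (t : A → ℕ) (lo : ℕ) (c : A) (e : A) : ℕ :=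
  if e = c then lo else if lo ≤ t e ∧ t e < t c then t e + 1 else t e

omit [DecidableEq Y] in
lemma rot_cases (ht : Injective t) (lo : ℕ) (c e : A) :
    (e = c ∧ rot t lo c e = lo) ∨ (lo ≤ t e ∧ t e < t c ∧ rot t lo c e = t e + 1) ∨
      ((t e < lo ∨ t c < t e) ∧ e ≠ c ∧ rot t lo c e = t e) := by
  unfold rot
  split_ifs with h1 h2
  · exact Or.inl ⟨h1, rfl⟩
  · exact Or.inr (Or.inl ⟨h2.1, h2.2, rfl⟩)
  · have : t e ≠ t c := fun h => h1 (ht h)
    exact Or.inr (Or.inr ⟨by omega, h1, rfl⟩)

omit [DecidableEq Y] in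
lemma Trav.rot [Fintype A] (h : D.Trav σ t) {c : A} (hc : t (D.nxt σ c) < t c) :
    D.Trav σ (rot t (t (D.nxt σ c)) c) ∧ D.br σ (rot t (t (D.nxt σ c)) c) = D.br σ t := by
  classical
  have hc' : t (D.nxt σ c) ≠ t c + 1 := by omega
  have hb := h.brk hc'
  have ho := @Trav.out _ _ D σ t h c hc'
  obtain ⟨c', h1⟩ := h.vals hc' (t c - 1) (by omega) (by omega)
  have h2 : D.nxt σ c' = c := h.1 (by rw [hb.2 c' (by omega) (by omega)]; omega)
  have rc := rot_cases h.1 (t (D.nxt σ c)) c
  generalize Dg.rot t (t (D.nxt σ c)) c = t' at *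
  have key : ∀ e, e ≠ c' → (e = c ∨ (t (D.nxt σ c) ≤ t e ∧ t e < t c)) →
      t' (D.nxt σ e) = t' e + 1 := by
    rintro e he (rfl | he')
    · rcases rc (D.nxt σ e) with a | a | a <;> rcases rc e with b | b | b
      all_goals first | omega | exact absurd rfl b.2.1 | (have := congrArg t a.1; omega)
    · have a1 := hb.2 e he'.1 he'.2
      have a2 : t e ≠ t c' := fun a2 => he (h.1 a2)
      rcases rc (D.nxt σ e) with a | a | a <;> rcases rc e with b | b | b
      all_goals first | omega | (have := congrArg t a.1; omega) | (have := congrArg t b.1; omega)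
  have out : ∀ e, (t e < t (D.nxt σ c) ∨ t c < t e) →
      t' e = t e ∧ t' (D.nxt σ e) = t (D.nxt σ e) ∧
        (t (D.nxt σ e) < t (D.nxt σ c) ∨ t c < t (D.nxt σ e)) := by
    intro e he
    have a1 : t (D.nxt σ e) < t (D.nxt σ c) ∨ t c < t (D.nxt σ e) := by
      by_contra a1
      have := @ho e (by omega) (by omega)
      omega
    rcases rc (D.nxt σ e) with a | a | a <;> rcases rc e with b | b | b
    all_goals first | omega | (have := congrArg t a.1; omega) | (have := congrArg t b.1; omega)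
  have tc : t' c = t (D.nxt σ c) := by
    rcases rc c with b | b | b
    · exact b.2
    · omega
    · exact absurd rfl b.2.1
  have tc' : t' c' = t c := by
    rcases rc c' with b | b | b
    · have := congrArg t b.1; omega
    · omega
    · omega
  constructor
  · refine ⟨fun e e' he => ?_, fun e => ?_⟩
    · rcases rc e with a | a | a <;> rcases rc e' with b | b | b
      all_goals first | exact a.1.trans b.1.symm | omega | exact h.1 (by omega)
    by_cases he : e = c'
    · subst he
      rw [h2, tc, tc']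
      refine Or.inr ⟨hc.le, fun e' a1 a2 => key e' (fun a3 => by subst a3; omega) ?_⟩
      rcases rc e' with b | b | b
      · exact Or.inl b.1
      · exact Or.inr ⟨b.1, b.2.1⟩
      · omega
    rcases rc e with b | b | b
    · exact Or.inl (key e he (Or.inl b.1))
    · exact Or.inl (key e he (Or.inr ⟨b.1, b.2.1⟩))
    obtain ⟨o1, o2, o3⟩ := out e b.1
    rw [o1, o2]
    refine (h.2 e).imp id fun a => ⟨a.1, fun e' a1 a2 => ?_⟩
    have a3 : t e' < t (D.nxt σ c) ∨ t c < t e' := by
      by_contra a3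
      have a4 : t (D.nxt σ c) ≤ t' e' ∧ t' e' ≤ t c := by
        rcases rc e' with b' | b' | b' <;> omega
      exact hc' (a.2 c (by omega) (by omega))
    obtain ⟨p1, p2, -⟩ := out e' a3
    rw [p1] at a1 a2
    rw [p1, p2, a.2 e' a1 a2]
  · have a0 := hb.2 c' (by omega) (by omega)
    have : (Finset.univ.filter fun e => t' (D.nxt σ e) ≠ t' e + 1) =
        insert c' ((Finset.univ.filter fun e => t (D.nxt σ e) ≠ t e + 1).erase c) := by
      ext e
      simp only [Finset.mem_filter, Finset.mem_univ, true_and, Finset.mem_insert, Finset.mem_erase]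
      by_cases he : e = c'
      · subst he; rw [h2, tc, tc']; exact ⟨fun _ => Or.inl rfl, fun _ => by omega⟩
      rcases rc e with b | b | b
      · rw [key e he (Or.inl b.1)]
        exact ⟨fun a => absurd rfl a, fun a => a.elim (fun a => absurd a he) fun a => absurd b.1 a.1⟩
      · simp [key e he (Or.inr ⟨b.1, b.2.1⟩), he, hb.2 e b.1 b.2.1]
      · obtain ⟨o1, o2, -⟩ := out e b.1
        simp [o1, o2, he, b.2.1]
    rw [br, br, this, Finset.card_insert_of_notMem (by simp [a0]),
      Finset.card_erase_add_one (by simpa using hc')]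

variable [Fintype Y]

/-- Number of crossings of a state. -/
def nk (σ : State Y) : ℕ := (Finset.univ.filter fun y => σ y ≠ none).card

lemma nk_some {y : Y} (h : σ y ≠ none) (b : Bool) : nk (update σ y (some b)) = nk σ := by
  unfold nk
  congr 1
  ext y'
  by_cases h' : y' = y
  · subst h'; simp [h]
  · simp [update_of_ne h']

lemma nk_none {y : Y} (h : σ y ≠ none) : nk (update σ y none) + 1 = nk σ := by
  unfold nk
  rw [← Finset.card_erase_add_one (s := Finset.univ.filter fun y => σ y ≠ none) (a := y)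
    (by simpa using h)]
  congr 2
  ext y'
  by_cases h' : y' = y
  · subst h'; simp
  · simp [h']

lemma sk_val {p q r v : L2} (h : T (-1) * p - T 1 * q = C (T 1) * r) (hr : r = dl * v) :
    p = v ↔ q = v := by
  rw [hr, ← mul_assoc, m_dl] at h
  constructor
  · rintro rfl
    linear_combination (-T (-1)) * h - (q - p) * TT' 1
  · rintro rfl
    linear_combination (T 1) * h - (p - q) * TT' 1

variable [Fintype A] {F : State Y → L2}

omit [Fintype Y] in
lemma Orc.sk' (hO : D.Orc F) {y : Y} {b : Bool} (h : σ y = some b) :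
    (b = true ∧ T (-1) * F σ - T 1 * F (update σ y (some (!b))) = C (T 1) * F (update σ y none)) ∨
    (b = false ∧ T (-1) * F (update σ y (some (!b))) - T 1 * F σ =
      C (T 1) * F (update σ y none)) := by
  have h1 := hO.sk σ y
  cases b
  · rw [← h, update_eq_self] at h1; exact Or.inr ⟨rfl, h1⟩
  · rw [← h, update_eq_self] at h1; exact Or.inl ⟨rfl, h1⟩

omit [Fintype Y] in
lemma Orc.sk_val (hO : D.Orc F) {y : Y} {b : Bool} (h : σ y = some b) {κ v : L2}
    (h1 : κ * F (update σ y (some (!b))) = v) (h2 : κ * F (update σ y none) = dl * v) :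
    κ * F σ = v := by
  rcases hO.sk' h with ⟨-, h3⟩ | ⟨-, h3⟩
  · exact (Dg.sk_val (by linear_combination κ * h3) h2).2 h1
  · exact (Dg.sk_val (by linear_combination κ * h3) h2).1 h1

theorem Orc.unl (hO : D.Orc F) (σ : State Y) (t : A → ℕ) (h1 : D.Trav σ t) (h2 : D.Asc σ t) :
    dl * F σ = dl ^ D.br σ t := by
  classical
  induction hn : nk σ using Nat.strong_induction_on generalizing σ t with
  | _ n ih1 =>
  obtain ⟨hd, hd1, hd2⟩ := hO.un fun y => (σ y).isSome
  obtain ⟨B, hB⟩ : ∃ B, ∀ e, t e ≤ B := ⟨Finset.univ.sup t, fun e => Finset.le_sup (by simp)⟩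
  suffices H : ∀ μ σ' t', (∑ e, (B - t' e) * (B + 1) ^ hd e = μ) → (∀ e, t' e ≤ B) →
      (∀ y, (σ' y).isSome = (σ y).isSome) → nk σ' = n → D.Trav σ' t' → D.Asc σ' t' →
      dl * F σ' = dl ^ D.br σ' t' from H _ σ t rfl hB (fun _ => rfl) hn h1 h2
  clear h1 h2 hB t
  intro μ
  induction μ using Nat.strong_induction_on with
  | _ μ ih2 =>
  intro σ' t hμ hB hκ hn' h1 h2
  by_cases hN : D.Nrm hd σ' t
  · exact hd2 σ' t hκ h1 h2 hN
  simp only [Nrm, not_forall] at hN
  obtain ⟨c, hc, z, z1, z2, z3⟩ := hN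
  have z4 : hd c < hd z := lt_of_le_of_ne (by omega) fun h => by
    have := congrArg t (hd1 h); omega
  obtain ⟨r1, r2⟩ := h1.rot (c := c) (by omega)
  have rc := rot_cases h1.1 (t (D.nxt σ' c)) c
  generalize Dg.rot t (t (D.nxt σ' c)) c = t' at *
  have hB' : ∀ e, t' e ≤ B := fun e => by
    have := hB e; have := hB c
    rcases rc e with b | b | b <;> omega
  have hlt : ∑ e, (B - t' e) * (B + 1) ^ hd e < μ := by
    have a1 : ∑ e, ((B - t' e) * (B + 1) ^ hd e + if e = z then (B + 1) ^ hd z else 0) ≤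
        ∑ e, ((B - t e) * (B + 1) ^ hd e + if e = c then B * (B + 1) ^ hd c else 0) := by
      refine Finset.sum_le_sum fun e _ => ?_
      have := hB e; have := hB c
      rcases rc e with b | b | b
      · obtain ⟨rfl, -⟩ := b
        rw [if_neg (fun h => by subst h; omega), if_pos rfl, ← add_mul]
        exact Nat.mul_le_mul_right _ (by omega)
      · rw [if_neg (show e ≠ c from fun h => by subst h; omega),
          show B - t e = (B - t' e) + 1 by omega, add_mul, one_mul, add_zero]
        split_ifs with h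
        · rw [h]
        · omega
      · rw [if_neg (fun h => by subst h; omega), if_neg b.2.1, b.2.2]
    simp only [Finset.sum_add_distrib, Finset.sum_ite_eq', Finset.mem_univ, if_true, hμ] at a1
    have a2 : (B + 1) ^ (hd c + 1) ≤ (B + 1) ^ hd z := Nat.pow_le_pow_right (by omega) z4
    have a3 : 0 < (B + 1) ^ hd c := by positivity
    rw [pow_succ] at a2
    nlinarith
  have mono : ∀ e e', e ≠ c → e' ≠ c → t e < t e' → t' e < t' e' := fun e e' a1 a2 a3 => by
    rcases rc e with a | a | a <;> rcases rc e' with b | b | b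
    all_goals first | exact absurd a.1 a1 | exact absurd b.1 a2 | omega
  have tc : t' c = t (D.nxt σ' c) := by
    rcases rc c with b | b | b
    · exact b.2
    · omega
    · exact absurd rfl b.2.1
  by_cases hy : ∃ y e, c = D.arc y e ∧ σ' y = some e ∧ t (D.nxt σ' c) ≤ t (D.arc y (!e))
  · obtain ⟨y, e, rfl, y1, y2⟩ := hy
    have y0 : σ' y ≠ none := by simp [y1]
    have y3 := h2 y e y1
    obtain ⟨s1, s2⟩ := h1.split y0 hc y2 y3
    have e0 := nxt_upd_some (D := D) (!e) y0
    refine hO.sk_val y1 ?_ ?_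
    · rw [← r2, br, ← e0]
      refine ih2 _ hlt _ t' rfl hB' (fun y' => ?_) (by rw [nk_some y0, hn']) ?_ fun y' b hb => ?_
      · by_cases h' : y' = y
        · subst h'; rw [← hκ, y1]; simp
        · rw [update_of_ne h', hκ]
      · unfold Trav; rw [e0]; exact r1
      · by_cases h' : y' = y
        · subst h'
          obtain rfl : (!e) = b := by simpa using hb
          rw [Bool.not_not, tc]
          rcases rc (D.arc y' (!e)) with b | b | b
          · exact absurd b.1 (D.arc_ne _ _)
          · omega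
          · omega
        · rw [update_of_ne h'] at hb
          exact mono _ _ (fun h => h' (D.inj _ _ _ _ h).1) (fun h => h' (D.inj _ _ _ _ h).1)
            (h2 y' b hb)
    · rw [← pow_succ', ← s2]
      refine ih1 _ (by have := nk_none y0; omega) _ t s1 (fun y' b hb => ?_) rfl
      by_cases h' : y' = y
      · subst h'; simp at hb
      · rw [update_of_ne h'] at hb; exact h2 y' b hb
  · rw [← r2]
    refine ih2 _ hlt σ' t' rfl hB' hκ hn' r1 fun y b hb => ?_
    have a1 := h2 y b hb
    by_cases b1 : D.arc y b = c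
    · have a2 : ¬ t (D.nxt σ' c) ≤ t (D.arc y (!b)) := fun h => hy ⟨y, b, b1.symm, hb, h⟩
      rw [b1, tc]
      rcases rc (D.arc y (!b)) with b | b | b
      · exact absurd (b.1.trans b1.symm) (D.arc_ne _ _)
      · omega
      · omega
    by_cases b2 : D.arc y (!b) = c
    · rw [b2] at a1 ⊢
      rcases rc (D.arc y b) with b | b | b
      · exact absurd b.1 b1
      · omega
      · omega
    exact mono _ _ b2 b1 a1

end Dg

end Pool.Agent.Lib.MP_3a4f2f_gt.H39
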