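import Pool.Agent.Lib.MP_3a4f2f_gt.H39.Main

/-! The Whitehead double is a consistently oriented closed diagram. -/

set_option autoImplicit false

namespace Pool.Agent.Lib.MP_3a4f2f_gt.H39

open WS

theorem valid_white (u v : Word) (b : Bool) (i : ℕ)
    (hw : UValid 0 (u ++ (.cr b, i) :: v) 0) (β β' : Bool) (n : ℕ) :
    Valid [] (dbl u ++ twist β n i ++ clasp β' i ++ dbl ((.cr b, i) :: v)) [] := by
  obtain ⟨c, t, h1, h2, h3⟩ := uv_cr hw
  have hi := (alt_len i).symm
  have hu : Val true [] _ _ := val_dbl h1
  have hv : Val true _ _ [] := val_dbl h2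
  rw [h3] at hu hv
  have eR : dbl ((.cr b, i) :: v) = dblL (.cr b, i) ++ dbl v := rfl
  have hR : Val true (alt i ++ true :: false :: true :: false :: alt t)
      (dbl ((.cr b, i) :: v)) [] := by
    rw [eR, ← blk_dbl (.cr b, i) _ fun _ _ e => by cases e; rfl]
    exact val_cat (vX _ _ hi _ _ _) hv
  have tw : ∀ m, twist β (m + 1) i = twist β m i ++ [(.cr β, 2 * i), (.cr β, 2 * i)] := fun m => by
    rw [twist, twist, mul_add, List.replicate_add]; rfl
  have hX : ∀ (a x : Bool) (B : List Bool), Val true (alt i ++ a :: (!a) :: B) [(.cr x, 2 * i)]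
      (alt i ++ (!a) :: a :: B) := fun a x B => by
    simpa [cA] using val_cA (alt i) B (!a) (some (!x)) hi
  have hT : ∀ m, Val true [] (dbl u ++ twist β m i)
      (alt i ++ true :: false :: true :: false :: alt t) := fun m => by
    induction m with
    | zero => simpa [twist] using hu
    | succ m ih =>
      rw [tw, ← List.append_assoc]
      exact val_cat ih (val_cat (hX true β _) (hX false β _))
  have hK : Val true (alt i ++ true :: false :: true :: false :: alt t) [(.cup true, 2 * i + 1)]
      (alt i ++ true :: true :: false :: false :: true :: false :: alt t) := by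
    simp only [hi, Val, nx_shift, fit_shift]
    simp [nx, ins, cp, Fit, Letter.inp]
  have hL : Val true (alt i ++ true :: true :: false :: false :: true :: false :: alt t)
      [(.cr β', 2 * i + 2), (.cap, 2 * i + 1)]
      (alt i ++ true :: false :: true :: false :: alt t) := by
    simp only [hi, Val, nx_shift, fit_shift]
    simp [nx, del, swp, Fit, Letter.inp]
  exact val_true.1 (val_cat (val_cat (hT n)
    (val_cat hK (val_cat (c1 _ _ (some β') hi) hL))) hR)

end Pool.Agent.Lib.MP_3a4f2f_gt.H39
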