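import Pool.Agent.Lib.MP_3a4f2f_gt.H39.Model

/-! Local moves and local skein relations for doubled words. -/

set_option autoImplicit false

namespace Pool.Agent.Lib.MP_3a4f2f_gt.H39.WS

open LaurentPolynomial Function

variable {P : Word → L2}

/-- `x` may be replaced by `y` in every valid closed word. -/
def Mv (P : Word → L2) (x y : Word) : Prop :=
  ∀ u v, V true (u ++ (x ++ v)) → V true (u ++ (y ++ v)) ∧ P (u ++ (x ++ v)) = P (u ++ (y ++ v))

lemma Mv.trans {x y z : Word} (h : Mv P x y) (h' : Mv P y z) : Mv P x z := fun u v hv =>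
  ⟨(h' u v (h u v hv).1).1, (h u v hv).2.trans (h' u v (h u v hv).1).2⟩

lemma Mv.ctx {x y : Word} (h : Mv P x y) (a b : Word) :
    Mv P (a ++ (x ++ b)) (a ++ (y ++ b)) := fun u v => by
  simpa only [List.append_assoc] using h (u ++ a) (b ++ v)

lemma mv_eq (hP : IsHomfly P) {x y : Word} (hm : Move x y) (u v : Word)
    (hv : V true (u ++ (x ++ v))) : P (u ++ (x ++ v)) = P (u ++ (y ++ v)) := by
  have := hP.move u v x y hm (by rw [List.append_assoc]; exact val_true.1 hv)
  rwa [List.append_assoc, List.append_assoc] at this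

lemma fwd (hP : IsHomfly P) {x y : Word} (hm : RMove x y) : Mv P x y := fun u v hv =>
  ⟨hv.move hm, mv_eq hP (.reg hm) u v hv⟩

lemma slB (hP : IsHomfly P) (d b : Bool) (i : ℕ) :
    Mv P [(.cup d, i), (.cr (!b), i + 1)] [(.cup d, i + 1), (.cr b, i)] := fun u v hv =>
  have h := hv.swap (slideCup_back hv.tail)
  ⟨h, (mv_eq hP (.reg (.slideCup d b i)) u v h).symm⟩

lemma scB (hP : IsHomfly P) (b : Bool) (i : ℕ) :
    Mv P [(.cr (!b), i + 1), (.cap, i)] [(.cr b, i), (.cap, i + 1)] := fun u v hv =>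
  have h := hv.swap (slideCap_back (allT_ctx u) hv.tail)
  ⟨h, (mv_eq hP (.reg (.slideCap b i)) u v h).symm⟩

lemma r1U (hP : IsHomfly P) (d b : Bool) (i : ℕ) :
    Mv P [(.cup d, i), (.cr b, i)] [(.cup (!d), i)] := fun u v hv =>
  ⟨V.curlCup hv, mv_eq hP (.r1Cup d b i) u v hv⟩

lemma r1A (hP : IsHomfly P) (b : Bool) (i : ℕ) :
    Mv P [(.cr b, i), (.cap, i)] [(.cap, i)] := fun u v hv =>
  ⟨V.curlCap hv, mv_eq hP (.r1Cap b i) u v hv⟩

lemma kink (hP : IsHomfly P) (d b : Bool) (m : ℕ) :
    Mv P [(.cup d, m), (.cr b, m + 1), (.cap, m)] [] := by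
  have h1 := (slB hP d (!b) m).ctx [] [(.cap, m)]
  have h2 := (r1A hP (!b) m).ctx [(.cup d, m + 1)] []
  rw [Bool.not_not] at h1
  exact h1.trans (h2.trans (fwd hP (.zig d m)))

lemma finger (hP : IsHomfly P) (d b : Bool) (q : ℕ) :
    Mv P [(.cup d, q), (.cr b, q + 1), (.cr b, q)] [(.cup d, q + 1)] := by
  have h1 := (slB hP d (!b) q).ctx [] [(.cr b, q)]
  have h2 := (fwd hP (.r2 (!b) q)).ctx [(.cup d, q + 1)] []
  rw [Bool.not_not] at h1 h2
  exact h1.trans h2

lemma unclasp (hP : IsHomfly P) (d b : Bool) (q : ℕ) :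
    Mv P [(.cup d, q + 1), (.cr b, q), (.cr (!b), q + 2), (.cap, q + 1)]
      [(.cap, q), (.cup d, q)] := by
  have h1 := (fwd hP (.slideCup d b q)).ctx [] [(.cr (!b), q + 2), (.cap, q + 1)]
  have h2 := (scB hP b (q + 1)).ctx [(.cup d, q), (.cr (!b), q + 1)] []
  have h3 := (fwd hP (.r2 (!b) (q + 1))).ctx [(.cup d, q)] [(.cap, q + 2)]
  rw [Bool.not_not] at h3
  exact h1.trans (h2.trans (h3.trans (fwd hP (.comm (.cup d) .cap q 0))))

lemma untwist (hP : IsHomfly P) (b : Bool) (q n : ℕ) :
    Mv P (List.replicate n (.cr b, q) ++ [(.cap, q)]) [(.cap, q)] := by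
  induction n with
  | zero => exact fun u v hv => ⟨hv, rfl⟩
  | succ n ih => simpa [List.replicate_succ] using (ih.ctx [(.cr b, q)] []).trans (r1A hP b q)

lemma val_rn {E E' : List Bool} {w : Word} (h : Val true E w E') : rn true E w = E' := by
  induction w generalizing E with
  | nil => exact h
  | cons g w ih => exact ih h.2

lemma val_cat {E E' E'' : List Bool} {u v : Word} (h : Val true E u E') (h' : Val true E' v E'') :
    Val true E (u ++ v) E'' := val_append.2 (by rw [val_rn h]; exact ⟨h, h'⟩)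

/-- Skein relation at a crossing of parallel strands. -/
lemma skP (hP : IsHomfly P) {u v : Word} {Q B : List Bool} {a : Bool} {p : ℕ} (hp : p = Q.length)
    (hu : Val true [] u (Q ++ a :: a :: B)) (hv : Val true (Q ++ a :: a :: B) v []) :
    T (-1) * P (u ++ (cP (some true) p ++ v)) - T 1 * P (u ++ (cP (some false) p ++ v)) =
      C (T 1) * P (u ++ (cP none p ++ v)) := by
  subst hp
  refine hP.skein u v _ (val_true.1 (val_cat hu ?_)) ?_
  · simp only [Val, nx_shift0, fit_shift0]
    simpa [nx, swp, Fit, Letter.inp] using hv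
  · rw [← rn_true, val_rn hu]
    simp

/-- Skein relation at a crossing of antiparallel strands. -/
lemma skA (hP : IsHomfly P) {u v : Word} {Q B : List Bool} {d : Bool} {p : ℕ} (hp : p = Q.length)
    (hu : Val true [] u (Q ++ (!d) :: d :: B)) (hv : Val true (Q ++ d :: (!d) :: B) v []) :
    T (-1) * P (u ++ (cA d (some true) p ++ v)) - T 1 * P (u ++ (cA d (some false) p ++ v)) =
      C (T 1) * P (u ++ (cA d none p ++ v)) := by
  subst hp
  have h0 : ∀ b, V true (u ++ ([(.cup d, Q.length + 1), (.cr b, Q.length), (.cap, Q.length + 2)]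
      ++ v)) := fun b => val_cat hu (by
    simp only [List.cons_append, List.nil_append, Val, nx_shift, nx_shift0, fit_shift, fit_shift0]
    cases d <;> simpa [nx, ins, del, swp, cp, Fit, Letter.inp] using hv)
  have h1 := fun b => ((((fwd hP (.comm (.cr b) .cap Q.length 0)).ctx
    [(.cup d, Q.length + 1)] []).trans
      ((fwd hP (.zag d (Q.length + 1))).ctx [] [(.cr b, Q.length)])) u v (h0 b)).2
  have h2 := fun b => (((fwd hP (.slideCup d b Q.length)).ctx [] [(.cap, Q.length + 2)])
    u v (h0 b)).2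
  have h3 : Val true [] (u ++ [(.cup d, Q.length)]) ((Q ++ [d]) ++ (!d) :: (!d) :: d :: B) :=
    val_cat hu (by
      simp only [Val, nx_shift0, fit_shift0]
      simp [nx, ins, cp, Fit, Letter.inp])
  have h4 : Val true ((Q ++ [d]) ++ (!d) :: (!d) :: d :: B) ((.cap, Q.length + 2) :: v) [] := by
    simp only [List.append_assoc, Val, nx_shift, fit_shift]
    cases d <;> simpa [nx, del, Fit, Letter.inp] using hv
  have h5 := skP hP (p := Q.length + 1) (by simp) h3 h4
  have h6 := (fwd hP (.comm (.cup d) .cap Q.length 0) u v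
    (by simpa [Letter.out, V] using val_cat h3 h4)).2
  have a1 := (h1 false).symm.trans (h2 false)
  have a2 := (h1 true).symm.trans (h2 true)
  simp only [cP, cA, List.append_assoc, List.cons_append, List.nil_append, Bool.not_true,
    Bool.not_false, Letter.out, Letter.inp, add_zero] at a1 a2 h5 h6 ⊢
  rw [a1, a2, h5, h6]

/-- Directions between the blocks of a doubled word. -/
def alt : ℕ → List Bool
  | 0 => []
  | n + 1 => true :: false :: alt n

lemma alt_add (a b : ℕ) : alt (a + b) = alt a ++ alt b := by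
  induction a with
  | zero => simp [alt]
  | succ a ih => rw [show a + 1 + b = (a + b) + 1 by omega, alt, alt, ih]; rfl

lemma alt_len (a : ℕ) : (alt a).length = 2 * a := by
  induction a with
  | zero => rfl
  | succ a ih => simp [alt, ih]; omega

lemma val_cA (Q B : List Bool) (d : Bool) (o : Option Bool) {p : ℕ} (hp : p = Q.length) :
    Val true (Q ++ (!d) :: d :: B) (cA d o p) (Q ++ d :: (!d) :: B) := by
  subst hp
  cases o <;> simp only [cA, Val, nx_shift0, fit_shift0] <;>
    cases d <;> simp [nx, ins, del, swp, cp, Fit, Letter.inp]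

lemma val_cP (Q B : List Bool) (a : Bool) (o : Option Bool) {p : ℕ} (hp : p = Q.length) :
    Val true (Q ++ a :: a :: B) (cP o p) (Q ++ a :: a :: B) := by
  subst hp
  cases o <;> simp only [cP, Val, nx_shift0, fit_shift0]
  simp [nx, swp, Fit, Letter.inp]

section
variable (Q B : List Bool) (o : Option Bool) {i : ℕ} (hi : 2 * i = Q.length)
include hi

lemma c0 : Val true (Q ++ true :: false :: true :: false :: B) (cA true o (2 * i + 1))
    (Q ++ true :: true :: false :: false :: B) := by
  simpa using val_cA (Q ++ [true]) (false :: B) true o (p := 2 * i + 1) (by simp [hi])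

lemma c1 : Val true (Q ++ true :: true :: false :: false :: B) (cP o (2 * i))
    (Q ++ true :: true :: false :: false :: B) := val_cP Q _ true o hi

lemma c3 : Val true (Q ++ true :: true :: false :: false :: B) (cP o (2 * i + 2))
    (Q ++ true :: true :: false :: false :: B) := by
  simpa using val_cP (Q ++ [true, true]) B false o (p := 2 * i + 2) (by simp [hi])

lemma c2 : Val true (Q ++ true :: true :: false :: false :: B) (cA false o (2 * i + 1))
    (Q ++ true :: false :: true :: false :: B) := by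
  simpa using val_cA (Q ++ [true]) (false :: B) false o (p := 2 * i + 1) (by simp [hi])

lemma vU (d : Bool) : Val true (Q ++ B) (dblL (.cup d, i))
    (Q ++ true :: false :: true :: false :: B) := by
  simp only [dblL, hi, Val, nx_shift, nx_shift0, fit_shift, fit_shift0]
  simp [nx, ins, cp, Fit, Letter.inp]

lemma vA : Val true (Q ++ true :: false :: true :: false :: B) (dblL (.cap, i)) (Q ++ B) := by
  simp only [dblL, hi, Val, nx_shift, nx_shift0, fit_shift, fit_shift0]
  simp [nx, del, Fit, Letter.inp]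

lemma vX (b : Bool) (r : Option Rs) (s : Fin 4 → Option Bool) :
    Val true (Q ++ true :: false :: true :: false :: B) (blk (.cr b, i) r s)
      (Q ++ true :: false :: true :: false :: B) := by
  rcases r with _ | _ | _ | _
  · exact val_cat (c0 Q B _ hi) (val_cat (c1 Q B _ hi) (val_cat (c3 Q B _ hi) (c2 Q B _ hi)))
  · rfl
  · exact val_cat (vA Q B hi) (vU Q B hi true)
  · simp only [blk, hi, Val, nx_shift, nx_shift0, fit_shift, fit_shift0]
    simp [nx, ins, del, cp, Fit, Letter.inp]

end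

lemma val_blk (g : Letter × ℕ) (r : Option Rs) (s : Fin 4 → Option Bool) {n : ℕ}
    (h : g.2 + g.1.inp ≤ n) : Val true (alt n) (blk g r s) (alt (n - g.1.inp + g.1.out)) := by
  obtain ⟨g, i⟩ := g
  obtain ⟨t, rfl⟩ := Nat.exists_eq_add_of_le h
  have e : ∀ i t, alt (i + 2 + t) = alt i ++ true :: false :: true :: false :: alt t :=
    fun i t => by rw [add_assoc, alt_add, alt_add]; rfl
  cases g <;> simp only [Letter.inp, Letter.out]
  · rw [show i + 0 + t - 0 + 2 = i + 2 + t by omega, e, add_zero, alt_add]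
    exact vU _ _ (alt_len i).symm true
  · rw [show i + 2 + t - 2 + 0 = i + t by omega, e, alt_add]
    exact vA _ _ (alt_len i).symm
  · rw [show i + 2 + t - 2 + 2 = i + 2 + t by omega, e]
    exact vX _ _ (alt_len i).symm _ _ _

lemma val_Wd (ρ : ℕ → Option Rs) (σ : ℕ → Fin 4 → Option Bool) {w : Word} {n m : ℕ} (k : ℕ)
    (h : UValid n w m) : Val true (alt n) (Wd ρ σ k w) (alt m) := by
  induction w generalizing n k with
  | nil => exact congrArg alt h
  | cons g w ih => exact val_cat (val_blk g _ _ h.1) (ih _ h.2)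

lemma blk_dbl (g : Letter × ℕ) (s : Fin 4 → Option Bool)
    (h : ∀ b i, g = (.cr b, i) → s = ![some (!b), some b, some (!b), some b]) :
    blk g none s = dblL g := by
  obtain ⟨_ | _ | b, i⟩ := g
  · rfl
  · rfl
  · rw [h b i rfl]; cases b <;> rfl

lemma val_dbl {w : Word} {n m : ℕ} (h : UValid n w m) : Val true (alt n) (dbl w) (alt m) := by
  induction w generalizing n with
  | nil => exact congrArg alt h
  | cons g w ih =>
    obtain ⟨s, hs⟩ : ∃ s, blk g none s = dblL g := by
      obtain ⟨_ | _ | b, i⟩ := g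
      exacts [⟨fun _ => none, rfl⟩, ⟨fun _ => none, rfl⟩,
        ⟨_, blk_dbl _ _ fun _ _ e => by cases e; rfl⟩]
    exact val_cat (hs ▸ val_blk g none s h.1) (ih h.2)

lemma uv_split {u v : Word} {n m : ℕ} (h : UValid n (u ++ v) m) :
    ∃ c, UValid n u c ∧ UValid c v m := by
  induction u generalizing n with
  | nil => exact ⟨n, rfl, h⟩
  | cons g u ih =>
    obtain ⟨c, h1, h2⟩ := ih h.2
    exact ⟨c, ⟨h.1, h1⟩, h2⟩

/-- The widths around a crossing. -/
lemma uv_cr {u v : Word} {b : Bool} {i : ℕ} (h : UValid 0 (u ++ (.cr b, i) :: v) 0) :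
    ∃ n t, UValid 0 u n ∧ UValid n v 0 ∧
      alt n = alt i ++ true :: false :: true :: false :: alt t := by
  obtain ⟨c, h1, h2, h3⟩ := uv_split h
  simp only [Letter.inp, Letter.out] at h2 h3
  obtain ⟨t, rfl⟩ := Nat.exists_eq_add_of_le h2
  exact ⟨_, t, h1, by rwa [show i + 2 + t - 2 + 2 = i + 2 + t by omega] at h3,
    by rw [add_assoc, alt_add, alt_add]; rfl⟩

lemma TT1 (a : ℤ) (p : L1) (h : T a * p = 0) : p = 0 := by
  rw [← one_mul p, ← T_zero, ← neg_add_cancel a, T_add, mul_assoc, h, mul_zero]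

lemma sk_mc {p q r : L2} (h : T (-1) * p - T 1 * q = C (T 1) * r) (k : ℤ) :
    T (-1) * mc k p - T 1 * mc k q = mc (k - 1) r := by
  rw [← mc_T, ← mc_T, ← mc_sub, h, mc_C]

lemma sk_top {p q r : L2} {d : ℤ} (h : T (-1) * p - T 1 * q = C (T 1) * r)
    (hr : DegLe r (d - 2)) :
    DegLe p d ∧ mc d p ≠ 0 ↔ DegLe q d ∧ mc d q ≠ 0 := by
  have h1 := sk_mc h d
  rw [hr _ (by omega)] at h1
  refine and_congr (sk_deg h (hr.mono (by omega))) (not_congr ⟨fun e => ?_, fun e => ?_⟩)
  · rw [e, mul_zero, zero_sub, neg_eq_zero] at h1; exact TT1 _ _ h1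
  · rw [e, mul_zero, sub_zero] at h1; exact TT1 _ _ h1

lemma sk_up {p q r : L2} {d : ℤ} (h : T (-1) * p - T 1 * q = C (T 1) * r)
    (hr : DegLe r d ∧ mc d r ≠ 0) :
    (DegLe q d → DegLe p (d + 1) ∧ mc (d + 1) p ≠ 0) ∧
      (DegLe p d → DegLe q (d + 1) ∧ mc (d + 1) q ≠ 0) := by
  have h1 := sk_mc h (d + 1)
  have h2 := sk_deg (d := d + 1) h (hr.1.mono (by omega))
  rw [add_sub_cancel_right] at h1
  refine ⟨fun hq => ⟨h2.2 (hq.mono (by omega)), fun e => hr.2 ?_⟩,
    fun hp => ⟨h2.1 (hp.mono (by omega)), fun e => hr.2 ?_⟩⟩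
  · rw [← h1, e, hq _ (by omega)]; simp
  · rw [← h1, e, hp _ (by omega)]; simp

end Pool.Agent.Lib.MP_3a4f2f_gt.H39.WS
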